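import Pool.Agent.P.MP_0b1ded_al.Roots

/-! Working definitions for the group. -/

namespace Pool.Agent.P.MP_0b1ded_al

open Function

section genU

variable {ι K G : Type*} [Group G] {x : ι → K → G} {S S' : Set ι}

theorem mem_genU {β : ι} (h : β ∈ S) (c : K) : x β c ∈ genU x S :=
  Subgroup.subset_closure ⟨β, h, c, rfl⟩

theorem genU_le {H : Subgroup G} (h : ∀ β ∈ S, ∀ c, x β c ∈ H) : genU x S ≤ H := by
  refine (Subgroup.closure_le _).mpr ?_
  rintro _ ⟨β, hβ, c, rfl⟩
  exact h β hβ c

theorem genU_mono (h : S ⊆ S') : genU x S ≤ genU x S' :=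
  genU_le fun _ hβ c => mem_genU (h hβ) c

/-- Conjugation of a group generated by root subgroups. -/
theorem conj_mem_of_genU {H : Subgroup G} (g : G) (h : ∀ β ∈ S, ∀ c, g * x β c * g⁻¹ ∈ H)
    {u : G} (hu : u ∈ genU x S) : g * u * g⁻¹ ∈ H :=
  genU_le (H := H.comap (MulAut.conj g).toMonoidHom) h hu

/-- The fixed points of an iterate of an endomorphism. -/
def fixIter (f : G →* G) (n : ℕ) : Subgroup G where
  carrier := {g | f^[n] g = g}
  mul_mem' {g h} hg hh := by
    have hg' : f^[n] g = g := hg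
    have hh' : f^[n] h = h := hh
    change f^[n] (g * h) = g * h
    rw [iterate_map_mul, hg', hh']
  one_mem' := iterate_map_one f n
  inv_mem' {g} hg := by
    have hg' : f^[n] g = g := hg
    change f^[n] g⁻¹ = g⁻¹
    rw [iterate_map_inv, hg']

end genU

variable {ι X Y : Type} [AddCommGroup X] [AddCommGroup Y] {P : RootDatum ι X Y} {b : P.Base}
  {p : ℕ} {K : Type} [Field K] {G : Type*} [Group G]

theorem Tor.ext {s t : Tor K X} (h : ∀ v, s.val v = t.val v) : s = t :=
  MonoidHom.ext fun v => h v.toAdd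

theorem Tor.val_mul (s t : Tor K X) (v : X) : (s * t).val v = s.val v * t.val v := rfl

theorem Tor.val_one (v : X) : (1 : Tor K X).val v = 1 := rfl

theorem Tor.val_inv (t : Tor K X) (v : X) : t⁻¹.val v = (t.val v)⁻¹ := rfl

theorem Tor.val_pow (t : Tor K X) (n : ℕ) (v : X) : (t ^ n).val v = t.val v ^ n := rfl

theorem Tor.val_add (t : Tor K X) (v w : X) : t.val (v + w) = t.val v * t.val w :=
  map_mul (show Multiplicative X →* Kˣ from t) _ _

theorem Tor.val_zero (t : Tor K X) : t.val 0 = 1 := map_one (show Multiplicative X →* Kˣ from t)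

theorem Tor.val_neg (t : Tor K X) (v : X) : t.val (-v) = (t.val v)⁻¹ :=
  map_inv (show Multiplicative X →* Kˣ from t) _

theorem val_coch (y : Y) (a : Kˣ) (v : X) : (coch P y a).val v = a ^ P.toLinearMap v y := rfl

/-- The value of a root at a point of the torus. -/
abbrev ev (P : RootDatum ι X Y) (β : ι) (t : Tor K X) : Kˣ := t.val (P.root β)

theorem ev_coch (β : ι) (y : Y) (a : Kˣ) :
    ev P β (coch P y a) = a ^ P.toLinearMap (P.root β) y := rfl

theorem coch_mul (y : Y) (a c : Kˣ) : coch P y (a * c) = coch P y a * coch P y c :=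
  Tor.ext fun v => by simp only [Tor.val_mul, val_coch, mul_zpow]

theorem coch_one (y : Y) : coch P y (1 : Kˣ) = 1 :=
  Tor.ext fun v => by simp only [Tor.val_one, val_coch, one_zpow]

theorem coch_inv (y : Y) (a : Kˣ) : coch P y a⁻¹ = (coch P y a)⁻¹ :=
  Tor.ext fun v => by simp only [Tor.val_inv, val_coch, inv_zpow]

theorem coch_pow (y : Y) (a : Kˣ) (n : ℕ) : coch P y (a ^ n) = coch P y a ^ n :=
  Tor.ext fun v => by
    simp only [Tor.val_pow, val_coch]
    rw [← zpow_natCast, ← zpow_natCast, ← zpow_mul, ← zpow_mul, mul_comm]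

namespace Red

variable (D : Red p K G b)

/-- The torus. -/
noncomputable abbrev T : Subgroup G := D.τ.range

/-- The normaliser of the torus. -/
noncomputable abbrev N : Subgroup G := Subgroup.normalizer (D.τ.range : Set G)

/-- The Borel subgroup. -/
noncomputable def B : Subgroup G := D.T ⊔ D.U

/-- The action of `N` on the roots. -/
noncomputable def π : D.N →* Equiv.Perm ι := P.weylGroupToPerm.comp D.wey

theorem π_eq (n : D.N) : D.π n = wp (D.wey n) := rfl

/-- The opposite root homomorphism. -/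
def y (α : ι) (c : K) : G := D.x (ng P α) c

/-- The coroot. -/
noncomputable def hh (α : ι) (a : Kˣ) : G := D.τ (coch P (P.coroot α) a)

/-- The representative of a reflection. -/
noncomputable def ns (α : ι) : D.N := (D.wey_φ α).choose

theorem ns_coe (α : ι) : (D.ns α : G) = D.φ α weM := (D.wey_φ α).choose_spec.1

theorem wey_ns (α : ι) : D.wey (D.ns α) = RootPairing.weylGroup.ofIdx P α :=
  (D.wey_φ α).choose_spec.2

theorem π_ns (α : ι) : D.π (D.ns α) = P.reflectionPerm α := by
  rw [π_eq, wey_ns, wp_ofIdx]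

theorem π_ns_inv (α : ι) : D.π (D.ns α)⁻¹ = P.reflectionPerm α := by
  rw [map_inv, π_ns]
  ext β
  rw [Equiv.Perm.inv_eq_iff_eq, refl_refl]

/-- A point of the torus as an element of `N`. -/
noncomputable def tN (t : Tor K X) : D.N := ⟨D.τ t, Subgroup.le_normalizer ⟨t, rfl⟩⟩

theorem tN_coe (t : Tor K X) : (D.tN t : G) = D.τ t := rfl

theorem wey_tN (t : Tor K X) : D.wey (D.tN t) = 1 := (D.wey_ker _).mpr ⟨t, rfl⟩

theorem π_tN (t : Tor K X) : D.π (D.tN t) = 1 := by
  rw [π_eq, wey_tN]
  exact map_one _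

/-- The image of the matrix with rows `(0, -a⁻¹)`, `(a, 0)`. -/
noncomputable def nc (α : ι) (a : Kˣ) : D.N := D.tN (coch P (P.coroot α) a⁻¹) * D.ns α

theorem nc_coe (α : ι) (a : Kˣ) : (D.nc α a : G) = D.hh α a⁻¹ * D.ns α := rfl

theorem π_nc (α : ι) (a : Kˣ) : D.π (D.nc α a) = P.reflectionPerm α := by
  rw [nc, map_mul, π_tN, π_ns, one_mul]

/-- The conjugate `m⁻¹ t m` of a point of the torus. -/
noncomputable def cj (m : D.N) (t : Tor K X) : Tor K X := (D.wey_τ m t).choose

theorem τ_cj (m : D.N) (t : Tor K X) : D.τ (D.cj m t) = (m : G)⁻¹ * D.τ t * m :=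
  (D.wey_τ m t).choose_spec.1.symm

theorem τ_mul_N (m : D.N) (t : Tor K X) : D.τ t * m = m * D.τ (D.cj m t) := by
  rw [τ_cj]; group

theorem ev_cj (m : D.N) (t : Tor K X) (β : ι) : ev P β (D.cj m t) = ev P (D.π m β) t := by
  have := (D.wey_τ m t).choose_spec.2 (P.root β)
  rw [← root_wp] at this
  exact this

/-- Conjugation by `m` as a homomorphism of the torus. -/
noncomputable def cjHom (m : D.N) : Tor K X →* Tor K X where
  toFun := D.cj m
  map_one' := D.τ_inj (by rw [τ_cj]; simp)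
  map_mul' s t := D.τ_inj (by simp only [map_mul, τ_cj]; group)

theorem cjHom_apply (m : D.N) (t : Tor K X) : D.cjHom m t = D.cj m t := rfl

/-- The subgroup generated by the positive root subgroups other than `U_α`. -/
def Ua (α : ι) : Subgroup G := genU D.x {β | b.IsPos β ∧ β ≠ α}

/-- The subgroup `U ∩ n⁻¹ U n`. -/
noncomputable def Up (n : D.N) : Subgroup G := D.Uw (D.wey n)

theorem Up_eq (n : D.N) : D.Up n = genU D.x {β | b.IsPos β ∧ b.IsPos (D.π n β)} := rfl

theorem Up_le (n : D.N) : D.Up n ≤ D.U := genU_mono fun _ h => h.1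

theorem Ua_le (α : ι) : D.Ua α ≤ D.U := genU_mono fun _ h => h.1

theorem x_mem_U {β : ι} (h : b.IsPos β) (c : K) : D.x β c ∈ D.U :=
  mem_genU (S := {β | b.IsPos β}) h c

/-- The points of level `a`. -/
def Fix (a : ℕ) : Subgroup G := fixIter D.F a.factorial

theorem mem_Fix {a : ℕ} {g : G} : g ∈ D.Fix a ↔ D.F^[a.factorial] g = g := Iff.rfl

/-- The finite field of level `a`. -/
noncomputable def Kf [Fact p.Prime] [CharP K p] (a : ℕ) : Subfield K :=
  (iterateFrobenius K p (D.m * a.factorial)).eqLocusField (RingHom.id _)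

theorem mem_Kf [Fact p.Prime] [CharP K p] {a : ℕ} {c : K} : c ∈ D.Kf a ↔ c ^ p ^ (D.m * a.factorial) = c := Iff.rfl

/-- The unipotent group of level `a`. -/
def Ul (a : ℕ) : Subgroup G := D.U ⊓ D.Fix a

/-- The finite group of level `a`. -/
noncomputable def Gl (a : ℕ) : Subgroup G :=
  Subgroup.closure ((D.Ul a : Set G) ∪ (D.T ⊓ D.Fix a : Subgroup G) ∪
    {g | ∃ α ∈ b.support, g = D.ns α})

/-- The group generated by the representatives of the reflections in `Jset`. -/
noncomputable def Gam (ℓ : X →+ ℤ) : Subgroup D.N := Subgroup.closure {n | ∃ α ∈ Jset b ℓ, n = D.ns α}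

theorem ns_mem_Gam {ℓ : X →+ ℤ} {α : ι} (h : α ∈ Jset b ℓ) : D.ns α ∈ D.Gam ℓ :=
  Subgroup.subset_closure ⟨α, h, rfl⟩

/-- The length of an element of `N`. -/
noncomputable def ln (n : D.N) : ℕ := len b (D.π n⁻¹)

end Red

end Pool.Agent.P.MP_0b1ded_al
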