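import Pool.Agent.P.MP_0b1ded_al.Main

/-! From the axioms `IsRed` to the working structure `Red`. -/

namespace Pool.Agent.P.MP_0b1ded_al

open Function Matrix

variable {ι X Y : Type} [AddCommGroup X] [AddCommGroup Y] {P : RootDatum ι X Y} {b : P.Base}
  {p : ℕ} {K : Type} [Field K] {G : Type*} [Group G]

theorem int_eq_of_zpow [Infinite K] {i j : ℤ} (h : ∀ a : Kˣ, a ^ i = a ^ j) : i = j := by
  by_contra hne
  have hn : 0 < (i - j).natAbs := Int.natAbs_pos.mpr (sub_ne_zero.mpr hne)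
  have h1 : ∀ a : Kˣ, a ^ (i - j).natAbs = 1 := fun a => by
    have h2 : a ^ (i - j) = 1 := by rw [_root_.zpow_sub, h a, mul_inv_cancel]
    rcases Int.natAbs_eq (i - j) with h3 | h3
    · rw [← zpow_natCast, ← h3, h2]
    · rw [← zpow_natCast, ← _root_.inv_inj, ← _root_.zpow_neg, ← h3, h2, inv_one]
  classical
  have hfin : (Set.univ : Set K).Finite := by
    refine ((Polynomial.nthRootsFinset (i - j).natAbs (1 : K)).finite_toSet.insert 0).subset ?_
    intro x _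
    by_cases hx : x = 0
    · exact Or.inl hx
    · refine Or.inr ((Polynomial.mem_nthRootsFinset hn _).mpr ?_)
      have := congrArg Units.val (h1 (Units.mk0 x hx))
      simpa using this
  exact Set.infinite_univ hfin

theorem eq_of_val [Infinite K] (P : RootDatum ι X Y) {v v' : X}
    (h : ∀ t : Tor K X, t.val v = t.val v') : v = v' := by
  refine (LinearMap.IsPerfPair.bijective_left P.toLinearMap).injective ?_
  ext y
  exact int_eq_of_zpow (K := K) fun a => h (coch P y a)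

theorem weyl_eq_of_val [Infinite K] {w w' : P.weylGroup}
    (h : ∀ (t : Tor K X) v, t.val (w • v) = t.val (w' • v)) : w = w' := by
  have h1 : ∀ v : X, w • v = w' • v := fun v => eq_of_val (K := K) P fun t => h t v
  refine Subtype.ext (RootPairing.Equiv.weightHom_injective P ?_)
  ext v
  exact h1 v

namespace Pin

variable (D : Pin K G ι X)

/-- Conjugation by `n` acts on the torus as `w`. -/
def IndT (n : G) (w : P.weylGroup) : Prop :=
  ∀ t, ∃ t', n⁻¹ * D.τ t * n = D.τ t' ∧ ∀ v, t'.val v = t.val (w • v)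

variable {D}

theorem IndT.unique [Infinite K] (hτ : Injective D.τ) {n : G} {w w' : P.weylGroup}
    (h : D.IndT n w) (h' : D.IndT n w') : w = w' := by
  refine weyl_eq_of_val (K := K) fun t v => ?_
  obtain ⟨s, hs, e⟩ := h t
  obtain ⟨s', hs', e'⟩ := h' t
  rw [← e, ← e', hτ (hs.symm.trans hs')]

theorem IndT.mul {n m : G} {w w' : P.weylGroup} (h : D.IndT n w) (h' : D.IndT m w') :
    D.IndT (n * m) (w * w') := fun t => by
  obtain ⟨s, hs, e⟩ := h t
  obtain ⟨s', hs', e'⟩ := h' s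
  refine ⟨s', ?_, fun v => by rw [e', e, mul_smul]⟩
  rw [← hs', ← hs]
  group

theorem IndT.of_mem (s : Tor K X) : D.IndT (D.τ s) (1 : P.weylGroup) := fun t =>
  ⟨t, by rw [← map_inv, ← map_mul, ← map_mul, mul_comm s⁻¹, inv_mul_cancel_right],
    fun v => by rw [one_smul]⟩

theorem val_zsmul (t : Tor K X) (n : ℤ) (v : X) : t.val (n • v) = t.val v ^ n :=
  map_zpow (show Multiplicative X →* Kˣ from t) (Multiplicative.ofAdd v) n

theorem τ_we {q : ℕ} (hT : D.TorAx P q) (hS : D.Sl2Ax P) (β : ι) (t : Tor K X) :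
    D.τ t * D.φ β weM * (D.τ t)⁻¹ = D.φ β (diM (t.val (P.root β)) * weM) := by
  have e1 : (weM : SpecialLinearGroup (Fin 2) K) = upM (-1) * loM 1 * upM (-1) := by
    ext i j
    fin_cases i <;> fin_cases j <;> simp [weM, upM, loM, Matrix.mul_apply, Fin.sum_univ_two]
  have e2 : ∀ a : Kˣ, (diM a * weM : SpecialLinearGroup (Fin 2) K) =
      upM ((a : K) * (-1)) * loM (((a⁻¹ : Kˣ) : K) * 1) * upM ((a : K) * (-1)) := fun a => by
    ext i j
    fin_cases i <;> fin_cases j <;>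
      simp [weM, upM, loM, diM, Matrix.mul_apply, Fin.sum_univ_two]
  rw [e2, e1, map_mul, map_mul, map_mul, map_mul, hS.φ_up, hS.φ_up, hS.φ_lo, hS.φ_lo,
    ← hT.τ_x, ← Tor.val_neg, ← root_ng, ← hT.τ_x]
  group

theorem φ_di' (hS : D.Sl2Ax P) (β : ι) (a : Kˣ) :
    D.φ β (diM a) = D.τ (coch P (P.coroot β) a) := by
  obtain ⟨t, ht, e⟩ := hS.φ_di β a
  rw [ht]
  exact congrArg _ (Tor.ext e)

theorem we_τ {q : ℕ} (hT : D.TorAx P q) (hS : D.Sl2Ax P) (β : ι) (t : Tor K X) :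
    (D.φ β weM)⁻¹ * D.τ t * D.φ β weM =
      D.τ (coch P (P.coroot β) (t.val (P.root β))⁻¹ * t) := by
  have e : ∀ a : Kˣ, (diM a * weM : SpecialLinearGroup (Fin 2) K) = weM * diM a⁻¹ := fun a => by
    ext i j
    fin_cases i <;> fin_cases j <;> simp [weM, diM, Matrix.mul_apply, Fin.sum_univ_two]
  have h := τ_we hT hS β t
  rw [e, map_mul, φ_di' hS] at h
  rw [map_mul, mul_assoc, eq_mul_of_mul_inv_eq h]
  group

theorem indT_we {q : ℕ} (hT : D.TorAx P q) (hS : D.Sl2Ax P) (β : ι) :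
    D.IndT (D.φ β weM) (RootPairing.weylGroup.ofIdx P β) := fun t =>
  ⟨_, we_τ hT hS β t, fun v => by
    rw [Tor.val_mul, val_coch, RootPairing.weylGroup.ofIdx_smul,
      RootPairing.Equiv.reflection_smul, RootPairing.reflection_apply, sub_eq_add_neg,
      Tor.val_add, Tor.val_neg, val_zsmul, _root_.inv_zpow, mul_comm]
    rfl⟩

theorem we_mem {q : ℕ} (hT : D.TorAx P q) (hS : D.Sl2Ax P) (β : ι) :
    D.φ β weM ∈ Subgroup.normalizer (D.τ.range : Set G) := by
  rw [Subgroup.mem_normalizer_iff]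
  intro g
  constructor
  · rintro ⟨t, rfl⟩
    have h := τ_we hT hS β t⁻¹
    rw [map_mul, φ_di' hS, map_inv, inv_inv] at h
    have h2 := eq_mul_inv_iff_mul_eq.mpr h.symm
    refine ⟨t * coch P (P.coroot β) (t⁻¹.val (P.root β)), ?_⟩
    rw [map_mul, h2]
    group
  · rintro ⟨t, ht⟩
    refine ⟨_, (we_τ hT hS β t).symm.trans ?_⟩
    rw [ht]
    group

theorem exists_red [Infinite K] (h : D.IsRed p b) :
    ∃ R : Red p K G b, R.τ = D.τ ∧ R.x = D.x := by
  obtain ⟨⟨m, hm, hT⟩, hS, hG⟩ := h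
  let w : Subgroup.normalizer (D.τ.range : Set G) → P.weylGroup := fun n =>
    (hG.norm n.1 n.2).choose
  have hw : ∀ n, D.Induces (P := P) n.1 (w n) := fun n => (hG.norm n.1 n.2).choose_spec
  have hwT : ∀ n, D.IndT n.1 (w n) := fun n => (hw n).1
  let wey : Subgroup.normalizer (D.τ.range : Set G) →* P.weylGroup :=
    MonoidHom.mk' w fun n m => (hwT (n * m)).unique hT.τ_inj ((hwT n).mul (hwT m))
  refine ⟨⟨D.τ, hT.τ_inj, D.x, hT.x_add, hT.x_inj, hT.τ_x, D.φ, hS.φ_up, hS.φ_lo, φ_di' hS, wey,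
    fun n => ⟨fun h1 => hG.cent ?_, ?_⟩, hwT, fun n => (hw n).2,
    fun β => ⟨⟨_, we_mem hT hS β⟩, rfl, (hwT _).unique hT.τ_inj (indT_we hT hS β)⟩,
    hG.comm, hG.prod_surj, hG.prod_inj, hG.opp, hG.gen, D.F, m, hm, hT.F_x, hT.F_τ⟩, rfl, rfl⟩
  · rw [Subgroup.mem_centralizer_iff]
    rintro _ ⟨t, rfl⟩
    obtain ⟨s, hs, e⟩ := hwT n t
    have h2 : w n = 1 := h1
    have h3 : s = t := Tor.ext fun v => by rw [e, h2, one_smul]
    rw [h3] at hs
    conv_rhs => rw [← hs]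
    group
  · rintro ⟨s, hs⟩
    exact (hwT n).unique hT.τ_inj (hs ▸ IndT.of_mem s)

variable {k : Type*} [Field k] {M : Type*} [AddCommGroup M] [Module k M]

theorem wtSpace_eq {R : Red p K G b} (h : R.τ = D.τ) (ρ : Representation k G M)
    (θ : Tor K X →* kˣ) : D.wtSpace ρ θ = R.wtSpace ρ θ := by
  ext v
  simp only [wtSpace, Submodule.mem_iInf, Module.End.mem_eigenspace_iff, ← h]
  rfl

theorem wts_eq {R : Red p K G b} (h : R.τ = D.τ) (ρ : Representation k G M) :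
    D.wts ρ = R.wts ρ := by
  ext θ
  simp only [wts, Red.wts, Set.mem_ofPred_eq, wtSpace_eq h]

theorem InX.red {R : Red p K G b} (h : R.τ = D.τ) (hx : R.x = D.x) {ρ : Representation k G M}
    (hM : D.InX b ρ) : R.InX ρ := by
  obtain ⟨τ, x, φ, F⟩ := D
  obtain rfl : R.τ = τ := h
  obtain rfl : R.x = x := hx
  obtain ⟨n, ξ, h1, h2, h3, h4, h5⟩ := hM
  simp only [wtSpace_eq (D := ⟨R.τ, R.x, φ, F⟩) (R := R) rfl] at h2 h3
  refine ⟨n, ξ, h1, h2, h3, h4, fun i => ?_⟩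
  obtain ⟨w, e, he, hr, hc⟩ := h5 i
  exact ⟨w, (LinearEquiv.ofInjective e he).trans (LinearEquiv.ofEq _ _ hr), hc⟩

end Pin

end Pool.Agent.P.MP_0b1ded_al
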