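import Pool.Agent.P.MP_0b1ded_al.Mono

/-! The objects of the category have monomial bases. -/

namespace Pool.Agent.P.MP_0b1ded_al

open Function Filter

namespace C0Aux

variable {G : Type*} [Group G] {k : Type*} [Field k] {M : Type*} [AddCommGroup M] [Module k M]

theorem rho_rho₀ (ρ : Representation k G M) (g h : G) (v : M) : ρ g (ρ h v) = ρ (g * h) v := by
  rw [map_mul, Module.End.mul_apply]

/-- The elements `g` such that `H g H` is a finite union of left cosets of `H`. -/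
def finCos (H : Subgroup G) (htor : ∀ g : G, IsOfFinOrder g) : Subgroup G where
  carrier := {g | ∃ F : Set G, F.Finite ∧ ∀ h ∈ H, ∃ r ∈ F, r⁻¹ * (h * g) ∈ H}
  one_mem' := ⟨{1}, Set.finite_singleton _, fun h hh => ⟨1, rfl, by simpa using hh⟩⟩
  mul_mem' := by
    rintro g₁ g₂ ⟨F₁, hF₁, h₁⟩ ⟨F₂, hF₂, h₂⟩
    refine ⟨Set.image2 (· * ·) F₁ F₂, hF₁.image2 _ hF₂, fun h hh => ?_⟩
    obtain ⟨r₁, hr₁, e₁⟩ := h₁ h hh
    obtain ⟨r₂, hr₂, e₂⟩ := h₂ _ e₁
    refine ⟨r₁ * r₂, ⟨r₁, hr₁, r₂, hr₂, rfl⟩, ?_⟩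
    have e : (r₁ * r₂)⁻¹ * (h * (g₁ * g₂)) = r₂⁻¹ * (r₁⁻¹ * (h * g₁) * g₂) := by group
    rw [e]
    exact e₂
  inv_mem' := by
    intro g hg
    have hpow : ∀ n : ℕ, g ^ n ∈
        {g | ∃ F : Set G, F.Finite ∧ ∀ h ∈ H, ∃ r ∈ F, r⁻¹ * (h * g) ∈ H} := by
      intro n
      induction n with
      | zero =>
        rw [pow_zero]
        exact ⟨{1}, Set.finite_singleton _, fun h hh => ⟨1, rfl, by simpa using hh⟩⟩
      | succ n ih =>
        rw [pow_succ]
        obtain ⟨F₁, hF₁, h₁⟩ := ih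
        obtain ⟨F₂, hF₂, h₂⟩ := hg
        refine ⟨Set.image2 (· * ·) F₁ F₂, hF₁.image2 _ hF₂, fun h hh => ?_⟩
        obtain ⟨r₁, hr₁, e₁⟩ := h₁ h hh
        obtain ⟨r₂, hr₂, e₂⟩ := h₂ _ e₁
        refine ⟨r₁ * r₂, ⟨r₁, hr₁, r₂, hr₂, rfl⟩, ?_⟩
        have e : (r₁ * r₂)⁻¹ * (h * (g ^ n * g)) = r₂⁻¹ * (r₁⁻¹ * (h * g ^ n) * g) := by group
        rw [e]
        exact e₂
    obtain ⟨n, hn, h1⟩ := (htor g).exists_pow_eq_one
    have e : g⁻¹ = g ^ (n - 1) := by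
      rw [inv_eq_iff_mul_eq_one, ← pow_succ', Nat.sub_add_cancel hn, h1]
    rw [e]
    exact hpow _

theorem mem_finCos {H : Subgroup G} {htor : ∀ g : G, IsOfFinOrder g} {g : G} :
    g ∈ finCos H htor ↔ ∃ F : Set G, F.Finite ∧ ∀ h ∈ H, ∃ r ∈ F, r⁻¹ * (h * g) ∈ H := Iff.rfl

theorem conj_mem_finCos {H : Subgroup G} {htor : ∀ g : G, IsOfFinOrder g} {t g : G}
    (h1 : ∀ h ∈ H, t * h * t⁻¹ ∈ H) (h2 : ∀ h ∈ H, t⁻¹ * h * t ∈ H) (hg : g ∈ finCos H htor) :
    t * g * t⁻¹ ∈ finCos H htor := by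
  obtain ⟨F, hF, h⟩ := hg
  refine ⟨(fun r => t * r * t⁻¹) '' F, hF.image _, fun a ha => ?_⟩
  obtain ⟨r, hr, e₁⟩ := h _ (h2 a ha)
  refine ⟨t * r * t⁻¹, ⟨r, hr, rfl⟩, ?_⟩
  have e : (t * r * t⁻¹)⁻¹ * (a * (t * g * t⁻¹)) = t * (r⁻¹ * (t⁻¹ * a * t * g)) * t⁻¹ := by
    group
  rw [e]
  exact h1 _ e₁

variable {U H : Subgroup G}

theorem smul_mk (u v : U) :
    u • (QuotientGroup.mk v : U ⧸ H.subgroupOf U) = QuotientGroup.mk (u * v) := rfl

theorem mk_out (z : U ⧸ H.subgroupOf U) : (QuotientGroup.mk z.out : U ⧸ H.subgroupOf U) = z :=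
  QuotientGroup.out_eq' z

theorem mk_eq_mk {u v : U} :
    (QuotientGroup.mk u : U ⧸ H.subgroupOf U) = QuotientGroup.mk v ↔ (u : G)⁻¹ * v ∈ H := by
  rw [QuotientGroup.eq, Subgroup.mem_subgroupOf]
  rfl

theorem mapDomain_smul_apply (u : U) (f : (U ⧸ H.subgroupOf U) →₀ k) (z : U ⧸ H.subgroupOf U) :
    Finsupp.mapDomain (u • ·) f z = f (u⁻¹ • z) := by
  conv_lhs => rw [← smul_inv_smul u z]
  exact Finsupp.mapDomain_apply (MulAction.injective u) f _

/-- The support of a vector fixed by `H`. -/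
theorem mem_finCos_of_fixed (htor : ∀ g : G, IsOfFinOrder g) (hH : H ≤ U)
    {f : (U ⧸ H.subgroupOf U) →₀ k}
    (hf : ∀ h : U, (h : G) ∈ H → Finsupp.mapDomain (h • ·) f = f) {u : U}
    (hu : f (QuotientGroup.mk u) ≠ 0) : (u : G) ∈ finCos H htor := by
  refine ⟨(fun z : U ⧸ H.subgroupOf U => ((z.out : U) : G)) '' f.support,
    f.support.finite_toSet.image _, fun h hh => ?_⟩
  let h' : U := ⟨h, hH hh⟩
  refine ⟨_, ⟨QuotientGroup.mk (h' * u), ?_, rfl⟩, ?_⟩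
  · rw [Finset.mem_coe, Finsupp.mem_support_iff, ← hf h' hh, mapDomain_smul_apply, smul_mk,
      inv_mul_cancel_left]
    exact hu
  · exact mk_eq_mk.mp (mk_out (QuotientGroup.mk (h' * u)))

variable {ρ : Representation k G M} {j : ((U ⧸ H.subgroupOf U) →₀ k) →ₗ[k] M}

theorem j_single (hj : ∀ (u : U) f, j (Finsupp.mapDomain (u • ·) f) = ρ u (j f)) (u : U) :
    j (Finsupp.single (QuotientGroup.mk u) 1) =
      ρ u (j (Finsupp.single (QuotientGroup.mk 1) 1)) := by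
  rw [← hj, Finsupp.mapDomain_single, smul_mk, mul_one]

theorem j_eq_sum (hj : ∀ (u : U) f, j (Finsupp.mapDomain (u • ·) f) = ρ u (j f))
    (f : (U ⧸ H.subgroupOf U) →₀ k) :
    j f = ∑ z ∈ f.support, f z • ρ (z.out : U) (j (Finsupp.single (QuotientGroup.mk 1) 1)) := by
  conv_lhs => rw [← Finsupp.sum_single f, Finsupp.sum, map_sum]
  refine Finset.sum_congr rfl fun z _ => ?_
  rw [← j_single hj, mk_out, ← map_smul, Finsupp.smul_single, smul_eq_mul, mul_one]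

/-- The classes of the support of an eigenvector. -/
theorem supp_eig (htor : ∀ g : G, IsOfFinOrder g) (hH : H ≤ U) (hinj : Injective j)
    (hj : ∀ (u : U) f, j (Finsupp.mapDomain (u • ·) f) = ρ u (j f))
    {f₀ : (U ⧸ H.subgroupOf U) →₀ k}
    (hr : LinearMap.range j = Submodule.span k {v | ∃ u ∈ U, v = ρ u (j f₀)}) {t : G}
    (htU : ∀ u ∈ U, t * u * t⁻¹ ∈ U) (htH : ∀ h ∈ H, t⁻¹ * h * t ∈ H) {c : k} (hc : c ≠ 0)
    (he : ρ t (j f₀) = c • j f₀) {u : U} (hu : f₀ (QuotientGroup.mk u) ≠ 0) :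
    ∃ z ∈ f₀.support, (t * (z.out : U) * t⁻¹)⁻¹ * u ∈ finCos H htor := by
  have hst : LinearMap.range j ≤ (LinearMap.range j).comap (ρ t) := by
    conv_lhs => rw [hr]
    refine Submodule.span_le.mpr ?_
    rintro _ ⟨v, hv, rfl⟩
    have e : t * v = t * v * t⁻¹ * t := by group
    rw [SetLike.mem_coe, Submodule.mem_comap, rho_rho₀, e, ← rho_rho₀, he, map_smul]
    exact Submodule.smul_mem _ _ ⟨_, hj ⟨_, htU v hv⟩ f₀⟩
  obtain ⟨g, hg⟩ := hst ⟨Finsupp.single (QuotientGroup.mk 1) 1, rfl⟩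
  have hgf : ∀ h : U, (h : G) ∈ H → Finsupp.mapDomain (h • ·) g = g := by
    intro h hh
    apply hinj
    have e : (h : G) * t = t * (t⁻¹ * h * t) := by group
    have e' : (QuotientGroup.mk (⟨t⁻¹ * h * t, hH (htH _ hh)⟩ : U) : U ⧸ H.subgroupOf U) =
        QuotientGroup.mk 1 := by
      rw [eq_comm, mk_eq_mk]
      simpa using htH _ hh
    have e'' := j_single hj (⟨t⁻¹ * h * t, hH (htH _ hh)⟩ : U)
    rw [e'] at e''
    rw [hj, hg, rho_rho₀, e, ← rho_rho₀, ← e'']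
  have key : c • f₀ = ∑ z ∈ f₀.support, f₀ z •
      Finsupp.mapDomain ((⟨t * (z.out : U) * t⁻¹, htU _ (z.out : U).2⟩ : U) • ·) g := by
    apply hinj
    rw [map_smul, ← he, j_eq_sum hj f₀, map_sum, map_sum]
    refine Finset.sum_congr rfl fun z _ => ?_
    rw [map_smul, map_smul, hj, hg, rho_rho₀, rho_rho₀]
    congr 3
    group
  have h1 : (c • f₀) (QuotientGroup.mk u) ≠ 0 := by
    rw [Finsupp.smul_apply, smul_eq_mul]
    exact mul_ne_zero hc hu
  rw [key, Finsupp.finsetSum_apply] at h1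
  obtain ⟨z, hz, h2⟩ := Finset.exists_ne_zero_of_sum_ne_zero h1
  refine ⟨z, hz, ?_⟩
  rw [Finsupp.smul_apply, smul_eq_mul, mapDomain_smul_apply, smul_mk] at h2
  exact mem_finCos_of_fixed htor hH hgf (right_ne_zero_of_mul h2)

/-- Pigeonhole: two members of an infinite family in `H` act in the same way. -/
theorem exists_ne_act (htor : ∀ g : G, IsOfFinOrder g) (hH : H ≤ U)
    (hj : ∀ (u : U) f, j (Finsupp.mapDomain (u • ·) f) = ρ u (j f))
    {f₀ : (U ⧸ H.subgroupOf U) →₀ k}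
    (hC : ∀ u : U, f₀ (QuotientGroup.mk u) ≠ 0 → (u : G) ∈ finCos H htor)
    {A : Type*} [Infinite A] (a : A → G) (ha : ∀ c, a c ∈ H) :
    ∃ c c', c ≠ c' ∧ ρ (a c) (j f₀) = ρ (a c') (j f₀) := by
  have h1 : ∀ z : f₀.support, ∃ F : Set G, F.Finite ∧
      ∀ h ∈ H, ∃ r ∈ F, r⁻¹ * (h * (z.1.out : U)) ∈ H := fun z =>
    hC _ (by rw [mk_out]; exact Finsupp.mem_support_iff.mp z.2)
  choose F hF hF' using h1
  have hfin : (Set.univ.pi fun z : f₀.support =>
      (fun r : G => (r : G ⧸ H)) '' F z).Finite := Set.Finite.pi fun z => (hF z).image _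
  obtain ⟨c, -, c', -, hne, he⟩ := Set.infinite_univ.exists_ne_map_eq_of_mapsTo
    (f := fun (c : A) (z : f₀.support) => ((a c * (z.1.out : U) : G) : G ⧸ H))
    (t := Set.univ.pi fun z : f₀.support => (fun r : G => (r : G ⧸ H)) '' F z)
    (fun c _ z _ => by
      obtain ⟨r, hr, e⟩ := hF' z _ (ha c)
      exact ⟨r, hr, QuotientGroup.eq.mpr e⟩) hfin
  refine ⟨c, c', hne, ?_⟩
  rw [← hj ⟨a c, hH (ha c)⟩, ← hj ⟨a c', hH (ha c')⟩]
  congr 1
  refine Finsupp.mapDomain_congr fun z hz => ?_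
  rw [← mk_out z, smul_mk, smul_mk, mk_eq_mk]
  exact QuotientGroup.eq.mp (congrFun he ⟨z, hz⟩)

theorem rho_out {ξ : M} (hfix : ∀ h ∈ H, ρ h ξ = ξ) (u : U) :
    ρ ((QuotientGroup.mk u : U ⧸ H.subgroupOf U).out : U) ξ = ρ u ξ := by
  have h := mk_eq_mk.mp (mk_out (H := H) (QuotientGroup.mk u))
  conv_lhs => rw [← hfix _ h, rho_rho₀, mul_inv_cancel_left]

/-- A generator fixed by `H` of the permutation module is a free generator. -/
theorem indep_of_fix (hinj : Injective j)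
    (hj : ∀ (u : U) f, j (Finsupp.mapDomain (u • ·) f) = ρ u (j f))
    {f₀ : (U ⧸ H.subgroupOf U) →₀ k}
    (hr : LinearMap.range j = Submodule.span k {v | ∃ u ∈ U, v = ρ u (j f₀)})
    (hfix : ∀ h ∈ H, ρ h (j f₀) = j f₀)
    (hlf : ∀ s : Set U, s.Finite → ∃ L : Subgroup U, Finite L ∧ s ⊆ L) :
    LinearIndependent k fun z : U ⧸ H.subgroupOf U => ρ (z.out : U) (j f₀) := by
  classical
  let Φ : ((U ⧸ H.subgroupOf U) →₀ k) →ₗ[k] ((U ⧸ H.subgroupOf U) →₀ k) :=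
    Finsupp.linearCombination k fun z => Finsupp.mapDomain ((z.out : U) • ·) f₀
  let ψ : ((U ⧸ H.subgroupOf U) →₀ k) →ₗ[k] M :=
    Finsupp.linearCombination k fun z : U ⧸ H.subgroupOf U => ρ (z.out : U) (j f₀)
  have hΦ : j ∘ₗ Φ = ψ := by
    refine Finsupp.lhom_ext' fun z => LinearMap.ext_ring ?_
    simp [Φ, ψ, hj]
  have hΦ' : ∀ g, j (Φ g) = ψ g := fun g => LinearMap.congr_fun hΦ g
  have hψ : ∀ (u : U) g, ψ (Finsupp.mapDomain (u • ·) g) = ρ u (ψ g) := by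
    intro u g
    have : ψ ∘ₗ Finsupp.lmapDomain k k (u • ·) = ρ u ∘ₗ ψ := by
      refine Finsupp.lhom_ext' fun z => LinearMap.ext_ring ?_
      have e : u • z = QuotientGroup.mk (u * z.out) := by rw [← smul_mk, mk_out]
      simp only [ψ, LinearMap.comp_apply, Finsupp.lsingle_apply, Finsupp.lmapDomain_apply,
        Finsupp.mapDomain_single, Finsupp.linearCombination_single, one_smul]
      rw [e, rho_out hfix, rho_rho₀, Subgroup.coe_mul]
    exact LinearMap.congr_fun this g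
  have hle : LinearMap.range j ≤ LinearMap.range ψ := by
    rw [hr]
    refine Submodule.span_le.mpr ?_
    rintro _ ⟨v, hv, rfl⟩
    refine ⟨Finsupp.single (QuotientGroup.mk ⟨v, hv⟩) 1, ?_⟩
    simp only [ψ, Finsupp.linearCombination_single, one_smul]
    exact rho_out hfix _
  obtain ⟨g₀, hg₀⟩ := hle ⟨Finsupp.single (QuotientGroup.mk 1) 1, rfl⟩
  rw [linearIndependent_iff]
  intro g hg
  obtain ⟨L, hL, hs⟩ := hlf ((fun z : U ⧸ H.subgroupOf U => z.out) ''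
    (g.support ∪ g₀.support ∪ f₀.support : Finset _)) ((Finset.finite_toSet _).image _)
  let Y : Set (U ⧸ H.subgroupOf U) := (fun u : U => QuotientGroup.mk u) '' (L : Set U)
  have hY : Y.Finite := (Set.toFinite _).image _
  have hmem : ∀ z ∈ g.support ∪ g₀.support ∪ f₀.support, z.out ∈ L := fun z hz =>
    hs ⟨z, hz, rfl⟩
  let W := Finsupp.supported k k Y
  have hW : W = Submodule.span k ((fun z => Finsupp.single z (1 : k)) '' Y) :=
    Finsupp.supported_eq_span_single k Y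
  have hmap : ∀ u ∈ L, ∀ f : (U ⧸ H.subgroupOf U) →₀ k, (∀ z ∈ f.support, z.out ∈ L) →
      Finsupp.mapDomain (u • ·) f ∈ W := by
    intro u hu f hf
    rw [Finsupp.mem_supported]
    intro z hz
    obtain ⟨z', hz', rfl⟩ := Finset.mem_image.mp (Finsupp.mapDomain_support hz)
    exact ⟨u * z'.out, mul_mem hu (hf z' hz'), (smul_mk u z'.out).symm.trans (by rw [mk_out])⟩
  have hΦW : ∀ v ∈ W, Φ v ∈ W := by
    change W ≤ W.comap Φ
    conv_lhs => rw [hW]
    refine Submodule.span_le.mpr ?_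
    rintro _ ⟨_, ⟨u, hu, rfl⟩, rfl⟩
    have e : Φ (Finsupp.single (QuotientGroup.mk u) 1) = Finsupp.mapDomain (u • ·) f₀ := by
      apply hinj
      rw [hΦ', hj]
      simp only [ψ, Finsupp.linearCombination_single, one_smul]
      exact rho_out hfix _
    change Φ (Finsupp.single (QuotientGroup.mk u) 1) ∈ W
    rw [e]
    exact hmap u hu f₀ fun z hz => hmem z (Finset.mem_union_right _ hz)
  have hsur : W ≤ W.map Φ := by
    conv_lhs => rw [hW]
    refine Submodule.span_le.mpr ?_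
    rintro _ ⟨_, ⟨u, hu, rfl⟩, rfl⟩
    refine ⟨Finsupp.mapDomain (u • ·) g₀, hmap u hu g₀ fun z hz =>
      hmem z (Finset.mem_union_left _ (Finset.mem_union_right _ hz)), hinj ?_⟩
    rw [hΦ', hψ, hg₀]
    exact (j_single hj u).symm
  have : FiniteDimensional k W := by
    rw [hW]
    exact FiniteDimensional.span_of_finite k (hY.image _)
  have hs2 : Surjective (Φ.restrict hΦW) := by
    rintro ⟨v, hv⟩
    obtain ⟨v', hv', e⟩ := hsur hv
    exact ⟨⟨v', hv'⟩, Subtype.ext e⟩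
  have hgW : g ∈ W := by
    rw [Finsupp.mem_supported]
    intro z hz
    exact ⟨z.out, hmem z (Finset.mem_union_left _ (Finset.mem_union_left _ hz)), mk_out z⟩
  have h0 : Φ.restrict hΦW ⟨g, hgW⟩ = Φ.restrict hΦW 0 := by
    rw [map_zero]
    refine Subtype.ext (hinj ?_)
    rw [LinearMap.coe_restrict_apply, hΦ', Submodule.coe_zero, map_zero]
    exact hg
  have hi : Injective (Φ.restrict hΦW) :=
    (LinearMap.injective_iff_surjective (K := k) (V := W) (f := Φ.restrict hΦW)).mpr hs2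
  exact congrArg Subtype.val (hi h0)

end C0Aux

open C0Aux

variable {ι X Y : Type} [AddCommGroup X] [AddCommGroup Y] {P : RootDatum ι X Y} {b : P.Base}
  {p : ℕ} {K : Type} [Field K] {G : Type*} [Group G] [Finite ι] [P.IsReduced]
  [Fact p.Prime] [CharP K p] [IsAlgClosed K] [Algebra (ZMod p) K] [Algebra.IsAlgebraic (ZMod p) K]
  [Module.Finite ℤ X]
  {k : Type*} [Field k] [CharZero k] {M : Type*} [AddCommGroup M] [Module k M]

namespace Red

variable {D : Red p K G b}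

theorem c0_locFin (D : Red p K G b) (s : Set D.U) (hs : s.Finite) :
    ∃ L : Subgroup D.U, Finite L ∧ s ⊆ L := by
  obtain ⟨a, ha⟩ := ((eventually_all_finite hs).mpr fun (u : D.U) _ => D.ev_Fix u).exists
  refine ⟨(D.Ul a).subgroupOf D.U, ?_, fun u hu => ⟨u.2, ha u hu⟩⟩
  exact Finite.of_injective (fun u : (D.Ul a).subgroupOf D.U => (⟨u.1.1, u.2⟩ : D.Ul a))
    fun u v h => Subtype.ext (Subtype.ext (congrArg (fun z : D.Ul a => (z : G)) h))

omit [CharZero k] in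
theorem c0_exists_bas {ρ : Representation k G M} {ξ : M} {θ : Tor K X →* kˣ}
    (hθ : ∀ t, ρ (D.τ t) ξ = (θ t : k) • ξ) (n : D.N)
    (e : MonoidAlgebra k (D.U ⧸ (D.Up n).subgroupOf D.U) ≃ₗ[k] D.kU ρ ξ)
    (he : ∀ (u : D.U) f, (e (Representation.ofMulAction k D.U _ u f) : M) = ρ u (e f)) :
    ∃ B : Module.Basis (D.U ⧸ (D.Up n).subgroupOf D.U) k (D.kU ρ ξ),
      ∀ u : D.U, (B (QuotientGroup.mk u) : M) = ρ u ξ := by
  let j : ((D.U ⧸ (D.Up n).subgroupOf D.U) →₀ k) →ₗ[k] M :=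
    (D.kU ρ ξ).subtype ∘ₗ ((MonoidAlgebra.coeffLinearEquiv k).symm.trans e).toLinearMap
  have hinj : Injective j := (D.kU ρ ξ).injective_subtype.comp (LinearEquiv.injective _)
  have hj : ∀ (u : D.U) f, j (Finsupp.mapDomain (u • ·) f) = ρ u (j f) := fun u f =>
    he u ((MonoidAlgebra.coeffLinearEquiv k).symm f)
  have hr0 : LinearMap.range j = D.kU ρ ξ := by
    rw [LinearMap.range_comp, LinearEquiv.range, Submodule.map_top, Submodule.range_subtype]
  have hξ : ξ ∈ LinearMap.range j := by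
    rw [hr0]
    exact Submodule.subset_span ⟨1, one_mem _, by simp⟩
  obtain ⟨f₀, hf₀⟩ := hξ
  clear_value j
  clear he e
  subst hf₀
  have hUp : ∀ t, ∀ h ∈ D.Up n, D.τ t * h * (D.τ t)⁻¹ ∈ D.Up n := fun t h hh =>
    D.τ_conj_genU t hh
  have hUp' : ∀ t, ∀ h ∈ D.Up n, (D.τ t)⁻¹ * h * D.τ t ∈ D.Up n := fun t h hh => by
    simpa using hUp t⁻¹ h hh
  have hC : ∀ t, ∀ g ∈ finCos (D.Up n) D.isOfFinOrder,
      D.τ t * g * (D.τ t)⁻¹ ∈ finCos (D.Up n) D.isOfFinOrder := fun t g hg =>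
    conj_mem_finCos (hUp t) (hUp' t) hg
  have hsupp : ∀ u : D.U, f₀ (QuotientGroup.mk u) ≠ 0 →
      (u : G) ∈ finCos (D.Up n) D.isOfFinOrder := by
    intro u hu
    refine D.orb_U _ hC u.2 ((f₀.support.finite_toSet.image
      fun z => (((z.out : D.U) : G) : G ⧸ finCos (D.Up n) D.isOfFinOrder)).subset ?_)
    rintro _ ⟨t, rfl⟩
    obtain ⟨z, hz, h⟩ := supp_eig D.isOfFinOrder (D.Up_le n) hinj hj hr0 (t := D.τ t⁻¹)
      (fun v hv => D.τ_conj_genU t⁻¹ hv) (hUp' t⁻¹) (θ t⁻¹).ne_zero (hθ t⁻¹) hu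
    refine ⟨z, hz, QuotientGroup.eq.mpr ?_⟩
    have h' := hC t _ h
    rw [map_inv] at h'
    have e' : ((z.out : D.U) : G)⁻¹ * (D.τ t * u * (D.τ t)⁻¹) =
        D.τ t * (((D.τ t)⁻¹ * (z.out : D.U) * (D.τ t)⁻¹⁻¹)⁻¹ * u) * (D.τ t)⁻¹ := by group
    rw [e']
    exact h'
  have hfix : ∀ h ∈ D.Up n, ρ h (j f₀) = j f₀ := by
    let S : Subgroup G :=
      { carrier := {g | ρ g (j f₀) = j f₀}
        one_mem' := by simp
        mul_mem' := fun {g g'} hg hg' => by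
          have h1 : ρ g (j f₀) = j f₀ := hg
          have h2 : ρ g' (j f₀) = j f₀ := hg'
          change ρ (g * g') (j f₀) = j f₀
          rw [← rho_rho₀, h2, h1]
        inv_mem' := fun {g} hg => by
          have h1 : ρ g (j f₀) = j f₀ := hg
          change ρ g⁻¹ (j f₀) = j f₀
          conv_lhs => rw [← h1, rho_rho₀, inv_mul_cancel, map_one, Module.End.one_apply] }
    have hS : D.Up n ≤ S := by
      rw [Up_eq]
      refine genU_le fun β hβ c => ?_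
      obtain ⟨c₁, c₂, hne, h⟩ := exists_ne_act D.isOfFinOrder (D.Up_le n) hj hsupp (D.x β)
        fun c => mem_genU (S := {β | b.IsPos β ∧ b.IsPos (D.π n β)}) hβ c
      have h1 : ρ (D.x β (-c₂ + c₁)) (j f₀) = j f₀ := by
        rw [D.x_add, ← rho_rho₀, h, rho_rho₀, ← D.x_add, neg_add_cancel, D.x_zero, map_one,
          Module.End.one_apply]
      have h2 : -c₂ + c₁ ≠ 0 := by
        rw [neg_add_eq_sub]
        exact sub_ne_zero.mpr hne
      by_cases hc : c = 0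
      · rw [hc, D.x_zero]
        exact one_mem _
      obtain ⟨t, ht⟩ := exists_ev_eq (P := P) β (Units.mk0 _ (div_ne_zero hc h2))
      have e₁ : D.x β c = D.τ t * D.x β (-c₂ + c₁) * (D.τ t)⁻¹ := by
        rw [D.τ_conj_x, ht, Units.val_mk0, div_mul_cancel₀ _ h2]
      change ρ (D.x β c) (j f₀) = j f₀
      rw [e₁, ← rho_rho₀, ← rho_rho₀, ← D.τ_inv, hθ, map_smul, h1, map_smul, hθ, smul_smul,
        ← Units.val_mul, ← map_mul, inv_mul_cancel, map_one, Units.val_one, one_smul]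
    exact hS
  have hli := indep_of_fix hinj hj hr0 hfix D.c0_locFin
  have hsp : Submodule.span k (Set.range fun z : D.U ⧸ (D.Up n).subgroupOf D.U =>
      ρ (z.out : D.U) (j f₀)) = D.kU ρ (j f₀) := by
    rw [kU]
    congr 1
    ext v
    constructor
    · rintro ⟨z, rfl⟩
      exact ⟨_, (z.out : D.U).2, rfl⟩
    · rintro ⟨u, hu, rfl⟩
      exact ⟨QuotientGroup.mk ⟨u, hu⟩, rho_out hfix _⟩
  refine ⟨(Module.Basis.span hli).map (LinearEquiv.ofEq _ _ hsp), fun u => ?_⟩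
  rw [Module.Basis.map_apply, LinearEquiv.coe_ofEq_apply, Module.Basis.coe_span_apply]
  exact rho_out hfix u

theorem InX.mono {ρ : Representation k G M} (h : D.InX ρ) : Nonempty (D.Mono ρ) := by
  classical
  obtain ⟨n, ξ, -, hsp, hθ, hint, he⟩ := h
  choose θ hθ using hθ
  have h1 : ∀ i, ∃ (w : D.N)
      (B : Module.Basis (D.U ⧸ (D.Up w).subgroupOf D.U) k (D.kU ρ (ξ i))),
      ∀ u : D.U, (B (QuotientGroup.mk u) : M) = ρ u (ξ i) := by
    intro i
    obtain ⟨w, e, he⟩ := he i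
    obtain ⟨w, rfl⟩ := D.exists_wey w
    exact ⟨w, c0_exists_bas (hθ i) w e he⟩
  choose w B hB using h1
  refine ⟨⟨n, ξ, w, θ, hθ, hint.collectedBasis B, fun i u => ?_, fun m i => ?_⟩⟩
  · rw [DirectSum.IsInternal.collectedBasis_coe]
    exact hB i u
  · rw [hsp]
    refine Submodule.mem_iSup_of_mem ((θ i).comp (D.cjHom m)) fun t => ?_
    rw [rho_rho₀, D.τ_mul_N, ← rho_rho₀, hθ i, map_smul]
    rfl

end Red

end Pool.Agent.P.MP_0b1ded_al
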