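import Mathlib

/-! An inequality for averages over a subfield of a finite field. -/

namespace Pool.Agent.P.MP_0b1ded_al

open scoped InnerProductSpace

section aux

variable {V : Type*} [NormedAddCommGroup V] [InnerProductSpace ℂ V] {K : Type} [Field K]

theorem count_inner (A : K → V →ₗ[ℂ] V) (hadd : ∀ c d v, A (c + d) v = A c (A d v))
    (hiso : ∀ c v, ‖A c v‖ = ‖v‖) (m : V) (x y : K) :
    ⟪A x m, A y m⟫_ℂ = ⟪m, A (y - x) m⟫_ℂ := by
  have h : A y m = A x (A (y - x) m) := by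
    rw [← hadd]
    congr 2
    ring
  rw [h]
  exact (⟨A x, hiso x⟩ : V →ₗᵢ[ℂ] V).inner_map_map m (A (y - x) m)

theorem count_norm_sq (L : Subfield K) [Fintype L] (A : K → V →ₗ[ℂ] V)
    (hadd : ∀ c d v, A (c + d) v = A c (A d v))
    (hiso : ∀ c v, ‖A c v‖ = ‖v‖) (m : V) (ν : K) :
    ‖∑ c : L, A (ν * c) m‖ ^ 2 =
      Fintype.card L * ∑ c : L, RCLike.re ⟪m, A (ν * c) m⟫_ℂ := by
  rw [← inner_self_eq_norm_sq (𝕜 := ℂ), sum_inner, map_sum]
  have h : ∀ c : L, RCLike.re ⟪A (ν * c) m, ∑ d : L, A (ν * d) m⟫_ℂ =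
      ∑ e : L, RCLike.re ⟪m, A (ν * e) m⟫_ℂ := by
    intro c
    rw [inner_sum, map_sum]
    refine Fintype.sum_equiv (Equiv.subRight c) _ _ fun d => ?_
    rw [count_inner A hadd hiso, Equiv.subRight_apply]
    congr 3
    push_cast
    ring_nf
  rw [Finset.sum_congr rfl fun c _ => h c, Finset.sum_const, Finset.card_univ, nsmul_eq_mul]

theorem count_sq_sum {L : Type*} [Field L] [Fintype L] [DecidableEq L] (f : L → ℝ)
    (hf : ∀ x, 0 ≤ f x) :
    ∑ μ ∈ Finset.univ.erase (0 : L), f (μ ^ 2) ≤ 2 * ∑ ν ∈ Finset.univ.erase (0 : L), f ν := by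
  rw [← Finset.sum_fiberwise_of_maps_to (s := Finset.univ.erase (0 : L))
    (t := Finset.univ.erase (0 : L)) (g := fun μ => μ ^ 2)
    (fun x hx => Finset.mem_erase.mpr ⟨pow_ne_zero 2 (Finset.mem_erase.mp hx).1, Finset.mem_univ _⟩),
    Finset.mul_sum]
  refine Finset.sum_le_sum fun ν _ => ?_
  rw [Finset.sum_congr rfl (g := fun _ => f ν) fun x hx => by rw [(Finset.mem_filter.mp hx).2],
    Finset.sum_const, nsmul_eq_mul]
  refine mul_le_mul_of_nonneg_right ?_ (hf ν)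
  have : (Finset.filter (fun μ : L => μ ^ 2 = ν) (Finset.univ.erase (0 : L))).card ≤ 2 := by
    rcases (Finset.filter (fun μ : L => μ ^ 2 = ν) (Finset.univ.erase (0 : L))).eq_empty_or_nonempty
      with h | ⟨x, hx⟩
    · rw [h]; simp
    · refine le_trans (Finset.card_le_card (t := {x, -x}) fun y hy => ?_) Finset.card_le_two
      have h1 := (Finset.mem_filter.mp hx).2
      have h2 := (Finset.mem_filter.mp hy).2
      have := sq_eq_sq_iff_eq_or_eq_neg.mp (h2.trans h1.symm)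
      simpa using this
  exact_mod_cast this

end aux

theorem count_ineq {V : Type*} [NormedAddCommGroup V] [InnerProductSpace ℂ V] {K : Type} [Field K]
    (Ka Kb : Subfield K) [Fintype Ka] [Fintype Kb] (hab : Ka ≤ Kb) (A : K → V →ₗ[ℂ] V)
    (h0 : ∀ v, A 0 v = v) (hadd : ∀ c d v, A (c + d) v = A c (A d v))
    (hiso : ∀ c v, ‖A c v‖ = ‖v‖) (m : V)
    (hm : ∀ μ ∈ Kb, μ ≠ 0 → ‖∑ c : Ka, A (μ ^ 2 * c) m‖ = ‖∑ c : Ka, A c m‖) :
    ‖∑ c : Ka, A c m‖ ^ 2 ≤ 2 * Fintype.card Ka * ‖m‖ ^ 2 + 4 * ‖∑ c : Kb, A c m‖ ^ 2 := by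
  classical
  set qa : ℝ := (Fintype.card Ka : ℝ) with hqa
  set qb : ℝ := (Fintype.card Kb : ℝ) with hqb
  set r : K → ℝ := fun x => RCLike.re ⟪m, A x m⟫_ℂ with hr
  have hr0 : r 0 = ‖m‖ ^ 2 := by
    simp only [hr, h0]
    exact inner_self_eq_norm_sq (𝕜 := ℂ) m
  have hqa1 : (2 : ℝ) ≤ qa := by
    have : 2 ≤ Fintype.card Ka := Fintype.one_lt_card
    rw [hqa]
    exact_mod_cast this
  have hqab : qa ≤ qb := by
    have : Fintype.card Ka ≤ Fintype.card Kb :=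
      Fintype.card_le_of_injective (Subfield.inclusion hab) (Subfield.inclusion hab).injective
    rw [hqa, hqb]
    exact_mod_cast this
  set R : ℝ := ∑ c : Kb, r c with hR
  have hb : ‖∑ c : Kb, A c m‖ ^ 2 = qb * R := by
    have := count_norm_sq Kb A hadd hiso m 1
    simpa only [one_mul] using this
  set f : Kb → ℝ := fun ν => ‖∑ c : Ka, A (ν * c) m‖ ^ 2 with hf
  have hf' : ∀ ν : Kb, f ν = qa * ∑ c : Ka, r (ν * c) := fun ν =>
    count_norm_sq Ka A hadd hiso m ν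
  have hsum : ∑ ν : Kb, ∑ c : Ka, r (ν * c) = qb * ‖m‖ ^ 2 + (qa - 1) * R := by
    rw [Finset.sum_comm, ← Finset.add_sum_erase _ _ (Finset.mem_univ (0 : Ka))]
    congr 1
    · simp [hr0, hqb]
    · have h : ∀ c ∈ Finset.univ.erase (0 : Ka), ∑ ν : Kb, r (ν * c) = R := by
        intro c hc
        have hc0 : (⟨c, hab c.2⟩ : Kb) ≠ 0 := fun e =>
          (Finset.mem_erase.mp hc).1 (Subtype.ext (congrArg (fun z : Kb => (z : K)) e))
        exact Fintype.sum_equiv (Equiv.mulRight₀ _ hc0) _ _ fun ν => rfl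
      rw [Finset.sum_congr rfl h, Finset.sum_const, Finset.card_erase_of_mem (Finset.mem_univ _),
        Finset.card_univ, nsmul_eq_mul, Nat.cast_sub Fintype.card_pos, Nat.cast_one]
  have hsum2 : ∑ ν ∈ Finset.univ.erase (0 : Kb), f ν =
      qa * ((qb - qa) * ‖m‖ ^ 2 + (qa - 1) * R) := by
    have h1 := Finset.add_sum_erase Finset.univ f (Finset.mem_univ (0 : Kb))
    have h2 : ∑ ν : Kb, f ν = qa * (qb * ‖m‖ ^ 2 + (qa - 1) * R) := by
      rw [← hsum, Finset.mul_sum]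
      exact Finset.sum_congr rfl fun ν _ => hf' ν
    have h3 : f 0 = qa * (qa * ‖m‖ ^ 2) := by
      rw [hf']
      simp [hr0, hqa]
    linear_combination h1 + h2 - h3
  have hsq : ∑ μ ∈ Finset.univ.erase (0 : Kb), f (μ ^ 2) = (qb - 1) * ‖∑ c : Ka, A c m‖ ^ 2 := by
    have h : ∀ μ ∈ Finset.univ.erase (0 : Kb), f (μ ^ 2) = ‖∑ c : Ka, A c m‖ ^ 2 := by
      intro μ hμ
      have := hm μ μ.2 fun e => (Finset.mem_erase.mp hμ).1 (Subtype.ext e)
      simp only [hf]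
      rw [← this]
      rfl
    rw [Finset.sum_congr rfl h, Finset.sum_const, Finset.card_erase_of_mem (Finset.mem_univ _),
      Finset.card_univ, nsmul_eq_mul, Nat.cast_sub Fintype.card_pos, Nat.cast_one]
  have key := count_sq_sum f fun ν => sq_nonneg _
  rw [hsq, hsum2] at key
  have hR0 : 0 ≤ R := by
    have : 0 ≤ qb * R := hb ▸ sq_nonneg _
    exact nonneg_of_mul_nonneg_right this (by linarith) 
  rw [hb]
  have hm0 : 0 ≤ ‖m‖ ^ 2 := sq_nonneg _
  have hpos : 0 < qb - 1 := by linarith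
  refine le_of_mul_le_mul_left (key.trans ?_) hpos
  have h1 : qa * (qa - 1) ≤ qb * (qb - 1) := by nlinarith
  have h2 : qa * (qa - 1) * R ≤ qb * (qb - 1) * R := mul_le_mul_of_nonneg_right h1 hR0
  have h3 : 0 ≤ qb * (qb - 1) * R := by positivity
  have h4 : 0 ≤ qa * (qa - 1) * ‖m‖ ^ 2 := by
    have : 0 ≤ qa - 1 := by linarith
    positivity
  nlinarith

end Pool.Agent.P.MP_0b1ded_al
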