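import Pool.Agent.P.MP_0b1ded_al.Hecke

/-! Recovering a vector of Steinberg type from its average. -/

namespace Pool.Agent.P.MP_0b1ded_al

open Function Filter

variable {ι X Y : Type} [AddCommGroup X] [AddCommGroup Y] {P : RootDatum ι X Y} {b : P.Base}
  {p : ℕ} {K : Type} [Field K] {G : Type*} [Group G] [Finite ι] [P.IsReduced]
  [Fact p.Prime] [CharP K p] [IsAlgClosed K] [Algebra (ZMod p) K] [Algebra.IsAlgebraic (ZMod p) K]
  [Module.Finite ℤ X]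
  {k : Type*} [Field k] [CharZero k] {M : Type*} [AddCommGroup M] [Module k M]

namespace Red

variable {D : Red p K G b} {ρ : Representation k G M}

theorem ns_eta {ℓ : X →+ ℤ} {α : ι} (hα : α ∈ Jset b ℓ) (v : M) :
    ρ (D.ns α) (D.eta ρ ℓ v) = -D.eta ρ ℓ v := by
  rw [eta_apply, map_sum, ← Finset.sum_neg_distrib]
  refine Fintype.sum_equiv (Equiv.mulLeft (⟨D.ns α, D.ns_mem_Gam hα⟩ : D.Gam ℓ)) _ _ fun γ => ?_
  show _ = -((-1 : k) ^ D.ln (D.ns α * γ) • ρ (D.ns α * (γ : D.N) : D.N) v)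
  rw [D.sgn_ns_mul k _ hα.1, Subgroup.coe_mul, ← rho_rho, map_smul, neg_smul, neg_neg]

theorem rel_pair {α : ι} {v : M} (hx : ∀ d, ρ (D.x α d) v = v) (hh : ∀ a, ρ (D.hh α a) v = v)
    (c : Kˣ) : ρ (D.y α c) v - v + ρ (D.x α (c : K)⁻¹) v =
      ρ (D.y α c) (ρ (D.ns α) v) - ρ (D.ns α) v + ρ (D.x α (c : K)⁻¹) (ρ (D.ns α) v) := by
  have h1 : ρ (D.y α c) v = ρ (D.x α (c : K)⁻¹) (ρ (D.ns α) v) := by
    rw [y_eq, nc_eq, ← rho_rho, ← rho_rho, ← rho_rho, hx, hh]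
  have h2 : ρ (D.y α c) (ρ (D.ns α) v) = ρ (D.ns α) v := by
    have h3 := D.ns_mul_x α (-(c : K))
    rw [neg_neg] at h3
    rw [rho_rho, ← h3, ← rho_rho, hx]
  rw [h1, h2, hx]
  abel

theorem fix_τ {e : M} (he : ∀ g ∈ D.B, ρ g e = e) (n : D.N) (t : Tor K X) :
    ρ (D.τ t) (ρ n e) = ρ n e := by
  rw [rho_rho, τ_mul_N, ← rho_rho, he _ (D.τ_mem_B _)]

theorem fix_x {e : M} (he : ∀ g ∈ D.B, ρ g e = e) (n : D.N) {β : ι} (h : b.IsPos (D.π n⁻¹ β))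
    (c : K) : ρ (D.x β c) (ρ n e) = ρ n e := by
  obtain ⟨d, hd⟩ := D.N_conj_x n⁻¹ β c
  rw [rho_rho, show D.x β c * n = n * (((n⁻¹ : D.N) : G) * D.x β c * ((n⁻¹ : D.N) : G)⁻¹) by
    rw [Subgroup.coe_inv]; group, ← rho_rho, hd, he _ (D.U_le_B (D.x_mem_U h d))]

theorem pvec_eta {ℓ : X →+ ℤ} (hs : Stable b ℓ) {e : M} (he : ∀ g ∈ D.B, ρ g e = e) :
    D.PVec ρ ℓ (D.eta ρ ℓ e) := by
  refine ⟨fun β hβ c => ?_, fun α hα c => ?_, fun α hα c => ?_⟩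
  · rw [eta_apply, map_sum]
    refine Finset.sum_congr rfl fun γ _ => ?_
    rw [map_smul, fix_x he _ (D.gam_Aset hs (inv_mem γ.2) hβ).1]
  · rw [nc_coe, ← rho_rho, ns_eta hα, map_neg, eta_apply, map_sum]
    refine congrArg Neg.neg (Finset.sum_congr rfl fun γ _ => ?_)
    rw [map_smul, hh, fix_τ he]
  · set F : M → M := fun v => ρ (D.y α c) v - v + ρ (D.x α (c : K)⁻¹) v with hF
    have h1 : ∀ n : D.N, F (ρ n e) = F (ρ (D.ns α) (ρ n e)) := by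
      intro n
      by_cases h : b.IsPos (D.π n⁻¹ α)
      · exact rel_pair (fix_x he n h) (fun a => fix_τ he n _) c
      · have h2 : ∀ d, ρ (D.x α d) (ρ (D.ns α) (ρ n e)) = ρ (D.ns α) (ρ n e) := fun d => by
          have h3 := D.ns_mul_y α (-d)
          rw [neg_neg] at h3
          rw [rho_rho, ← h3, ← rho_rho, y, fix_x he n (by rwa [π_ng, isPos_ng])]
        have h3 := rel_pair h2 (fun a => by
          rw [rho_rho ρ _ (n : G), ← Subgroup.coe_mul, hh, fix_τ he]) c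
        rw [rho_rho ρ (D.ns α : G) (D.ns α : G), ns_mul_ns, hh, fix_τ he] at h3
        exact h3.symm
    have h2 : ∀ v w : M, F (v + w) = F v + F w := fun v w => by
      simp only [hF, map_add]
      abel
    let L : M →ₗ[k] M := ρ (D.y α c) - LinearMap.id + ρ (D.x α (c : K)⁻¹)
    have h3 : L (ρ (D.ns α) (D.eta ρ ℓ e)) = L (D.eta ρ ℓ e) := by
      rw [eta_apply, map_sum, map_sum, map_sum]
      refine Finset.sum_congr rfl fun γ _ => ?_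
      rw [map_smul, map_smul, map_smul]
      exact congrArg _ (h1 γ).symm
    rw [ns_eta hα, map_neg] at h3
    have h4 : (2 : k) • L (D.eta ρ ℓ e) = 0 := by
      rw [two_smul]
      exact add_eq_zero_iff_eq_neg.2 h3.symm
    have h5 : ρ (D.y α c) (D.eta ρ ℓ e) - D.eta ρ ℓ e + ρ (D.x α (c : K)⁻¹) (D.eta ρ ℓ e) = 0 :=
      (smul_eq_zero.1 h4).resolve_left two_ne_zero
    rw [eq_sub_iff_add_eq, ← sub_eq_zero, ← h5]
    abel

theorem eta_avg {ℓ : X →+ ℤ} (hs : Stable b ℓ) {e : M} (he : ∀ g ∈ D.B, ρ g e = e) (a : ℕ) :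
    ∀ γ ∈ D.Gam ℓ, D.eta ρ ℓ (avg ρ (D.Ul a) (ρ γ e)) =
      (-(Fintype.card (D.Kf a) : k)⁻¹) ^ D.ln γ • D.eta ρ ℓ e := by
  have hU : ∀ u ∈ D.Ul a, ρ u e = e := fun u hu => he u (D.U_le_B hu.1)
  refine D.gam_ind hs (fun γ _ h0 => ?_) fun γ hγ α hα hpos ih => ?_
  · obtain ⟨t, rfl⟩ := D.eq_tN_of_ln γ h0
    rw [h0, pow_zero, one_smul, tN_coe, he _ (D.τ_mem_B t), avg_of_fixed ρ hU]
  · have h1 := D.eta_eq_zero ρ hα (D.ns_fix_sum ρ (α := α) a (z := avg ρ (D.Ul a) (ρ γ e))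
      (fun c hc => apply_avg ρ (D.x_mem_Ul hα.1 hc) _) fun c hc => by
        rw [hh, avg_comm ρ (H := D.Ul a) fun u hu => Subgroup.mem_inf.2 ⟨D.τ_conj_genU _ hu.1,
          mul_mem (mul_mem (D.hh_mem_Fix α hc) (Subgroup.mem_inf.1 hu).2)
            (inv_mem (D.hh_mem_Fix α hc))⟩, fix_τ he])
    rw [map_add, ih, add_eq_zero_iff_neg_eq] at h1
    rw [D.hk_step ρ hα.1 a γ (D.gam_mem_Fix a hγ) hpos hU, map_smul, ← h1,
      D.ln_ns_mul_pos γ hα.1 hpos, pow_succ', mul_smul, neg_smul, smul_neg]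

theorem kU_U {ξ : M} {u : G} (hu : u ∈ D.U) {v : M} (hv : v ∈ D.kU ρ ξ) : ρ u v ∈ D.kU ρ ξ := by
  refine (Submodule.span_le (p := (D.kU ρ ξ).comap (ρ u))).2 ?_ hv
  rintro _ ⟨u', hu', rfl⟩
  exact Submodule.subset_span ⟨u * u', mul_mem hu hu', rho_rho _ _ _ _⟩

theorem kU_self (ξ : M) : ξ ∈ D.kU ρ ξ :=
  Submodule.subset_span ⟨1, one_mem _, by simp⟩

theorem PVec.kU_ns {ℓ : X →+ ℤ} {ξ : M} (h : D.PVec ρ ℓ ξ) {α : ι} (hα : α ∈ Jset b ℓ) {v : M}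
    (hv : v ∈ D.kU ρ ξ) : ρ (D.ns α) v ∈ D.kU ρ ξ := by
  refine (Submodule.span_le (p := (D.kU ρ ξ).comap (ρ (D.ns α)))).2 ?_ hv
  rintro _ ⟨u, hu, rfl⟩
  obtain ⟨c, u₁, h₁, rfl⟩ := D.exists_crd hα.1 hu
  show ρ (D.ns α) (ρ (u₁ * D.x α c) ξ) ∈ D.kU ρ ξ
  rw [rho_rho, show (D.ns α : G) * (u₁ * D.x α c) =
    (D.ns α : G) * u₁ * (D.ns α : G)⁻¹ * (D.ns α * D.x α c) by group, ← rho_rho, ns_mul_x,
    ← rho_rho ρ (D.y α (-c)), h.ns hα, map_neg]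
  refine kU_U (D.Ua_le α (D.ns_conj_Ua hα.1 h₁)) (neg_mem ?_)
  by_cases hc : -c = 0
  · rw [hc, y_zero, map_one]
    exact kU_self ξ
  · have h4 := h.rel α hα (Units.mk0 _ hc)
    rw [Units.val_mk0] at h4
    rw [h4]
    exact sub_mem (kU_self ξ) (kU_U (D.x_mem_U (b.isPos_of_mem_support hα.1) _) (kU_self ξ))

theorem PVec.kU_gam {ℓ : X →+ ℤ} {ξ : M} (h : D.PVec ρ ℓ ξ) {γ : D.N} (hγ : γ ∈ D.Gam ℓ) {v : M}
    (hv : v ∈ D.kU ρ ξ) : ρ γ v ∈ D.kU ρ ξ := by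
  induction hγ using Subgroup.closure_induction_left with
  | one => simpa using hv
  | mul_left x hx y hy ih =>
    obtain ⟨α, hα, rfl⟩ := hx
    rw [Subgroup.coe_mul, ← rho_rho]
    exact h.kU_ns hα ih
  | inv_mul_cancel x hx y hy ih =>
    obtain ⟨α, hα, rfl⟩ := hx
    have h1 : (D.ns α : G)⁻¹ = D.ns α * (D.ns α * D.ns α) := by
      rw [inv_eq_iff_mul_eq_one, ← mul_assoc, ns_mul_ns, ← hh_mul, neg_mul_neg, one_mul, hh_one]
    rw [Subgroup.coe_mul, Subgroup.coe_inv, ← rho_rho, h1, ← rho_rho, ← rho_rho]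
    exact h.kU_ns hα (h.kU_ns hα (h.kU_ns hα ih))

theorem PVec.kU_eta_avg {ℓ : X →+ ℤ} {ξ : M} (h : D.PVec ρ ℓ ξ) (a : ℕ) :
    D.eta ρ ℓ (avg ρ (D.Ul a) ξ) ∈ D.kU ρ ξ := by
  rw [eta_apply]
  refine sum_mem fun γ _ => Submodule.smul_mem _ _ (h.kU_gam γ.2 ?_)
  rw [avg_apply]
  exact Submodule.smul_mem _ _ (sum_mem fun u _ => kU_U u.2.1 (kU_self ξ))

theorem map_eta {M' : Type*} [AddCommGroup M'] [Module k M'] (σ : Representation k G M')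
    (f : M →ₗ[k] M') (hf : ∀ g v, f (ρ g v) = σ g (f v)) (ℓ : X →+ ℤ) (v : M) :
    f (D.eta ρ ℓ v) = D.eta σ ℓ (f v) := by
  simp only [eta_apply, map_smul, map_sum, hf]

theorem coset_eq {u : G} (hu : u ∈ D.U) {γ γ₀ : D.N}
    (h : u • ((γ : G) : G ⧸ D.B) = ((γ₀ : G) : G ⧸ D.B)) :
    ((γ : G) : G ⧸ D.B) = ((γ₀ : G) : G ⧸ D.B) := by
  have h1 : ∀ (n : D.N) t, D.τ t ∈ MulAction.stabilizer G ((n : G) : G ⧸ D.B) := fun n t => by
    rw [MulAction.mem_stabilizer_iff, MulAction.Quotient.smul_mk, smul_eq_mul, τ_mul_N,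
      QuotientGroup.mk_mul_of_mem _ (D.τ_mem_B _)]
  have h2 : u ∈ MulAction.stabilizer G ((γ : G) : G ⧸ D.B) := by
    refine D.orb_U _ (fun t g hg => mul_mem (mul_mem (h1 γ t) hg) (inv_mem (h1 γ t))) hu
      ((Set.finite_singleton (u : G ⧸ MulAction.stabilizer G ((γ : G) : G ⧸ D.B))).subset ?_)
    rintro _ ⟨t, rfl⟩
    rw [Set.mem_singleton_iff, eq_comm, QuotientGroup.eq, MulAction.mem_stabilizer_iff, mul_smul,
      mul_smul, mul_smul, inv_mem (h1 γ t), h, h1 γ₀ t, ← h, inv_smul_smul]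
  rw [← h, h2]

theorem PVec.exists_phi {ℓ : X →+ ℤ} (hs : Stable b ℓ) {ξ : M} (h : D.PVec ρ ℓ ξ) :
    ∃ (Φ : MonoidAlgebra k (G ⧸ D.B) →ₗ[k] M) (c : k), c ≠ 0 ∧ ∀ u ∈ D.U,
      Φ (Representation.ofMulAction k G (G ⧸ D.B) u
        (D.eta (Representation.ofMulAction k G (G ⧸ D.B)) ℓ
          (MonoidAlgebra.single ((1 : G) : G ⧸ D.B) 1))) = c • ρ u ξ := by
  classical
  obtain ⟨γ₀, hγ₀, hmax⟩ := D.exists_gam_max hs
  let f : G ⧸ D.B → M := fun z =>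
    if hz : ∃ u ∈ D.U, z = u • ((γ₀ : G) : G ⧸ D.B) then ρ hz.choose ξ else 0
  have hfix : ∀ u ∈ D.Up γ₀⁻¹, ρ u ξ = ξ := fun u hu =>
    genU_le (H := (MulAction.stabilizer (Module.End k M)ˣ ξ).comap ρ.asGroupHom)
      (fun β hβ c => h.fixA β (by
        by_contra h1
        exact hmax β hβ.1 h1 hβ.2) c) hu
  have hf1 : ∀ u ∈ D.U, f (u • ((γ₀ : G) : G ⧸ D.B)) = ρ u ξ := by
    intro u hu
    have hz : ∃ u' ∈ D.U, u • ((γ₀ : G) : G ⧸ D.B) = u' • ((γ₀ : G) : G ⧸ D.B) := ⟨u, hu, rfl⟩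
    obtain ⟨h1, h2⟩ := hz.choose_spec
    simp only [f, dif_pos hz]
    generalize hz.choose = u' at h1 h2
    rw [MulAction.Quotient.smul_mk, MulAction.Quotient.smul_mk, QuotientGroup.eq, smul_eq_mul,
      smul_eq_mul] at h2
    have h3 := hfix _ (D.mem_Up_of_B γ₀⁻¹ (mul_mem (inv_mem hu) h1) (by
      rwa [Subgroup.coe_inv, show (γ₀ : G)⁻¹ * (u⁻¹ * u') * (γ₀ : G)⁻¹⁻¹ =
        (u * γ₀)⁻¹ * (u' * γ₀) by group]))
    rw [← mul_inv_cancel_left u u', ← rho_rho, h3]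
  set S := Finset.univ.filter fun γ : D.Gam ℓ =>
    (((γ : D.N) : G) : G ⧸ D.B) = ((γ₀ : G) : G ⧸ D.B) with hS
  refine ⟨Finsupp.linearCombination k f ∘ₗ (MonoidAlgebra.coeffLinearEquiv k).toLinearMap,
    S.card * (-1 : k) ^ D.ln γ₀, mul_ne_zero (Nat.cast_ne_zero.2 (Finset.card_ne_zero.2
      ⟨⟨γ₀, hγ₀⟩, Finset.mem_filter.2 ⟨Finset.mem_univ _, rfl⟩⟩)) (by simp), fun u hu => ?_⟩
  rw [eta_apply, map_sum, map_sum, mul_smul, Nat.cast_smul_eq_nsmul, ← Finset.sum_const, hS,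
    Finset.sum_filter]
  refine Finset.sum_congr rfl fun γ _ => ?_
  have h1 : ∀ z : G ⧸ D.B, (Finsupp.linearCombination k f ∘ₗ
      (MonoidAlgebra.coeffLinearEquiv k).toLinearMap) (MonoidAlgebra.single z 1) = f z := by
    intro z
    simp
  rw [map_smul, map_smul, Representation.ofMulAction_single, Representation.ofMulAction_single,
    h1, MulAction.Quotient.smul_mk _ _ (1 : G), smul_eq_mul, mul_one]
  split_ifs with h2
  · obtain ⟨t, ht⟩ := D.eq_tN_of_mem_B (γ₀⁻¹ * γ) (QuotientGroup.eq.1 h2.symm)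
    rw [h2, hf1 u hu, ← mul_inv_cancel_left γ₀ γ, ht, ln_mul_tN]
  · simp only [f]
    rw [dif_neg, smul_zero]
    rintro ⟨u', hu', h3⟩
    refine h2 (coset_eq (mul_mem (inv_mem hu') hu) ?_)
    rw [mul_smul, h3, inv_smul_smul]

theorem PVec.dlemma {ℓ : X →+ ℤ} (hs : Stable b ℓ) {ξ : M} (h : D.PVec ρ ℓ ξ) (a : ℕ) :
    ∃ κ : k, κ ≠ 0 ∧ D.eta ρ ℓ (avg ρ (D.Ul a) ξ) = κ • ξ := by
  set σ := Representation.ofMulAction k G (G ⧸ D.B) with hσ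
  set e : MonoidAlgebra k (G ⧸ D.B) := MonoidAlgebra.single ((1 : G) : G ⧸ D.B) 1 with he
  have hB : ∀ g ∈ D.B, σ g e = e := fun g hg => by
    rw [hσ, he, Representation.ofMulAction_single, MulAction.Quotient.smul_mk, smul_eq_mul, mul_one,
      ← one_mul g, QuotientGroup.mk_mul_of_mem _ hg]
  have h0 := pvec_eta hs hB
  obtain ⟨Φ, c, hc, hΦ⟩ := h.exists_phi hs
  set κ : k := ∑ γ : D.Gam ℓ, (Fintype.card (D.Kf a) : k)⁻¹ ^ D.ln γ with hκ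
  have h1 : D.eta σ ℓ (avg σ (D.Ul a) (D.eta σ ℓ e)) = κ • D.eta σ ℓ e := by
    conv_lhs => rw [D.eta_apply σ ℓ e, map_sum, map_sum]
    rw [hκ, Finset.sum_smul]
    refine Finset.sum_congr rfl fun γ _ => ?_
    rw [map_smul, map_smul, eta_avg hs hB a γ γ.2, smul_smul, ← mul_pow, neg_mul_neg, one_mul]
  have h2 : D.PVec (ρ.prod σ) ℓ (ξ, D.eta σ ℓ e) :=
    ⟨fun β hβ c => Prod.ext (h.fixA β hβ c) (h0.fixA β hβ c),
      fun α hα c => Prod.ext (h.negn α hα c) (h0.negn α hα c),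
      fun α hα c => Prod.ext (h.rel α hα c) (h0.rel α hα c)⟩
  have h3 : D.kU (ρ.prod σ) (ξ, D.eta σ ℓ e) ≤
      LinearMap.eqLocus (Φ ∘ₗ LinearMap.snd k _ _) (c • LinearMap.fst k _ _) := by
    refine Submodule.span_le.2 ?_
    rintro _ ⟨u, hu, rfl⟩
    exact hΦ u hu
  have h4 : Φ (LinearMap.snd k _ _ (D.eta (ρ.prod σ) ℓ (avg (ρ.prod σ) (D.Ul a) (ξ, D.eta σ ℓ e)))) =
      c • LinearMap.fst k _ _ (D.eta (ρ.prod σ) ℓ (avg (ρ.prod σ) (D.Ul a) (ξ, D.eta σ ℓ e))) :=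
    h3 (h2.kU_eta_avg a)
  rw [map_eta (D := D) (ρ := ρ.prod σ) σ (LinearMap.snd k M _) fun _ _ => rfl,
    map_avg (ρ.prod σ) σ (LinearMap.snd k M _) fun _ _ => rfl,
    map_eta (D := D) (ρ := ρ.prod σ) ρ (LinearMap.fst k M _) fun _ _ => rfl,
    map_avg (ρ.prod σ) ρ (LinearMap.fst k M _) fun _ _ => rfl, LinearMap.snd_apply,
    LinearMap.fst_apply, h1, map_smul] at h4
  have h5 := hΦ 1 (one_mem _)
  rw [map_one, map_one, Module.End.one_apply, Module.End.one_apply] at h5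
  rw [h5, smul_comm] at h4
  refine ⟨κ, ?_, (smul_right_injective M hc h4).symm⟩
  have h6 : (0 : ℚ) < ∑ γ : D.Gam ℓ, (Fintype.card (D.Kf a) : ℚ)⁻¹ ^ D.ln γ :=
    Finset.sum_pos (fun _ _ => by
      have : 0 < Fintype.card (D.Kf a) := Fintype.card_pos
      positivity) Finset.univ_nonempty
  have h7 := (Rat.cast_ne_zero (α := k)).2 h6.ne'
  push_cast at h7
  exact h7

end Red

end Pool.Agent.P.MP_0b1ded_al
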