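import Pool.Agent.P.MP_0b1ded_al.Sl2

/-! Decompositions of the unipotent group. -/

namespace Pool.Agent.P.MP_0b1ded_al

open Function

variable {ι X Y : Type} [AddCommGroup X] [AddCommGroup Y] {P : RootDatum ι X Y} {b : P.Base}
  {p : ℕ} {K : Type} [Field K] {G : Type*} [Group G] [Finite ι] [P.IsReduced]

namespace Red

variable (D : Red p K G b)

theorem N_conj_genU (n : D.N) {S S' : Set ι} (h : ∀ β ∈ S, D.π n β ∈ S') {u : G}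
    (hu : u ∈ genU D.x S) : (n : G) * u * (n : G)⁻¹ ∈ genU D.x S' := by
  refine conj_mem_of_genU _ (fun β hβ c => ?_) hu
  obtain ⟨d, hd⟩ := D.N_conj_x n β c
  rw [hd]
  exact mem_genU (h β hβ) d

theorem τ_conj_genU (t : Tor K X) {S : Set ι} {u : G} (hu : u ∈ genU D.x S) :
    D.τ t * u * (D.τ t)⁻¹ ∈ genU D.x S := by
  refine conj_mem_of_genU _ (fun β hβ c => ?_) hu
  rw [τ_conj_x]
  exact mem_genU hβ _

theorem x_conj_genU (β : ι) (c : K) {S : Set ι}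
    (h1 : ∀ γ ∈ S, P.root γ ≠ P.root β ∧ P.root γ ≠ -P.root β)
    (h2 : ∀ γ ∈ S, ∀ (δ : ι) (i j : ℕ), 0 < i → 0 < j →
      P.root δ = i • P.root β + j • P.root γ → δ ∈ S) {u : G} (hu : u ∈ genU D.x S) :
    D.x β c * u * (D.x β c)⁻¹ ∈ genU D.x S := by
  refine conj_mem_of_genU _ (fun γ hγ d => ?_) hu
  have := D.comm β γ c d (h1 γ hγ).1 (h1 γ hγ).2
  have h3 := genU_mono (S' := S) (fun δ hδ => by
    obtain ⟨i, j, hi, hj, e⟩ := hδ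
    exact h2 γ hγ δ i j hi hj e) this
  simpa using mul_mem h3 (mem_genU hγ d)

theorem dec3 (S₁ S₂ : Set ι) {u : G} (hu : u ∈ D.U) :
    ∃ u₁ ∈ genU D.x {β | b.IsPos β ∧ β ∈ S₁}, ∃ u₂ ∈ genU D.x {β | b.IsPos β ∧ β ∉ S₁ ∧ β ∈ S₂},
      ∃ u₃ ∈ genU D.x {β | b.IsPos β ∧ β ∉ S₁ ∧ β ∉ S₂}, u = u₁ * u₂ * u₃ := by
  classical
  have := Fintype.ofFinite ι
  let f : Set ι → List ι := fun S => (Finset.univ.filter (· ∈ S)).toList
  have hf : ∀ S β, β ∈ f S ↔ β ∈ S := fun S β => by simp [f]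
  have hn : ∀ S, (f S).Nodup := fun S => Finset.nodup_toList _
  have hm : ∀ S (c : ι → K), ((f S).map fun β => D.x β (c β)).prod ∈ genU D.x S := fun S c => by
    refine Subgroup.list_prod_mem _ fun g hg => ?_
    obtain ⟨β, hβ, rfl⟩ := List.mem_map.1 hg
    exact mem_genU ((hf S β).1 hβ) _
  obtain ⟨c, hc⟩ := D.prod_surj (f {β | b.IsPos β ∧ β ∈ S₁} ++ f {β | b.IsPos β ∧ β ∉ S₁ ∧ β ∈ S₂}
    ++ f {β | b.IsPos β ∧ β ∉ S₁ ∧ β ∉ S₂}) (by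
      refine ((hn _).append (hn _) fun β h1 h2 => ?_).append (hn _) fun β h1 h2 => ?_
      · exact ((hf _ _).1 h2).2.1 ((hf _ _).1 h1).2
      · rcases List.mem_append.1 h1 with h1 | h1
        · exact ((hf _ _).1 h2).2.1 ((hf _ _).1 h1).2
        · exact ((hf _ _).1 h2).2.2 ((hf _ _).1 h1).2.2)
    (fun β => by
      simp only [List.mem_append, hf, Set.mem_ofPred_eq]
      tauto) u hu
  rw [List.map_append, List.map_append, List.prod_append, List.prod_append] at hc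
  exact ⟨_, hm _ c, _, hm _ c, _, hm _ c, hc⟩

theorem dec_two (S : Set ι) {u : G} (hu : u ∈ D.U) :
    ∃ u₁ ∈ genU D.x {β | b.IsPos β ∧ β ∈ S}, ∃ u₂ ∈ genU D.x {β | b.IsPos β ∧ β ∉ S},
      u = u₁ * u₂ := by
  obtain ⟨u₁, h₁, u₂, h₂, u₃, h₃, rfl⟩ := D.dec3 S Set.univ hu
  exact ⟨u₁, h₁, u₂ * u₃, mul_mem (genU_mono (fun β hβ => by exact ⟨hβ.1, hβ.2.1⟩) h₂)
    (genU_mono (fun β hβ => by exact ⟨hβ.1, hβ.2.1⟩) h₃), mul_assoc _ _ _⟩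

theorem dec_xy {α : ι} (hα : α ∈ b.support) {S : Set ι} (h1 : ∀ γ ∈ S, b.IsPos γ ∧ γ ≠ α)
    (h2 : ∀ γ ∈ S, ∀ (δ : ι) (i : ℤ) (j : ℕ), 0 < j →
      P.root δ = i • P.root α + j • P.root γ → δ ∈ S) (c : K) {u : G} (hu : u ∈ genU D.x S) :
    D.x α c * u * (D.x α c)⁻¹ ∈ genU D.x S ∧ D.y α c * u * (D.y α c)⁻¹ ∈ genU D.x S := by
  have h3 : ∀ γ ∈ S, P.root γ ≠ P.root α ∧ P.root γ ≠ -P.root α := fun γ hγ => by
    refine ⟨fun e => (h1 γ hγ).2 (P.root.injective e), fun e => ?_⟩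
    rw [← root_ng] at e
    have := (h1 γ hγ).1
    rw [P.root.injective e, isPos_ng] at this
    exact this (b.isPos_of_mem_support hα)
  refine ⟨D.x_conj_genU α c h3 (fun γ hγ δ i j _ hj e => h2 γ hγ δ i j hj ?_) hu,
    D.x_conj_genU (ng P α) c (fun γ hγ => ?_) (fun γ hγ δ i j _ hj e => h2 γ hγ δ (-i) j hj ?_) hu⟩
  · rw [e, natCast_zsmul]
  · rw [root_ng, neg_neg]
    exact (h3 γ hγ).symm
  · rw [e, root_ng, neg_smul, natCast_zsmul, smul_neg]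

theorem mem_genU_single {α : ι} {S : Set ι} (hS : ∀ β ∈ S, β = α) {u : G}
    (hu : u ∈ genU D.x S) : ∃ c, u = D.x α c := by
  let H : Subgroup G :=
    { carrier := {g | ∃ c, g = D.x α c}
      one_mem' := ⟨0, (D.x_zero α).symm⟩
      mul_mem' := by
        rintro _ _ ⟨c, rfl⟩ ⟨d, rfl⟩
        exact ⟨c + d, (D.x_add α c d).symm⟩
      inv_mem' := by
        rintro _ ⟨c, rfl⟩
        exact ⟨-c, (D.x_neg α c).symm⟩ }
  exact genU_le (H := H) (fun β hβ c => ⟨c, by rw [hS β hβ]⟩) hu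

theorem U_le_B : D.U ≤ D.B := le_sup_right

theorem τ_mem_B (t : Tor K X) : D.τ t ∈ D.B := (le_sup_left : D.T ≤ D.B) ⟨t, rfl⟩

theorem eq_one_of_mem_B {u : G} (hu : u ∈ D.B) (hu' : u ∈ genU D.x {β | ¬ b.IsPos β}) :
    u = 1 := by
  rw [← Subgroup.mem_bot, ← D.opp]
  exact ⟨hu, hu'⟩

theorem B_conj_U {g u : G} (hg : g ∈ D.B) (hu : u ∈ D.U) : g * u * g⁻¹ ∈ D.U := by
  have h : D.B ≤ Subgroup.normalizer (D.U : Set G) := by
    refine sup_le ?_ Subgroup.le_normalizer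
    rintro _ ⟨t, rfl⟩
    refine Subgroup.mem_normalizer_iff.2 fun v => ⟨D.τ_conj_genU t, fun hv => ?_⟩
    have := D.τ_conj_genU t⁻¹ hv
    rwa [τ_inv, show (D.τ t)⁻¹ * (D.τ t * v * (D.τ t)⁻¹) * (D.τ t)⁻¹⁻¹ = v by group] at this
  exact (Subgroup.mem_normalizer_iff.1 (h hg) u).1 hu

theorem ns_conj_Ua {α : ι} (hα : α ∈ b.support) {u : G} (hu : u ∈ D.Ua α) :
    (D.ns α : G) * u * (D.ns α : G)⁻¹ ∈ D.Ua α := by
  refine D.N_conj_genU (D.ns α) (fun β hβ => ?_) hu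
  rw [π_ns]
  exact ⟨isPos_refl hα hβ.1 hβ.2, refl_ne hα hβ.1⟩

theorem ns_inv_conj_Ua {α : ι} (hα : α ∈ b.support) {u : G} (hu : u ∈ D.Ua α) :
    (D.ns α : G)⁻¹ * u * D.ns α ∈ D.Ua α := by
  have := D.N_conj_genU (D.ns α)⁻¹ (S' := {β | b.IsPos β ∧ β ≠ α}) (fun β hβ => by
    rw [π_ns_inv]
    exact ⟨isPos_refl hα hβ.1 hβ.2, refl_ne hα hβ.1⟩) hu
  rwa [Subgroup.coe_inv, inv_inv] at this

theorem nc_conj_Ua {α : ι} (hα : α ∈ b.support) (c : Kˣ) {u : G} (hu : u ∈ D.Ua α) :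
    (D.nc α c : G) * u * (D.nc α c : G)⁻¹ ∈ D.Ua α := by
  refine D.N_conj_genU (D.nc α c) (fun β hβ => ?_) hu
  rw [π_nc]
  exact ⟨isPos_refl hα hβ.1 hβ.2, refl_ne hα hβ.1⟩

theorem x_conj_Ua {α : ι} (hα : α ∈ b.support) (c : K) {u : G} (hu : u ∈ D.Ua α) :
    D.x α c * u * (D.x α c)⁻¹ ∈ D.Ua α := by
  exact (D.dec_xy hα (fun _ h => h) (fun _ h _ _ _ hj e => pos_of_comb hα h.1 h.2 hj e) c hu).1

theorem y_conj_Ua {α : ι} (hα : α ∈ b.support) (c : K) {u : G} (hu : u ∈ D.Ua α) :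
    D.y α c * u * (D.y α c)⁻¹ ∈ D.Ua α := by
  exact (D.dec_xy hα (fun _ h => h) (fun _ h _ _ _ hj e => pos_of_comb hα h.1 h.2 hj e) c hu).2

theorem exists_crd {α : ι} (hα : α ∈ b.support) {u : G} (hu : u ∈ D.U) :
    ∃ c, ∃ u₁ ∈ D.Ua α, u = u₁ * D.x α c := by
  obtain ⟨u₁, h₁, u₂, h₂, rfl⟩ := D.dec_two {β | β ≠ α} hu
  obtain ⟨c, rfl⟩ := D.mem_genU_single (α := α) (fun β hβ => not_not.1 hβ.2) h₂
  exact ⟨c, u₁, h₁, rfl⟩

theorem eq_zero_of_x_mem_Ua {α : ι} (hα : α ∈ b.support) {c : K} (h : D.x α c ∈ D.Ua α) :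
    c = 0 := by
  have h1 := D.ns_conj_Ua hα h
  rw [ns_mul_x, mul_inv_cancel_right] at h1
  have h2 := D.eq_one_of_mem_B (D.U_le_B (D.Ua_le α h1))
    (mem_genU (S := {β | ¬ b.IsPos β})
      (fun h => (isPos_ng α).1 h (b.isPos_of_mem_support hα)) (-c))
  exact neg_eq_zero.1 (D.x_eq_one h2)

theorem mem_Up_of_B (n : D.N) {u : G} (hu : u ∈ D.U) (h : (n : G) * u * (n : G)⁻¹ ∈ D.B) :
    u ∈ D.Up n := by
  obtain ⟨u₁, h₁, u₂, h₂, rfl⟩ := D.dec_two {β | b.IsPos (D.π n β)} hu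
  have h3 : (n : G) * u₁ * (n : G)⁻¹ ∈ D.U :=
    D.N_conj_genU n (S' := {β | b.IsPos β}) (fun β hβ => hβ.2) h₁
  have h4 := mul_mem (inv_mem (D.U_le_B h3)) h
  rw [show ((n : G) * u₁ * (n : G)⁻¹)⁻¹ * (n * (u₁ * u₂) * (n : G)⁻¹) = n * u₂ * (n : G)⁻¹ by
    group] at h4
  have h5 := D.eq_one_of_mem_B h4
    (D.N_conj_genU n (S' := {β | ¬ b.IsPos β}) (fun β hβ => hβ.2) h₂)
  rw [conj_eq_one_iff.1 h5, mul_one]
  exact h₁

theorem mem_Up_iff (n : D.N) {u : G} :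
    u ∈ D.Up n ↔ u ∈ D.U ∧ (n : G) * u * (n : G)⁻¹ ∈ D.U := by
  exact ⟨fun h => ⟨D.Up_le n h, D.N_conj_genU n (S' := {β | b.IsPos β}) (fun β hβ => hβ.2) h⟩,
    fun h => D.mem_Up_of_B n h.1 (D.U_le_B h.2)⟩

theorem x_mem_Up (n : D.N) {β : ι} (hβ : b.IsPos β) {c : K} (hc : c ≠ 0) :
    D.x β c ∈ D.Up n ↔ b.IsPos (D.π n β) := by
  refine ⟨fun h => ?_, fun h => mem_genU (S := {β | b.IsPos β ∧ b.IsPos (D.π n β)}) ⟨hβ, h⟩ c⟩
  by_contra h'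
  have h1 := ((D.mem_Up_iff n).1 h).2
  have h2 : (n : G) * D.x β c * (n : G)⁻¹ ∈ genU D.x {β | ¬ b.IsPos β} := by
    obtain ⟨d, hd⟩ := D.N_conj_x n β c
    rw [hd]
    exact mem_genU (S := {β | ¬ b.IsPos β}) h' d
  exact hc (D.x_eq_one (conj_eq_one_iff.1 (D.eq_one_of_mem_B (D.U_le_B h1) h2)))

theorem Up_mul_ns (n : D.N) {α : ι} (hα : α ∈ b.support) (hpos : b.IsPos (D.π n α))
    (hst : ∀ β, b.IsPos β → β ≠ α →
      (b.IsPos (D.π n β) ↔ b.IsPos (D.π n (P.reflectionPerm α β)))) :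
    D.Up (n * D.ns α) = D.Up n ⊓ D.Ua α := by
  have hne : ∀ β, b.IsPos (D.π n (P.reflectionPerm α β)) → β ≠ α := by
    rintro β h rfl
    have e : D.π n (ng P β) = ng P (D.π n β) := wp_ng _ _
    rw [e, isPos_ng] at h
    exact h hpos
  rw [Up_eq, map_mul, π_ns]
  refine le_antisymm (le_inf (genU_mono fun β hβ => ?_) (genU_mono fun β hβ => ?_)) ?_
  · exact ⟨hβ.1, (hst β hβ.1 (hne β hβ.2)).2 hβ.2⟩
  · exact ⟨hβ.1, hne β hβ.2⟩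
  · rintro u ⟨h1, h2⟩
    obtain ⟨u₁, h₁, u₂, h₂, u₃, h₃, rfl⟩ := D.dec3 {α} {β | b.IsPos (D.π n β)} (D.Up_le n h1)
    obtain ⟨c, rfl⟩ := D.mem_genU_single (α := α) (fun β hβ => hβ.2) h₁
    have a2 : u₂ ∈ D.Ua α := genU_mono (fun β hβ => by exact ⟨hβ.1, hβ.2.1⟩) h₂
    have a3 : u₃ ∈ D.Ua α := genU_mono (fun β hβ => by exact ⟨hβ.1, hβ.2.1⟩) h₃
    have hc := D.eq_zero_of_x_mem_Ua hα
      (((D.Ua α).mul_mem_cancel_right a2).1 (((D.Ua α).mul_mem_cancel_right a3).1 h2))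
    rw [hc, x_zero, one_mul] at h1 ⊢
    have b2 : u₂ ∈ D.Up n := genU_mono (fun β hβ => by exact ⟨hβ.1, hβ.2.2⟩) h₂
    have b3 := ((D.mem_Up_iff n).1 (((D.Up n).mul_mem_cancel_left b2).1 h1)).2
    have h5 := D.eq_one_of_mem_B (D.U_le_B b3)
      (D.N_conj_genU n (S' := {β | ¬ b.IsPos β}) (fun β hβ => hβ.2.2) h₃)
    rw [conj_eq_one_iff.1 h5, mul_one]
    exact genU_mono (fun β hβ => by exact ⟨hβ.1, (hst β hβ.1 hβ.2.1).1 hβ.2.2⟩) h₂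

theorem cent_U (t : Tor K X) {u : G} (hu : u ∈ D.U) (h : D.τ t * u * (D.τ t)⁻¹ = u) :
    u ∈ genU D.x {β | b.IsPos β ∧ ev P β t = 1} := by
  classical
  have := Fintype.ofFinite ι
  have hn : (Finset.univ.filter b.IsPos).toList.Nodup := Finset.nodup_toList _
  have hl : ∀ β, β ∈ (Finset.univ.filter b.IsPos).toList ↔ b.IsPos β := fun β => by simp
  obtain ⟨c, rfl⟩ := D.prod_surj _ hn hl u hu
  have hc : ∀ l : List ι, D.τ t * (l.map fun β => D.x β (c β)).prod * (D.τ t)⁻¹ =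
      (l.map fun β => D.x β (ev P β t * c β)).prod := fun l => by
    induction l with
    | nil => simp
    | cons β l ih =>
      rw [List.map_cons, List.map_cons, List.prod_cons, List.prod_cons, ← ih, ← τ_conj_x]
      group
  rw [hc] at h
  have h2 := D.prod_inj _ hn hl (fun β => ev P β t * c β) c h
  refine Subgroup.list_prod_mem _ fun g hg => ?_
  obtain ⟨β, hβ, rfl⟩ := List.mem_map.1 hg
  by_cases h0 : c β = 0
  · rw [h0, x_zero]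
    exact one_mem _
  · refine mem_genU (S := {β | b.IsPos β ∧ ev P β t = 1}) ⟨(hl β).1 hβ, Units.ext ?_⟩ _
    exact mul_right_cancel₀ h0 ((h2 β hβ).trans (one_mul _).symm)

/-- The group generated by the root subgroups of `Aset` is normalised by `x α c`, `y α c`. -/
theorem x_conj_Aset {ℓ : X →+ ℤ} (hs : Stable b ℓ) {α : ι} (hα : α ∈ Jset b ℓ) (c : K) {u : G}
    (hu : u ∈ genU D.x (Aset b ℓ)) : D.x α c * u * (D.x α c)⁻¹ ∈ genU D.x (Aset b ℓ) := by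
  exact (D.dec_xy hα.1 (fun _ h => ⟨h.1, fun e => lt_asymm hα.2 (e ▸ h.2)⟩)
    (fun _ h _ _ _ hj e => hs.closed hα h hj e) c hu).1

theorem y_conj_Aset {ℓ : X →+ ℤ} (hs : Stable b ℓ) {α : ι} (hα : α ∈ Jset b ℓ) (c : K) {u : G}
    (hu : u ∈ genU D.x (Aset b ℓ)) : D.y α c * u * (D.y α c)⁻¹ ∈ genU D.x (Aset b ℓ) := by
  exact (D.dec_xy hα.1 (fun _ h => ⟨h.1, fun e => lt_asymm hα.2 (e ▸ h.2)⟩)
    (fun _ h _ _ _ hj e => hs.closed hα h hj e) c hu).2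

end Red

end Pool.Agent.P.MP_0b1ded_al
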