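import Mathlib

/-! The group of points over the algebraic closure of a finite field of a connected reductive group,
with a Borel subgroup, a maximal torus and a pinning, and the category `𝒳(G)`. -/

namespace Pool.Agent.P.MP_0b1ded_al

open Function Matrix

/-- The points `Hom(X, Kˣ)` of the torus with character group `X`. -/
def Tor (K X : Type) [Field K] [AddCommGroup X] : Type := Multiplicative X →* Kˣ

/-- The pointwise product. -/
instance (K X : Type) [Field K] [AddCommGroup X] : CommGroup (Tor K X) :=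
  MonoidHom.instCommGroup (M := Multiplicative X) (N := Kˣ)

/-- The value of the character `v` at the point `t`. -/
def Tor.val {K X : Type} [Field K] [AddCommGroup X] (t : Tor K X) (v : X) : Kˣ :=
  (show Multiplicative X →* Kˣ from t) (Multiplicative.ofAdd v)

section matrices

variable {K : Type} [Field K]

/-- The upper unitriangular matrix with entry `c`. -/
def upM (c : K) : SpecialLinearGroup (Fin 2) K := ⟨!![1, c; 0, 1], by simp [det_fin_two]⟩

/-- The lower unitriangular matrix with entry `c`. -/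
def loM (c : K) : SpecialLinearGroup (Fin 2) K := ⟨!![1, 0; c, 1], by simp [det_fin_two]⟩

/-- The diagonal matrix with entries `a`, `a⁻¹`. -/
def diM (a : Kˣ) : SpecialLinearGroup (Fin 2) K :=
  ⟨!![(a : K), 0; 0, ((a⁻¹ : Kˣ) : K)], by simp [det_fin_two]⟩

end matrices

/-- The subgroup generated by the root subgroups `U_β = x β K` with `β ∈ S`. -/
def genU {ι K G : Type*} [Group G] (x : ι → K → G) (S : Set ι) : Subgroup G :=
  Subgroup.closure {g | ∃ β ∈ S, ∃ c, g = x β c}

variable {ι X Y : Type} [AddCommGroup X] [AddCommGroup Y]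

/-- The point `t` of the torus is the value at `a` of the coroot of `β`. -/
def Tor.IsCo {K : Type} [Field K] (t : Tor K X) (P : RootDatum ι X Y) (β : ι) (a : Kˣ) : Prop :=
  ∀ v, t.val v = a ^ P.toLinearMap v (P.coroot β)

/-- The Weyl group of the root datum. -/
def Wey (P : RootDatum ι X Y) : Type := P.weylGroup

/-- The action of the Weyl group on characters. -/
def Wey.act {P : RootDatum ι X Y} (w : Wey P) (v : X) : X := w.1.weightMap v

/-- The action of the Weyl group on roots. -/
def Wey.perm {P : RootDatum ι X Y} (w : Wey P) (β : ι) : ι := w.1.indexEquiv β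

/-- The data attached to the group `G = 𝐆(K)`: the maximal torus `τ : Hom(X, Kˣ) → G`, the root
homomorphisms `x β`, the homomorphisms `φ β` from `SL₂(K)` and a Frobenius endomorphism `F`. -/
structure Pin (K : Type) [Field K] (G : Type*) [Group G] (ι X : Type) [AddCommGroup X] where
  τ : Tor K X →* G
  x : ι → K → G
  φ : ι → SpecialLinearGroup (Fin 2) K →* G
  F : G →* G

namespace Pin

variable {K : Type} [Field K] {G : Type*} [Group G] (D : Pin K G ι X) {P : RootDatum ι X Y}

/-- The torus acts on the root subgroups through the roots, and `F` raises to the power `q`. -/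
structure TorAx (P : RootDatum ι X Y) (q : ℕ) : Prop where
  τ_inj : Injective D.τ
  x_add : ∀ β c d, D.x β (c + d) = D.x β c * D.x β d
  x_inj : ∀ β, Injective (D.x β)
  τ_x : ∀ t β c, D.τ t * D.x β c * (D.τ t)⁻¹ = D.x β (t.val (P.root β) * c)
  F_x : ∀ β c, D.F (D.x β c) = D.x β (c ^ q)
  F_τ : ∀ t, D.F (D.τ t) = D.τ (t ^ q)

/-- The maps from `SL₂(K)` extend `x β`, `x (-β)` and the coroot. -/
structure Sl2Ax (P : RootDatum ι X Y) : Prop where
  φ_up : ∀ β c, D.φ β (upM c) = D.x β c
  φ_lo : ∀ β c, D.φ β (loM c) = D.x (P.reflectionPerm β β) c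
  φ_di : ∀ β a, ∃ t, D.φ β (diM a) = D.τ t ∧ t.IsCo P β a

/-- Conjugation by `n` acts on `T` and on the root subgroups as the element `w` of the Weyl group:
`v (n⁻¹ t n) = (w v) t` and `n U_β n⁻¹ ⊆ U_(w β)`. -/
def Induces (n : G) (w : Wey P) : Prop :=
  (∀ t, ∃ t', n⁻¹ * D.τ t * n = D.τ t' ∧ ∀ v, t'.val v = t.val (w.act v)) ∧
    ∀ β c, ∃ d, n * D.x β c * n⁻¹ = D.x (w.perm β) d

/-- The unipotent radical `U` of the Borel subgroup `B = T U` of the base `b`. -/
def U (b : P.Base) : Subgroup G := genU D.x {β | b.IsPos β}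

/-- `N_G(T) / T` is the Weyl group, the commutator relations hold, `U` is uniquely the product of
the positive root subgroups in any order, `B ∩ U⁻ = 1`, and `T` and the `U_β` generate `G`. -/
structure GrpAx (b : P.Base) : Prop where
  cent : Subgroup.centralizer (D.τ.range : Set G) ≤ D.τ.range
  norm : ∀ n ∈ Subgroup.normalizer (D.τ.range : Set G), ∃ w : Wey P, D.Induces n w
  comm : ∀ β γ c d, P.root γ ≠ P.root β → P.root γ ≠ -P.root β →
    D.x β c * D.x γ d * (D.x β c)⁻¹ * (D.x γ d)⁻¹ ∈
      genU D.x {δ | ∃ i j : ℕ, 0 < i ∧ 0 < j ∧ P.root δ = i • P.root β + j • P.root γ}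
  prod_surj : ∀ l : List ι, l.Nodup → (∀ β, β ∈ l ↔ b.IsPos β) →
    ∀ u ∈ D.U b, ∃ c : ι → K, u = (l.map fun β => D.x β (c β)).prod
  prod_inj : ∀ l : List ι, l.Nodup → (∀ β, β ∈ l ↔ b.IsPos β) → ∀ c d : ι → K,
    (l.map fun β => D.x β (c β)).prod = (l.map fun β => D.x β (d β)).prod → ∀ β ∈ l, c β = d β
  opp : (D.τ.range ⊔ D.U b) ⊓ genU D.x {β | ¬ b.IsPos β} = ⊥
  gen : D.τ.range ⊔ genU D.x Set.univ = ⊤

/-- The structure of the group `G = 𝐆(K)`, `K` an algebraic closure of `𝔽_p`, of a connected
reductive group `𝐆` with maximal torus `T`, root datum `P` and the base `b` of the Borel subgroup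
`B` (Jantzen, Representations of algebraic groups, II.1.1 to II.1.9; Springer, Linear algebraic
groups, 7.6.4, 8.1.1, 8.1.4, 8.1.12, 8.2.1, 8.2.3, 8.3.11); `F` is a split Frobenius map. -/
def IsRed (p : ℕ) (b : P.Base) : Prop :=
  (∃ m, 0 < m ∧ D.TorAx P (p ^ m)) ∧ D.Sl2Ax P ∧ D.GrpAx b

/-- The subgroup `U'_w` generated by the `U_α` with `α` and `w α` positive. -/
def Uw (b : P.Base) (w : Wey P) : Subgroup G := genU D.x {β | b.IsPos β ∧ b.IsPos (w.perm β)}

variable {k : Type*} [Field k] {M : Type*} [AddCommGroup M] [Module k M]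

/-- The weight space `M_θ`. -/
def wtSpace (ρ : Representation k G M) (θ : Tor K X →* kˣ) : Submodule k M :=
  ⨅ t, Module.End.eigenspace (ρ (D.τ t)) (θ t : k)

/-- The set of weights `𝕏_T(M)`. -/
def wts (ρ : Representation k G M) : Set (Tor K X →* kˣ) := {θ | D.wtSpace ρ θ ≠ ⊥}

/-- The submodule `kU ξ`. -/
def kU (b : P.Base) (ρ : Representation k G M) (ξ : M) : Submodule k M :=
  Submodule.span k {v | ∃ u ∈ D.U b, v = ρ u ξ}

end Pin

section modules

variable {k : Type*} [Field k] {M : Type*} [AddCommGroup M] [Module k M] {G : Type*} [Group G]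

/-- The subspace `W` of `ρ` is isomorphic as a `kG`-module to `π`. -/
def IsIso {V : Type*} [AddCommMonoid V] [Module k V] (π : Representation k G V)
    (ρ : Representation k G M) (W : Submodule k M) : Prop :=
  ∃ e : V →ₗ[k] M, Injective e ∧ LinearMap.range e = W ∧ ∀ g v, e (π g v) = ρ g (e v)

/-- The subspace `W` is isomorphic as a `kU`-module to the permutation module
`k[U / H] = Ind_H^U tr`. -/
def IsInd (ρ : Representation k G M) (W : Submodule k M) (U H : Subgroup G) : Prop :=
  IsIso (Representation.ofMulAction k U (U ⧸ H.subgroupOf U)) (ρ.comp U.subtype) W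

/-- Every homomorphism of `kG`-modules from `ρ` to `μ` vanishes. -/
def NoHom {L : Type*} [AddCommGroup L] [Module k L] (ρ : Representation k G M)
    (μ : Representation k G L) : Prop :=
  ∀ f : ρ.IntertwiningMap μ, f.toLinearMap = 0

/-- The objects of the category `𝒳(G)`: the sum `M_T` of the weight spaces has a finite basis of
weight vectors `ξ i` with `M = ⨁ kU ξ i`, and `kU ξ i` is isomorphic as a `kU`-module to
`Ind_{U'_w}^U tr` for some `w`. -/
def Pin.InX {K : Type} [Field K] (D : Pin K G ι X) {P : RootDatum ι X Y} (b : P.Base)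
    (ρ : Representation k G M) : Prop :=
  ∃ (n : ℕ) (ξ : Fin n → M), LinearIndependent k ξ ∧
    Submodule.span k (Set.range ξ) = ⨆ θ, D.wtSpace ρ θ ∧
    (∀ i, ∃ θ, ξ i ∈ D.wtSpace ρ θ) ∧
    DirectSum.IsInternal (fun i => D.kU b ρ (ξ i)) ∧
    ∀ i, ∃ w : Wey P, IsInd ρ (D.kU b ρ (ξ i)) (D.U b) (D.Uw b w)

end modules

end Pool.Agent.P.MP_0b1ded_al
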