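import Pool.Agent.P.MP_0b1ded_al.FS

/-! A functional on a submodule that embeds a quotient in a monomial module. -/

namespace Pool.Agent.P.MP_0b1ded_al

open Function Filter

variable {ι X Y : Type} [AddCommGroup X] [AddCommGroup Y] {P : RootDatum ι X Y} {b : P.Base}
  {p : ℕ} {K : Type} [Field K] {G : Type*} [Group G] [Finite ι] [P.IsReduced]
  [Fact p.Prime] [CharP K p] [IsAlgClosed K] [Algebra (ZMod p) K] [Algebra.IsAlgebraic (ZMod p) K]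
  [Module.Finite ℤ X]
  {k : Type*} [Field k] [CharZero k] {M : Type*} [AddCommGroup M] [Module k M]

namespace Red

variable {D : Red p K G b} {ρ : Representation k G M} (S : D.Mono ρ)

/-- The functionals that vanish on all `n ε v` with `v ∈ R`. -/
def Mono.dualZ (R : Submodule k M) : Submodule k (M →ₗ[k] k) where
  carrier := {μ | ∀ n : D.N, ∀ v ∈ R, μ (ρ n (S.ε v)) = 0}
  add_mem' ha hb n v hv := by rw [LinearMap.add_apply, ha n v hv, hb n v hv, add_zero]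
  zero_mem' n v hv := rfl
  smul_mem' c μ h n v hv := by rw [LinearMap.smul_apply, h n v hv, smul_zero]

/-- The functionals that vanish on the vectors fixed by a root subgroup of `Aset`. -/
def Mono.dualL (ℓ : X →+ ℤ) (μ : M →ₗ[k] k) : Prop := ∀ β ∈ Aset b ℓ, ∀ ζ ∈ S.Fx β, μ ζ = 0

/-- The functional `μ - μ C(c)`. -/
noncomputable def Mono.dualNu (μ : M →ₗ[k] k) (α : ι) (c : K) : M →ₗ[k] k := μ - μ ∘ₗ S.Cop α c

theorem Mono.dualZ_comp {R : Submodule k M} {μ : M →ₗ[k] k} (h : μ ∈ S.dualZ R) (n : D.N) :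
    μ ∘ₗ ρ n ∈ S.dualZ R := by
  intro m v hv
  rw [LinearMap.comp_apply, rho_rho, ← Subgroup.coe_mul]
  exact h _ v hv

theorem Mono.dualZ_of_comp {R : Submodule k M} {μ : M →ₗ[k] k} (n : D.N)
    (h : μ ∘ₗ ρ n ∈ S.dualZ R) : μ ∈ S.dualZ R := by
  intro m v hv
  have := h (n⁻¹ * m) v hv
  rwa [LinearMap.comp_apply, rho_rho, ← Subgroup.coe_mul, mul_inv_cancel_left] at this

theorem Mono.dualGf_apply (n : D.N) (μ : M →ₗ[k] k) (v : M) :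
    S.Gf n μ v = μ (ρ (n : G)⁻¹ (S.ε (ρ n v))) := rfl

theorem Mono.dualZ_Gf {R : Submodule k M} (hR : ∀ g, ∀ v ∈ R, ρ g v ∈ R) {μ : M →ₗ[k] k}
    (h : μ ∈ S.dualZ R) (n : D.N) {v : M} (hv : v ∈ R) : S.Gf n μ v = 0 :=
  h n⁻¹ _ (hR n v hv)

theorem Mono.dualZ_of_coord {R : Submodule k M} {μ : M →ₗ[k] k}
    (h : ∀ i, μ (S.ξ i) ≠ 0 → S.κ i ∈ S.dualZ R) : μ ∈ S.dualZ R := by
  intro n v hv
  rw [S.eq_sum (S.N_mem_E n (S.ε_mem v)), map_sum]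
  refine Finset.sum_eq_zero fun i _ => ?_
  rw [map_smul]
  by_cases hi : μ (S.ξ i) = 0
  · rw [hi, smul_zero]
  · rw [h i hi n v hv, zero_smul]

theorem Mono.dualL_comp {ℓ : X →+ ℤ} (hs : Stable b ℓ) {μ : M →ₗ[k] k} (h : S.dualL ℓ μ)
    {γ : D.N} (hγ : γ ∈ D.Gam ℓ) : S.dualL ℓ (μ ∘ₗ ρ γ) := fun _ hβ _ hζ =>
  h _ (D.gam_Aset hs hγ hβ) _ (S.N_mem_Fx γ hζ)

theorem Mono.dual_Cop_zero (α : ι) {ζ : M} (hζ : ζ ∈ S.E) : S.Cop α 0 ζ = ζ := by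
  rw [Mono.Cop, LinearMap.comp_apply, D.y_zero, map_one, Module.End.one_apply, S.ε_E hζ]

theorem Mono.dualL_nu {ℓ : X →+ ℤ} (hs : Stable b ℓ) {α : ι} (hα : α ∈ Jset b ℓ)
    {μ : M →ₗ[k] k} (h : S.dualL ℓ μ) (c : K) : S.dualL ℓ (S.dualNu μ α c) := by
  intro β hβ ζ hζ
  rw [Mono.dualNu, LinearMap.sub_apply, LinearMap.comp_apply]
  by_cases hc : c = 0
  · rw [hc, S.dual_Cop_zero α hζ.1, sub_self]
  · have := S.kills_Cop hs hα (Units.mk0 c hc) μ h β hβ ζ hζ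
    rw [Units.val_mk0] at this
    rw [this, h β hβ ζ hζ, sub_self]

theorem Mono.dualNu_ns (μ : M →ₗ[k] k) (α : ι) (c : K) {ζ : M} (hζ : ζ ∈ S.Fx α) :
    (S.dualNu μ α c ∘ₗ ρ (D.ns α)) ζ = 0 := by
  have h := S.N_mem_Fx (D.ns α) hζ
  rw [D.π_ns] at h
  rw [LinearMap.comp_apply, Mono.dualNu, LinearMap.sub_apply, LinearMap.comp_apply,
    S.Cop_of_mem c h, sub_self]

theorem dual_ne {ℓ : X →+ ℤ} {α β : ι} (hα : α ∈ Jset b ℓ) (hβ : β ∈ Aset b ℓ) : β ≠ α := by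
  rintro rfl
  exact lt_asymm hα.2 hβ.2

/-- The data produced by the maximality argument. -/
structure Mono.DualData (R : Submodule k M) (i : Fin S.n) (ℓ : X →+ ℤ) : Prop where
  good : S.κ i ∉ S.dualZ R
  st : Stable b ℓ
  hA : ∀ β, β ∈ Aset b ℓ ↔ b.IsPos β ∧ ¬ b.IsPos (D.π (S.w i) β)
  hJ : ∀ α ∈ Jset b ℓ, b.IsPos (D.π (S.w i) α)
  z1 : ∀ μ, S.dualL ℓ μ → ∀ α ∈ Jset b ℓ, (∀ ζ ∈ S.Fx α, μ ζ = 0) → μ ∈ S.dualZ R

theorem Mono.exists_dualData (R : Submodule k M) (hR : ∀ g, ∀ v ∈ R, ρ g v ∈ R) (hne : R ≠ ⊥) :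
    ∃ i ℓ, S.DualData R i ℓ := by
  choose l hl using fun j => D.exists_ell_N (S.w j)
  have hA : ∀ j β, β ∈ Aset b (-l j) ↔ b.IsPos β ∧ ¬ b.IsPos (D.π (S.w j) β) := by
    intro j β
    refine and_congr_right fun _ => ?_
    rw [AddMonoidHom.neg_apply]
    constructor
    · intro h h'
      have := (hl j β).1 h'
      omega
    · intro h
      have := (hl j β).2 h
      omega
  have hJ : ∀ j, ∀ α ∈ Jset b (-l j), b.IsPos (D.π (S.w j) α) := by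
    intro j α hα
    by_contra h
    have h1 := (hl j α).2 h
    have h2 := hα.2
    rw [AddMonoidHom.neg_apply] at h2
    omega
  obtain ⟨i, h1, h2, h3⟩ := exists_stable (b := b) (fun j => S.κ j ∉ S.dualZ R) (fun j => -l j)
    (by
      intro j β
      rw [AddMonoidHom.neg_apply]
      by_cases h : b.IsPos (D.π (S.w j) β)
      · have := (hl j β).1 h
        omega
      · have := (hl j β).2 h
        omega)
    (by
      by_contra h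
      apply hne
      rw [eq_bot_iff]
      intro v hv
      rw [Submodule.mem_bot]
      refine S.eq_zero fun j u _ => ?_
      have hj : S.κ j ∈ S.dualZ R := by
        by_contra h'
        exact h ⟨j, h'⟩
      rw [S.κ_eq_Gf j]
      exact S.dualZ_Gf hR hj _ (hR u v hv))
    (by
      intro j hj α hα
      have hμ : S.κ j ∘ₗ ρ ((D.ns α)⁻¹ : D.N) ∉ S.dualZ R := fun h => hj (S.dualZ_of_comp _ h)
      obtain ⟨j', e1, e2⟩ : ∃ j', (S.κ j ∘ₗ ρ ((D.ns α)⁻¹ : D.N)) (S.ξ j') ≠ 0 ∧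
          S.κ j' ∉ S.dualZ R := by
        by_contra h
        refine hμ (S.dualZ_of_coord fun i hi => ?_)
        by_contra h'
        exact h ⟨i, hi, h'⟩
      refine ⟨j', e2, fun β hβ => ?_⟩
      have hpos := isPos_refl hα.1 hβ.1 (dual_ne hα hβ)
      refine (hA j' _).2 ⟨hpos, fun h => e1 ?_⟩
      have h4 := S.N_mem_Fx (D.ns α)⁻¹ (S.ξ_mem_Fx hpos h)
      rw [D.π_ns_inv, refl_refl] at h4
      exact S.κ_eq_zero_of_fixed hβ.1 ((hA j β).1 hβ).2 h4.2)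
  refine ⟨i, -l i, h1, h2, hA i, hJ i, ?_⟩
  intro μ hμ α hα hμα
  refine S.dualZ_of_coord fun j hj => ?_
  by_contra hg
  have hpos := b.isPos_of_mem_support hα.1
  have h4 : Aset b (-l i) ⊆ Aset b (-l j) := fun β hβ =>
    (hA j β).2 ⟨hβ.1, fun h => hj (hμ β hβ _ (S.ξ_mem_Fx hβ.1 h))⟩
  have h5 : α ∈ Aset b (-l j) := (hA j α).2 ⟨hpos, fun h => hj (hμα _ (S.ξ_mem_Fx hpos h))⟩
  exact dual_ne hα (h3 j hg h4 h5) rfl

namespace Mono.DualData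

variable {S} {R : Submodule k M} {i : Fin S.n} {ℓ : X →+ ℤ} (H : S.DualData R i ℓ)
include H

theorem κ_mem : S.dualL ℓ (S.κ i) := fun β hβ _ hζ =>
  S.κ_eq_zero_of_fixed hβ.1 ((H.hA β).1 hβ).2 hζ.2

theorem z2 {μ : M →ₗ[k] k} (hμ : S.dualL ℓ μ) {α : ι} (hα : α ∈ Jset b ℓ) (c : K) :
    S.dualNu μ α c ∘ₗ ρ (D.ns α) ∈ S.dualZ R :=
  H.z1 _ (S.dualL_comp H.st (S.dualL_nu H.st hα hμ c) (D.ns_mem_Gam hα)) α hα
    fun _ hζ => S.dualNu_ns μ α c hζ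

theorem z3 {μ : M →ₗ[k] k} (hμ : S.dualL ℓ μ) {α : ι} (hα : α ∈ Jset b ℓ) :
    μ - μ ∘ₗ ρ (D.ns α) ∈ S.dualZ R := by
  have h1 := S.dualZ_of_comp _ (H.z2 hμ hα 1)
  have h2 := H.z2 hμ hα (-1)
  have e : μ - μ ∘ₗ ρ (D.ns α) = S.dualNu μ α 1 - S.dualNu μ α (-1) ∘ₗ ρ (D.ns α) := by
    ext v
    have := S.Cop_nc hα.1 1 v
    rw [D.nc_one, Units.val_one] at this
    simp only [Mono.dualNu, LinearMap.sub_apply, LinearMap.comp_apply, this]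
    ring
  rw [e]
  exact sub_mem h1 h2

theorem z3' {γ : D.N} (hγ : γ ∈ D.Gam ℓ) :
    ∀ μ : M →ₗ[k] k, S.dualL ℓ μ → μ - μ ∘ₗ ρ γ ∈ S.dualZ R := by
  induction hγ using Subgroup.closure_induction with
  | mem n hn =>
    obtain ⟨α, hα, rfl⟩ := hn
    exact fun μ hμ => H.z3 hμ hα
  | one =>
    intro μ _
    have : μ - μ ∘ₗ ρ ((1 : D.N) : G) = 0 := by
      ext v
      simp
    rw [this]
    exact zero_mem _
  | mul g h hg _ ihg ihh =>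
    intro μ hμ
    have e : μ - μ ∘ₗ ρ ((g * h : D.N) : G) =
        (μ - μ ∘ₗ ρ g) + (μ ∘ₗ ρ g - (μ ∘ₗ ρ g) ∘ₗ ρ h) := by
      ext v
      simp only [LinearMap.sub_apply, LinearMap.add_apply, LinearMap.comp_apply, rho_rho,
        Subgroup.coe_mul]
      ring
    rw [e]
    exact add_mem (ihg μ hμ) (ihh _ (S.dualL_comp H.st hμ hg))
  | inv g hg ihg =>
    intro μ hμ
    have e : μ - μ ∘ₗ ρ ((g⁻¹ : D.N) : G) =
        -(μ ∘ₗ ρ ((g⁻¹ : D.N) : G) - (μ ∘ₗ ρ ((g⁻¹ : D.N) : G)) ∘ₗ ρ g) := by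
      ext v
      simp only [LinearMap.sub_apply, LinearMap.neg_apply, LinearMap.comp_apply, rho_rho,
        Subgroup.coe_inv, inv_mul_cancel, map_one, Module.End.one_apply]
      ring
    rw [e]
    exact neg_mem (ihg _ (S.dualL_comp H.st hμ (inv_mem hg)))

theorem up_eq {α : ι} (hα : α ∈ Jset b ℓ) :
    D.Up (S.w i * D.ns α) = D.Up (S.w i) ⊓ D.Ua α := by
  refine D.Up_mul_ns _ hα.1 (H.hJ α hα) fun β hβ hne => ?_
  have hpos := isPos_refl hα.1 hβ hne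
  constructor
  · intro h
    by_contra h'
    have := H.st.2 α hα _ ((H.hA _).2 ⟨hpos, h'⟩)
    rw [refl_refl] at this
    exact ((H.hA _).1 this).2 h
  · intro h
    by_contra h'
    exact ((H.hA _).1 (H.st.2 α hα _ ((H.hA _).2 ⟨hβ, h'⟩))).2 h

theorem x_mem {α : ι} (hα : α ∈ Jset b ℓ) (c : K) : D.x α c ∈ D.Up (S.w i) :=
  mem_genU (S := {β | b.IsPos β ∧ b.IsPos (D.π (S.w i) β)})
    ⟨b.isPos_of_mem_support hα.1, H.hJ α hα⟩ c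

theorem conj_mem_iff {α : ι} (hα : α ∈ Jset b ℓ) {u : G} (hu : u ∈ D.Ua α) :
    (D.ns α : G) * u * (D.ns α : G)⁻¹ ∈ D.Up (S.w i) ↔ u ∈ D.Up (S.w i) := by
  have h1 : u ∈ D.Up (S.w i * D.ns α) ↔ u ∈ D.Up (S.w i) := by
    rw [H.up_eq hα, Subgroup.mem_inf]
    exact and_iff_left hu
  rw [← h1, D.mem_Up_iff, D.mem_Up_iff, Subgroup.coe_mul]
  have e : (S.w i : G) * ((D.ns α : G) * u * (D.ns α : G)⁻¹) * (S.w i : G)⁻¹ =
      (S.w i : G) * D.ns α * u * ((S.w i : G) * D.ns α)⁻¹ := by group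
  rw [e, and_iff_right (D.Ua_le α (D.ns_conj_Ua hα.1 hu)), and_iff_right (D.Ua_le α hu)]

open Classical in
theorem fs_w {μ : M →ₗ[k] k} (hμ : S.dualL ℓ μ) {u : G} (hu : u ∈ D.U) {ζ : M} (hζ : ζ ∈ S.E) :
    S.Gf (S.w i) μ (ρ u ζ) = if u ∈ D.Up (S.w i) then μ ζ else 0 :=
  S.fs _ μ (fun β h1 h2 => hμ β ((H.hA β).2 ⟨h1, h2⟩)) hu hζ

open Classical in
theorem fs_y {μ : M →ₗ[k] k} (hμ : S.dualL ℓ μ) {α : ι} (hα : α ∈ Jset b ℓ) {u : G}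
    (hu : u ∈ D.U) (c : K) {ζ : M} (hζ : ζ ∈ S.E) :
    S.Gf (S.w i) μ (ρ u (ρ (D.y α c) ζ)) = if u ∈ D.Up (S.w i) then μ (S.Cop α c ζ) else 0 := by
  by_cases hc : c = 0
  · rw [hc, S.dual_Cop_zero α hζ, D.y_zero, map_one, Module.End.one_apply, H.fs_w hμ hu hζ]
  obtain ⟨ζ1, h1, ζ2, h2, e⟩ := S.rank0 hα.1 (Units.mk0 c hc) hζ
  rw [Units.val_mk0] at e
  have hx := D.x_mem_U (b.isPos_of_mem_support hα.1) c⁻¹
  have e2 : S.Cop α c ζ = ζ1 + ζ2 := by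
    rw [Mono.Cop, LinearMap.comp_apply, e, map_add, S.ε_U hx, S.ε_E h1, S.ε_E h2]
  rw [e, e2, map_add, map_add, rho_rho, H.fs_w hμ (mul_mem hu hx) h1, H.fs_w hμ hu h2, map_add]
  by_cases h : u ∈ D.Up (S.w i)
  · rw [if_pos h, if_pos h, if_pos (mul_mem h (H.x_mem hα _))]
  · rw [if_neg h, if_neg h, if_neg, add_zero]
    exact fun h' => h ((Subgroup.mul_mem_cancel_right _ (H.x_mem hα _)).1 h')

open Classical in
theorem delta {μ : M →ₗ[k] k} (hμ : S.dualL ℓ μ) {α : ι} (hα : α ∈ Jset b ℓ) {u : G}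
    (hu : u ∈ D.Ua α) (c : K) {ζ : M} (hζ : ζ ∈ S.E) :
    (S.Gf (S.w i) (μ ∘ₗ ρ (D.ns α)) - S.Gf (S.w i) μ ∘ₗ ρ (D.ns α)) (ρ (u * D.x α c) ζ) =
      if u * D.x α c ∈ D.Up (S.w i) then (S.dualNu μ α (-c) ∘ₗ ρ (D.ns α)) ζ else 0 := by
  have hx := D.x_mem_U (b.isPos_of_mem_support hα.1) c
  have e : (D.ns α : G) * (u * D.x α c) =
      (D.ns α : G) * u * (D.ns α : G)⁻¹ * (D.y α (-c) * D.ns α) := by
    rw [← D.ns_mul_x]
    group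
  rw [LinearMap.sub_apply, LinearMap.comp_apply, rho_rho, e,
    ← rho_rho ρ _ (D.y α (-c) * D.ns α), ← rho_rho ρ (D.y α (-c)),
    H.fs_y hμ hα (D.Ua_le α (D.ns_conj_Ua hα.1 hu)) _ (S.N_mem_E _ hζ),
    H.fs_w (S.dualL_comp H.st hμ (D.ns_mem_Gam hα)) (mul_mem (D.Ua_le α hu) hx) hζ]
  by_cases h : u * D.x α c ∈ D.Up (S.w i)
  · rw [if_pos h, if_pos h, if_pos ((H.conj_mem_iff hα hu).2
      ((Subgroup.mul_mem_cancel_right _ (H.x_mem hα _)).1 h))]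
    rfl
  · rw [if_neg h, if_neg h, if_neg, sub_self]
    exact fun h' => h (mul_mem ((H.conj_mem_iff hα hu).1 h') (H.x_mem hα _))

theorem z4 (hR : ∀ g, ∀ v ∈ R, ρ g v ∈ R) {μ : M →ₗ[k] k} (hμ : S.dualL ℓ μ) {α : ι}
    (hα : α ∈ Jset b ℓ) : ∀ v ∈ R,
    (S.Gf (S.w i) (μ ∘ₗ ρ (D.ns α)) - S.Gf (S.w i) μ ∘ₗ ρ (D.ns α)) v = 0 := by
  classical
  refine S.vanish R (D.Up (S.w i * D.ns α)) _ fun u₀ hu₀ => ?_
  obtain ⟨c, u₁, hu₁, rfl⟩ := D.exists_crd hα.1 hu₀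
  have key : ∀ j, ∀ u, (u₁ * D.x α c)⁻¹ * u ∈ D.Up (S.w i * D.ns α) →
      (S.Gf (S.w i) (μ ∘ₗ ρ (D.ns α)) - S.Gf (S.w i) μ ∘ₗ ρ (D.ns α)) (ρ u (S.ξ j)) =
        if u₁ * D.x α c ∈ D.Up (S.w i) then (S.dualNu μ α (-c) ∘ₗ ρ (D.ns α)) (S.ξ j) else 0 := by
    intro j u h
    rw [H.up_eq hα] at h
    have e : u = u₁ * (D.x α c * ((u₁ * D.x α c)⁻¹ * u) * (D.x α c)⁻¹) * D.x α c := by group
    have h1 := H.delta hμ hα (mul_mem hu₁ (D.x_conj_Ua hα.1 c h.2)) c (S.ξ_mem j)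
    rw [← e] at h1
    rw [h1]
    refine if_congr ?_ rfl rfl
    have h2 := Subgroup.mul_mem_cancel_right (y := u₁ * D.x α c) _ h.1
    rwa [mul_inv_cancel_left] at h2
  by_cases h0 : u₁ * D.x α c ∈ D.Up (S.w i)
  · refine ⟨S.Gf (S.w i * D.ns α) (S.dualNu μ α (-c) ∘ₗ ρ (D.ns α)) ∘ₗ ρ (u₁ * D.x α c)⁻¹,
      fun v hv => S.dualZ_Gf hR (H.z2 hμ hα _) _ (hR _ v hv), fun j u hu => ?_⟩
    rw [LinearMap.comp_apply, rho_rho, S.fs _ _ ?_ (mul_mem (inv_mem hu₀) hu) (S.ξ_mem j)]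
    · by_cases h : (u₁ * D.x α c)⁻¹ * u ∈ D.Up (S.w i * D.ns α)
      · rw [if_pos h, if_pos h, key j u h, if_pos h0]
      · rw [if_neg h, if_neg h]
    · intro β h1 h2 ζ hζ
      by_cases hβ : β = α
      · subst hβ
        exact S.dualNu_ns μ β _ hζ
      · rw [map_mul, D.π_ns, Equiv.Perm.mul_apply] at h2
        have h3 := H.st.2 α hα _ ((H.hA _).2 ⟨isPos_refl hα.1 h1 hβ, h2⟩)
        rw [refl_refl] at h3
        exact S.dualL_comp H.st (S.dualL_nu H.st hα hμ _) (D.ns_mem_Gam hα) β h3 ζ hζ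
  · refine ⟨0, fun _ _ => rfl, fun j u _ => ?_⟩
    rw [LinearMap.zero_apply]
    by_cases h : (u₁ * D.x α c)⁻¹ * u ∈ D.Up (S.w i * D.ns α)
    · rw [if_pos h, key j u h, if_neg h0]
    · rw [if_neg h]

theorem κ_ns (hR : ∀ g, ∀ v ∈ R, ρ g v ∈ R) {α : ι} (hα : α ∈ Jset b ℓ) {v : M} (hv : v ∈ R) :
    S.κ i (ρ (D.ns α) v) = S.κ i v := by
  have h1 := H.z4 hR H.κ_mem hα v hv
  have h2 := S.dualZ_Gf hR (H.z3 H.κ_mem hα) (S.w i) hv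
  have h3 := LinearMap.congr_fun (S.κ_eq_Gf i) v
  have h4 := LinearMap.congr_fun (S.κ_eq_Gf i) (ρ (D.ns α) v)
  rw [LinearMap.sub_apply, LinearMap.comp_apply, ← h4, S.dualGf_apply] at h1
  rw [S.dualGf_apply, LinearMap.sub_apply, ← S.dualGf_apply, ← h3] at h2
  linear_combination -h1 - h2

theorem gam_stab (hR : ∀ g, ∀ v ∈ R, ρ g v ∈ R) {γ : D.N} (hγ : γ ∈ D.Gam ℓ) :
    (γ : G) ∈ stabF ρ R hR (S.κ i) := by
  induction hγ using Subgroup.closure_induction with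
  | mem n hn =>
    obtain ⟨α, hα, rfl⟩ := hn
    exact ⟨1, fun v hv => by rw [H.κ_ns hR hα hv, Units.val_one, one_mul]⟩
  | one => exact one_mem _
  | mul g h _ _ ihg ihh => exact mul_mem ihg ihh
  | inv g _ ihg => exact inv_mem ihg

open Classical in
theorem fs_min {m : D.N} (hm : ∀ β, b.IsPos β → β ∉ Aset b ℓ → b.IsPos (D.π m⁻¹ β)) {u : G}
    (hu : u ∈ D.U) {ζ : M} (hζ : ζ ∈ S.E) :
    S.κ i (ρ m (ρ u ζ)) = if u ∈ D.Up (S.w i * m) then S.κ i (ρ m ζ) else 0 := by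
  have h1 := S.fs (S.w i * m) (S.κ i ∘ₗ ρ m) (by
    intro β h1 h2 ζ hζ
    rw [map_mul, Equiv.Perm.mul_apply] at h2
    refine H.κ_mem _ ((H.hA _).2 ⟨?_, h2⟩) _ (S.N_mem_Fx m hζ)
    by_contra h3
    have h4 := hm _ ((isPos_ng _).2 h3) (fun h => ((H.hA _).1 h).2 (by
      rw [D.π_ng]
      exact (isPos_ng _).2 h2))
    rw [D.π_ng, ← Equiv.Perm.mul_apply, ← map_mul, inv_mul_cancel, map_one, Equiv.Perm.one_apply,
      isPos_ng] at h4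
    exact h4 h1) hu hζ
  rw [LinearMap.comp_apply] at h1
  rw [← h1, LinearMap.congr_fun (S.κ_eq_Gf i) (ρ m (ρ u ζ)), S.dualGf_apply, S.dualGf_apply,
    LinearMap.comp_apply, rho_rho ρ m, rho_rho ρ (S.w i), rho_rho ρ m, rho_rho, Subgroup.coe_mul,
    mul_assoc, mul_inv_rev, mul_inv_cancel_left]

theorem nonvan (hR : ∀ g, ∀ v ∈ R, ρ g v ∈ R) : ∃ v ∈ R, S.κ i v ≠ 0 := by
  classical
  by_contra h
  have h0 : ∀ v ∈ R, S.κ i v = 0 := fun v hv => by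
    by_contra h'
    exact h ⟨v, hv, h'⟩
  apply H.good
  intro n v hv
  obtain ⟨γ, hγ, hm⟩ := D.exists_gam_min H.st n
  have h1 := H.z3' hγ _ H.κ_mem n v hv
  have h2 := S.vanish R (D.Up (S.w i * (γ * n))) (S.κ i ∘ₗ ρ (γ * n : D.N) ∘ₗ S.ε)
    (fun u₀ hu₀ => ⟨S.κ i ∘ₗ ρ (γ * n : D.N) ∘ₗ ρ u₀⁻¹, fun v hv => h0 _ (hR _ _ (hR _ v hv)),
      fun j u hu => by
        rw [LinearMap.comp_apply, LinearMap.comp_apply, rho_rho ρ u₀⁻¹,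
          H.fs_min hm (mul_mem (inv_mem hu₀) hu) (S.ξ_mem j), LinearMap.comp_apply,
          LinearMap.comp_apply, S.ε_apply j hu]⟩) v hv
  rw [LinearMap.comp_apply, LinearMap.comp_apply, Subgroup.coe_mul] at h2
  rw [LinearMap.sub_apply, LinearMap.comp_apply, rho_rho, h2, sub_zero] at h1
  exact h1

end Mono.DualData

theorem Mono.dual_conj (i : Fin S.n) {u : G} (hu : u ∈ D.U) (v : M) :
    S.κ i (ρ ((S.w i : G)⁻¹ * u * S.w i) v) = S.κ i v := by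
  rw [LinearMap.congr_fun (S.κ_eq_Gf i) v,
    LinearMap.congr_fun (S.κ_eq_Gf i) (ρ ((S.w i : G)⁻¹ * u * S.w i) v), S.dualGf_apply,
    S.dualGf_apply, rho_rho, mul_assoc, mul_inv_cancel_left, ← rho_rho, S.ε_U hu]

theorem Mono.dual (R : Submodule k M) (hR : ∀ g, ∀ v ∈ R, ρ g v ∈ R) (hne : R ≠ ⊥) :
    ∃ i, (∃ v ∈ R, S.κ i v ≠ 0) ∧
      (∀ u ∈ D.U, ∀ v, S.κ i (ρ ((S.w i : G)⁻¹ * u * S.w i) v) = S.κ i v) ∧
      ∀ v ∈ R, ∃ Z : Finset G, ∀ g, S.κ i (ρ g⁻¹ v) ≠ 0 →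
        ∃ s ∈ Z, s⁻¹ * g ∈ stabF ρ R hR (S.κ i) := by
  classical
  obtain ⟨i, ℓ, H⟩ := S.exists_dualData R hR hne
  refine ⟨i, H.nonvan hR, fun u hu v => S.dual_conj i hu v, fun v hv => ?_⟩
  have hU : ∀ u ∈ D.U, (S.w i : G)⁻¹ * u * S.w i ∈ stabF ρ R hR (S.κ i) := fun u hu =>
    ⟨1, fun v _ => by rw [S.dual_conj i hu, Units.val_one, one_mul]⟩
  have hT : ∀ t, D.τ t ∈ stabF ρ R hR (S.κ i) := fun t => ⟨S.θ i t, fun v _ => S.κ_τ i t v⟩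
  obtain ⟨Z0, hZ0, hZ⟩ := S.exists_finset v
  obtain ⟨Rp, hRp⟩ := D.exists_reps
  refine ⟨(Z0 ×ˢ Rp).image fun z => z.1 * (z.2 : G)⁻¹, fun g hg => ?_⟩
  obtain ⟨u, hu, n, u', hu', e⟩ := D.bruhat ((S.w i : G) * g⁻¹)
  obtain ⟨γ, hγ, hm⟩ := D.exists_gam_min H.st ((S.w i)⁻¹ * n)
  obtain ⟨m, hm'⟩ : ∃ m, m = γ * ((S.w i)⁻¹ * n) := ⟨_, rfl⟩
  rw [← hm'] at hm
  obtain ⟨r, hr, t, ht⟩ := hRp m
  have hσ : (S.w i : G)⁻¹ * u * S.w i * (γ : G)⁻¹ ∈ stabF ρ R hR (S.κ i) :=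
    mul_mem (hU u hu) (inv_mem (H.gam_stab hR hγ))
  have e1 : g⁻¹ = (S.w i : G)⁻¹ * u * S.w i * (γ : G)⁻¹ * ((m : G) * u') := by
    rw [hm', Subgroup.coe_mul, Subgroup.coe_mul, Subgroup.coe_inv, ← inv_mul_cancel_left
      (S.w i : G) g⁻¹, e]
    group
  have h1 : S.κ i (ρ m (ρ u' v)) ≠ 0 := by
    intro h
    apply hg
    obtain ⟨c, hc⟩ := hσ
    rw [e1, ← rho_rho, hc _ (hR _ v hv), ← rho_rho, h, mul_zero]
  obtain ⟨u₀, hu₀, j, hj⟩ := hZ (S.κ i ∘ₗ ρ m ∘ₗ ρ u') h1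
  rw [LinearMap.comp_apply, LinearMap.comp_apply, rho_rho ρ u',
    H.fs_min hm (mul_mem hu' (hZ0 _ hu₀)) (S.ξ_mem j)] at hj
  have h2 : u' * u₀ ∈ D.Up (S.w i * m) := by
    by_contra h
    exact hj (if_neg h)
  have h3 := hU _ ((D.mem_Up_iff _).1 h2).2
  refine ⟨u₀ * (r : G)⁻¹, Finset.mem_image.2 ⟨(u₀, r), Finset.mem_product.2 ⟨hu₀, hr⟩, rfl⟩, ?_⟩
  have h4 := inv_mem (mul_mem (mul_mem hσ h3) (hT t))
  have e2 : (r : G) = (D.τ t)⁻¹ * m := by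
    rw [ht, Subgroup.coe_mul, D.tN_coe, inv_mul_cancel_left]
  have e3 : g = ((S.w i : G)⁻¹ * u * S.w i * (γ : G)⁻¹ * ((m : G) * u'))⁻¹ := by
    rw [← e1, inv_inv]
  refine (congrArg (· ∈ stabF ρ R hR (S.κ i)) ?_).mpr h4
  rw [e3, e2, Subgroup.coe_mul]
  group

end Red

end Pool.Agent.P.MP_0b1ded_al
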