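import Pool.Agent.P.MP_0b1ded_al.Mono

/-! Vectors of Steinberg type, averages and translations. -/

namespace Pool.Agent.P.MP_0b1ded_al

open Function Filter

variable {ι X Y : Type} [AddCommGroup X] [AddCommGroup Y] {P : RootDatum ι X Y} {b : P.Base}
  {p : ℕ} {K : Type} [Field K] {G : Type*} [Group G] [Finite ι] [P.IsReduced]
  [Fact p.Prime] [CharP K p] [IsAlgClosed K] [Algebra (ZMod p) K] [Algebra.IsAlgebraic (ZMod p) K]
  [Module.Finite ℤ X]
  {k : Type*} [Field k] [CharZero k] {M : Type*} [AddCommGroup M] [Module k M]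

namespace Red

variable (D : Red p K G b)

/-- A vector fixed by the root subgroups of `Aset` with the relations of the generator of the
Steinberg module for the simple roots of `Jset`. -/
structure PVec (ρ : Representation k G M) (ℓ : X →+ ℤ) (ξ : M) : Prop where
  fixA : ∀ β ∈ Aset b ℓ, ∀ c, ρ (D.x β c) ξ = ξ
  negn : ∀ α ∈ Jset b ℓ, ∀ c : Kˣ, ρ (D.nc α c) ξ = -ξ
  rel : ∀ α ∈ Jset b ℓ, ∀ c : Kˣ, ρ (D.y α c) ξ = ξ - ρ (D.x α (c : K)⁻¹) ξ

/-- The sum over the points of level `a` of a root subgroup. -/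
noncomputable def xsum (ρ : Representation k G M) (β : ι) (a : ℕ) : Module.End k M :=
  ∑ c : D.Kf a, ρ (D.x β c)

theorem xsum_apply (ρ : Representation k G M) (β : ι) (a : ℕ) (v : M) :
    D.xsum ρ β a v = ∑ c : D.Kf a, ρ (D.x β c) v := LinearMap.sum_apply _ _ _

/-- The alternating sum over `Gam`. -/
noncomputable def eta (ρ : Representation k G M) (ℓ : X →+ ℤ) : Module.End k M :=
  ∑ γ : D.Gam ℓ, (-1 : k) ^ D.ln γ • ρ (γ : D.N)

theorem eta_apply (ρ : Representation k G M) (ℓ : X →+ ℤ) (v : M) :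
    D.eta ρ ℓ v = ∑ γ : D.Gam ℓ, (-1 : k) ^ D.ln γ • ρ (γ : D.N) v := LinearMap.sum_apply _ _ _

/-- The elements of `G` that multiply the restriction of `f` to `R` by a scalar. -/
def stabF (ρ : Representation k G M) (R : Submodule k M) (hR : ∀ g, ∀ v ∈ R, ρ g v ∈ R)
    (f : M →ₗ[k] k) : Subgroup G where
  carrier := {g | ∃ c : kˣ, ∀ v ∈ R, f (ρ g v) = c * f v}
  one_mem' := ⟨1, fun v _ => by simp⟩
  mul_mem' := by
    rintro g h ⟨c, hc⟩ ⟨d, hd⟩
    refine ⟨c * d, fun v hv => ?_⟩
    rw [map_mul, Module.End.mul_apply, hc _ (hR h v hv), hd v hv, Units.val_mul, mul_assoc]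
  inv_mem' := by
    rintro g ⟨c, hc⟩
    refine ⟨c⁻¹, fun v hv => ?_⟩
    have := hc _ (hR g⁻¹ v hv)
    rw [← Module.End.mul_apply, ← map_mul, mul_inv_cancel, map_one, Module.End.one_apply] at this
    rw [this, Units.inv_mul_cancel_left]

end Red

/-- The average over a finite subgroup. -/
noncomputable def avg (ρ : Representation k G M) (H : Subgroup G) [Fintype H] : Module.End k M :=
  (Fintype.card H : k)⁻¹ • ∑ h : H, ρ h

section avg

variable (ρ : Representation k G M) {H : Subgroup G} [Fintype H]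

theorem avg_apply (v : M) : avg ρ H v = (Fintype.card H : k)⁻¹ • ∑ h : H, ρ h v := by
  rw [avg, LinearMap.smul_apply, LinearMap.sum_apply]

theorem avg_of_fixed {v : M} (hv : ∀ h ∈ H, ρ h v = v) : avg ρ H v = v := by
  rw [avg_apply, Finset.sum_congr rfl fun (h : H) _ => hv h h.2, Finset.sum_const, Finset.card_univ,
    ← Nat.cast_smul_eq_nsmul k, inv_smul_smul₀ (Nat.cast_ne_zero.mpr Fintype.card_ne_zero)]

theorem apply_avg {g : G} (hg : g ∈ H) (v : M) : ρ g (avg ρ H v) = avg ρ H v := by
  rw [avg_apply, map_smul, map_sum]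
  congr 1
  refine Fintype.sum_equiv (Equiv.mulLeft (⟨g, hg⟩ : H)) _ _ fun h => ?_
  simp [map_mul]

theorem avg_apply_mem {g : G} (hg : g ∈ H) (v : M) : avg ρ H (ρ g v) = avg ρ H v := by
  rw [avg_apply, avg_apply]
  congr 1
  refine Fintype.sum_equiv (Equiv.mulRight (⟨g, hg⟩ : H)) _ _ fun h => ?_
  simp [map_mul]

theorem avg_comm {g : G} (hg : ∀ h ∈ H, g * h * g⁻¹ ∈ H) (v : M) :
    ρ g (avg ρ H v) = avg ρ H (ρ g v) := by
  rw [avg_apply, avg_apply, map_smul, map_sum]
  congr 1
  let f : H → H := fun h => ⟨g * h * g⁻¹, hg h h.2⟩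
  have hf : Function.Bijective f := Finite.injective_iff_bijective.mp fun h h' e => by
    have := congrArg Subtype.val e
    exact Subtype.ext (by simpa [f] using this)
  refine Fintype.sum_bijective f hf _ _ fun h => ?_
  simp only [f, ← Module.End.mul_apply, ← map_mul, inv_mul_cancel_right]

theorem avg_avg {H' : Subgroup G} [Fintype H'] (h : H' ≤ H) (v : M) :
    avg ρ H (avg ρ H' v) = avg ρ H v := by
  rw [avg_apply ρ (H := H') v, map_smul, map_sum,
    Finset.sum_congr rfl fun (g : H') _ => avg_apply_mem ρ (h g.2) v, Finset.sum_const,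
    Finset.card_univ, ← Nat.cast_smul_eq_nsmul k,
    inv_smul_smul₀ (Nat.cast_ne_zero.mpr Fintype.card_ne_zero)]

theorem map_avg {M' : Type*} [AddCommGroup M'] [Module k M'] (σ : Representation k G M')
    (f : M →ₗ[k] M') (hf : ∀ g v, f (ρ g v) = σ g (f v)) (v : M) :
    f (avg ρ H v) = avg σ H (f v) := by
  simp only [avg_apply, map_smul, map_sum, hf]

end avg

/-- Right translation in the first variable. -/
def rt1 (k G V : Type*) [Field k] [Group G] [AddCommGroup V] [Module k V] :
    Representation k G (G × G → V) where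
  toFun a := LinearMap.funLeft k V fun z => (z.1 * a, z.2)
  map_one' := by ext; simp
  map_mul' a c := by ext; simp [mul_assoc]

/-- Right translation in the second variable. -/
def rt2 (k G V : Type*) [Field k] [Group G] [AddCommGroup V] [Module k V] :
    Representation k G (G × G → V) where
  toFun a := LinearMap.funLeft k V fun z => (z.1, z.2 * a)
  map_one' := by ext; simp
  map_mul' a c := by ext; simp [mul_assoc]

theorem rt1_apply (a : G) (Φ : G × G → M) (z : G × G) : rt1 k G M a Φ z = Φ (z.1 * a, z.2) := rfl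

theorem rt2_apply (a : G) (Φ : G × G → M) (z : G × G) : rt2 k G M a Φ z = Φ (z.1, z.2 * a) := rfl

namespace Red

end Red

end Pool.Agent.P.MP_0b1ded_al
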