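import Pool.Agent.P.MP_0b1ded_al.Rank1
import Pool.Agent.P.MP_0b1ded_al.PVec

/-! Functionals with finite support. -/

namespace Pool.Agent.P.MP_0b1ded_al

open Function Filter

variable {ι X Y : Type} [AddCommGroup X] [AddCommGroup Y] {P : RootDatum ι X Y} {b : P.Base}
  {p : ℕ} {K : Type} [Field K] {G : Type*} [Group G] [Finite ι] [P.IsReduced]
  [Fact p.Prime] [CharP K p] [IsAlgClosed K] [Algebra (ZMod p) K] [Algebra.IsAlgebraic (ZMod p) K]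
  [Module.Finite ℤ X]
  {k : Type*} [Field k] [CharZero k] {M : Type*} [AddCommGroup M] [Module k M]

namespace Red

variable {D : Red p K G b} {ρ : Representation k G M} (S : D.Mono ρ)

/-- The operator `C(c) = ε y(c)`. -/
noncomputable def Mono.Cop (α : ι) (c : K) : M →ₗ[k] M := S.ε ∘ₗ ρ (D.y α c)

/-- The functional `μ n⁻¹ ε n`. -/
noncomputable def Mono.Gf (n : D.N) (μ : M →ₗ[k] k) : M →ₗ[k] k :=
  μ ∘ₗ ρ (n : G)⁻¹ ∘ₗ S.ε ∘ₗ ρ n

theorem fsx_π_nc_inv (D : Red p K G b) (α : ι) (c : Kˣ) :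
    D.π (D.nc α c)⁻¹ = P.reflectionPerm α := by
  rw [← D.nc_neg, D.π_nc]

theorem Mono.fsx_dE {α : ι} (hα : α ∈ b.support) (c : Kˣ) {ζ : M} (hζ : ζ ∈ S.E) :
    ρ (D.y α c) ζ - ρ (D.x α (c : K)⁻¹) (ρ (D.nc α c) ζ) ∈ S.E := by
  have := add_mem (S.rank1 hα c hζ).1 hζ
  rwa [sub_add_cancel] at this

theorem Mono.fsx_Cop_eq {α : ι} (hα : α ∈ b.support) (c : Kˣ) {ζ : M} (hζ : ζ ∈ S.E) :
    S.Cop α c ζ = ρ (D.nc α c) ζ +
      (ρ (D.y α c) ζ - ρ (D.x α (c : K)⁻¹) (ρ (D.nc α c) ζ)) := by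
  have h1 := S.ε_E (S.fsx_dE hα c hζ)
  rw [map_sub, S.ε_U (D.x_mem_U (b.isPos_of_mem_support hα) _), S.ε_E (S.N_mem_E _ hζ)] at h1
  rw [← h1, Mono.Cop, LinearMap.comp_apply]
  abel

theorem Mono.fsx_Gf_apply (n : D.N) (μ : M →ₗ[k] k) (v : M) :
    S.Gf n μ v = μ (ρ (n : G)⁻¹ (S.ε (ρ n v))) := rfl

theorem Mono.Cop_mem {α : ι} (hα : α ∈ b.support) (c : Kˣ) {ζ : M} (hζ : ζ ∈ S.E) :
    S.Cop α c ζ ∈ S.Fx (ng P α) := by
  rw [S.fsx_Cop_eq hα c hζ]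
  have hd := S.fsx_dE hα c hζ
  have hyd : ρ (D.y α (-(c : K))) (ρ (D.y α c) ζ - ρ (D.x α (c : K)⁻¹) (ρ (D.nc α c) ζ)) =
      ζ - ρ (D.x α (-(c : K)⁻¹)) ζ := by
    rw [map_sub, rho_rho, rho_rho, rho_rho, D.y_x_nc, D.y_neg, inv_mul_cancel, map_one,
      Module.End.one_apply]
  generalize ρ (D.y α c) ζ - ρ (D.x α (c : K)⁻¹) (ρ (D.nc α c) ζ) = d at hd hyd ⊢
  have hd' := S.fsx_dE hα (-c) hd
  rw [Units.val_neg, inv_neg, hyd] at hd'
  have h1 : ρ (D.x α (-(c : K)⁻¹)) (ζ + ρ (D.nc α (-c)) d) ∈ S.E := by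
    have := sub_mem hζ hd'
    convert this using 1
    rw [map_add]
    abel
  have h2 := S.mem_Fx_of_x_mem (b.isPos_of_mem_support hα)
    (neg_ne_zero.mpr (inv_ne_zero c.ne_zero)) (add_mem hζ (S.N_mem_E _ hd)) h1
  have h3 := S.N_mem_Fx (D.nc α c) h2
  rwa [D.π_nc, map_add, rho_rho, D.nc_neg, Subgroup.coe_inv, mul_inv_cancel, map_one,
    Module.End.one_apply] at h3

theorem Mono.Cop_of_mem {α : ι} (c : K) {ζ : M} (hζ : ζ ∈ S.Fx (ng P α)) : S.Cop α c ζ = ζ := by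
  rw [Mono.Cop, LinearMap.comp_apply, y, hζ.2 c, S.ε_E hζ.1]

theorem Mono.Cop_nc {α : ι} (hα : α ∈ b.support) (c : Kˣ) (v : M) :
    S.Cop α (-c) (ρ (D.nc α c) v) = S.Cop α c v := by
  rw [Mono.Cop, Mono.Cop, LinearMap.comp_apply, LinearMap.comp_apply, rho_rho, D.y_nc, ← rho_rho,
    S.ε_U (D.x_mem_U (b.isPos_of_mem_support hα) _)]

open Classical in
theorem Mono.fs (n : D.N) (μ : M →ₗ[k] k)
    (hμ : ∀ β, b.IsPos β → ¬ b.IsPos (D.π n β) → ∀ ζ ∈ S.Fx β, μ ζ = 0)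
    {u : G} (hu : u ∈ D.U) {ζ : M} (hζ : ζ ∈ S.E) :
    S.Gf n μ (ρ u ζ) = if u ∈ D.Up n then μ ζ else 0 := by
  have hpos : ∀ (n : D.N) (μ : M →ₗ[k] k) {u : G}, u ∈ D.Up n → ∀ {ζ : M}, ζ ∈ S.E →
      S.Gf n μ (ρ u ζ) = μ ζ := by
    intro n μ u hu ζ hζ
    have e : (n : G) * u = (n : G) * u * (n : G)⁻¹ * n := by group
    rw [Mono.fsx_Gf_apply, rho_rho, e, ← rho_rho, S.ε_U ((D.mem_Up_iff n).mp hu).2,
      S.ε_E (S.N_mem_E n hζ), rho_rho, inv_mul_cancel, map_one, Module.End.one_apply]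
  induction h : D.ln n generalizing n μ u ζ with
  | zero =>
    obtain ⟨t, rfl⟩ := D.eq_tN_of_ln n h
    have hu' : u ∈ D.Up (D.tN t) := by
      rw [D.Up_eq, D.π_tN]
      exact genU_mono (S := {β | b.IsPos β}) (fun β hβ => And.intro hβ hβ) hu
    rw [if_pos hu', hpos _ μ hu' hζ]
  | succ m ih =>
    by_cases hu' : u ∈ D.Up n
    · rw [if_pos hu', hpos n μ hu' hζ]
    rw [if_neg hu']
    obtain ⟨α, hα, hneg⟩ := D.exists_simple_of_ln n (by omega)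
    have hαp := b.isPos_of_mem_support hα
    have hl := D.ln_mul_ns_inv_neg n hα hneg
    have hπ : ∀ β, D.π (n * (D.ns α)⁻¹) β = D.π n (P.reflectionPerm α β) := by
      intro β
      rw [map_mul, D.π_ns_inv, Equiv.Perm.mul_apply]
    have hα' : b.IsPos (D.π (n * (D.ns α)⁻¹) α) := by
      rw [hπ, D.π_ng, isPos_ng]
      exact hneg
    have hμ' : ∀ β, b.IsPos β → ¬ b.IsPos (D.π (n * (D.ns α)⁻¹) β) → ∀ ζ ∈ S.Fx β,
        (μ ∘ₗ ρ ((D.ns α)⁻¹ : D.N)) ζ = 0 := by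
      intro β hβ hβ' ζ hζ
      have hne : β ≠ α := by
        rintro rfl
        exact hβ' hα'
      have h1 := S.N_mem_Fx (D.ns α)⁻¹ hζ
      rw [D.π_ns_inv] at h1
      rw [hπ] at hβ'
      exact hμ _ (isPos_refl hα hβ hne) hβ' _ h1
    have hG : ∀ v, S.Gf n μ v =
        S.Gf (n * (D.ns α)⁻¹) (μ ∘ₗ ρ ((D.ns α)⁻¹ : D.N)) (ρ (D.ns α) v) := by
      intro v
      rw [Mono.fsx_Gf_apply, Mono.fsx_Gf_apply, LinearMap.comp_apply, rho_rho, rho_rho]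
      congr 4
      · simp only [Subgroup.coe_mul, Subgroup.coe_inv]
        congr 1
        group
      · simp only [Subgroup.coe_mul, Subgroup.coe_inv]
        group
    have ih' := fun u hu ζ hζ =>
      ih (n * (D.ns α)⁻¹) (μ ∘ₗ ρ ((D.ns α)⁻¹ : D.N)) hμ' (u := u) hu (ζ := ζ) hζ (by omega)
    obtain ⟨c, u₁, hu₁, rfl⟩ := D.exists_crd hα hu
    have hu₂ := D.Ua_le α (D.ns_conj_Ua hα hu₁)
    have hζ₀ := S.N_mem_E (D.ns α) hζ
    have e : (D.ns α : G) * (u₁ * D.x α c) =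
        (D.ns α : G) * u₁ * (D.ns α : G)⁻¹ * (D.y α (-c) * D.ns α) := by
      rw [← D.ns_mul_x]
      group
    rw [hG, rho_rho, e, ← rho_rho, ← rho_rho ρ (D.y α (-c))]
    by_cases hc : c = 0
    · subst hc
      rw [neg_zero, D.y_zero, map_one, Module.End.one_apply, ih' _ hu₂ _ hζ₀, if_neg]
      intro h2
      apply hu'
      rw [D.x_zero, mul_one, D.mem_Up_iff]
      refine ⟨D.Ua_le α hu₁, ?_⟩
      convert ((D.mem_Up_iff _).mp h2).2 using 1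
      simp only [Subgroup.coe_mul, Subgroup.coe_inv]
      group
    · have hc' : -c = ((Units.mk0 (-c) (neg_ne_zero.mpr hc) : Kˣ) : K) := rfl
      generalize Units.mk0 (-c) (neg_ne_zero.mpr hc) = c' at hc'
      rw [hc']
      have hd := S.fsx_dE hα c' hζ₀
      have hC := S.Cop_mem hα c' hζ₀
      rw [S.fsx_Cop_eq hα c' hζ₀] at hC
      have h1 := S.N_mem_E (D.nc α c') hζ₀
      have e2 : ρ (D.y α c') (ρ (D.ns α) ζ) =
          ρ (D.x α (c' : K)⁻¹) (ρ (D.nc α c') (ρ (D.ns α) ζ)) +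
            (ρ (D.y α c') (ρ (D.ns α) ζ) -
              ρ (D.x α (c' : K)⁻¹) (ρ (D.nc α c') (ρ (D.ns α) ζ))) := by abel
      generalize ρ (D.y α c') (ρ (D.ns α) ζ) -
        ρ (D.x α (c' : K)⁻¹) (ρ (D.nc α c') (ρ (D.ns α) ζ)) = d at hd hC e2
      generalize ρ (D.nc α c') (ρ (D.ns α) ζ) = z at hC e2 h1
      have hx : D.x α (c' : K)⁻¹ ∈ D.Up (n * (D.ns α)⁻¹) :=
        (D.x_mem_Up _ hαp (inv_ne_zero c'.ne_zero)).mpr hα'
      rw [e2, map_add, map_add, rho_rho, ih' _ (mul_mem hu₂ (D.x_mem_U hαp _)) _ h1,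
        ih' _ hu₂ _ hd]
      by_cases h2 : (D.ns α : G) * u₁ * (D.ns α : G)⁻¹ ∈ D.Up (n * (D.ns α)⁻¹)
      · rw [if_pos (mul_mem h2 hx), if_pos h2, ← map_add, LinearMap.comp_apply]
        have h3 := S.N_mem_Fx (D.ns α)⁻¹ hC
        rw [D.π_ns_inv, refl_refl] at h3
        exact hμ α hαp hneg _ h3
      · rw [if_neg h2, if_neg fun h3 => h2 ((Subgroup.mul_mem_cancel_right _ hx).mp h3), add_zero]

theorem Mono.κ_eq_Gf (i : Fin S.n) : S.κ i = S.Gf (S.w i) (S.κ i) := by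
  classical
  refine S.hom_ext fun j u hu => ?_
  rw [S.κ_E i hu (S.ξ_mem j), S.fs (S.w i) (S.κ i)
    (fun β hβ hβ' ζ hζ => S.κ_eq_zero_of_fixed hβ hβ' hζ.2) hu (S.ξ_mem j)]

theorem Mono.kills_Cop {ℓ : X →+ ℤ} (hs : Stable b ℓ) {α : ι} (hα : α ∈ Jset b ℓ) (c : Kˣ)
    (μ : M →ₗ[k] k) (hμ : ∀ β ∈ Aset b ℓ, ∀ ζ ∈ S.Fx β, μ ζ = 0) :
    ∀ β ∈ Aset b ℓ, ∀ ζ ∈ S.Fx β, μ (S.Cop α c ζ) = 0 := by
  classical
  intro β hβ ζ hζ
  have hαp := b.isPos_of_mem_support hα.1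
  have hβ' := hs.2 α hα β hβ
  have key : ∀ j, b.IsPos (D.π (S.w j) β) → μ (S.Cop α c (S.ξ j)) = 0 := by
    intro j hj
    have h1 := S.N_mem_Fx (D.nc α c) (S.ξ_mem_Fx hβ.1 hj)
    rw [D.π_nc] at h1
    have h0 := hμ _ hβ' _ h1
    rw [S.fsx_Cop_eq hα.1 c (S.ξ_mem j), map_add, h0, zero_add]
    by_cases hjα : b.IsPos (D.π (S.w j) α)
    · rw [D.y_eq, ← rho_rho, ← rho_rho, (S.ξ_mem_Fx hαp hjα).2, sub_self, map_zero]
    obtain ⟨ℓ', hℓ'⟩ := D.exists_ell_N (S.w j)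
    have hv : ∀ d, ρ (D.x β d) (ρ (D.y α c) (S.ξ j)) = ρ (D.y α c) (S.ξ j) := by
      intro d
      have h2 := D.x_conj_genU (ng P α) (-(c : K))
        (S := {γ | γ ∈ Aset b ℓ ∧ b.IsPos (D.π (S.w j) γ)})
        (fun γ hγ => by
          rw [root_ng, neg_neg]
          constructor
          · intro h
            rw [← root_ng] at h
            have h3 := hγ.1.1
            rw [P.root.injective h, isPos_ng] at h3
            exact h3 hαp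
          · intro h
            have h3 := hγ.1.2
            rw [h] at h3
            exact lt_asymm h3 hα.2)
        (fun γ hγ δ i j' hi hj' hδ => by
          rw [root_ng] at hδ
          refine ⟨hs.closed hα hγ.1 (i := -(i : ℤ)) hj' (by rw [hδ]; simp), ?_⟩
          by_contra hn
          have h3 := (hℓ' δ).2 hn
          have h4 := (hℓ' γ).1 hγ.2
          have h5 := (hℓ' α).2 hjα
          rw [hδ, map_add, map_nsmul, map_nsmul, map_neg, nsmul_eq_mul, nsmul_eq_mul] at h3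
          have h6 : (0 : ℤ) < (i : ℤ) * -ℓ' (P.root α) :=
            mul_pos (by exact_mod_cast hi) (neg_pos.mpr h5)
          have h7 : (0 : ℤ) < (j' : ℤ) * ℓ' (P.root γ) := mul_pos (by exact_mod_cast hj') h4
          omega)
        (mem_genU (S := {γ | γ ∈ Aset b ℓ ∧ b.IsPos (D.π (S.w j) γ)}) ⟨hβ, hj⟩ d)
      have h3 : D.x (ng P α) (-(c : K)) * D.x β d * (D.x (ng P α) (-(c : K)))⁻¹ ∈ D.Up (S.w j) :=
        genU_mono (fun γ hγ => And.intro hγ.1.1 hγ.2) h2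
      rw [D.x_neg, inv_inv] at h3
      have e : D.x β d * D.y α c =
          D.y α c * ((D.x (ng P α) c)⁻¹ * D.x β d * D.x (ng P α) c) := by
        rw [y]
        group
      rw [rho_rho, e, ← rho_rho, S.fix j h3]
    rw [S.eq_sum (S.fsx_dE hα.1 c (S.ξ_mem j)), map_sum]
    refine Finset.sum_eq_zero fun i _ => ?_
    rw [map_smul, smul_eq_mul]
    by_cases hi : μ (S.ξ i) = 0
    · rw [hi, mul_zero]
    have hA : ∀ γ ∈ Aset b ℓ, ¬ b.IsPos (D.π (S.w i) γ) := fun γ hγ h =>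
      hi (hμ γ hγ _ (S.ξ_mem_Fx hγ.1 h))
    rw [map_sub, S.κ_eq_zero_of_fixed hβ.1 (hA β hβ) hv, S.κ_E i (D.x_mem_U hαp _) h1.1,
      S.κ_eq_zero_of_fixed hβ'.1 (hA _ hβ') h1.2, ite_self, sub_zero, zero_mul]
  rw [S.eq_sum hζ.1, map_sum, map_sum]
  refine Finset.sum_eq_zero fun j _ => ?_
  rw [map_smul, map_smul, smul_eq_mul]
  by_cases hj : b.IsPos (D.π (S.w j) β)
  · rw [key j hj, mul_zero]
  · rw [S.κ_eq_zero_of_fixed hβ.1 hj hζ.2, zero_mul]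

end Red

end Pool.Agent.P.MP_0b1ded_al
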