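import Pool.Agent.P.MP_0b1ded_al.PVec

/-! Hecke relations. -/

namespace Pool.Agent.P.MP_0b1ded_al

open Function Filter

variable {ι X Y : Type} [AddCommGroup X] [AddCommGroup Y] {P : RootDatum ι X Y} {b : P.Base}
  {p : ℕ} {K : Type} [Field K] {G : Type*} [Group G] [Finite ι] [P.IsReduced]
  [Fact p.Prime] [CharP K p] [IsAlgClosed K] [Algebra (ZMod p) K] [Algebra.IsAlgebraic (ZMod p) K]
  [Module.Finite ℤ X]
  {k : Type*} [Field k] [CharZero k] {M : Type*} [AddCommGroup M] [Module k M]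

namespace Red

variable (D : Red p K G b) (ρ : Representation k G M)

theorem x_mem_Ul {α : ι} (hα : α ∈ b.support) {a : ℕ} {c : K} (hc : c ∈ D.Kf a) :
    D.x α c ∈ D.Ul a :=
  ⟨D.x_mem_U (b.isPos_of_mem_support hα) c, D.x_mem_Fix.2 hc⟩

theorem UaF_le (α : ι) (a : ℕ) : D.Ua α ⊓ D.Fix a ≤ D.Ul a := inf_le_inf_right _ (D.Ua_le α)

/-- The points of level `a` of the group `Ua` form a finite group. -/
@[reducible] noncomputable def fintypeUaF (α : ι) (a : ℕ) : Fintype ↥(D.Ua α ⊓ D.Fix a) :=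
  have : Finite ↥(D.Ua α ⊓ D.Fix a) :=
    Finite.of_injective _ (Subgroup.inclusion_injective (D.UaF_le α a))
  Fintype.ofFinite _

theorem conj_UaF {α : ι} {a : ℕ} {g : G} (hg : g ∈ D.Fix a)
    (h : ∀ u ∈ D.Ua α, g * u * g⁻¹ ∈ D.Ua α) :
    ∀ u ∈ D.Ua α ⊓ D.Fix a, g * u * g⁻¹ ∈ D.Ua α ⊓ D.Fix a := fun u hu =>
  Subgroup.mem_inf.2 ⟨h u hu.1, mul_mem (mul_mem hg (Subgroup.mem_inf.1 hu).2) (inv_mem hg)⟩

theorem x_xsum (α : ι) {a : ℕ} {c : K} (hc : c ∈ D.Kf a) (v : M) :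
    ρ (D.x α c) (D.xsum ρ α a v) = D.xsum ρ α a v := by
  rw [xsum_apply, map_sum]
  refine Fintype.sum_equiv (Equiv.addLeft (⟨c, hc⟩ : D.Kf a)) _ _ fun d => ?_
  rw [rho_rho, ← D.x_add]
  rfl

theorem fixed_Ul {α : ι} (hα : α ∈ b.support) {a : ℕ} {v : M}
    (hv : ∀ u ∈ D.Ua α ⊓ D.Fix a, ρ u v = v) (hx : ∀ c ∈ D.Kf a, ρ (D.x α c) v = v) :
    ∀ u ∈ D.Ul a, ρ u v = v := by
  intro u hu
  obtain ⟨c, hc, u₁, h₁, rfl⟩ := D.exists_crd_lev hα hu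
  rw [← rho_rho, hx c hc, hv u₁ h₁]

theorem xsum_reindex {α : ι} {a : ℕ} (w z : M) (f : D.Kf a → M) (h0 : f 0 = w + z)
    (h1 : ∀ c : D.Kf a, c ≠ 0 → f c = ρ (D.x α (-(c : K))⁻¹) w) :
    ∑ c, f c = D.xsum ρ α a w + z := by
  classical
  have h2 : ∀ c : D.Kf a, f c = ρ (D.x α (-(c : K))⁻¹) w + if c = 0 then z else 0 := by
    intro c
    split_ifs with h
    · rw [h, h0]
      simp [D.x_zero]
    · rw [h1 c h, add_zero]
  rw [Finset.sum_congr rfl fun c _ => h2 c, Finset.sum_add_distrib, Finset.sum_ite_eq' _ (0 : D.Kf a),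
    if_pos (Finset.mem_univ _), xsum_apply]
  refine congrArg (· + z) ?_
  exact Fintype.sum_equiv ((Equiv.neg (D.Kf a)).trans (Equiv.inv (D.Kf a))) _ _ fun c => rfl

theorem avg_Ul_xsum {α : ι} (hα : α ∈ b.support) (a : ℕ) (v : M) :
    avg ρ (D.Ul a) (D.xsum ρ α a v) = (Fintype.card (D.Kf a) : k) • avg ρ (D.Ul a) v := by
  rw [xsum_apply, map_sum, Finset.sum_congr rfl fun (c : D.Kf a) _ =>
    avg_apply_mem ρ (D.x_mem_Ul hα c.2) v, Finset.sum_const, Finset.card_univ,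
    Nat.cast_smul_eq_nsmul]

theorem avg_Ul_eq {α : ι} (hα : α ∈ b.support) (a : ℕ) {v : M}
    (hv : ∀ u ∈ D.Ua α ⊓ D.Fix a, ρ u v = v) :
    avg ρ (D.Ul a) v = (Fintype.card (D.Kf a) : k)⁻¹ • D.xsum ρ α a v := by
  have h : ∀ u ∈ D.Ul a, ρ u (D.xsum ρ α a v) = D.xsum ρ α a v := by
    refine D.fixed_Ul ρ hα (fun u hu => ?_) fun c hc => D.x_xsum ρ α hc v
    rw [xsum_apply, map_sum]
    refine Finset.sum_congr rfl fun c _ => ?_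
    have h1 := hv _ (D.conj_UaF (D.x_mem_Fix.2 (neg_mem c.2)) (fun u hu => D.x_conj_Ua hα _ hu) u hu)
    rw [rho_rho, show u * D.x α c = D.x α c * (D.x α (-c) * u * (D.x α (-c))⁻¹) by
      rw [D.x_neg]; group, ← rho_rho, h1]
  rw [← avg_of_fixed ρ h, avg_Ul_xsum D ρ hα,
    inv_smul_smul₀ (Nat.cast_ne_zero.mpr Fintype.card_ne_zero)]

theorem hk_step {α : ι} (hα : α ∈ b.support) (a : ℕ) (n : D.N) (hn : (n : G) ∈ D.Fix a)
    (hpos : b.IsPos (D.π n⁻¹ α)) {z : M} (hz : ∀ u ∈ D.Ul a, ρ u z = z) :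
    avg ρ (D.Ul a) (ρ (D.ns α * n : D.N) z) =
      (Fintype.card (D.Kf a) : k)⁻¹ • D.xsum ρ α a (ρ (D.ns α) (avg ρ (D.Ul a) (ρ n z))) := by
  let _ := D.fintypeUaF α a
  set H := D.Ua α ⊓ D.Fix a with hH
  have h1 : ∀ c ∈ D.Kf a, ρ (D.x α c) (ρ n z) = ρ n z := by
    intro c hc
    obtain ⟨d, hd⟩ := D.N_conj_x n⁻¹ α c
    have h2 : ((n⁻¹ : D.N) : G) * D.x α c * ((n⁻¹ : D.N) : G)⁻¹ ∈ D.Ul a :=
      Subgroup.mem_inf.2 ⟨hd ▸ D.x_mem_U hpos d,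
        mul_mem (mul_mem (inv_mem hn) (D.x_mem_Fix.2 hc)) (inv_mem (inv_mem hn))⟩
    rw [rho_rho, show D.x α c * n = n * (((n⁻¹ : D.N) : G) * D.x α c * ((n⁻¹ : D.N) : G)⁻¹) by
      rw [Subgroup.coe_inv]; group, ← rho_rho, hz _ h2]
  have h2 : avg ρ (D.Ul a) (ρ n z) = avg ρ H (ρ n z) := by
    rw [← avg_avg ρ (D.UaF_le α a)]
    refine avg_of_fixed ρ (D.fixed_Ul ρ hα (fun u hu => apply_avg ρ hu _) fun c hc => ?_)
    rw [avg_comm ρ (D.conj_UaF (D.x_mem_Fix.2 hc) fun u hu => D.x_conj_Ua hα _ hu), h1 c hc]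
  rw [h2, avg_comm ρ (D.conj_UaF (D.ns_mem_Fix a α) fun u hu => D.ns_conj_Ua hα hu),
    ← D.avg_Ul_eq ρ hα a fun u hu => apply_avg ρ hu _, avg_avg ρ (D.UaF_le α a), rho_rho,
    Subgroup.coe_mul]

theorem ns_fix_sum {α : ι} (a : ℕ) {z : M}
    (hx : ∀ c ∈ D.Kf a, ρ (D.x α c) z = z)
    (hh : ∀ c : Kˣ, (c : K) ∈ D.Kf a → ρ (D.hh α c) z = z) :
    ρ (D.ns α) (z + D.xsum ρ α a (ρ (D.ns α) z)) = z + D.xsum ρ α a (ρ (D.ns α) z) := by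
  have h1 : ρ (D.ns α) (ρ (D.ns α) z) = z := by
    rw [rho_rho, ns_mul_ns]
    exact hh _ (by simp)
  rw [map_add, xsum_apply, map_sum, D.xsum_reindex ρ (α := α) (ρ (D.ns α) z) (z - ρ (D.ns α) z),
    ← xsum_apply]
  · abel
  · simp [D.x_zero, h1]
  · intro c hc
    have hc' : -(c : K) ≠ 0 := neg_ne_zero.2 fun h => hc (Subtype.ext h)
    have h2 := D.y_eq α (Units.mk0 _ hc')
    rw [Units.val_mk0, nc_eq] at h2
    rw [rho_rho, ns_mul_x, ← rho_rho, h1, h2, ← rho_rho, ← rho_rho, ← rho_rho,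
      hx _ (inv_mem (neg_mem c.2)), hh _ (neg_mem c.2)]

theorem eta_eq_zero {ℓ : X →+ ℤ} {α : ι} (hα : α ∈ Jset b ℓ) {v : M} (hv : ρ (D.ns α) v = v) :
    D.eta ρ ℓ v = 0 := by
  have h : D.eta ρ ℓ v = -D.eta ρ ℓ v := by
    rw [eta_apply, ← Finset.sum_neg_distrib]
    refine (Fintype.sum_equiv (Equiv.mulRight (⟨D.ns α, D.ns_mem_Gam hα⟩ : D.Gam ℓ)) _ _
      fun γ => ?_).symm
    show _ = (-1 : k) ^ D.ln (γ * D.ns α) • ρ ((γ : D.N) * D.ns α : D.N) v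
    rw [D.sgn_mul_ns k _ hα.1, Subgroup.coe_mul, ← rho_rho, hv, neg_smul]
  have h2 : (2 : k) • D.eta ρ ℓ v = 0 := by
    rw [two_smul]
    exact add_eq_zero_iff_eq_neg.2 h
  exact (smul_eq_zero.1 h2).resolve_left two_ne_zero

variable {D ρ}

theorem PVec.ns {ℓ : X →+ ℤ} {ξ : M} (h : D.PVec ρ ℓ ξ) {α : ι} (hα : α ∈ Jset b ℓ) :
    ρ (D.ns α) ξ = -ξ := D.nc_one α ▸ h.negn α hα 1

theorem PVec.hh {ℓ : X →+ ℤ} {ξ : M} (h : D.PVec ρ ℓ ξ) {α : ι} (hα : α ∈ Jset b ℓ) (c : Kˣ) :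
    ρ (D.hh α c) ξ = ξ := by
  have h1 := h.negn α hα c⁻¹
  rw [nc_coe, inv_inv, ← rho_rho, h.ns hα, map_neg] at h1
  exact neg_injective h1

theorem PVec.gam {ℓ : X →+ ℤ} {ξ : M} (h : D.PVec ρ ℓ ξ) {γ : D.N} (hγ : γ ∈ D.Gam ℓ) :
    ρ γ ξ = (-1 : k) ^ D.ln γ • ξ := by
  induction hγ using Subgroup.closure_induction_left with
  | one => simp [D.ln_one]
  | mul_left x hx y hy ih =>
    obtain ⟨α, hα, rfl⟩ := hx
    rw [Subgroup.coe_mul, ← rho_rho, ih, map_smul, h.ns hα, D.sgn_ns_mul k _ hα.1, smul_neg,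
      neg_smul]
  | inv_mul_cancel x hx y hy ih =>
    obtain ⟨α, hα, rfl⟩ := hx
    have h1 := D.sgn_ns_mul k ((D.ns α)⁻¹ * y) hα.1
    rw [mul_inv_cancel_left] at h1
    have h2 : ρ ((D.ns α : G))⁻¹ ξ = -ξ := by
      have h3 := congrArg (ρ ((D.ns α : G))⁻¹) (h.ns hα)
      rw [rho_rho, inv_mul_cancel, map_one, Module.End.one_apply, map_neg] at h3
      exact neg_eq_iff_eq_neg.1 h3.symm
    rw [Subgroup.coe_mul, Subgroup.coe_inv, ← rho_rho, ih, map_smul, h2, h1, smul_neg, neg_smul,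
      neg_neg]

theorem PVec.rb {ℓ : X →+ ℤ} {ξ : M} (h : D.PVec ρ ℓ ξ) {α : ι} (hα : α ∈ Jset b ℓ) (a : ℕ) :
    D.xsum ρ α a (ρ (D.ns α) (avg ρ (D.Ul a) ξ)) = -avg ρ (D.Ul a) ξ := by
  let _ := D.fintypeUaF α a
  set H := D.Ua α ⊓ D.Fix a with hH
  set ζ := avg ρ H ξ with hζ
  have h1 : ρ (D.ns α) ζ = -ζ := by
    rw [hζ, avg_comm ρ (D.conj_UaF (D.ns_mem_Fix a α) fun u hu => D.ns_conj_Ua hα.1 hu), h.ns hα,
      map_neg]
  have h2 : ρ (D.ns α) (D.xsum ρ α a ζ) =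
      D.xsum ρ α a ζ - ζ - (Fintype.card (D.Kf a) : k) • ζ := by
    have h3 := D.xsum_reindex ρ (α := α) ζ (-ζ)
      (fun c : D.Kf a => ρ (D.ns α) (ρ (D.x α c) ζ) + ζ) (by simp [D.x_zero, h1]) fun c hc => by
        have hc' : -(c : K) ≠ 0 := neg_ne_zero.2 fun h => hc (Subtype.ext h)
        have h4 := h.rel α hα (Units.mk0 _ hc')
        rw [Units.val_mk0] at h4
        rw [rho_rho, ns_mul_x, ← rho_rho, h1, map_neg, hζ,
          avg_comm ρ (D.conj_UaF (g := D.y α (-(c : K))) (D.x_mem_Fix.2 (neg_mem c.2))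
            fun u hu => D.y_conj_Ua hα.1 _ hu), h4, map_sub,
          avg_comm ρ (D.conj_UaF (D.x_mem_Fix.2 (inv_mem (neg_mem c.2)))
            fun u hu => D.x_conj_Ua hα.1 _ hu)]
        abel
    rw [Finset.sum_add_distrib, ← map_sum, ← xsum_apply, Finset.sum_const, Finset.card_univ,
      ← Nat.cast_smul_eq_nsmul k] at h3
    rw [eq_sub_iff_add_eq, h3, sub_eq_add_neg]
  have h3 : D.xsum ρ α a (D.xsum ρ α a ζ) = (Fintype.card (D.Kf a) : k) • D.xsum ρ α a ζ := by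
    rw [D.xsum_apply ρ α a (D.xsum ρ α a ζ),
      Finset.sum_congr rfl fun (c : D.Kf a) _ => D.x_xsum ρ α c.2 ζ, Finset.sum_const,
      Finset.card_univ, Nat.cast_smul_eq_nsmul]
  rw [← avg_avg ρ (D.UaF_le α a), D.avg_Ul_eq ρ hα.1 a fun u hu => apply_avg ρ hu _, map_smul,
    map_smul, h2, map_sub, map_sub, map_smul, h3, ← smul_neg]
  congr 1
  abel

end Red

end Pool.Agent.P.MP_0b1ded_al
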