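import Pool.Agent.P.MP_0b1ded_al.KTAux

/-! The vanishing theorem for unitary representations. -/

namespace Pool.Agent.P.MP_0b1ded_al

open Function Filter

variable {ι X Y : Type} [AddCommGroup X] [AddCommGroup Y] {P : RootDatum ι X Y} {b : P.Base}
  {p : ℕ} {K : Type} [Field K] {G : Type*} [Group G] [Finite ι] [P.IsReduced]
  [Fact p.Prime] [CharP K p] [IsAlgClosed K] [Algebra (ZMod p) K] [Algebra.IsAlgebraic (ZMod p) K]
  [Module.Finite ℤ X]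
  {V : Type*} [NormedAddCommGroup V] [InnerProductSpace ℂ V]

namespace Red

variable (D : Red p K G b)

/-- Eigenvectors of the finite tori for the character `ψ` are asymptotically orthogonal to every
vector. -/
def Spread (ρ : Representation ℂ G V) (ψ : Tor K X → ℂ) : Prop :=
  ∀ (v : V) (ε : ℝ), 0 < ε → ∀ᶠ a in atTop, ∀ w : V,
    (∀ t, D.τ t ∈ D.Fix a → ρ (D.τ t) w = ψ t • w) → ‖inner ℂ v w‖ ≤ ε * ‖w‖

/-- Restriction to the points of level `a`. -/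
noncomputable def res (V : Type*) [NormedAddCommGroup V] [InnerProductSpace ℂ V] (a : ℕ) :
    (G × G → V) →ₗ[ℂ] PiLp 2 fun _ : D.Gl a × D.Gl a => V :=
  (WithLp.linearEquiv 2 ℂ _).symm.toLinearMap ∘ₗ
    LinearMap.funLeft ℂ V fun z : D.Gl a × D.Gl a => ((z.1 : G), (z.2 : G))

theorem res_apply (a : ℕ) (F : G × G → V) (z : D.Gl a × D.Gl a) :
    D.res V a F z = F (z.1, z.2) := rfl

/-- The norm of the restriction. -/
noncomputable def nr (V : Type*) [NormedAddCommGroup V] [InnerProductSpace ℂ V] (a : ℕ) :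
    Seminorm ℂ (G × G → V) := (normSeminorm ℂ _).comp (D.res V a)

theorem nr_eq (a : ℕ) (F : G × G → V) : D.nr V a F = ‖D.res V a F‖ := rfl

theorem nr_sq (a : ℕ) (F : G × G → V) :
    D.nr V a F ^ 2 = ∑ g : D.Gl a, ∑ g' : D.Gl a, ‖F (g, g')‖ ^ 2 := by
  rw [nr_eq, PiLp.norm_sq_eq_of_L2, Fintype.sum_prod_type]
  rfl

theorem nr_rt1 (a : ℕ) (g : G) (hg : g ∈ D.Gl a) (F : G × G → V) :
    D.nr V a (rt1 ℂ G V g F) = D.nr V a F := by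
  refine (pow_left_inj₀ (apply_nonneg _ _) (apply_nonneg _ _) two_ne_zero).mp ?_
  rw [nr_sq, nr_sq]
  exact Fintype.sum_equiv (Equiv.mulRight (⟨g, hg⟩ : D.Gl a)) _ _ fun _ => rfl

theorem nr_rt2 (a : ℕ) (g : G) (hg : g ∈ D.Gl a) (F : G × G → V) :
    D.nr V a (rt2 ℂ G V g F) = D.nr V a F := by
  refine (pow_left_inj₀ (apply_nonneg _ _) (apply_nonneg _ _) two_ne_zero).mp ?_
  rw [nr_sq, nr_sq]
  exact Finset.sum_congr rfl fun _ _ =>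
    Fintype.sum_equiv (Equiv.mulRight (⟨g, hg⟩ : D.Gl a)) _ _ fun _ => rfl

theorem avg12 (H H' : Subgroup G) [Fintype H] [Fintype H'] (F : G × G → V) :
    avg (rt1 ℂ G V) H (avg (rt2 ℂ G V) H' F) = avg (rt2 ℂ G V) H' (avg (rt1 ℂ G V) H F) :=
  map_avg _ _ _ (fun g v => (map_avg (rt1 ℂ G V) (rt1 ℂ G V) (rt2 ℂ G V g)
    (fun _ _ => rfl) v).symm) F

theorem orth (ρ : Representation ℂ G V) (hiso : ∀ g v, ‖ρ g v‖ = ‖v‖) (θ θ' : Tor K X → ℂ)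
    (hS : ∀ m : D.N, D.Spread ρ fun t => θ t * θ' (D.cj m t)) (a : ℕ) (Ψ : G × G → V) {ε : ℝ}
    (hε : 0 < ε) : ∀ᶠ a' in atTop, ∀ Z : G × G → V,
      (∀ h g g', Z (h * g, h * g') = ρ h (Z (g, g'))) →
      (∀ u ∈ D.Ul a', rt1 ℂ G V u Z = Z) → (∀ u ∈ D.Ul a', rt2 ℂ G V u Z = Z) →
      (∀ t, D.τ t ∈ D.Fix a' → rt1 ℂ G V (D.τ t) Z = θ t • Z) →
      (∀ t, D.τ t ∈ D.Fix a' → rt2 ℂ G V (D.τ t) Z = θ' t • Z) →
      ‖inner ℂ (D.res V a Ψ) (D.res V a Z)‖ ≤ ε * ‖D.res V a Z‖ := by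
  have hc : (0 : ℝ) < Fintype.card (D.Gl a × D.Gl a) := Nat.cast_pos.mpr Fintype.card_pos
  choose u hu m hm u' hu' hb using fun y : D.Gl a × D.Gl a => D.bruhat_lev (y.1⁻¹ * y.2).2
  filter_upwards [eventually_all.mpr fun y : D.Gl a × D.Gl a =>
    hS (m y) (ρ ((y.1 : G) * u y)⁻¹ (Ψ (y.1, y.2))) _ (div_pos hε hc),
    eventually_ge_atTop a] with a' ha haa Z eqv hU1 hU2 hT1 hT2
  rw [PiLp.inner_apply, ← mul_div_cancel₀ ε hc.ne', mul_assoc, ← nsmul_eq_mul, ← Finset.card_univ]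
  refine (norm_sum_le _ _).trans (Finset.sum_le_card_nsmul _ _ _ fun y _ => ?_)
  have e1 : Z (y.1, y.2) = ρ ((y.1 : G) * u y) (Z (1, m y)) := by
    have h1 := congrFun (hU1 _ (D.Ul_mono haa (hu y))) (y.1, y.2)
    have h2 := congrFun (hU2 _ (D.Ul_mono haa (hu' y))) ((y.1 : G) * u y, (y.1 : G) * u y * m y)
    have h3 : (y.1 : G) * u y * m y * u' y = y.2 := by
      have := hb y
      rw [Subgroup.coe_mul, Subgroup.coe_inv] at this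
      rw [mul_assoc, mul_assoc, ← mul_assoc (u y), ← this, mul_inv_cancel_left]
    rw [rt1_apply] at h1
    rw [rt2_apply, h3] at h2
    rw [← eqv, mul_one, ← h2, h1]
  have e2 : ∀ t, D.τ t ∈ D.Fix a' →
      ρ (D.τ t) (Z (1, m y)) = (θ t * θ' (D.cj (m y) t)) • Z (1, m y) := fun t ht => by
    have hm' := D.Fix_mono haa (hm y)
    have h1 := congrFun (hT1 t ht) (1, m y * D.τ (D.cj (m y) t))
    have h2 := congrFun (hT2 (D.cj (m y) t) (by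
      rw [τ_cj]; exact mul_mem (mul_mem (inv_mem hm') ht) hm')) (1, m y)
    rw [rt1_apply, Pi.smul_apply] at h1
    rw [rt2_apply, Pi.smul_apply] at h2
    rw [← eqv, τ_mul_N, mul_smul, ← h2, ← h1, mul_one, one_mul]
  have e3 : ∀ (h : G) (v w : V), inner ℂ v (ρ h w) = inner ℂ (ρ h⁻¹ v) w := fun h v w => by
    have := (⟨ρ h, hiso h⟩ : V →ₗᵢ[ℂ] V).inner_map_map (ρ h⁻¹ v) w
    simpa [rho_rho] using this
  rw [res_apply, res_apply, e1, e3]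
  refine (ha y _ e2).trans (mul_le_mul_of_nonneg_left ?_ (div_pos hε hc).le)
  rw [← hiso ((y.1 : G) * u y), ← e1]
  exact PiLp.norm_apply_le (D.res V a Z) y

theorem kt (ρ : Representation ℂ G V) (hiso : ∀ g v, ‖ρ g v‖ = ‖v‖) {ℓ ℓ' : X →+ ℤ}
    (hs : Stable b ℓ) (hs' : Stable b ℓ') (θ θ' : Tor K X → ℂ) (hθ : ∀ t, ‖θ t‖ = 1)
    (hθ' : ∀ t, ‖θ' t‖ = 1) (Φ : G × G → V)
    (eqv : ∀ h g g', Φ (h * g, h * g') = ρ h (Φ (g, g')))
    (hT1 : ∀ t g g', Φ (g * D.τ t, g') = θ t • Φ (g, g'))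
    (hT2 : ∀ t g g', Φ (g, g' * D.τ t) = θ' t • Φ (g, g'))
    (h1 : D.PVec (rt1 ℂ G V) ℓ Φ) (h2 : D.PVec (rt2 ℂ G V) ℓ' Φ)
    (hS : ∀ m : D.N, D.Spread ρ fun t => θ t * θ' (D.cj m t)) : Φ = 0 := by
  by_contra hne
  obtain ⟨y, hy⟩ := Function.ne_iff.mp hne
  obtain ⟨c, hc⟩ : ∃ c : ℝ, c = Fintype.card (D.Gam ℓ) := ⟨_, rfl⟩
  obtain ⟨c', hc'⟩ : ∃ c : ℝ, c = Fintype.card (D.Gam ℓ') := ⟨_, rfl⟩
  have hc0 : 0 < c := hc ▸ Nat.cast_pos.mpr Fintype.card_pos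
  have hc0' : 0 < c' := hc' ▸ Nat.cast_pos.mpr Fintype.card_pos
  obtain ⟨δ, hδ⟩ : ∃ δ : ℝ, δ = 1 / (8 * c * c') := ⟨_, rfl⟩
  have hδ0 : 0 < δ := by rw [hδ]; positivity
  obtain ⟨a, ⟨ha1, ha2⟩, ha3⟩ := (((D.ev_Gl y.1).and (D.ev_Gl y.2)).and
    ((tendsto_natCast_atTop_atTop (R := ℝ).comp D.tendsto_card_Kf).eventually_ge_atTop
      (30 / δ ^ 2))).exists
  rw [Function.comp_apply, div_le_iff₀ (by positivity)] at ha3
  have c12 : ∀ (H : Subgroup G) [Fintype H] g (F : G × G → V),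
      avg (rt2 ℂ G V) H (rt1 ℂ G V g F) = rt1 ℂ G V g (avg (rt2 ℂ G V) H F) := fun H _ g F =>
    (map_avg (rt2 ℂ G V) (rt2 ℂ G V) (rt1 ℂ G V g) (fun _ _ => rfl) F).symm
  have c21 : ∀ (H : Subgroup G) [Fintype H] g (F : G × G → V),
      avg (rt1 ℂ G V) H (rt2 ℂ G V g F) = rt2 ℂ G V g (avg (rt1 ℂ G V) H F) := fun H _ g F =>
    (map_avg (rt1 ℂ G V) (rt1 ℂ G V) (rt2 ℂ G V g) (fun _ _ => rfl) F).symm
  have p1 := fun a' => h1.map (avg (rt2 ℂ G V) (D.Ul a')) (c12 _)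
  have p2 := fun a' => h2.map (avg (rt1 ℂ G V) (D.Ul a')) (c21 _)
  obtain ⟨Ψ, hΨ⟩ : ∃ Ψ, Ψ = avg (rt1 ℂ G V) (D.Ul a) (avg (rt2 ℂ G V) (D.Ul a) Φ) := ⟨_, rfl⟩
  have hΨ0 : D.res V a Ψ ≠ 0 := fun h0 => by
    obtain ⟨κ, hκ, e1⟩ := (p1 a).dlemma hs a
    obtain ⟨κ', hκ', e2⟩ := h2.dlemma hs' a
    have n1 := seminorm_eta_le (D.nr V a) _ (D.nr_rt1 a) ℓ Ψ
    have n2 := seminorm_eta_le (D.nr V a) _ (D.nr_rt2 a) ℓ' (D.eta (rt1 ℂ G V) ℓ Ψ)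
    rw [nr_eq D a Ψ, h0, norm_zero, mul_zero] at n1
    rw [le_antisymm n1 (apply_nonneg _ _), mul_zero, hΨ, e1, map_smul, e2, smul_smul,
      nr_eq, norm_le_zero_iff] at n2
    have := congrArg (fun F => F (⟨y.1, ha1⟩, ⟨y.2, ha2⟩)) n2
    exact smul_ne_zero (mul_ne_zero hκ hκ') hy this
  obtain ⟨a', hor, haa⟩ := ((D.orth ρ hiso θ θ' hS a Ψ
    (div_pos (norm_pos_iff.mpr hΨ0) four_pos)).and (eventually_ge_atTop a)).exists
  obtain ⟨Z, hZ⟩ : ∃ Z, Z = avg (rt1 ℂ G V) (D.Ul a') (avg (rt2 ℂ G V) (D.Ul a') Φ) := ⟨_, rfl⟩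
  have hZ' : Z = avg (rt2 ℂ G V) (D.Ul a') (avg (rt1 ℂ G V) (D.Ul a') Φ) := hZ.trans (avg12 _ _ _)
  have zeqv : ∀ h g g', Z (h * g, h * g') = ρ h (Z (g, g')) := fun h g g' => by
    simp only [hZ, avg_apply, Pi.smul_apply, Finset.sum_apply, rt1_apply, rt2_apply, map_smul,
      map_sum, ← eqv, mul_assoc]
  have zU1 : ∀ u ∈ D.Ul a', rt1 ℂ G V u Z = Z := fun u hu => hZ ▸ apply_avg _ hu _
  have zU2 : ∀ u ∈ D.Ul a', rt2 ℂ G V u Z = Z := fun u hu => hZ' ▸ apply_avg _ hu _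
  have zT1 : ∀ t, D.τ t ∈ D.Fix a' → rt1 ℂ G V (D.τ t) Z = θ t • Z := fun t ht => by
    have : rt1 ℂ G V (D.τ t) Φ = θ t • Φ := funext fun z => hT1 t z.1 z.2
    rw [hZ, avg_comm _ fun u hu => τ_conj_Ul ht hu, ← c12, this, map_smul, map_smul]
  have zT2 : ∀ t, D.τ t ∈ D.Fix a' → rt2 ℂ G V (D.τ t) Z = θ' t • Z := fun t ht => by
    have : rt2 ℂ G V (D.τ t) Φ = θ' t • Φ := funext fun z => hT2 t z.1 z.2
    rw [hZ', avg_comm _ fun u hu => τ_conj_Ul ht hu, ← c21, this, map_smul, map_smul]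
  have hsq : ∀ s : ℝ, 0 ≤ s → s ^ 2 ≤ 30 * Fintype.card (D.Kf a) * D.nr V a Z ^ 2 →
      s ≤ δ * Fintype.card (D.Kf a) * D.nr V a Z := fun s hs0 h => by
    refine (pow_le_pow_iff_left₀ hs0 (by positivity) two_ne_zero).mp (h.trans ?_)
    rw [mul_pow]
    refine mul_le_mul_of_nonneg_right ?_ (sq_nonneg _)
    nlinarith [(Nat.cast_nonneg _ : (0 : ℝ) ≤ Fintype.card (D.Kf a))]
  obtain ⟨C, hC1, hC2, hC⟩ := expand (D.nr V a) _ (D.nr_rt1 a) hs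
    (fun u hu => zU1 u (D.Ul_mono haa hu)) (fun γ hγ h0 => hZ ▸ (p1 a').avg_gam a' hγ h0) hδ0.le
    (fun α hα => hsq _ (apply_nonneg _ _) (by
      rw [nr_sq, nr_sq]
      simp only [xsum_apply, Finset.sum_apply, rt1_apply]
      refine D.point_est ρ hiso hα.1 haa Z zeqv (fun u hu g g' => congrFun (zU1 u hu) (g, g'))
        (fun u hu g g' => congrFun (zU2 u hu) (g, g'))
        (fun t ht => ⟨θ t, hθ t, fun g g' => congrFun (zT1 t ht) (g, g')⟩)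
        (fun t ht => ⟨θ' t, hθ' t, fun g g' => congrFun (zT2 t ht) (g, g')⟩)
        (fun e he g g' => congrFun (hZ ▸ (p1 a').avg_hh hα a' e he : rt1 ℂ G V _ Z = Z) (g, g'))
        fun g g' => ?_
      have := congrFun ((p1 a').rb hα a') (g, g')
      rw [← hZ] at this
      simpa only [xsum_apply, Finset.sum_apply, rt1_apply, Pi.neg_apply] using this))
  obtain ⟨C', hC1', hC2', hC'⟩ := expand (D.nr V a) _ (D.nr_rt2 a) hs'
    (fun u hu => zU2 u (D.Ul_mono haa hu)) (fun γ hγ h0 => hZ' ▸ (p2 a').avg_gam a' hγ h0) hδ0.le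
    (fun α hα => hsq _ (apply_nonneg _ _) (by
      rw [nr_sq, nr_sq, Finset.sum_comm, Finset.sum_comm (f := fun g g' : D.Gl a => ‖Z (g, g')‖ ^ 2)]
      simp only [xsum_apply, Finset.sum_apply, rt2_apply]
      refine D.point_est ρ hiso hα.1 haa (fun z => Z (z.2, z.1)) (fun h g g' => zeqv h g' g)
        (fun u hu g g' => congrFun (zU2 u hu) (g', g))
        (fun u hu g g' => congrFun (zU1 u hu) (g', g))
        (fun t ht => ⟨θ' t, hθ' t, fun g g' => congrFun (zT2 t ht) (g', g)⟩)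
        (fun t ht => ⟨θ t, hθ t, fun g g' => congrFun (zT1 t ht) (g', g)⟩)
        (fun e he g g' => congrFun (hZ' ▸ (p2 a').avg_hh hα a' e he : rt2 ℂ G V _ Z = Z) (g', g))
        fun g g' => ?_
      have := congrFun ((p2 a').rb hα a') (g', g)
      rw [← hZ'] at this
      simpa only [xsum_apply, Finset.sum_apply, rt2_apply, Pi.neg_apply] using this))
  obtain ⟨κ, hκ, e1⟩ := (p1 a).dlemma hs a'
  obtain ⟨κ', hκ', e2⟩ := (p2 a').dlemma hs' a'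
  let S₁ := avg (rt1 ℂ G V) (D.Ul a) ∘ₗ D.eta (rt1 ℂ G V) ℓ
  have hS₁ : ∀ F, D.nr V a (S₁ F) ≤ c * D.nr V a F := fun F =>
    (seminorm_avg_le _ _ (fun g hg => D.nr_rt1 a g (D.Ul_le_Gl a hg)) _).trans
      (hc ▸ seminorm_eta_le (D.nr V a) _ (D.nr_rt1 a) ℓ F)
  have e3 : S₁ (avg (rt2 ℂ G V) (D.Ul a) (D.eta (rt2 ℂ G V) ℓ' Z)) = (κ' * κ) • Ψ := by
    rw [hZ', e2, map_smul, ← avg12, map_smul, LinearMap.comp_apply, e1, map_smul, smul_smul, hΨ]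
  have e4 : (κ' * κ) • Ψ - ((C' * C : ℕ) : ℂ) • Z =
      S₁ (avg (rt2 ℂ G V) (D.Ul a) (D.eta (rt2 ℂ G V) ℓ' Z) - (C' : ℂ) • Z) +
        (C' : ℂ) • (S₁ Z - (C : ℂ) • Z) := by
    rw [map_sub, e3, map_smul, smul_sub, smul_smul, Nat.cast_mul]
    abel
  have hN0 := apply_nonneg (D.nr V a) Z
  have e5 : D.nr V a ((κ' * κ) • Ψ - ((C' * C : ℕ) : ℂ) • Z) ≤ D.nr V a Z / 4 := by
    rw [e4]
    refine (map_add_le_add _ _ _).trans ?_
    rw [map_smul_eq_mul, Complex.norm_natCast]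
    rw [← hc] at hC
    rw [← hc'] at hC'
    have b1 := (hS₁ _).trans (mul_le_mul_of_nonneg_left hC' hc0.le)
    have b2 : (C' : ℝ) * D.nr V a (S₁ Z - (C : ℂ) • Z) ≤ c' * (c * δ * D.nr V a Z) :=
      mul_le_mul (hc' ▸ Nat.cast_le.mpr hC2') hC (apply_nonneg _ _) hc0'.le
    have b3 : c * c' * δ = 1 / 8 := by rw [hδ]; field_simp
    calc _ ≤ c * (c' * δ * D.nr V a Z) + c' * (c * δ * D.nr V a Z) := add_le_add b1 b2
      _ = 2 * (c * c' * δ) * D.nr V a Z := by ring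
      _ = _ := by rw [b3]; ring
  have hCC : (1 : ℝ) ≤ (C' * C : ℕ) := Nat.one_le_cast.mpr (Nat.mul_pos hC1' hC1)
  have := fin_contra (x := (κ' * κ) • D.res V a Ψ) (y := ((C' * C : ℕ) : ℂ) • D.res V a Z) (by
      rw [← map_smul, ← map_smul, ← map_sub, map_smul, norm_smul, Complex.norm_natCast]
      refine e5.trans ?_
      rw [nr_eq]
      nlinarith [norm_nonneg (D.res V a Z)]) (by
      rw [inner_smul_left, inner_smul_right, norm_mul, norm_mul, norm_smul, norm_smul,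
        RCLike.norm_conj]
      have := hor Z zeqv zU1 zU2 zT1 zT2
      calc _ ≤ ‖κ' * κ‖ * (‖((C' * C : ℕ) : ℂ)‖ * (‖D.res V a Ψ‖ / 4 * ‖D.res V a Z‖)) := by gcongr
        _ = _ := by ring)
  exact smul_ne_zero (mul_ne_zero hκ' hκ) hΨ0 this

end Red

end Pool.Agent.P.MP_0b1ded_al
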