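import Pool.Agent.P.MP_0b1ded_al.Point
import Pool.Agent.P.MP_0b1ded_al.DLem

/-! Expansions of the alternating sums with respect to an invariant seminorm. -/

namespace Pool.Agent.P.MP_0b1ded_al

open Function Filter

theorem fin_contra {V : Type*} [NormedAddCommGroup V] [InnerProductSpace ℂ V] {x y : V}
    (h1 : ‖x - y‖ ≤ ‖y‖ / 4) (h2 : ‖inner ℂ x y‖ ≤ ‖x‖ / 4 * ‖y‖) : x = 0 := by
  have e := @norm_sub_sq ℂ _ _ _ _ x y
  have h3 : RCLike.re (inner ℂ x y) ≤ ‖x‖ / 4 * ‖y‖ := (RCLike.re_le_norm _).trans h2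
  have h4 : ‖x - y‖ ^ 2 ≤ (‖y‖ / 4) ^ 2 := pow_le_pow_left₀ (norm_nonneg _) h1 2
  have h5 : ‖x‖ ^ 2 ≤ 0 := by nlinarith [sq_nonneg (‖x‖ - ‖y‖), sq_nonneg ‖y‖]
  exact norm_eq_zero.mp (pow_eq_zero_iff two_ne_zero |>.mp (le_antisymm h5 (sq_nonneg _)))

variable {ι X Y : Type} [AddCommGroup X] [AddCommGroup Y] {P : RootDatum ι X Y} {b : P.Base}
  {p : ℕ} {K : Type} [Field K] {G : Type*} [Group G] [Finite ι] [P.IsReduced]
  [Fact p.Prime] [CharP K p] [IsAlgClosed K] [Algebra (ZMod p) K] [Algebra.IsAlgebraic (ZMod p) K]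
  [Module.Finite ℤ X]
  {W : Type*} [AddCommGroup W] [Module ℂ W]

theorem seminorm_sum_le {I : Type*} (N : Seminorm ℂ W) (s : Finset I) (f : I → W) :
    N (∑ i ∈ s, f i) ≤ ∑ i ∈ s, N (f i) :=
  Finset.le_sum_of_subadditive N (map_zero N).le (map_add_le_add N) s f

theorem seminorm_avg_le (N : Seminorm ℂ W) (r : Representation ℂ G W) {H : Subgroup G} [Fintype H]
    (hN : ∀ g ∈ H, ∀ v, N (r g v) = N v) (v : W) : N (avg r H v) ≤ N v := by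
  rw [avg_apply, map_smul_eq_mul, norm_inv, Complex.norm_natCast,
    inv_mul_le_iff₀ (Nat.cast_pos.mpr Fintype.card_pos)]
  refine (seminorm_sum_le N _ _).trans (le_of_eq ?_)
  rw [Finset.sum_congr rfl fun (h : H) _ => hN h h.2 v, Finset.sum_const, Finset.card_univ,
    nsmul_eq_mul]

namespace Red

variable {D : Red p K G b}

theorem PVec.map {W' : Type*} [AddCommGroup W'] [Module ℂ W'] {r : Representation ℂ G W}
    {r' : Representation ℂ G W'} (f : W →ₗ[ℂ] W') (hf : ∀ g v, f (r g v) = r' g (f v))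
    {ℓ : X →+ ℤ} {ξ : W} (h : D.PVec r ℓ ξ) : D.PVec r' ℓ (f ξ) :=
  ⟨fun β hβ c => by rw [← hf, h.fixA β hβ], fun α hα c => by rw [← hf, h.negn α hα, map_neg],
    fun α hα c => by rw [← hf, ← hf, h.rel α hα, map_sub]⟩

theorem τ_conj_Ul {a : ℕ} {t : Tor K X} (ht : D.τ t ∈ D.Fix a) {u : G} (hu : u ∈ D.Ul a) :
    D.τ t * u * (D.τ t)⁻¹ ∈ D.Ul a :=
  ⟨D.τ_conj_genU t hu.1, (D.Fix a).mul_mem (mul_mem ht hu.2) (inv_mem ht)⟩

theorem PVec.avg_hh {r : Representation ℂ G W} {ℓ : X →+ ℤ} {ξ : W} (h : D.PVec r ℓ ξ) {α : ι}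
    (hα : α ∈ Jset b ℓ) (a : ℕ) (c : Kˣ) (hc : (c : K) ∈ D.Kf a) :
    r (D.hh α c) (avg r (D.Ul a) ξ) = avg r (D.Ul a) ξ := by
  exact (avg_comm r (fun u hu => τ_conj_Ul (D.hh_mem_Fix α hc) hu) ξ).trans
    (congrArg _ (h.hh hα c))

theorem PVec.avg_gam {r : Representation ℂ G W} {ℓ : X →+ ℤ} {ξ : W} (h : D.PVec r ℓ ξ) (a : ℕ)
    {γ : D.N} (hγ : γ ∈ D.Gam ℓ) (h0 : D.ln γ = 0) :
    r γ (avg r (D.Ul a) ξ) = avg r (D.Ul a) ξ := by
  have h1 := h.gam hγ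
  have h2 := D.gam_mem_Fix a hγ
  obtain ⟨t, rfl⟩ := D.eq_tN_of_ln γ h0
  rw [tN_coe] at h1 h2 ⊢
  rw [avg_comm r fun u hu => τ_conj_Ul h2 hu, h1, h0, pow_zero, one_smul]

variable (N : Seminorm ℂ W) (r : Representation ℂ G W) {a : ℕ}
  (hN : ∀ g ∈ D.Gl a, ∀ v, N (r g v) = N v)

include hN

theorem seminorm_eta_le (ℓ : X →+ ℤ) (v : W) :
    N (D.eta r ℓ v) ≤ Fintype.card (D.Gam ℓ) * N v := by
  rw [eta_apply]
  refine (seminorm_sum_le N _ _).trans (le_of_eq ?_)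
  rw [Finset.sum_congr rfl fun (γ : D.Gam ℓ) _ => (by
    rw [map_smul_eq_mul, hN _ (D.gam_mem_Gl a γ.2)]
    simp : N ((-1 : ℂ) ^ D.ln γ • r (γ : D.N) v) = N v), Finset.sum_const, Finset.card_univ,
    nsmul_eq_mul]

theorem seminorm_xsum_le {α : ι} (hα : α ∈ b.support) (v : W) :
    N (D.xsum r α a v) ≤ Fintype.card (D.Kf a) * N v := by
  rw [xsum_apply]
  refine (seminorm_sum_le N _ _).trans (le_of_eq ?_)
  rw [Finset.sum_congr rfl fun (c : D.Kf a) _ => hN _ (D.Ul_le_Gl a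
    ⟨D.x_mem_U (b.isPos_of_mem_support hα) _, D.x_mem_Fix.mpr c.2⟩) v, Finset.sum_const,
    Finset.card_univ, nsmul_eq_mul]

theorem expand {ℓ : X →+ ℤ} (hs : Stable b ℓ) {z : W} (hz : ∀ u ∈ D.Ul a, r u z = z)
    (hg : ∀ γ ∈ D.Gam ℓ, D.ln γ = 0 → r γ z = z) {δ : ℝ} (hδ : 0 ≤ δ)
    (hsm : ∀ α ∈ Jset b ℓ,
      N (D.xsum r α a (r (D.ns α) z)) ≤ δ * Fintype.card (D.Kf a) * N z) :
    ∃ C : ℕ, 1 ≤ C ∧ C ≤ Fintype.card (D.Gam ℓ) ∧
      N (avg r (D.Ul a) (D.eta r ℓ z) - (C : ℂ) • z) ≤ Fintype.card (D.Gam ℓ) * δ * N z := by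
  classical
  have hq : (0 : ℝ) < Fintype.card (D.Kf a) := Nat.cast_pos.mpr Fintype.card_pos
  have key : ∀ γ ∈ D.Gam ℓ, (D.ln γ = 0 → avg r (D.Ul a) (r γ z) = z) ∧
      (D.ln γ ≠ 0 → N (avg r (D.Ul a) (r γ z)) ≤ δ * N z) := by
    refine D.gam_ind hs (fun γ hγ h0 => ⟨fun _ => ?_, fun h => (h h0).elim⟩)
      fun γ hγ α hα hpos ih => ⟨fun h => ?_, fun _ => ?_⟩
    · rw [hg γ hγ h0, avg_of_fixed r hz]
    · rw [D.ln_ns_mul_pos γ hα.1 hpos] at h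
      omega
    · rw [D.hk_step r hα.1 a γ (D.gam_mem_Fix a hγ) hpos hz, map_smul_eq_mul, norm_inv,
        Complex.norm_natCast, inv_mul_le_iff₀ hq]
      by_cases h0 : D.ln γ = 0
      · rw [ih.1 h0]
        exact (hsm α hα).trans (le_of_eq (by ring))
      · refine (seminorm_xsum_le N r hN hα.1 _).trans ?_
        rw [hN _ (D.ns_mem_Gl a hα.1)]
        exact mul_le_mul_of_nonneg_left (ih.2 h0) hq.le
  refine ⟨(Finset.univ.filter fun γ : D.Gam ℓ => D.ln γ = 0).card, ?_, Finset.card_filter_le _ _,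
    ?_⟩
  · exact Finset.card_pos.mpr ⟨1, Finset.mem_filter.mpr ⟨Finset.mem_univ _, D.ln_one⟩⟩
  have e : avg r (D.Ul a) (D.eta r ℓ z) -
      ((Finset.univ.filter fun γ : D.Gam ℓ => D.ln γ = 0).card : ℂ) • z =
      ∑ γ : D.Gam ℓ, ((-1 : ℂ) ^ D.ln γ • avg r (D.Ul a) (r (γ : D.N) z) -
        if D.ln γ = 0 then z else 0) := by
    rw [eta_apply, map_sum, Finset.sum_sub_distrib, ← Finset.sum_filter, Finset.sum_const,
      Nat.cast_smul_eq_nsmul]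
    simp only [map_smul]
  rw [e, mul_assoc, ← nsmul_eq_mul, ← Finset.card_univ]
  refine (seminorm_sum_le N _ _).trans (Finset.sum_le_card_nsmul _ _ _ fun γ _ => ?_)
  by_cases h0 : D.ln γ = 0
  · rw [if_pos h0, (key γ γ.2).1 h0, h0, pow_zero, one_smul, sub_self, map_zero]
    positivity
  · rw [if_neg h0, sub_zero, map_smul_eq_mul]
    simpa using (key γ γ.2).2 h0

end Red

end Pool.Agent.P.MP_0b1ded_al
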