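import Pool.Agent.P.MP_0b1ded_al.Weyl

/-! The finite levels. -/

namespace Pool.Agent.P.MP_0b1ded_al

open Function Filter

theorem level_pow_iter {M : Type*} [Monoid M] {c : M} {q n : ℕ} (h : c ^ q ^ n = c) (k : ℕ) :
    c ^ q ^ (n * k) = c := by
  induction k with
  | zero => simp
  | succ k ih => rw [Nat.mul_succ, pow_add, pow_mul, ih, h]

/-- The elements lying in almost all members of a sequence of subgroups. -/
def levelEv {G : Type*} [Group G] (S : ℕ → Subgroup G) : Subgroup G where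
  carrier := {g | ∀ᶠ a in atTop, g ∈ S a}
  mul_mem' {g h} hg hh := by
    have hg' : ∀ᶠ a in atTop, g ∈ S a := hg
    have hh' : ∀ᶠ a in atTop, h ∈ S a := hh
    exact (hg'.and hh').mono fun a ha => (S a).mul_mem ha.1 ha.2
  one_mem' := Eventually.of_forall fun a => (S a).one_mem
  inv_mem' {g} hg := by
    have hg' : ∀ᶠ a in atTop, g ∈ S a := hg
    exact hg'.mono fun a ha => (S a).inv_mem ha

theorem level_tor_ext {X K : Type} [AddCommGroup X] [Field K] {s : Set X}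
    (hs : Submodule.span ℤ s = ⊤) {t t' : Tor K X} (h : ∀ v ∈ s, t.val v = t'.val v) :
    t = t' := by
  refine Tor.ext fun v => ?_
  have hv : v ∈ AddSubgroup.closure s := by
    rw [← Submodule.span_int_eq_addSubgroupClosure, hs]
    trivial
  induction hv using AddSubgroup.closure_induction with
  | mem v hv => exact h v hv
  | zero => rw [Tor.val_zero, Tor.val_zero]
  | add v w _ _ h1 h2 => rw [Tor.val_add, Tor.val_add, h1, h2]
  | neg v _ h1 => rw [Tor.val_neg, Tor.val_neg, h1]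

section aux

variable {ι X Y : Type} [AddCommGroup X] [AddCommGroup Y] {P : RootDatum ι X Y} {b : P.Base}
  {p : ℕ} {K : Type} [Field K] {G : Type*} [Group G] (D : Red p K G b)

theorem level_iter_x (n : ℕ) (β : ι) (c : K) :
    D.F^[n] (D.x β c) = D.x β (c ^ p ^ (D.m * n)) := by
  induction n with
  | zero => simp
  | succ n ih => rw [iterate_succ_apply', ih, D.F_x, ← pow_mul, ← pow_add, Nat.mul_succ]

theorem level_iter_τ (n : ℕ) (t : Tor K X) :
    D.F^[n] (D.τ t) = D.τ (t ^ p ^ (D.m * n)) := by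
  induction n with
  | zero => simp
  | succ n ih => rw [iterate_succ_apply', ih, D.F_τ, ← pow_mul, ← pow_add, Nat.mul_succ]

theorem level_iter_genU (n : ℕ) {S : Set ι} {u : G} (hu : u ∈ genU D.x S) :
    D.F^[n] u ∈ genU D.x S := by
  induction n with
  | zero => exact hu
  | succ n ih =>
    rw [iterate_succ_apply']
    refine genU_le (H := (genU D.x S).comap D.F) (fun β hβ c => ?_) ih
    change D.F (D.x β c) ∈ genU D.x S
    rw [D.F_x]
    exact mem_genU hβ _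

theorem level_iter_prod (n : ℕ) (l : List ι) (c : ι → K) :
    D.F^[n] (l.map fun β => D.x β (c β)).prod =
      (l.map fun β => D.x β (c β ^ p ^ (D.m * n))).prod := by
  induction l with
  | nil => simp
  | cons β l ih =>
    rw [List.map_cons, List.prod_cons, iterate_map_mul, ih, level_iter_x, List.map_cons,
      List.prod_cons]

theorem level_τ_mem_Fix {a : ℕ} {t : Tor K X} :
    D.τ t ∈ D.Fix a ↔ t ^ p ^ (D.m * a.factorial) = t := by
  rw [D.mem_Fix, level_iter_τ, D.τ_inj.eq_iff]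

theorem level_tN_mul (s t : Tor K X) : D.tN (s * t) = D.tN s * D.tN t :=
  Subtype.ext (map_mul D.τ s t)

end aux

variable {ι X Y : Type} [AddCommGroup X] [AddCommGroup Y] {P : RootDatum ι X Y} {b : P.Base}
  {p : ℕ} {K : Type} [Field K] {G : Type*} [Group G] [Finite ι] [P.IsReduced]
  [Fact p.Prime] [CharP K p] [IsAlgClosed K] [Algebra (ZMod p) K] [Algebra.IsAlgebraic (ZMod p) K]
  [Module.Finite ℤ X]

namespace Red

variable (D : Red p K G b)

instance finite_Kf (a : ℕ) : Finite (D.Kf a) := by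
  have hne : D.m * a.factorial ≠ 0 := Nat.mul_ne_zero D.m_pos.ne' a.factorial_ne_zero
  have h0 := FiniteField.X_pow_card_pow_sub_X_ne_zero K hne (Fact.out : p.Prime).one_lt
  have h1 : (D.Kf a : Set K).Finite := by
    refine (Polynomial.finite_setOfPred_isRoot h0).subset fun c hc => ?_
    have hc' := D.mem_Kf.1 hc
    simp [hc']
  exact h1.to_subtype

noncomputable instance fintypeKf (a : ℕ) : Fintype (D.Kf a) := Fintype.ofFinite _

theorem Kf_mono {a a' : ℕ} (h : a ≤ a') : D.Kf a ≤ D.Kf a' := by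
  intro c hc
  obtain ⟨k, hk⟩ := Nat.factorial_dvd_factorial h
  rw [mem_Kf] at hc ⊢
  rw [hk, ← mul_assoc]
  exact level_pow_iter hc k

theorem ev_Kf (c : K) : ∀ᶠ a in atTop, c ∈ D.Kf a := by
  have hc : IsIntegral (ZMod p) c := (Algebra.IsAlgebraic.isAlgebraic c).isIntegral
  let L := IntermediateField.adjoin (ZMod p) {c}
  have : FiniteDimensional (ZMod p) L := IntermediateField.adjoin.finiteDimensional hc
  have : Finite L := Module.finite_of_finite (ZMod p)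
  let : Fintype L := Fintype.ofFinite L
  have : CharP L p := RingHom.charP (algebraMap L K) (algebraMap L K).injective p
  obtain ⟨n, -, hn⟩ := FiniteField.card L p
  have h1 := FiniteField.pow_card (⟨c, IntermediateField.mem_adjoin_simple_self _ c⟩ : L)
  rw [hn] at h1
  have h2 : c ^ p ^ (n : ℕ) = c := congrArg Subtype.val h1
  filter_upwards [eventually_ge_atTop (n : ℕ)] with a ha
  obtain ⟨k, hk⟩ := Nat.dvd_factorial n.pos ha
  rw [mem_Kf, hk, mul_left_comm]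
  exact level_pow_iter h2 _

theorem tendsto_card_Kf : Tendsto (fun a => Fintype.card (D.Kf a)) atTop atTop := by
  refine tendsto_atTop.2 fun N => ?_
  obtain ⟨s, hs⟩ := Infinite.exists_subset_card_eq K N
  have h1 : ∀ᶠ a in atTop, ∀ c ∈ s, c ∈ D.Kf a :=
    (eventually_all_finset s).2 fun c _ => D.ev_Kf c
  filter_upwards [h1] with a ha
  rw [← hs, ← Fintype.card_coe]
  refine Fintype.card_le_of_injective (fun c => ⟨c.1, ha c.1 c.2⟩) fun c d h => ?_
  exact Subtype.ext (congrArg (fun z : D.Kf a => (z : K)) h)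

theorem Fix_mono {a a' : ℕ} (h : a ≤ a') : D.Fix a ≤ D.Fix a' := by
  intro g hg
  obtain ⟨k, hk⟩ := Nat.factorial_dvd_factorial h
  rw [mem_Fix] at hg ⊢
  rw [hk, iterate_mul]
  exact iterate_fixed hg k

theorem x_mem_Fix {a : ℕ} {β : ι} {c : K} : D.x β c ∈ D.Fix a ↔ c ∈ D.Kf a := by
  rw [mem_Fix, level_iter_x, (D.x_inj β).eq_iff, mem_Kf]

theorem coch_mem_Fix {a : ℕ} (y : Y) {c : Kˣ} (hc : (c : K) ∈ D.Kf a) :
    D.τ (coch P y c) ∈ D.Fix a := by
  rw [level_τ_mem_Fix, ← coch_pow]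
  congr 1
  ext
  rw [Units.val_pow_eq_pow_val]
  exact D.mem_Kf.1 hc

theorem hh_mem_Fix {a : ℕ} (α : ι) {c : Kˣ} (hc : (c : K) ∈ D.Kf a) : D.hh α c ∈ D.Fix a :=
  D.coch_mem_Fix _ hc

theorem ns_mem_Fix (a : ℕ) (α : ι) : (D.ns α : G) ∈ D.Fix a := by
  have h := D.y_eq α 1
  rw [nc_one, Units.val_one, inv_one] at h
  have h1 : (D.ns α : G) = (D.x α 1)⁻¹ * D.y α 1 * (D.x α 1)⁻¹ := by rw [h]; group
  have h2 : D.x α 1 ∈ D.Fix a := D.x_mem_Fix.2 (D.Kf a).one_mem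
  have h3 : D.y α 1 ∈ D.Fix a := D.x_mem_Fix.2 (D.Kf a).one_mem
  rw [h1]
  exact mul_mem (mul_mem (inv_mem h2) h3) (inv_mem h2)

theorem ev_Fix (g : G) : ∀ᶠ a in atTop, g ∈ D.Fix a := by
  have h : (⊤ : Subgroup G) ≤ levelEv D.Fix := by
    rw [← D.gen]
    refine sup_le ?_ (genU_le fun β _ c => ?_)
    · rintro _ ⟨t, rfl⟩
      obtain ⟨s, hs⟩ := Module.Finite.fg_top (R := ℤ) (M := X)
      have h1 : ∀ᶠ a in atTop, ∀ v ∈ s, (t.val v : K) ∈ D.Kf a :=
        (eventually_all_finset s).2 fun v _ => D.ev_Kf _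
      refine h1.mono fun a ha => (level_τ_mem_Fix D).2 (level_tor_ext hs fun v hv => ?_)
      ext
      rw [Tor.val_pow, Units.val_pow_eq_pow_val]
      exact D.mem_Kf.1 (ha v hv)
    · exact (D.ev_Kf c).mono fun a ha => D.x_mem_Fix.2 ha
  exact h (Subgroup.mem_top g)

theorem Ul_mono {a a' : ℕ} (h : a ≤ a') : D.Ul a ≤ D.Ul a' := inf_le_inf_left _ (D.Fix_mono h)

instance finite_Ul (a : ℕ) : Finite (D.Ul a) := by
  classical
  let : Fintype ι := Fintype.ofFinite ι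
  let l : List ι := (Finset.univ.filter fun β => b.IsPos β).toList
  have hl : l.Nodup := Finset.nodup_toList _
  have hl' : ∀ β, β ∈ l ↔ b.IsPos β := fun β => by simp [l]
  let f : (ι → D.Kf a) → G := fun c => (l.map fun β => D.x β (c β)).prod
  have h1 : (D.Ul a : Set G).Finite := by
    refine (Set.finite_range f).subset fun u hu => ?_
    obtain ⟨c, hc⟩ := D.prod_surj l hl hl' u hu.1
    have h2 : D.F^[a.factorial] u = u := hu.2
    rw [hc, level_iter_prod] at h2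
    have h3 := D.prod_inj l hl hl' _ _ h2
    refine ⟨fun β => if h : β ∈ l then ⟨c β, D.mem_Kf.2 (h3 β h)⟩ else 0, ?_⟩
    rw [hc]
    refine congrArg List.prod (List.map_congr_left fun β hβ => ?_)
    simp only [dif_pos hβ]
  exact h1.to_subtype

noncomputable instance fintypeUl (a : ℕ) : Fintype (D.Ul a) := Fintype.ofFinite _

theorem level_finite_T (a : ℕ) : {t : Tor K X | D.τ t ∈ D.Fix a}.Finite := by
  obtain ⟨s, hs⟩ := Module.Finite.fg_top (R := ℤ) (M := X)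
  let f : Tor K X → (s → K) := fun t v => t.val v
  have hf : Injective f := fun t t' h =>
    level_tor_ext hs fun v hv => Units.ext (congrFun h ⟨v, hv⟩)
  have h1 : {c : s → K | ∀ v, c v ∈ (D.Kf a : Set K)}.Finite :=
    Set.Finite.pi' fun _ => Set.finite_coe_iff.1 (D.finite_Kf a)
  refine (h1.preimage hf.injOn).subset fun t ht v => ?_
  have h2 := congrArg (fun t' : Tor K X => (t'.val v : K)) ((level_τ_mem_Fix D).1 ht)
  simp only [Tor.val_pow, Units.val_pow_eq_pow_val] at h2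
  exact D.mem_Kf.2 h2

theorem finite_Nl (a : ℕ) : {n : D.N | (n : G) ∈ D.Fix a}.Finite := by
  obtain ⟨R, hR⟩ := D.exists_reps
  have h1 : ∀ r : D.N, {n : D.N | (n : G) ∈ D.Fix a ∧ ∃ t, n = D.tN t * r}.Finite := by
    intro r
    rcases Set.eq_empty_or_nonempty {n : D.N | (n : G) ∈ D.Fix a ∧ ∃ t, n = D.tN t * r} with
      h | ⟨n0, h0, t0, e0⟩
    · rw [h]; exact Set.finite_empty
    refine ((D.level_finite_T a).image fun t => D.tN t * n0).subset ?_
    rintro n ⟨hn, t, e⟩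
    have e1 : D.tN (t * t0⁻¹) * n0 = n := by
      rw [e0, e, ← mul_assoc, ← level_tN_mul, inv_mul_cancel_right]
    refine ⟨t * t0⁻¹, ?_, e1⟩
    have e2 : D.τ (t * t0⁻¹) = (n : G) * (n0 : G)⁻¹ := by
      rw [← e1, Subgroup.coe_mul, tN_coe, mul_inv_cancel_right]
    change D.τ (t * t0⁻¹) ∈ D.Fix a
    rw [e2]
    exact mul_mem hn (inv_mem h0)
  refine (R.finite_toSet.biUnion fun r _ => h1 r).subset fun n hn => ?_
  obtain ⟨r, hr, t, e⟩ := hR n
  exact Set.mem_biUnion hr ⟨hn, t, e⟩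

theorem gam_mem_Fix (a : ℕ) {ℓ : X →+ ℤ} {γ : D.N} (hγ : γ ∈ D.Gam ℓ) : (γ : G) ∈ D.Fix a := by
  have h : D.Gam ℓ ≤ (D.Fix a).comap D.N.subtype := by
    refine (Subgroup.closure_le _).2 ?_
    rintro _ ⟨α, -, rfl⟩
    exact D.ns_mem_Fix a α
  exact h hγ

instance finite_Gam (ℓ : X →+ ℤ) : Finite (D.Gam ℓ) := by
  have h : (D.Gam ℓ : Set D.N).Finite :=
    (D.finite_Nl 0).subset fun γ hγ => D.gam_mem_Fix 0 hγ
  exact h.to_subtype

noncomputable instance fintypeGam (ℓ : X →+ ℤ) : Fintype (D.Gam ℓ) := Fintype.ofFinite _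

theorem exists_crd_lev {a : ℕ} {α : ι} (hα : α ∈ b.support) {u : G} (hu : u ∈ D.Ul a) :
    ∃ c ∈ D.Kf a, ∃ u₁ ∈ D.Ua α ⊓ D.Fix a, u = u₁ * D.x α c := by
  obtain ⟨c, u₁, h1, e⟩ := D.exists_crd hα hu.1
  have h2 : D.F^[a.factorial] u = u := hu.2
  have h3 : D.F^[a.factorial] u₁ ∈ D.Ua α := level_iter_genU D _ h1
  rw [e, iterate_map_mul, level_iter_x] at h2
  have h4 : D.x α (c ^ p ^ (D.m * a.factorial) - c) = (D.F^[a.factorial] u₁)⁻¹ * u₁ := by
    rw [sub_eq_add_neg, D.x_add, x_neg, eq_inv_mul_iff_mul_eq, ← mul_assoc, h2,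
      mul_inv_cancel_right]
  have h5 : c ∈ D.Kf a := by
    rw [mem_Kf, ← sub_eq_zero]
    apply D.eq_zero_of_x_mem_Ua hα
    rw [h4]
    exact mul_mem (inv_mem h3) h1
  refine ⟨c, h5, u₁, ⟨h1, ?_⟩, e⟩
  have h6 : u₁ = u * (D.x α c)⁻¹ := by rw [e, mul_inv_cancel_right]
  rw [h6]
  exact (D.Fix a).mul_mem hu.2 ((D.Fix a).inv_mem (D.x_mem_Fix.2 h5))

theorem Gl_le_Fix (a : ℕ) : D.Gl a ≤ D.Fix a := by
  refine (Subgroup.closure_le _).2 ?_
  rintro g ((h | h) | ⟨α, -, rfl⟩)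
  · exact h.2
  · exact h.2
  · exact D.ns_mem_Fix a α

theorem Ul_le_Gl (a : ℕ) : D.Ul a ≤ D.Gl a := fun _ h =>
  Subgroup.subset_closure (Or.inl (Or.inl h))

theorem ns_mem_Gl (a : ℕ) {α : ι} (hα : α ∈ b.support) : (D.ns α : G) ∈ D.Gl a :=
  Subgroup.subset_closure (Or.inr ⟨α, hα, rfl⟩)

theorem gam_mem_Gl (a : ℕ) {ℓ : X →+ ℤ} {γ : D.N} (hγ : γ ∈ D.Gam ℓ) : (γ : G) ∈ D.Gl a := by
  have h : D.Gam ℓ ≤ (D.Gl a).comap D.N.subtype := by
    refine (Subgroup.closure_le _).2 ?_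
    rintro _ ⟨α, hα, rfl⟩
    exact D.ns_mem_Gl a hα.1
  exact h hγ

/-- The elements with a Bruhat decomposition at level `a`. -/
def levelBr (a : ℕ) (g : G) : Prop :=
  ∃ u ∈ D.Ul a, ∃ m : D.N, (m : G) ∈ D.Fix a ∧ ∃ u' ∈ D.Ul a, g = u * m * u'

theorem levelBr_U {a : ℕ} {v g : G} (hv : v ∈ D.Ul a) (hg : D.levelBr a g) :
    D.levelBr a (v * g) := by
  obtain ⟨u, hu, m, hm, u', hu', rfl⟩ := hg
  exact ⟨v * u, mul_mem hv hu, m, hm, u', hu', by group⟩

theorem levelBr_T {a : ℕ} {t : Tor K X} {g : G} (ht : D.τ t ∈ D.Fix a) (hg : D.levelBr a g) :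
    D.levelBr a (D.τ t * g) := by
  obtain ⟨u, hu, m, hm, u', hu', rfl⟩ := hg
  refine ⟨D.τ t * u * (D.τ t)⁻¹, ⟨D.τ_conj_genU t hu.1,
      (D.Fix a).mul_mem ((D.Fix a).mul_mem ht hu.2) ((D.Fix a).inv_mem ht)⟩,
    D.tN t * m, ?_, u', hu', ?_⟩
  · rw [Subgroup.coe_mul, tN_coe]
    exact mul_mem ht hm
  · rw [Subgroup.coe_mul, tN_coe]
    group

theorem level_shift {a : ℕ} {α : ι} {m : D.N} (hm : (m : G) ∈ D.Fix a)
    (h : b.IsPos (D.π m⁻¹ α)) {e : K} (he : e ∈ D.Kf a) :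
    ∃ v ∈ D.Ul a, D.x α e * m = m * v := by
  obtain ⟨d, hd⟩ := D.N_conj_x m⁻¹ α e
  rw [Subgroup.coe_inv, inv_inv] at hd
  refine ⟨(m : G)⁻¹ * D.x α e * m, ⟨?_, ?_⟩, by group⟩
  · rw [hd]
    exact D.x_mem_U h d
  · exact (D.Fix a).mul_mem ((D.Fix a).mul_mem ((D.Fix a).inv_mem hm) (D.x_mem_Fix.2 he)) hm

theorem levelBr_ns {a : ℕ} {α : ι} (hα : α ∈ b.support) {g : G} (hg : D.levelBr a g) :
    D.levelBr a (D.ns α * g) := by
  obtain ⟨u, hu, m, hm, u', hu', rfl⟩ := hg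
  obtain ⟨c, hc, u₁, h1, rfl⟩ := D.exists_crd_lev hα hu
  have hn := D.ns_mem_Fix a α
  have h2 : (D.ns α : G) * u₁ * (D.ns α : G)⁻¹ ∈ D.Ul a :=
    ⟨D.Ua_le α (D.ns_conj_Ua hα h1.1),
      (D.Fix a).mul_mem ((D.Fix a).mul_mem hn h1.2) ((D.Fix a).inv_mem hn)⟩
  have e1 : (D.ns α : G) * (u₁ * D.x α c * m * u') =
      (D.ns α : G) * u₁ * (D.ns α : G)⁻¹ * (D.ns α * D.x α c * m * u') := by group
  rw [e1]
  refine D.levelBr_U h2 ?_
  have hm' : ((D.ns α * m : D.N) : G) ∈ D.Fix a := by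
    rw [Subgroup.coe_mul]
    exact mul_mem hn hm
  by_cases hpos : b.IsPos (D.π m⁻¹ α)
  · obtain ⟨v, hv, e⟩ := D.level_shift hm hpos hc
    refine ⟨1, one_mem _, D.ns α * m, hm', v * u', mul_mem hv hu', ?_⟩
    rw [Subgroup.coe_mul, mul_assoc (D.ns α : G), e]
    group
  by_cases hc0 : c = 0
  · refine ⟨1, one_mem _, D.ns α * m, hm', u', hu', ?_⟩
    rw [Subgroup.coe_mul, hc0, x_zero]
    group
  have hpos' : b.IsPos (D.π (D.ns α * m)⁻¹ α) := by
    rw [mul_inv_rev, map_mul, π_ns_inv, Equiv.Perm.mul_apply]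
    change b.IsPos (D.π m⁻¹ (ng P α))
    rw [π_ng, isPos_ng]
    exact hpos
  let c' : Kˣ := Units.mk0 (-c) (neg_ne_zero.2 hc0)
  have hc' : ((c'⁻¹ : Kˣ) : K) ∈ D.Kf a := by
    rw [Units.val_inv_eq_inv_val]
    exact inv_mem (neg_mem hc)
  have hc'' : (c' : K)⁻¹ ∈ D.Kf a := inv_mem (neg_mem hc)
  obtain ⟨v, hv, e⟩ := D.level_shift hm' hpos' hc''
  have e2 : D.y α (-c) = D.x α (c' : K)⁻¹ * D.nc α c' * D.x α (c' : K)⁻¹ := D.y_eq α c'
  refine ⟨D.x α (c' : K)⁻¹, ⟨D.x_mem_U (b.isPos_of_mem_support hα) _, D.x_mem_Fix.2 hc''⟩,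
    D.nc α c' * (D.ns α * m), ?_, v * u', mul_mem hv hu', ?_⟩
  · rw [Subgroup.coe_mul, nc_coe]
    exact mul_mem (mul_mem (D.hh_mem_Fix α hc') hn) hm'
  · rw [ns_mul_x, e2, Subgroup.coe_mul]
    have e3 : D.x α (c' : K)⁻¹ * D.nc α c' * D.x α (c' : K)⁻¹ * D.ns α * m * u' =
        D.x α (c' : K)⁻¹ * D.nc α c' * (D.x α (c' : K)⁻¹ * ((D.ns α * m : D.N) : G)) * u' := by
      rw [Subgroup.coe_mul]
      group
    rw [e3, e]
    group

theorem bruhat_lev {a : ℕ} {g : G} (hg : g ∈ D.Gl a) :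
    ∃ u ∈ D.Ul a, ∃ m : D.N, (m : G) ∈ D.Fix a ∧ ∃ u' ∈ D.Ul a, g = u * m * u' := by
  change D.levelBr a g
  induction hg using Subgroup.closure_induction_left with
  | one => exact ⟨1, one_mem _, 1, one_mem _, 1, one_mem _, by simp⟩
  | mul_left x hx y _ ih =>
    rcases hx with (h | ⟨⟨t, rfl⟩, h⟩) | ⟨α, hα, rfl⟩
    · exact D.levelBr_U h ih
    · exact D.levelBr_T h ih
    · exact D.levelBr_ns hα ih
  | inv_mul_cancel x hx y _ ih =>
    rcases hx with (h | ⟨⟨t, rfl⟩, h⟩) | ⟨α, hα, rfl⟩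
    · exact D.levelBr_U (inv_mem h) ih
    · rw [← τ_inv]
      exact D.levelBr_T (by rw [τ_inv]; exact inv_mem h) ih
    · have e : (D.ns α : G)⁻¹ * y = D.hh α (-1)⁻¹ * (D.ns α * y) := by
        rw [hh_inv, ← ns_mul_ns]
        group
      rw [e]
      refine D.levelBr_T (D.hh_mem_Fix α ?_) (D.levelBr_ns hα ih)
      rw [Units.val_inv_eq_inv_val, Units.val_neg, Units.val_one]
      exact inv_mem (neg_mem (one_mem _))

instance finite_Gl (a : ℕ) : Finite (D.Gl a) := by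
  have h1 : (D.Ul a : Set G).Finite := Set.finite_coe_iff.1 (D.finite_Ul a)
  have h : (D.Gl a : Set G).Finite := by
    refine (((h1.prod (D.finite_Nl a)).prod h1).image
      fun z : (G × D.N) × G => z.1.1 * z.1.2 * z.2).subset fun g hg => ?_
    obtain ⟨u, hu, m, hm, u', hu', e⟩ := D.bruhat_lev hg
    exact ⟨((u, m), u'), ⟨⟨hu, hm⟩, hu'⟩, e.symm⟩
  exact h.to_subtype

noncomputable instance fintypeGl (a : ℕ) : Fintype (D.Gl a) := Fintype.ofFinite _

theorem ev_Gl (g : G) : ∀ᶠ a in atTop, g ∈ D.Gl a := by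
  have hn : ∀ α ∈ b.support, (D.ns α : G) ∈ levelEv D.Gl := fun α hα =>
    Eventually.of_forall fun a => D.ns_mem_Gl a hα
  have hp : ∀ β, b.IsPos β → ∀ c, D.x β c ∈ levelEv D.Gl := fun β hβ c =>
    (D.ev_Fix (D.x β c)).mono fun a ha => D.Ul_le_Gl a ⟨D.x_mem_U hβ c, ha⟩
  have hq : ∀ γ, b.IsPos γ → ∀ c, D.x (ng P γ) c ∈ levelEv D.Gl := by
    intro γ hγ
    refine hγ.induction_on_reflect (p := fun γ => ∀ c, D.x (ng P γ) c ∈ levelEv D.Gl) ?_ ?_
    · intro α hα c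
      have e : D.x (ng P α) c = D.ns α * D.x α (-c) * (D.ns α : G)⁻¹ := by
        rw [ns_mul_x, neg_neg, mul_inv_cancel_right]
        rfl
      rw [e]
      exact mul_mem (mul_mem (hn α hα) (hp α (b.isPos_of_mem_support hα) _)) (inv_mem (hn α hα))
    · intro i j hi hj c
      obtain ⟨d, hd⟩ := D.N_conj_x (D.ns j)⁻¹ (ng P (P.reflectionPerm j i)) c
      rw [π_ng, π_ns_inv, refl_refl, Subgroup.coe_inv, inv_inv] at hd
      have e : D.x (ng P (P.reflectionPerm j i)) c =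
          D.ns j * D.x (ng P i) d * (D.ns j : G)⁻¹ := by
        rw [← hd]
        group
      rw [e]
      exact mul_mem (mul_mem (hn j hj) (hi d)) (inv_mem (hn j hj))
  have h : (⊤ : Subgroup G) ≤ levelEv D.Gl := by
    rw [← D.gen]
    refine sup_le ?_ (genU_le fun β _ c => ?_)
    · rintro _ ⟨t, rfl⟩
      exact (D.ev_Fix (D.τ t)).mono fun a ha =>
        Subgroup.subset_closure (Or.inl (Or.inr ⟨⟨t, rfl⟩, ha⟩))
    · by_cases hβ : b.IsPos β
      · exact hp β hβ c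
      · have := hq (ng P β) ((isPos_ng β).2 hβ) c
        rwa [ng_ng] at this
  exact h (Subgroup.mem_top g)

theorem bruhat (g : G) : ∃ u ∈ D.U, ∃ m : D.N, ∃ u' ∈ D.U, g = u * m * u' := by
  obtain ⟨a, ha⟩ := (D.ev_Gl g).exists
  obtain ⟨u, hu, m, -, u', hu', h⟩ := D.bruhat_lev ha
  exact ⟨u, hu.1, m, u', hu'.1, h⟩

include D in
theorem isOfFinOrder (g : G) : IsOfFinOrder g := by
  obtain ⟨a, ha⟩ := (D.ev_Gl g).exists
  exact (D.Gl a).subtype.isOfFinOrder (isOfFinOrder_of_finite (⟨g, ha⟩ : D.Gl a))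

end Red

end Pool.Agent.P.MP_0b1ded_al
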