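import Mathlib

/-! Monomial unitary representations and complex valued functionals. -/

namespace Pool.Agent.P.MP_0b1ded_al

theorem exists_lam {k : Type*} [Field k] [CharZero k] {x₀ : k} (hx : x₀ ≠ 0) :
    ∃ (Λ : k →+ ℂ) (sg : k → Circle), Λ x₀ ≠ 0 ∧
      (∀ c, IsOfFinOrder c → ∀ x, Λ (c * x) = sg c * Λ x) ∧
      ∀ c d, IsOfFinOrder c → IsOfFinOrder d → sg c = sg d → c = d := by
  classical
  let k₀ := algebraicClosure ℚ k
  have : Algebra.IsAlgebraic ℚ k₀ := algebraicClosure.isAlgebraic ℚ k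
  let σ : k₀ →ₐ[ℚ] ℂ := IsAlgClosed.lift
  obtain ⟨l, hl⟩ := not_forall.mp ((Module.forall_dual_apply_eq_zero_iff k₀ x₀).not.mpr hx)
  have hmem : ∀ c : k, IsOfFinOrder c → c ∈ k₀ := fun c hc => by
    obtain ⟨n, hn, h⟩ := isOfFinOrder_iff_pow_eq_one.mp hc
    exact mem_algebraicClosure_iff'.mpr (IsIntegral.of_pow hn (h ▸ isIntegral_one))
  have hnorm : ∀ (c : k) (hc : IsOfFinOrder c), ‖σ ⟨c, hmem c hc⟩‖ = 1 := fun c hc => by
    obtain ⟨n, hn, h⟩ := isOfFinOrder_iff_pow_eq_one.mp hc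
    have h1 : (⟨c, hmem c hc⟩ : k₀) ^ n = 1 := Subtype.ext h
    have h2 : ‖σ ⟨c, hmem c hc⟩‖ ^ n = 1 := by rw [← norm_pow, ← map_pow, h1, map_one, norm_one]
    exact (pow_eq_one_iff_of_nonneg (norm_nonneg _) hn.ne').mp h2
  refine ⟨σ.toRingHom.toAddMonoidHom.comp l.toAddMonoidHom, fun c => if hc : IsOfFinOrder c then
    ⟨σ ⟨c, hmem c hc⟩, mem_sphere_zero_iff_norm.mpr (hnorm c hc)⟩ else 1, ?_, ?_, ?_⟩
  · simpa using hl
  · intro c hc x
    have : l (c * x) = ⟨c, hmem c hc⟩ * l x := l.map_smul ⟨c, hmem c hc⟩ x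
    simp [hc, this]
  · intro c d hc hd h
    simp only [hc, hd, dif_pos] at h
    have h1 : σ ⟨c, hmem c hc⟩ = σ ⟨d, hmem d hd⟩ := congrArg Subtype.val h
    exact congrArg Subtype.val (σ.toRingHom.injective h1)

universe u

variable {G : Type u} [Group G] (Q : Subgroup G) (ω : Q → Circle)

/-- The functions on `G` that are equivariant under `Q` and have finite support modulo `Q`. -/
def monSub : Submodule ℂ (G → ℂ) where
  carrier := {F | (∀ g (q : Q), F (g * q) = ω q * F g) ∧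
    ∃ Z : Finset G, ∀ g, F g ≠ 0 → ∃ s ∈ Z, s⁻¹ * g ∈ Q}
  zero_mem' := ⟨fun _ _ => by simp, ∅, fun _ h => (h rfl).elim⟩
  add_mem' := by
    classical
    rintro F F' ⟨h1, Z, hZ⟩ ⟨h2, Z', hZ'⟩
    refine ⟨fun g q => by simp [h1, h2, mul_add], Z ∪ Z', fun g hg => ?_⟩
    by_cases h : F g = 0
    · obtain ⟨s, hs, hq⟩ := hZ' g (by simpa [h] using hg)
      exact ⟨s, Finset.mem_union_right _ hs, hq⟩
    · obtain ⟨s, hs, hq⟩ := hZ g h
      exact ⟨s, Finset.mem_union_left _ hs, hq⟩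
  smul_mem' := by
    rintro a F ⟨h1, Z, hZ⟩
    exact ⟨fun g q => by simp [h1, mul_left_comm], Z, fun g hg => hZ g (right_ne_zero_of_mul hg)⟩

variable {Q ω}

/-- The local inner product. -/
noncomputable def locIn (F F' : monSub Q ω) : G ⧸ Q → ℂ :=
  Quotient.lift (fun g => (starRingEnd ℂ) (F.1 g) * F'.1 g) fun g g' h => by
    have hq : g⁻¹ * g' ∈ Q := QuotientGroup.leftRel_apply.mp h
    have e : g' = g * (⟨_, hq⟩ : Q) := by simp
    have h1 : (starRingEnd ℂ) (ω ⟨_, hq⟩ : ℂ) * ω ⟨_, hq⟩ = 1 := by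
      rw [← Complex.normSq_eq_conj_mul_self, Circle.normSq_coe, Complex.ofReal_one]
    change _ = (starRingEnd ℂ) (F.1 g') * F'.1 g'
    rw [e, F.2.1, F'.2.1, map_mul]
    linear_combination (-((starRingEnd ℂ) (F.1 g) * F'.1 g)) * h1

theorem locIn_mk (F F' : monSub Q ω) (g : G) :
    locIn F F' (g : G ⧸ Q) = (starRingEnd ℂ) (F.1 g) * F'.1 g := rfl

theorem exists_supp (F : monSub Q ω) :
    ∃ T : Finset (G ⧸ Q), ∀ g : G, F.1 g ≠ 0 → (g : G ⧸ Q) ∈ T := by
  classical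
  obtain ⟨Z, hZ⟩ := F.2.2
  refine ⟨Z.image (↑), fun g hg => ?_⟩
  obtain ⟨s, hs, hq⟩ := hZ g hg
  exact Finset.mem_image.mpr ⟨s, hs, QuotientGroup.eq.mpr hq⟩

theorem supp_locIn_left {F : monSub Q ω} {T : Finset (G ⧸ Q)}
    (hT : ∀ g : G, F.1 g ≠ 0 → (g : G ⧸ Q) ∈ T) (F' : monSub Q ω) :
    Function.support (locIn F F') ⊆ T := by
  intro z hz
  induction z using QuotientGroup.induction_on with
  | H g => exact hT g fun h => hz (by simp [locIn_mk, h])

theorem fin_locIn (F F' : monSub Q ω) : (Function.support (locIn F F')).Finite := by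
  obtain ⟨T, hT⟩ := exists_supp F
  exact T.finite_toSet.subset (supp_locIn_left hT F')

theorem locIn_self (F : monSub Q ω) (z : G ⧸ Q) : locIn F F z = (‖F.1 z.out‖ ^ 2 : ℝ) := by
  conv_lhs => rw [← z.out_eq']
  rw [locIn_mk, Complex.conj_mul']
  simp

theorem re_inner_self (F : monSub Q ω) {T : Finset (G ⧸ Q)}
    (hT : ∀ g : G, F.1 g ≠ 0 → (g : G ⧸ Q) ∈ T) :
    ∑ᶠ z, locIn F F z = ((∑ z ∈ T, ‖F.1 z.out‖ ^ 2 : ℝ) : ℂ) := by
  rw [finsum_eq_sum_of_support_subset _ (supp_locIn_left hT F)]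
  simp [locIn_self]

/-- The inner product. -/
@[reducible] noncomputable def monCore : InnerProductSpace.Core ℂ (monSub Q ω) where
  inner F F' := ∑ᶠ z, locIn F F' z
  conj_inner_symm F F' := by
    refine ((starRingEnd ℂ).toAddMonoidHom.map_finsum (fin_locIn F' F)).trans
      (finsum_congr fun z => ?_)
    induction z using QuotientGroup.induction_on with
    | H g => simp [locIn_mk, mul_comm]
  re_inner_nonneg F := by
    obtain ⟨T, hT⟩ := exists_supp F
    rw [re_inner_self F hT]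
    simp only [RCLike.re_to_complex, Complex.ofReal_re]
    positivity
  add_left F F' H := by
    rw [← finsum_add_distrib (fin_locIn F H) (fin_locIn F' H)]
    refine finsum_congr fun z => ?_
    induction z using QuotientGroup.induction_on with
    | H g => simp [locIn_mk, add_mul]
  smul_left F F' r := by
    rw [mul_finsum' _ _ (fin_locIn F F')]
    refine finsum_congr fun z => ?_
    induction z using QuotientGroup.induction_on with
    | H g => simp [locIn_mk, mul_assoc]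
  definite F h := by
    obtain ⟨T, hT⟩ := exists_supp F
    rw [re_inner_self F hT, Complex.ofReal_eq_zero,
      Finset.sum_eq_zero_iff_of_nonneg fun _ _ => by positivity] at h
    refine Subtype.ext (funext fun g => ?_)
    by_contra hg
    have h1 := h _ (hT g hg)
    obtain ⟨q, hq⟩ := QuotientGroup.mk_out_eq_mul Q g
    rw [hq, F.2.1] at h1
    simp at h1
    exact hg h1

variable (Q ω)

/-- The action by left translation. -/
def monRep : Representation ℂ G (monSub Q ω) where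
  toFun h := (LinearMap.funLeft ℂ ℂ fun g => h⁻¹ * g).restrict (p := monSub Q ω) (q := monSub Q ω)
    (by
      classical
      rintro F ⟨h1, Z, hZ⟩
      refine ⟨fun g q => by simp [← mul_assoc, h1], Z.image (h * ·), fun g hg => ?_⟩
      obtain ⟨s, hs, hq⟩ := hZ _ hg
      exact ⟨h * s, Finset.mem_image_of_mem _ hs, by simpa [mul_assoc] using hq⟩)
  map_one' := by ext F g; simp
  map_mul' a c := by ext F g; simp [mul_assoc]

theorem monRep_apply (h : G) (F : monSub Q ω) (g : G) : (monRep Q ω h F).1 g = F.1 (h⁻¹ * g) := rfl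

/-- The monomial representation sits in a unitary representation. -/
theorem exists_monV : ∃ (V : Type u) (_ : NormedAddCommGroup V) (_ : InnerProductSpace ℂ V)
    (ρ : Representation ℂ G V) (e : V ≃ₗ[ℂ] monSub Q ω),
    (∀ g v, ‖ρ g v‖ = ‖v‖) ∧ (∀ h v g, (e (ρ h v)).1 g = (e v).1 (h⁻¹ * g)) ∧
    (∀ (v : V) (s : Finset G), (∀ g ∈ s, ∀ g' ∈ s, (g : G ⧸ Q) = g' → g = g') →
      ∑ g ∈ s, ‖(e v).1 g‖ ^ 2 ≤ ‖v‖ ^ 2) ∧
    ∀ v : V, ∃ Z : Finset G, ∀ w : V, ‖inner ℂ v w‖ ≤ ∑ g ∈ Z, ‖(e v).1 g‖ * ‖(e w).1 g‖ := by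
  classical
  let : InnerProductSpace.Core ℂ (monSub Q ω) := monCore
  let : NormedAddCommGroup (monSub Q ω) :=
    InnerProductSpace.Core.toNormedAddCommGroup (𝕜 := ℂ) (F := monSub Q ω)
  let : InnerProductSpace ℂ (monSub Q ω) := InnerProductSpace.ofCore _
  have hin : ∀ F F' : monSub Q ω, inner ℂ F F' = ∑ᶠ z, locIn F F' z := fun _ _ => rfl
  have hnorm : ∀ (F : monSub Q ω) (T : Finset (G ⧸ Q)), (∀ g : G, F.1 g ≠ 0 → (g : G ⧸ Q) ∈ T) →
      ‖F‖ ^ 2 = ∑ z ∈ T, ‖F.1 z.out‖ ^ 2 := fun F T hT => by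
    rw [← inner_self_eq_norm_sq (𝕜 := ℂ), hin, re_inner_self F hT]
    simp only [RCLike.re_to_complex, Complex.ofReal_re]
  have hout : ∀ (F : monSub Q ω) (g : G), ‖F.1 (g : G ⧸ Q).out‖ = ‖F.1 g‖ := fun F g => by
    obtain ⟨q, hq⟩ := QuotientGroup.mk_out_eq_mul Q g
    rw [hq, F.2.1, norm_mul, Circle.norm_coe, one_mul]
  refine ⟨monSub Q ω, inferInstance, inferInstance, monRep Q ω, LinearEquiv.refl _ _, ?_,
    fun _ _ _ => rfl, ?_, ?_⟩
  · intro h F
    rw [@norm_eq_sqrt_re_inner ℂ, @norm_eq_sqrt_re_inner ℂ, hin, hin]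
    congr 2
    rw [← finsum_comp_equiv (MulAction.toPerm h⁻¹ : Equiv.Perm (G ⧸ Q)) (f := locIn F F)]
    refine finsum_congr fun z => ?_
    induction z using QuotientGroup.induction_on with
    | H g => rfl
  · intro F s hs
    obtain ⟨T, hT⟩ := exists_supp F
    rw [hnorm F (T ∪ s.image (↑)) fun g hg => Finset.mem_union_left _ (hT g hg)]
    refine le_trans (le_of_eq ?_) (Finset.sum_le_sum_of_subset_of_nonneg
      Finset.subset_union_right fun _ _ _ => by positivity)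
    rw [Finset.sum_image fun g hg g' hg' h => hs g hg g' hg' h]
    exact Finset.sum_congr rfl fun g _ => by rw [hout]; rfl
  · intro F
    obtain ⟨T, hT⟩ := exists_supp F
    refine ⟨T.image Quotient.out, fun F' => ?_⟩
    rw [hin, finsum_eq_sum_of_support_subset _ (supp_locIn_left hT F'),
      Finset.sum_image fun z _ z' _ h => Quotient.out_injective h]
    refine (norm_sum_le _ _).trans (le_of_eq (Finset.sum_congr rfl fun z _ => ?_))
    conv_lhs => rw [← z.out_eq']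
    rw [locIn_mk, norm_mul, RCLike.norm_conj]
    rfl

end Pool.Agent.P.MP_0b1ded_al
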