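import Pool.Agent.P.MP_0b1ded_al.KT
import Pool.Agent.P.MP_0b1ded_al.MonV

/-! The vanishing theorem for functionals with finite support. -/

namespace Pool.Agent.P.MP_0b1ded_al

open Function Filter

variable {ι X Y : Type} [AddCommGroup X] [AddCommGroup Y] {P : RootDatum ι X Y} {b : P.Base}
  {p : ℕ} {K : Type} [Field K] {G : Type*} [Group G] [Finite ι] [P.IsReduced]
  [Fact p.Prime] [CharP K p] [IsAlgClosed K] [Algebra (ZMod p) K] [Algebra.IsAlgebraic (ZMod p) K]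
  [Module.Finite ℤ X]
  {k : Type*} [Field k] [CharZero k] {M : Type*} [AddCommGroup M] [Module k M]

namespace Red

variable (D : Red p K G b)

theorem spread_point (Q : Subgroup G) (ω : Q → Circle) {V : Type*} [NormedAddCommGroup V]
    [InnerProductSpace ℂ V] (σ : Representation ℂ G V) (e : V ≃ₗ[ℂ] monSub Q ω)
    (he : ∀ h v g, (e (σ h v)).1 g = (e v).1 (h⁻¹ * g))
    (hb : ∀ (v : V) (s : Finset G), (∀ g ∈ s, ∀ g' ∈ s, (g : G ⧸ Q) = g' → g = g') →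
      ∑ g ∈ s, ‖(e v).1 g‖ ^ 2 ≤ ‖v‖ ^ 2)
    (hQT : ∀ t, D.τ t ∈ Q) (n₀ : D.N) (hQU : ∀ u ∈ D.U, (n₀ : G)⁻¹ * u * n₀ ∈ Q)
    (ψ : Tor K X → ℂ) (hψ : ∀ t, ‖ψ t‖ = 1)
    (hw : ∀ m : D.N, ∃ t, ψ t ≠ ω ⟨(D.τ (D.cj m t))⁻¹, inv_mem (hQT _)⟩) (g : G) {δ : ℝ}
    (hδ : 0 < δ) : ∀ᶠ a in atTop, ∀ w : V,
      (∀ t, D.τ t ∈ D.Fix a → σ (D.τ t) w = ψ t • w) → ‖(e w).1 g‖ ≤ δ * ‖w‖ := by
  classical
  obtain ⟨u, hu, m₁, u', hu', hg⟩ := D.bruhat (g * (n₀ : G)⁻¹)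
  obtain ⟨m, hm⟩ : ∃ m : D.N, m = m₁ * n₀ := ⟨_, rfl⟩
  have hg' : g = u * m * (⟨_, hQU u' hu'⟩ : Q) := by
    rw [hm, Subgroup.coe_mul, ← inv_mul_cancel_right g (n₀ : G), hg]
    group
  have hn : ∀ (w : V) (g : G) (q : Q), ‖(e w).1 (g * q)‖ = ‖(e w).1 g‖ := fun w g q => by
    rw [(e w).2.1, norm_mul, Circle.norm_coe, one_mul]
  have hn' : ∀ w : V, ‖(e w).1 g‖ = ‖(e w).1 (u * m)‖ := fun w => by rw [hg', hn]
  simp only [hn']
  let C : Subgroup G := Q.comap (MulAut.conj (m : G)⁻¹).toMonoidHom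
  have hCm : ∀ c, c ∈ C ↔ (m : G)⁻¹ * c * m ∈ Q := fun c => by simp [C]
  by_cases huC : u ∈ C
  · obtain ⟨t, ht⟩ := hw m
    filter_upwards [D.ev_Fix (D.τ t)] with a ha w hw'
    have e1 : u * m = m * (⟨_, (hCm u).mp huC⟩ : Q) := by simp [mul_assoc]
    have e2 : (D.τ t)⁻¹ * m = m * (⟨(D.τ (D.cj m t))⁻¹, inv_mem (hQT _)⟩ : Q) := by
      simp only [τ_cj]
      group
    have e3 := he (D.τ t) w m
    rw [hw' t ha, e2, (e w).2.1, map_smul] at e3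
    have e4 : (e w).1 m = 0 := by
      by_contra h0
      exact ht (mul_right_cancel₀ h0 e3)
    rw [e1, hn, e4, norm_zero]
    positivity
  · have hinf := mt (D.orb_U C (fun t c hc => ?_) hu) huC
    swap
    · rw [hCm] at hc ⊢
      have : (m : G)⁻¹ * (D.τ t * c * (D.τ t)⁻¹) * m =
          D.τ (D.cj m t) * ((m : G)⁻¹ * c * m) * (D.τ (D.cj m t))⁻¹ := by
        simp only [τ_cj]
        group
      rw [this]
      exact mul_mem (mul_mem (hQT _) hc) (inv_mem (hQT _))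
    obtain ⟨N, hN⟩ := exists_nat_gt (1 / δ ^ 2)
    obtain ⟨T, hT, hTc⟩ := Set.Infinite.exists_subset_card_eq hinf N
    choose! tt htt using fun z (hz : z ∈ T) => hT hz
    have hinj : ∀ z ∈ T, ∀ z' ∈ T,
        ((D.τ (tt z) * (u * m) : G) : G ⧸ Q) = (D.τ (tt z') * (u * m) : G) → z = z' := by
      intro z hz z' hz' h
      rw [htt z hz, htt z' hz', QuotientGroup.eq, hCm]
      have : (m : G)⁻¹ * ((D.τ (tt z) * u * (D.τ (tt z))⁻¹)⁻¹ *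
          (D.τ (tt z') * u * (D.τ (tt z'))⁻¹)) * m = D.τ (D.cj m (tt z)) *
            ((D.τ (tt z) * (u * m))⁻¹ * (D.τ (tt z') * (u * m))) * (D.τ (D.cj m (tt z')))⁻¹ := by
        simp only [τ_cj]
        group
      rw [this]
      exact mul_mem (mul_mem (hQT _) (QuotientGroup.eq.mp h)) (inv_mem (hQT _))
    filter_upwards [(eventually_all_finset T).mpr fun z _ => D.ev_Fix (D.τ (tt z))] with a ha w hw'
    have h1 := hb w (T.image fun z => D.τ (tt z) * (u * m)) (by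
      intro g hg g' hg' h
      obtain ⟨z, hz, rfl⟩ := Finset.mem_image.mp hg
      obtain ⟨z', hz', rfl⟩ := Finset.mem_image.mp hg'
      rw [hinj z hz z' hz' h])
    rw [Finset.sum_image fun z hz z' hz' h => hinj z hz z' hz' (congrArg _ h)] at h1
    have h2 : ∀ z ∈ T, ‖(e w).1 (D.τ (tt z) * (u * m))‖ ^ 2 = ‖(e w).1 (u * m)‖ ^ 2 := by
      intro z hz
      have e3 := he (D.τ (tt z)) w (D.τ (tt z) * (u * m))
      rw [hw' _ (ha z hz), map_smul, inv_mul_cancel_left] at e3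
      rw [← e3, Submodule.coe_smul, Pi.smul_apply, norm_smul, hψ, one_mul]
    rw [Finset.sum_congr rfl h2, Finset.sum_const, hTc, nsmul_eq_mul] at h1
    refine (pow_le_pow_iff_left₀ (norm_nonneg _) (by positivity) two_ne_zero).mp ?_
    rw [div_lt_iff₀ (by positivity)] at hN
    rw [mul_pow]
    nlinarith [sq_nonneg ‖(e w).1 (u * m)‖, sq_pos_of_pos hδ]

theorem bil (ρ : Representation k G M) (R : Submodule k M) (hR : ∀ g, ∀ v ∈ R, ρ g v ∈ R)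
    (f : M →ₗ[k] k) (θ₀ θ θ' : Tor K X →* kˣ) (n₀ : D.N)
    (hT : ∀ t v, f (ρ (D.τ t) v) = (θ₀ t : k) * f v)
    (hU : ∀ u ∈ D.U, ∀ v, f (ρ ((n₀ : G)⁻¹ * u * n₀) v) = f v)
    (hfin : ∀ v ∈ R, ∃ Z : Finset G, ∀ g, f (ρ g⁻¹ v) ≠ 0 → ∃ s ∈ Z, s⁻¹ * g ∈ stabF ρ R hR f)
    {ℓ ℓ' : X →+ ℤ} (hs : Stable b ℓ) (hs' : Stable b ℓ') (Φ : G × G → M) (hΦ : ∀ z, Φ z ∈ R)
    (eqv : ∀ h g g', Φ (h * g, h * g') = ρ h (Φ (g, g')))
    (hT1 : ∀ t g g', Φ (g * D.τ t, g') = (θ t : k) • Φ (g, g'))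
    (hT2 : ∀ t g g', Φ (g, g' * D.τ t) = (θ' t : k) • Φ (g, g'))
    (h1 : D.PVec (rt1 k G M) ℓ Φ) (h2 : D.PVec (rt2 k G M) ℓ' Φ)
    (hw : ∀ m m' : D.N, ∃ t, θ t * θ' (D.cj m t) ≠ θ₀ (D.cj m' t)) (z : G × G) :
    f (Φ z) = 0 := by
  classical
  by_contra hz
  obtain ⟨Λ, sg, hΛ0, hΛ, hsg⟩ := exists_lam hz
  let Q := stabF ρ R hR f
  choose χ hχ using fun q : Q => q.2
  have hχf : ∀ q : Q, IsOfFinOrder (χ q : k) := fun q => by
    obtain ⟨n, hn, h⟩ := isOfFinOrder_iff_pow_eq_one.mp (D.isOfFinOrder (q : G))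
    refine isOfFinOrder_iff_pow_eq_one.mpr ⟨n, hn, ?_⟩
    have : ∀ j : ℕ, ∀ v ∈ R, f (ρ ((q : G) ^ j) v) = (χ q : k) ^ j * f v := fun j => by
      induction j with
      | zero => simp
      | succ j ih =>
        intro v hv
        rw [pow_succ', ← rho_rho, hχ q _ (hR _ v hv), ih v hv, pow_succ', mul_assoc]
    have h2 := this n _ (hΦ z)
    rw [h, map_one, Module.End.one_apply] at h2
    exact (mul_eq_right₀ hz).mp h2.symm
  have hfo : ∀ (ϑ : Tor K X →* kˣ) t, IsOfFinOrder (ϑ t : k) := fun ϑ t =>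
    ((Units.coeHom k).comp ϑ).isOfFinOrder
      (D.τ_inj.isOfFinOrder_iff.mp (D.isOfFinOrder (D.τ t)))
  let ω : Q → Circle := fun q => sg (χ q⁻¹)
  obtain ⟨V, _, _, σ, e, hiso, he, hb, hi⟩ := exists_monV Q ω
  have hmem : ∀ v ∈ R, (fun g => Λ (f (ρ g⁻¹ v))) ∈ monSub Q ω := fun v hv => by
    obtain ⟨Z, hZ⟩ := hfin v hv
    refine ⟨fun g q => ?_, Z, fun g hg => hZ g fun h => hg (by simp [h])⟩
    have := hχ q⁻¹ _ (hR g⁻¹ v hv)
    simp only [mul_inv_rev, ← rho_rho]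
    rw [Subgroup.coe_inv] at this
    rw [this, hΛ _ (hχf _)]
  let Ψ : G × G → V := fun y => e.symm ⟨_, hmem _ (hΦ y)⟩
  have hΨ : ∀ y g, (e (Ψ y)).1 g = Λ (f (ρ g⁻¹ (Φ y))) := fun y g => by simp [Ψ]
  have hext : ∀ v w : V, (∀ g, (e v).1 g = (e w).1 g) → v = w := fun v w h =>
    e.injective (Subtype.ext (funext h))
  have hQT : ∀ t, D.τ t ∈ Q := fun t => ⟨θ₀ t, fun v _ => hT t v⟩
  have hQU : ∀ u ∈ D.U, (n₀ : G)⁻¹ * u * n₀ ∈ Q := fun u hu => ⟨1, fun v _ => by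
    rw [hU u hu, Units.val_one, one_mul]⟩
  have hP : ∀ (r : Representation k G (G × G → M)) (r' : Representation ℂ G (G × G → V))
      (T : G → G × G → G × G) (hr : ∀ a F y, r a F y = F (T a y))
      (hr' : ∀ a F y, r' a F y = F (T a y)) {l : X →+ ℤ} (h : D.PVec r l Φ), D.PVec r' l Ψ := by
    intro r r' T hr hr' l h
    refine ⟨fun β hβ c => funext fun y => hext _ _ fun g => ?_,
      fun α hα c => funext fun y => hext _ _ fun g => ?_,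
      fun α hα c => funext fun y => hext _ _ fun g => ?_⟩
    · rw [hr', hΨ, hΨ, ← hr _ Φ, h.fixA β hβ]
    · rw [hr', hΨ, ← hr _ Φ, h.negn α hα]
      simp [hΨ]
    · rw [hr', hΨ, ← hr _ Φ, h.rel α hα]
      simp [hΨ, hr, hr']
  have key := D.kt σ hiso hs hs' (fun t => sg (θ t)) (fun t => sg (θ' t))
    (fun t => Circle.norm_coe _) (fun t => Circle.norm_coe _) Ψ
    (fun h g g' => hext _ _ fun g₀ => by rw [he, hΨ, hΨ, eqv, rho_rho, mul_inv_rev, inv_inv])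
    (fun t g g' => hext _ _ fun g₀ => by
      rw [hΨ, hT1, map_smul, map_smul, smul_eq_mul, hΛ _ (hfo θ t)]
      simp [hΨ])
    (fun t g g' => hext _ _ fun g₀ => by
      rw [hΨ, hT2, map_smul, map_smul, smul_eq_mul, hΛ _ (hfo θ' t)]
      simp [hΨ])
    (hP _ _ (fun a y => (y.1 * a, y.2)) (fun _ _ _ => rfl) (fun _ _ _ => rfl) h1)
    (hP _ _ (fun a y => (y.1, y.2 * a)) (fun _ _ _ => rfl) (fun _ _ _ => rfl) h2)
    (fun m v ε hε => ?_)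
  · have := hΨ z 1
    rw [key, inv_one, map_one, Module.End.one_apply] at this
    exact hΛ0 (by simpa using this.symm)
  obtain ⟨Z, hZ⟩ := hi v
  have hpos : 0 < ∑ g ∈ Z, ‖(e v).1 g‖ + 1 := by positivity
  have hsp := fun g => D.spread_point Q ω σ e he hb hQT n₀ hQU
    (fun t => (sg (θ t) : ℂ) * sg (θ' (D.cj m t))) (fun t => by simp) (fun m' => ?_) g
    (div_pos hε hpos)
  · filter_upwards [(eventually_all_finset Z).mpr fun g _ => hsp g] with a ha w hw'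
    refine (hZ w).trans ((Finset.sum_le_sum fun g hg =>
      mul_le_mul_of_nonneg_left (ha g hg w hw') (norm_nonneg _)).trans ?_)
    rw [← Finset.sum_mul, ← mul_assoc]
    refine mul_le_mul_of_nonneg_right ?_ (norm_nonneg _)
    rw [mul_div_assoc', div_le_iff₀ hpos]
    nlinarith
  obtain ⟨t, ht⟩ := hw m m'
  refine ⟨t, fun h => ht (Units.ext (hsg _ _ ((hfo θ t).mul (hfo θ' _)) (hfo θ₀ _) ?_))⟩
  have e1 : (χ ⟨D.τ (D.cj m' t), hQT _⟩ : k) = θ₀ (D.cj m' t) :=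
    mul_right_cancel₀ hz ((hχ ⟨_, hQT _⟩ _ (hΦ z)).symm.trans (hT _ _))
  have e2 : (sg ((θ t : k) * θ' (D.cj m t)) : ℂ) = sg (θ t) * sg (θ' (D.cj m t)) := by
    refine mul_right_cancel₀ hΛ0 ?_
    rw [← hΛ _ ((hfo θ t).mul (hfo θ' _)), mul_assoc, hΛ _ (hfo θ t), hΛ _ (hfo θ' _), mul_assoc]
  have e3 : (⟨(D.τ (D.cj m' t))⁻¹, inv_mem (hQT _)⟩ : Q)⁻¹ = ⟨D.τ (D.cj m' t), hQT _⟩ :=
    Subtype.ext (inv_inv _)
  apply Subtype.ext
  rw [← e1, ← e3]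
  exact e2.trans h

end Red

end Pool.Agent.P.MP_0b1ded_al
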