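import Pool.Agent.P.MP_0b1ded_al.Rank1
import Pool.Agent.P.MP_0b1ded_al.PVec

/-! Vectors of Steinberg type modulo a proper submodule. -/

namespace Pool.Agent.P.MP_0b1ded_al

open Function Filter

variable {ι X Y : Type} [AddCommGroup X] [AddCommGroup Y] {P : RootDatum ι X Y} {b : P.Base}
  {p : ℕ} {K : Type} [Field K] {G : Type*} [Group G] [Finite ι] [P.IsReduced]
  [Fact p.Prime] [CharP K p] [IsAlgClosed K] [Algebra (ZMod p) K] [Algebra.IsAlgebraic (ZMod p) K]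
  [Module.Finite ℤ X]
  {k : Type*} [Field k] [CharZero k] {M : Type*} [AddCommGroup M] [Module k M]

namespace Red

variable {D : Red p K G b} {ρ : Representation k G M} (S : D.Mono ρ)

theorem Mono.prx_fix_of_conj {ξ : M} {H : Subgroup G} (hH : ∀ u ∈ H, ρ u ξ = ξ) {g u : G}
    (h : g⁻¹ * u * g ∈ H) : ρ u (ρ g ξ) = ρ g ξ := by
  have e : u * g = g * (g⁻¹ * u * g) := by group
  rw [rho_rho, e, ← rho_rho, hH _ h]

theorem prx_π_nc_inv (D : Red p K G b) (α : ι) (c : Kˣ) :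
    D.π (D.nc α c)⁻¹ = P.reflectionPerm α := by
  rw [← D.nc_neg, D.π_nc]

theorem Mono.primal (W : Submodule k M) (hW : ∀ g, ∀ v ∈ W, ρ g v ∈ W) (hne : W ≠ ⊤) :
    ∃ ℓ : X →+ ℤ, Stable b ℓ ∧ ∃ i, S.ξ i ∉ W ∧
      (∀ β ∈ Aset b ℓ, ∀ c, ρ (D.x β c) (S.ξ i) = S.ξ i) ∧
      (∀ α ∈ Jset b ℓ, ∀ c : Kˣ, ρ (D.nc α c) (S.ξ i) + S.ξ i ∈ W) ∧
      ∀ α ∈ Jset b ℓ, ∀ c : Kˣ,
        ρ (D.y α c) (S.ξ i) - (S.ξ i - ρ (D.x α (c : K)⁻¹) (S.ξ i)) ∈ W := by
  classical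
  choose ℓ hℓ using fun i => D.exists_ell_N (S.w i)
  have hA : ∀ i β, β ∈ Aset b (ℓ i) ↔ b.IsPos β ∧ b.IsPos (D.π (S.w i) β) := by
    intro i β
    refine and_congr_right fun _ => ⟨fun h => ?_, (hℓ i β).1⟩
    by_contra h'
    exact lt_asymm h ((hℓ i β).2 h')
  have hWi : ∀ g v, ρ g v ∈ W → v ∈ W := by
    intro g v h
    have := hW g⁻¹ _ h
    rwa [rho_rho, inv_mul_cancel, map_one, Module.End.one_apply] at this
  have hsum : ∀ v ∈ S.E, (∀ j, S.κ j v ≠ 0 → S.ξ j ∈ W) → v ∈ W := by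
    intro v hv h
    rw [S.eq_sum hv]
    refine Submodule.sum_mem _ fun j _ => ?_
    by_cases hj : S.κ j v = 0
    · rw [hj, zero_smul]; exact zero_mem _
    · exact Submodule.smul_mem _ _ (h j hj)
  obtain ⟨i, hi, hs, hmax⟩ := exists_stable (b := b) (fun i => S.ξ i ∉ W) ℓ
    (fun i β => by
      by_cases h : b.IsPos (D.π (S.w i) β)
      · exact ((hℓ i β).1 h).ne'
      · exact ((hℓ i β).2 h).ne)
    (by
      by_contra h
      push Not at h
      exact hne (eq_top_iff.mpr fun v _ => S.mem_of_forall (fun i u _ => hW u _ (h i)) v))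
    (fun i hi α hα => by
      have h1 : ρ (D.ns α) (S.ξ i) ∉ W := fun h => hi (hWi _ _ h)
      have h2 : ¬ ∀ j, S.κ j (ρ (D.ns α) (S.ξ i)) ≠ 0 → S.ξ j ∈ W :=
        fun h => h1 (hsum _ (S.N_mem_E _ (S.ξ_mem i)) h)
      push Not at h2
      obtain ⟨j, hj0, hj⟩ := h2
      refine ⟨j, hj, fun β hβ => ?_⟩
      have hne' : β ≠ α := by
        rintro rfl
        exact lt_asymm hβ.2 hα.2
      have hβ' := (hA i β).mp hβ
      have hp := isPos_refl hα.1 hβ'.1 hne'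
      refine (hA j _).mpr ⟨hp, ?_⟩
      by_contra hn
      have h3 := S.N_mem_Fx (D.ns α) (S.ξ_mem_Fx hβ'.1 hβ'.2)
      rw [D.π_ns] at h3
      exact hj0 (S.κ_eq_zero_of_fixed hp hn h3.2))
  have hfix : ∀ u ∈ genU D.x (Aset b (ℓ i)), ρ u (S.ξ i) = S.ξ i := fun u hu =>
    S.fix i (genU_mono (fun β hβ => (hA i β).mp hβ) hu)
  have hr : ∀ α ∈ Jset b (ℓ i), ∀ c : Kˣ,
      ρ (D.y α c) (S.ξ i) - ρ (D.x α (c : K)⁻¹) (ρ (D.nc α c) (S.ξ i)) - S.ξ i ∈ W := by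
    intro α hα c
    have h1 := S.rank1 hα.1 c (S.ξ_mem i)
    refine hsum _ h1.1 fun j hj => ?_
    by_contra hjW
    have hαj : α ∈ Aset b (ℓ j) := by
      refine (hA j α).mpr ⟨b.isPos_of_mem_support hα.1, ?_⟩
      by_contra hn
      exact hj (S.κ_eq_zero_of_fixed (b.isPos_of_mem_support hα.1) hn h1.2)
    have hsub : Aset b (ℓ i) ⊆ Aset b (ℓ j) := by
      intro β hβ
      refine (hA j β).mpr ⟨hβ.1, ?_⟩
      by_contra hn
      refine hj (S.κ_eq_zero_of_fixed hβ.1 hn fun d => ?_)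
      have hx : D.x β d ∈ genU D.x (Aset b (ℓ i)) := mem_genU hβ d
      have e1 : ρ (D.x β d) (ρ (D.y α c) (S.ξ i)) = ρ (D.y α c) (S.ξ i) := by
        refine Mono.prx_fix_of_conj hfix ?_
        have := D.y_conj_Aset hs hα (-c) hx
        rwa [D.y_neg, inv_inv] at this
      have e2 : ρ (D.x β d) (ρ (D.x α (c : K)⁻¹) (ρ (D.nc α c) (S.ξ i))) =
          ρ (D.x α (c : K)⁻¹) (ρ (D.nc α c) (S.ξ i)) := by
        rw [rho_rho ρ (D.x α (c : K)⁻¹)]
        refine Mono.prx_fix_of_conj hfix ?_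
        have h2 := D.x_conj_Aset hs hα (-(c : K)⁻¹) hx
        rw [D.x_neg, inv_inv] at h2
        have h3 := D.N_conj_genU (D.nc α c)⁻¹ (S' := Aset b (ℓ i))
          (fun γ hγ => by rw [prx_π_nc_inv]; exact hs.2 α hα γ hγ) h2
        rw [Subgroup.coe_inv, inv_inv] at h3
        convert h3 using 1
        group
      rw [map_sub, map_sub, e1, e2, hfix _ hx]
    exact lt_asymm (hmax j hjW hsub hαj).2 hα.2
  have hn : ∀ α ∈ Jset b (ℓ i), ∀ c : Kˣ, ρ (D.nc α c) (S.ξ i) + S.ξ i ∈ W := by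
    intro α hα c
    have h1 := hW (D.y α (-((-c : Kˣ) : K))) _ (hr α hα (-c))
    have h2 := hr α hα c
    rw [map_sub, map_sub, rho_rho, rho_rho, rho_rho, D.y_x_nc, D.y_neg, inv_mul_cancel, map_one,
      Module.End.one_apply, ← D.y_neg, Units.val_neg, neg_neg, inv_neg, neg_neg] at h1
    refine hWi (D.x α (c : K)⁻¹) _ ?_
    have := neg_mem (add_mem h1 h2)
    convert this using 1
    rw [map_add]
    abel
  refine ⟨ℓ i, hs, i, hi, fun β hβ c => hfix _ (mem_genU hβ c), hn, fun α hα c => ?_⟩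
  have := add_mem (hr α hα c) (hW (D.x α (c : K)⁻¹) _ (hn α hα c))
  convert this using 1
  rw [map_add]
  abel

end Red

end Pool.Agent.P.MP_0b1ded_al
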