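import Pool.Agent.P.MP_0b1ded_al.C0
import Pool.Agent.P.MP_0b1ded_al.Primal
import Pool.Agent.P.MP_0b1ded_al.Dual
import Pool.Agent.P.MP_0b1ded_al.Monom

/-! The vanishing of homomorphisms from tensor products. -/

namespace Pool.Agent.P.MP_0b1ded_al

open Function TensorProduct

variable {ι X Y : Type} [AddCommGroup X] [AddCommGroup Y] {P : RootDatum ι X Y} {b : P.Base}
  {p : ℕ} {K : Type} [Field K] {G : Type*} [Group G] [Finite ι] [P.IsReduced]
  [Fact p.Prime] [CharP K p] [IsAlgClosed K] [Algebra (ZMod p) K] [Algebra.IsAlgebraic (ZMod p) K]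
  [Module.Finite ℤ X] {k : Type*} [Field k] [CharZero k]
  {M N L : Type*} [AddCommGroup M] [Module k M] [AddCommGroup N] [Module k N] [AddCommGroup L]
  [Module k L]

namespace Red

variable {D : Red p K G b}

theorem Mono.eig_N {ρ : Representation k G M} (S : D.Mono ρ) (i : Fin S.n) (m : D.N)
    (t : Tor K X) : ρ (D.τ t) (ρ m (S.ξ i)) = (S.θ i (D.cj m t) : k) • ρ m (S.ξ i) := by
  rw [rho_rho, τ_mul_N, ← rho_rho, S.eig, map_smul]

theorem Mono.N_ne_zero {ρ : Representation k G M} (S : D.Mono ρ) (i : Fin S.n) (g : G) :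
    ρ g (S.ξ i) ≠ 0 := by
  intro h
  have := congrArg (ρ g⁻¹) h
  rw [rho_rho, inv_mul_cancel, map_one, map_zero] at this
  exact S.ξ_ne_zero i this

theorem tmul_ne_zero' {m : M} {n : N} (hm : m ≠ 0) (hn : n ≠ 0) : m ⊗ₜ[k] n ≠ 0 := by
  obtain ⟨f, hf⟩ := not_forall.mp ((Module.forall_dual_apply_eq_zero_iff k m).not.mpr hm)
  obtain ⟨g, hg⟩ := not_forall.mp ((Module.forall_dual_apply_eq_zero_iff k n).not.mpr hn)
  intro h
  have := congrArg (TensorProduct.lift ((LinearMap.mul k k).compl₁₂ f g)) h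
  simp [hf, hg] at this

theorem main {ρ : Representation k G M} {σ : Representation k G N} {μ : Representation k G L}
    (hM : D.InX ρ) (hN : D.InX σ) (hL : D.InX μ) (hd : Disjoint (D.wts μ) (D.wts (ρ.tprod σ)))
    (f : M ⊗[k] N →ₗ[k] L) (hf : ∀ g v, f (ρ.tprod σ g v) = μ g (f v)) : f = 0 := by
  obtain ⟨S⟩ := hM.mono
  obtain ⟨S'⟩ := hN.mono
  obtain ⟨S₀⟩ := hL.mono
  have hf' : ∀ g m n, f (ρ g m ⊗ₜ σ g n) = μ g (f (m ⊗ₜ n)) := fun g m n => by
    rw [← hf]; simp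
  by_contra hne
  let W : Submodule k M := ⨅ n : N, LinearMap.ker (f ∘ₗ (TensorProduct.mk k M N).flip n)
  have hWm : ∀ m, m ∈ W ↔ ∀ n, f (m ⊗ₜ n) = 0 := fun m => by simp [W]
  obtain ⟨ℓ, hs, i, hi, a1, a2, a3⟩ := S.primal W (fun g v hv => (hWm _).mpr fun n => by
      have := hf' g v (σ g⁻¹ n)
      rwa [rho_rho, mul_inv_cancel, map_one, Module.End.one_apply, (hWm _).mp hv, map_zero] at this)
    (fun h => hne (TensorProduct.ext' fun m n => (hWm m).mp (h ▸ Submodule.mem_top) n))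
  have hWG : ∀ g, ∀ v ∈ W, ∀ n, f (ρ g v ⊗ₜ n) = 0 := fun g v hv n => by
    have := hf' g v (σ g⁻¹ n)
    rwa [rho_rho, mul_inv_cancel, map_one, Module.End.one_apply, (hWm _).mp hv, map_zero] at this
  let W' : Submodule k N := ⨅ g : G, LinearMap.ker (f ∘ₗ TensorProduct.mk k M N (ρ g (S.ξ i)))
  have hWm' : ∀ n, n ∈ W' ↔ ∀ g, f (ρ g (S.ξ i) ⊗ₜ n) = 0 := fun m => by simp [W']
  have hWG' : ∀ g, ∀ v ∈ W', ∀ g', f (ρ g' (S.ξ i) ⊗ₜ σ g v) = 0 := fun g v hv g' => by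
    have := hf' g (ρ (g⁻¹ * g') (S.ξ i)) v
    rwa [rho_rho, mul_inv_cancel_left, (hWm' _).mp hv, map_zero] at this
  obtain ⟨ℓ', hs', j, hj, b1, b2, b3⟩ := S'.primal W' (fun g v hv => (hWm' _).mpr (hWG' g v hv))
    (fun h => hi ((hWm _).mpr fun n => by
      simpa using (hWm' n).mp (h ▸ Submodule.mem_top) 1))
  let Φ : G × G → L := fun z => f (ρ z.1 (S.ξ i) ⊗ₜ σ z.2 (S'.ξ j))
  have eqv : ∀ h g g', Φ (h * g, h * g') = μ h (Φ (g, g')) := fun h g g' => by
    simp only [Φ]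
    rw [← hf', rho_rho, rho_rho]
  let R : Submodule k L := Submodule.span k (Set.range Φ)
  have hΦ : ∀ z, Φ z ∈ R := fun z => Submodule.subset_span ⟨z, rfl⟩
  have hR : ∀ g, ∀ v ∈ R, μ g v ∈ R := fun g =>
    Submodule.span_le (p := R.comap (μ g)).mpr (by
      rintro _ ⟨z, rfl⟩
      exact (eqv g z.1 z.2 ▸ hΦ _ : μ g (Φ (z.1, z.2)) ∈ R))
  have hR0 : R ≠ ⊥ := fun h => hj ((hWm' _).mpr fun g => by
    have := hΦ (g, 1)
    rw [h, Submodule.mem_bot] at this
    simpa [Φ] using this)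
  obtain ⟨l, ⟨v, hv, hv0⟩, c1, c2⟩ := S₀.dual R hR hR0
  have h1 : D.PVec (rt1 k G L) ℓ Φ := by
    refine ⟨fun β hβ c => funext fun z => ?_, fun α hα c => funext fun z => ?_,
      fun α hα c => funext fun z => ?_⟩
    · simp only [rt1_apply, Φ]
      rw [← rho_rho, a1 β hβ]
    · have := hWG z.1 _ (a2 α hα c) (σ z.2 (S'.ξ j))
      rw [map_add, add_tmul, map_add, rho_rho] at this
      exact eq_neg_of_add_eq_zero_left this
    · have := hWG z.1 _ (a3 α hα c) (σ z.2 (S'.ξ j))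
      rw [map_sub, map_sub, sub_tmul, sub_tmul, map_sub, map_sub, rho_rho, rho_rho] at this
      exact sub_eq_zero.mp this
  have h2 : D.PVec (rt2 k G L) ℓ' Φ := by
    refine ⟨fun β hβ c => funext fun z => ?_, fun α hα c => funext fun z => ?_,
      fun α hα c => funext fun z => ?_⟩
    · simp only [rt2_apply, Φ]
      rw [← rho_rho σ, b1 β hβ]
    · have := hWG' z.2 _ (b2 α hα c) z.1
      rw [map_add, tmul_add, map_add, rho_rho] at this
      exact eq_neg_of_add_eq_zero_left this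
    · have := hWG' z.2 _ (b3 α hα c) z.1
      rw [map_sub, map_sub, tmul_sub, tmul_sub, map_sub, map_sub, rho_rho, rho_rho] at this
      exact sub_eq_zero.mp this
  have key := D.bil μ R hR (S₀.κ l) (S₀.θ l) (S.θ i) (S'.θ j) (S₀.w l) (S₀.κ_τ l) c1 c2 hs hs' Φ hΦ
    eqv (fun t g g' => by simp only [Φ]; rw [← rho_rho, S.eig, map_smul, ← smul_tmul', map_smul])
    (fun t g g' => by simp only [Φ]; rw [← rho_rho σ, S'.eig, map_smul, tmul_smul, map_smul])
    h1 h2 (fun m m' => by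
      by_contra hc
      push Not at hc
      refine Set.disjoint_left.mp hd (show (S₀.θ l).comp (D.cjHom m') ∈ _ from ?_) ?_
      · refine (Submodule.ne_bot_iff _).mpr ⟨μ m' (S₀.ξ l), fun t => ?_, S₀.N_ne_zero l _⟩
        exact S₀.eig_N l m' t
      · refine (Submodule.ne_bot_iff _).mpr ⟨S.ξ i ⊗ₜ σ m (S'.ξ j), fun t => ?_,
          tmul_ne_zero' (S.ξ_ne_zero i) (S'.N_ne_zero j _)⟩
        rw [Representation.tprod_apply, map_tmul, S.eig, S'.eig_N, smul_tmul_smul,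
          MonoidHom.comp_apply, cjHom_apply, ← hc t, Units.val_mul])
  refine hv0 (Submodule.span_le (p := LinearMap.ker (S₀.κ l)).mpr ?_ hv)
  rintro _ ⟨z, rfl⟩
  exact key z

end Red

end Pool.Agent.P.MP_0b1ded_al
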