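import Pool.Agent.P.MP_0b1ded_al.Orb

/-! Modules with a monomial basis for the Borel subgroup. -/

namespace Pool.Agent.P.MP_0b1ded_al

open Function Filter

variable {ι X Y : Type} [AddCommGroup X] [AddCommGroup Y] {P : RootDatum ι X Y} {b : P.Base}
  {p : ℕ} {K : Type} [Field K] {G : Type*} [Group G] [Finite ι] [P.IsReduced]
  [Fact p.Prime] [CharP K p] [IsAlgClosed K] [Algebra (ZMod p) K] [Algebra.IsAlgebraic (ZMod p) K]
  [Module.Finite ℤ X]
  {k : Type*} [Field k] [CharZero k] {M : Type*} [AddCommGroup M] [Module k M]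

theorem rho_rho (ρ : Representation k G M) (g h : G) (v : M) : ρ g (ρ h v) = ρ (g * h) v := by
  rw [map_mul, Module.End.mul_apply]

namespace Red

/-- A monomial basis `u ξ i`. -/
structure Mono (D : Red p K G b) (ρ : Representation k G M) where
  n : ℕ
  ξ : Fin n → M
  w : Fin n → D.N
  θ : Fin n → Tor K X →* kˣ
  eig : ∀ i t, ρ (D.τ t) (ξ i) = (θ i t : k) • ξ i
  bas : Module.Basis (Σ i, D.U ⧸ (D.Up (w i)).subgroupOf D.U) k M
  bas_eq : ∀ i (u : D.U), bas ⟨i, QuotientGroup.mk u⟩ = ρ u (ξ i)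
  stab : ∀ (m : D.N) i, ρ m (ξ i) ∈ Submodule.span k (Set.range ξ)

namespace Mono

variable {D : Red p K G b} {ρ : Representation k G M} (S : D.Mono ρ)

/-- The span of the vectors `ξ i`. -/
def E : Submodule k M := Submodule.span k (Set.range S.ξ)

/-- The coefficient of `ξ i`. -/
noncomputable def κ (i : Fin S.n) : M →ₗ[k] k := S.bas.coord ⟨i, QuotientGroup.mk 1⟩

/-- The augmentation `u ξ i ↦ ξ i`. -/
noncomputable def ε : M →ₗ[k] M := S.bas.constr k fun s => S.ξ s.1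

/-- The vectors of `E` fixed by a root subgroup. -/
def Fx (β : ι) : Submodule k M where
  carrier := {v | v ∈ S.E ∧ ∀ c, ρ (D.x β c) v = v}
  add_mem' ha hb := ⟨add_mem ha.1 hb.1, fun c => by rw [map_add, ha.2, hb.2]⟩
  zero_mem' := ⟨zero_mem _, fun c => map_zero _⟩
  smul_mem' a v hv := ⟨Submodule.smul_mem _ a hv.1, fun c => by rw [map_smul, hv.2]⟩

theorem mem_Fx {β : ι} {v : M} : v ∈ S.Fx β ↔ v ∈ S.E ∧ ∀ c, ρ (D.x β c) v = v := Iff.rfl

theorem ξ_mem (i : Fin S.n) : S.ξ i ∈ S.E := Submodule.subset_span ⟨i, rfl⟩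

theorem bas_one (i : Fin S.n) : S.bas ⟨i, QuotientGroup.mk 1⟩ = S.ξ i := by
  rw [S.bas_eq]
  simp

theorem ξ_ne_zero (i : Fin S.n) : S.ξ i ≠ 0 := S.bas_one i ▸ S.bas.ne_zero _

theorem mk_eq_one {i : Fin S.n} {u : D.U} :
    (QuotientGroup.mk u : D.U ⧸ (D.Up (S.w i)).subgroupOf D.U) = QuotientGroup.mk 1 ↔
      (u : G) ∈ D.Up (S.w i) := by
  rw [eq_comm, QuotientGroup.eq, inv_one, one_mul, Subgroup.mem_subgroupOf]

theorem fix (i : Fin S.n) {u : G} (hu : u ∈ D.Up (S.w i)) : ρ u (S.ξ i) = S.ξ i := by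
  have := S.bas_eq i ⟨u, D.Up_le _ hu⟩
  rw [S.mk_eq_one.mpr hu, bas_one] at this
  exact this.symm

open Classical in
theorem κ_apply (i j : Fin S.n) {u : G} (hu : u ∈ D.U) :
    S.κ i (ρ u (S.ξ j)) = if i = j ∧ u ∈ D.Up (S.w i) then 1 else 0 := by
  have := S.bas_eq j ⟨u, hu⟩
  rw [← this, κ, Module.Basis.coord_apply, Module.Basis.repr_self, Finsupp.single_apply]
  congr 1
  apply propext
  constructor
  · intro h
    obtain ⟨rfl, h2⟩ := Sigma.mk.inj_iff.mp h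
    exact ⟨rfl, S.mk_eq_one.mp (eq_of_heq h2)⟩
  · rintro ⟨rfl, h⟩
    rw [(S.mk_eq_one (u := ⟨u, hu⟩)).mpr h]

theorem κ_ξ (i j : Fin S.n) : S.κ i (S.ξ j) = if i = j then 1 else 0 := by
  have := S.κ_apply i j (one_mem D.U)
  simpa [one_mem] using this

/-- Linear maps agree when they agree on the vectors `u ξ i`. -/
theorem hom_ext {W : Type*} [AddCommGroup W] [Module k W] {f g : M →ₗ[k] W}
    (h : ∀ i, ∀ u ∈ D.U, f (ρ u (S.ξ i)) = g (ρ u (S.ξ i))) : f = g := by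
  refine S.bas.ext ?_
  rintro ⟨i, z⟩
  induction z using QuotientGroup.induction_on with
  | H u => rw [S.bas_eq]; exact h i u u.2

theorem mem_of_forall {W : Submodule k M} (h : ∀ i, ∀ u ∈ D.U, ρ u (S.ξ i) ∈ W) (v : M) :
    v ∈ W := by
  have : W.mkQ = 0 := S.hom_ext fun i u hu => by simpa using h i u hu
  simpa using LinearMap.congr_fun this v

theorem E_induction {W : Submodule k M} (h : ∀ i, S.ξ i ∈ W) : S.E ≤ W :=
  Submodule.span_le.mpr (by rintro _ ⟨i, rfl⟩; exact h i)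

/-- Linear maps agree on `E` when they agree on the vectors `ξ i`. -/
theorem eq_on_E {W : Type*} [AddCommGroup W] [Module k W] {f g : M →ₗ[k] W}
    (h : ∀ i, f (S.ξ i) = g (S.ξ i)) {v : M} (hv : v ∈ S.E) : f v = g v :=
  S.E_induction (W := LinearMap.eqLocus f g) h hv

theorem eq_sum {v : M} (hv : v ∈ S.E) : v = ∑ i, S.κ i v • S.ξ i := by
  have := S.eq_on_E (f := LinearMap.id) (g := ∑ i, (S.κ i).smulRight (S.ξ i))
    (fun j => by simp [κ_ξ]) hv
  simpa using this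

theorem N_mem_E (m : D.N) {v : M} (hv : v ∈ S.E) : ρ m v ∈ S.E :=
  S.E_induction (W := S.E.comap (ρ m)) (S.stab m) hv

theorem τ_mem_E (t : Tor K X) {v : M} (hv : v ∈ S.E) : ρ (D.τ t) v ∈ S.E :=
  S.N_mem_E (D.tN t) hv

theorem finite_E : Module.Finite k S.E :=
  Module.Finite.span_of_finite k (Set.finite_range _)

theorem ε_apply (i : Fin S.n) {u : G} (hu : u ∈ D.U) : S.ε (ρ u (S.ξ i)) = S.ξ i := by
  have := S.bas_eq i ⟨u, hu⟩
  rw [← this, ε, Module.Basis.constr_basis]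

theorem ε_U {u : G} (hu : u ∈ D.U) (v : M) : S.ε (ρ u v) = S.ε v := by
  have : S.ε ∘ₗ ρ u = S.ε := S.hom_ext fun i u' hu' => by
    rw [LinearMap.comp_apply, rho_rho, S.ε_apply i (mul_mem hu hu'), S.ε_apply i hu']
  exact LinearMap.congr_fun this v

theorem ε_E {v : M} (hv : v ∈ S.E) : S.ε v = v :=
  S.eq_on_E (g := LinearMap.id) (fun i => by simpa using S.ε_apply i (one_mem D.U)) hv

theorem ε_mem (v : M) : S.ε v ∈ S.E :=
  S.mem_of_forall (W := S.E.comap S.ε) (fun i u hu => by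
    rw [Submodule.mem_comap, S.ε_apply i hu]; exact S.ξ_mem i) v

open Classical in
theorem κ_E (i : Fin S.n) {u : G} (hu : u ∈ D.U) {v : M} (hv : v ∈ S.E) :
    S.κ i (ρ u v) = if u ∈ D.Up (S.w i) then S.κ i v else 0 := by
  by_cases h : u ∈ D.Up (S.w i)
  · rw [if_pos h]
    exact S.eq_on_E (f := S.κ i ∘ₗ ρ u) (fun j => by simp [S.κ_apply i j hu, h, κ_ξ]) hv
  · rw [if_neg h]
    exact S.eq_on_E (f := S.κ i ∘ₗ ρ u) (g := 0) (fun j => by simp [S.κ_apply i j hu, h]) hv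

theorem κ_Up (i : Fin S.n) {u : G} (hu : u ∈ D.Up (S.w i)) (v : M) : S.κ i (ρ u v) = S.κ i v := by
  classical
  have : S.κ i ∘ₗ ρ u = S.κ i := S.hom_ext fun j u' hu' => by
    rw [LinearMap.comp_apply, rho_rho,
      S.κ_apply i j (mul_mem (D.Up_le _ hu) hu'), S.κ_apply i j hu']
    exact if_congr (and_congr_right fun _ => Subgroup.mul_mem_cancel_left _ hu) rfl rfl
  exact LinearMap.congr_fun this v

theorem κ_τ (i : Fin S.n) (t : Tor K X) (v : M) :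
    S.κ i (ρ (D.τ t) v) = (S.θ i t : k) * S.κ i v := by
  have : S.κ i ∘ₗ ρ (D.τ t) = (S.θ i t : k) • S.κ i := S.hom_ext fun j u hu => by
    have h1 : D.τ t * u = D.τ t * u * (D.τ t)⁻¹ * D.τ t := by group
    have h2 : D.τ t * u * (D.τ t)⁻¹ ∈ D.Up (S.w i) ↔ u ∈ D.Up (S.w i) := by
      refine ⟨fun h => ?_, fun h => D.τ_conj_genU t h⟩
      have := D.τ_conj_genU t⁻¹ h
      rw [map_inv] at this
      have e : u = (D.τ t)⁻¹ * (D.τ t * u * (D.τ t)⁻¹) * (D.τ t)⁻¹⁻¹ := by group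
      rw [e]
      exact this
    rw [LinearMap.comp_apply, rho_rho, h1, ← rho_rho,
      S.eig, map_smul, map_smul, S.κ_apply i j (D.τ_conj_genU t hu), LinearMap.smul_apply,
      S.κ_apply i j hu]
    by_cases h : i = j ∧ u ∈ D.Up (S.w i)
    · rw [if_pos h, if_pos ⟨h.1, h2.mpr h.2⟩, h.1]
    · rw [if_neg h, if_neg fun h' => h ⟨h'.1, h2.mp h'.2⟩, smul_zero, smul_zero]
  exact LinearMap.congr_fun this v

theorem repr_eq (v : M) (i : Fin S.n) (u : D.U) :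
    S.bas.repr v ⟨i, QuotientGroup.mk u⟩ = S.κ i (ρ (u : G)⁻¹ v) := by
  classical
  have : S.bas.coord ⟨i, QuotientGroup.mk u⟩ = S.κ i ∘ₗ ρ (u : G)⁻¹ := S.hom_ext fun j u' hu' => by
    have h := S.bas_eq j ⟨u', hu'⟩
    rw [LinearMap.comp_apply, rho_rho,
      S.κ_apply i j (mul_mem (inv_mem u.2) hu'), ← h, Module.Basis.coord_apply,
      Module.Basis.repr_self, Finsupp.single_apply]
    congr 1
    apply propext
    constructor
    · intro h
      obtain ⟨rfl, h2⟩ := Sigma.mk.inj_iff.mp h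
      exact ⟨rfl, (QuotientGroup.eq (a := u) (b := ⟨u', hu'⟩)).mp (eq_of_heq h2).symm⟩
    · rintro ⟨rfl, h3⟩
      rw [(QuotientGroup.eq (a := u) (b := ⟨u', hu'⟩)).mpr h3]
  exact LinearMap.congr_fun this v

theorem eq_zero {v : M} (h : ∀ i, ∀ u ∈ D.U, S.κ i (ρ u v) = 0) : v = 0 := by
  refine S.bas.ext_elem ?_
  rintro ⟨i, z⟩
  induction z using QuotientGroup.induction_on with
  | H u => rw [repr_eq, h i _ (inv_mem u.2)]; simp

theorem expand (v : M) : v = ∑ s ∈ (S.bas.repr v).support,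
    S.bas.repr v s • ρ ((s.2.out : D.U) : G) (S.ξ s.1) := by
  conv_lhs => rw [← S.bas.linearCombination_repr v, Finsupp.linearCombination_apply, Finsupp.sum]
  refine Finset.sum_congr rfl fun s _ => ?_
  rw [← S.bas_eq, QuotientGroup.out_eq']

theorem finite_supp (v : M) (i : Fin S.n) :
    {z : G ⧸ D.Up (S.w i) | ∃ u ∈ D.U, z = (u : G ⧸ D.Up (S.w i)) ∧
      S.κ i (ρ u⁻¹ v) ≠ 0}.Finite := by
  have h : {z : D.U ⧸ (D.Up (S.w i)).subgroupOf D.U | S.bas.repr v ⟨i, z⟩ ≠ 0}.Finite :=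
    ((S.bas.repr v).support.finite_toSet.preimage (sigma_mk_injective (i := i)).injOn).subset
      fun z hz => Finsupp.mem_support_iff.2 hz
  refine (h.image fun z => ((z.out : D.U) : G ⧸ D.Up (S.w i))).subset ?_
  rintro _ ⟨u, hu, rfl, h1⟩
  refine ⟨QuotientGroup.mk ⟨u, hu⟩, ?_, ?_⟩
  · exact (S.repr_eq v i ⟨u, hu⟩).trans_ne h1
  · exact QuotientGroup.eq.2 ((QuotientGroup.eq (s := (D.Up (S.w i)).subgroupOf D.U)
      (b := ⟨u, hu⟩)).1 (QuotientGroup.out_eq' _))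

/-- A vector whose support lies in cosets meeting `Z` is in the span of the `z ξ i`, `z ∈ Z`. -/
theorem mem_of_supp {v : M} {W : Submodule k M}
    (h : ∀ i, ∀ u ∈ D.U, S.κ i (ρ u⁻¹ v) ≠ 0 → ρ u (S.ξ i) ∈ W) : v ∈ W := by
  rw [S.expand v]
  refine Submodule.sum_mem _ fun s hs => Submodule.smul_mem _ _ (h _ _ s.2.out.2 ?_)
  rw [← S.repr_eq, QuotientGroup.out_eq']
  exact Finsupp.mem_support_iff.1 hs

theorem ξ_mem_Fx {i : Fin S.n} {β : ι} (hβ : b.IsPos β) (h : b.IsPos (D.π (S.w i) β)) :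
    S.ξ i ∈ S.Fx β :=
  ⟨S.ξ_mem i, fun c => S.fix i (mem_genU (S := {β | b.IsPos β ∧ b.IsPos (D.π (S.w i) β)})
    ⟨hβ, h⟩ c)⟩

theorem κ_eq_zero_of_fixed {i : Fin S.n} {β : ι} (hβ : b.IsPos β)
    (h : ¬ b.IsPos (D.π (S.w i) β)) {v : M} (hv : ∀ c, ρ (D.x β c) v = v) : S.κ i v = 0 := by
  by_contra hne
  refine (S.finite_supp v i).not_infinite (Set.infinite_of_injective_forall_mem
    (f := fun c : K => ((D.x β c : G) : G ⧸ D.Up (S.w i))) (fun c d e => ?_)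
    fun c => ⟨_, D.x_mem_U hβ c, rfl, by rw [← D.x_neg, hv]; exact hne⟩)
  have h1 := QuotientGroup.eq.1 e
  rw [← D.x_neg, ← D.x_add] at h1
  by_contra hcd
  exact h ((D.x_mem_Up _ hβ (fun h0 => hcd (neg_add_eq_zero.1 h0))).1 h1)

theorem N_mem_Fx (m : D.N) {β : ι} {v : M} (hv : v ∈ S.Fx β) : ρ m v ∈ S.Fx (D.π m β) := by
  refine ⟨S.N_mem_E m hv.1, fun c => ?_⟩
  obtain ⟨d, hd⟩ := D.N_conj_x m⁻¹ (D.π m β) c
  rw [map_inv, Equiv.Perm.coe_inv, Equiv.symm_apply_apply, Subgroup.coe_inv] at hd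
  have e : D.x (D.π m β) c * m = m * D.x β d := by rw [← hd]; group
  rw [rho_rho, e, ← rho_rho, hv.2]

/-- If `x β c` with `c ≠ 0` sends a vector of `E` into `E`, the vector is fixed by `U_β`. -/
theorem mem_Fx_of_x_mem {β : ι} (hβ : b.IsPos β) {c : K} (hc : c ≠ 0) {v : M} (hv : v ∈ S.E)
    (h : ρ (D.x β c) v ∈ S.E) : v ∈ S.Fx β := by
  rw [S.eq_sum hv]
  refine Submodule.sum_mem _ fun i _ => ?_
  by_cases h0 : S.κ i v = 0
  · rw [h0, zero_smul]
    exact zero_mem _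
  refine Submodule.smul_mem _ _ (S.ξ_mem_Fx hβ ?_)
  by_contra hn
  have h1 := S.κ_E i (D.x_mem_U hβ (-c)) h
  rw [if_neg fun h2 => hn ((D.x_mem_Up _ hβ (neg_ne_zero.2 hc)).1 h2), rho_rho, ← D.x_add,
    neg_add_cancel, D.x_zero, map_one] at h1
  exact h0 h1

open Classical in
/-- A functional vanishes on `R` when its restrictions to the cosets of `H` do. -/
theorem vanish (R : Submodule k M) (H : Subgroup G) (δ : M →ₗ[k] k)
    (h : ∀ u₀ ∈ D.U, ∃ ψ : M →ₗ[k] k, (∀ v ∈ R, ψ v = 0) ∧ ∀ i, ∀ u ∈ D.U,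
      ψ (ρ u (S.ξ i)) = if u₀⁻¹ * u ∈ H then δ (ρ u (S.ξ i)) else 0) :
    ∀ v ∈ R, δ v = 0 := by
  intro v hv
  rw [S.expand v, map_sum, ← Finset.sum_fiberwise_of_maps_to
    (g := fun s => (((s.2.out : D.U) : G) : G ⧸ H))
    (t := (S.bas.repr v).support.image fun s => (((s.2.out : D.U) : G) : G ⧸ H))
    (fun s hs => Finset.mem_image.2 ⟨s, hs, rfl⟩)]
  refine Finset.sum_eq_zero fun z hz => ?_
  obtain ⟨s₀, -, rfl⟩ := Finset.mem_image.1 hz
  obtain ⟨ψ, h1, h2⟩ := h _ s₀.2.out.2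
  have h3 := h1 v hv
  rw [S.expand v, map_sum] at h3
  rw [← h3, Finset.sum_filter]
  refine Finset.sum_congr rfl fun s _ => ?_
  rw [map_smul, map_smul, h2 _ _ s.2.out.2, smul_ite, smul_zero]
  exact if_congr (eq_comm.trans QuotientGroup.eq) rfl rfl

/-- Every vector involves finitely many elements of `U`. -/
theorem exists_finset (v : M) : ∃ Z : Finset G, (∀ u ∈ Z, u ∈ D.U) ∧
    ∀ f : M →ₗ[k] k, f v ≠ 0 → ∃ u ∈ Z, ∃ i, f (ρ u (S.ξ i)) ≠ 0 := by
  classical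
  refine ⟨(S.bas.repr v).support.image fun s => ((s.2.out : D.U) : G), fun u hu => ?_,
    fun f hf => ?_⟩
  · obtain ⟨s, -, rfl⟩ := Finset.mem_image.1 hu
    exact s.2.out.2
  · rw [S.expand v, map_sum] at hf
    obtain ⟨s, hs, h⟩ := Finset.exists_ne_zero_of_sum_ne_zero hf
    refine ⟨_, Finset.mem_image_of_mem _ hs, s.1, fun h0 => h ?_⟩
    rw [map_smul, h0, smul_zero]

end Mono

end Red

end Pool.Agent.P.MP_0b1ded_al
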