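import Pool.Agent.P.MP_0b1ded_al.Level

/-! Finite orbits of the torus on cosets. -/

namespace Pool.Agent.P.MP_0b1ded_al

open Function Filter

variable {ι X Y : Type} [AddCommGroup X] [AddCommGroup Y] {P : RootDatum ι X Y} {b : P.Base}
  {p : ℕ} {K : Type} [Field K] {G : Type*} [Group G] [Finite ι] [P.IsReduced]
  [Fact p.Prime] [CharP K p] [IsAlgClosed K] [Algebra (ZMod p) K] [Algebra.IsAlgebraic (ZMod p) K]
  [Module.Finite ℤ X]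

theorem orb_roots_finite {K : Type} [Field K] {n : ℤ} (hn : n ≠ 0) :
    {a : Kˣ | a ^ n = 1}.Finite := by
  have : NeZero n.natAbs := ⟨Int.natAbs_ne_zero.2 hn⟩
  have h : (rootsOfUnity n.natAbs K : Set Kˣ).Finite :=
    Set.finite_coe_iff.1 (inferInstanceAs (Finite (rootsOfUnity n.natAbs K)))
  refine h.subset fun a ha => ?_
  exact (mem_rootsOfUnity _ _).2 (pow_natAbs_eq_one.2 ha)

theorem orb_pigeon {K ι Z : Type*} [Group K] [Infinite K] [Finite ι] (f : K → Z)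
    (hf : (Set.range f).Finite) (B : ι → Set K) (hB : ∀ β, (B β).Finite) :
    ∃ a₀ a₁, f a₀ = f a₁ ∧ ∀ β, a₀⁻¹ * a₁ ∉ B β := by
  have := hf.to_subtype
  obtain ⟨z, hz⟩ := Finite.exists_infinite_fiber (Set.rangeFactorization f)
  have hz' : (Set.rangeFactorization f ⁻¹' {z}).Infinite := Set.infinite_coe_iff.1 hz
  obtain ⟨a₀, h₀⟩ := hz'.nonempty
  have hfin : ((fun a => a₀⁻¹ * a) ⁻¹' ⋃ β, B β).Finite :=
    (Set.finite_iUnion hB).preimage (mul_right_injective _).injOn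
  obtain ⟨a₁, h₁, h₂⟩ := (hz'.diff hfin).nonempty
  refine ⟨a₀, a₁, congrArg Subtype.val (h₀.trans h₁.symm), fun β h => h₂ ?_⟩
  exact Set.mem_iUnion.2 ⟨β, h⟩

namespace Red

variable (D : Red p K G b)

theorem orb_lang (t : Tor K X) {S : Set ι} (hS : ∀ β ∈ S, b.IsPos β)
    (hcent : ∀ v ∈ genU D.x S, D.τ t * v * (D.τ t)⁻¹ = v → v = 1) (C : Subgroup G)
    (hC : ∀ t, ∀ g ∈ C, D.τ t * g * (D.τ t)⁻¹ ∈ C) {u : G} (hu : u ∈ genU D.x S)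
    (h : u⁻¹ * (D.τ t * u * (D.τ t)⁻¹) ∈ C) : u ∈ C := by
  obtain ⟨a, ha1, ha2⟩ := ((D.ev_Fix (D.τ t)).and (D.ev_Fix u)).exists
  let H : Subgroup G := C ⊓ genU D.x S ⊓ D.Fix a
  have hle : H ≤ D.Ul a := fun g hg => ⟨genU_mono (S' := {β | b.IsPos β}) hS hg.1.2, hg.2⟩
  have : Finite H := Finite.of_injective _ (Subgroup.inclusion_injective hle)
  have key : ∀ c ∈ genU D.x S, ∀ d ∈ genU D.x S, c⁻¹ * (D.τ t * c * (D.τ t)⁻¹) =
      d⁻¹ * (D.τ t * d * (D.τ t)⁻¹) → c = d := fun c hc d hd e => by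
    refine mul_inv_eq_one.1 (hcent _ (mul_mem hc (inv_mem hd)) ?_)
    calc D.τ t * (c * d⁻¹) * (D.τ t)⁻¹
        = c * (c⁻¹ * (D.τ t * c * (D.τ t)⁻¹)) * (D.τ t * d * (D.τ t)⁻¹)⁻¹ := by group
      _ = c * d⁻¹ := by rw [e]; group
  have hmem : ∀ c ∈ genU D.x S ⊓ D.Fix a, c⁻¹ * (D.τ t * c * (D.τ t)⁻¹) ∈ genU D.x S ⊓ D.Fix a :=
    fun c hc => mul_mem (inv_mem hc)
      ⟨D.τ_conj_genU t hc.1, (D.Fix a).mul_mem ((D.Fix a).mul_mem ha1 hc.2) ((D.Fix a).inv_mem ha1)⟩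
  let f : H → H := fun c => ⟨(c : G)⁻¹ * (D.τ t * c * (D.τ t)⁻¹),
    ⟨C.mul_mem (C.inv_mem c.2.1.1) (hC t _ c.2.1.1), (hmem c ⟨c.2.1.2, c.2.2⟩).1⟩,
    (hmem c ⟨c.2.1.2, c.2.2⟩).2⟩
  have hinj : Injective f := fun c d e =>
    Subtype.ext (key _ c.2.1.2 _ d.2.1.2 (congrArg Subtype.val e))
  obtain ⟨c, hc⟩ := Finite.surjective_of_injective hinj
    ⟨_, ⟨h, (hmem u ⟨hu, ha2⟩).1⟩, (hmem u ⟨hu, ha2⟩).2⟩
  rw [← key _ c.2.1.2 _ hu (congrArg Subtype.val hc)]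
  exact c.2.1.1

theorem orb_pair (y : Y) (C : Subgroup G) (hC : ∀ t, ∀ g ∈ C, D.τ t * g * (D.τ t)⁻¹ ∈ C) (u : G)
    (hfin : (Set.range fun a : Kˣ =>
      ((D.τ (coch P y a) * u * (D.τ (coch P y a))⁻¹ : G) : G ⧸ C)).Finite) :
    ∃ a : Kˣ, (∀ β, P.toLinearMap (P.root β) y ≠ 0 → ev P β (coch P y a) ≠ 1) ∧
      u⁻¹ * (D.τ (coch P y a) * u * (D.τ (coch P y a))⁻¹) ∈ C := by
  have : Infinite Kˣ := by
    have h0 : ({0}ᶜ : Set K).Infinite := (Set.finite_singleton _).infinite_compl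
    have := h0.to_subtype
    exact Infinite.of_injective (fun a : ({0}ᶜ : Set K) => Units.mk0 a.1 a.2)
      fun a c h => Subtype.ext (congrArg Units.val h)
  obtain ⟨a₀, a₁, h1, h2⟩ := orb_pigeon _ hfin
    (fun β => {a : Kˣ | P.toLinearMap (P.root β) y ≠ 0 ∧ a ^ P.toLinearMap (P.root β) y = 1})
    (fun β => by
      by_cases h : P.toLinearMap (P.root β) y = 0
      · simp [h]
      · exact (orb_roots_finite h).subset fun a ha => ha.2)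
  refine ⟨a₀⁻¹ * a₁, fun β h h' => h2 β ⟨h, h'⟩, ?_⟩
  have h3 := hC (coch P y a₀)⁻¹ _ (QuotientGroup.eq.1 h1)
  rw [coch_mul, coch_inv, map_mul, map_inv]
  rw [map_inv] at h3
  convert h3 using 1
  group

theorem orb_U (C : Subgroup G) (hC : ∀ t, ∀ g ∈ C, D.τ t * g * (D.τ t)⁻¹ ∈ C) {u : G}
    (hu : u ∈ D.U)
    (hfin : {z : G ⧸ C | ∃ t, z = ((D.τ t * u * (D.τ t)⁻¹ : G) : G ⧸ C)}.Finite) : u ∈ C := by
  obtain ⟨y, hy⟩ := exists_y0 b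
  obtain ⟨a, h1, h2⟩ := D.orb_pair y C hC u (hfin.subset (by rintro _ ⟨a, rfl⟩; exact ⟨_, rfl⟩))
  refine D.orb_lang (coch P y a) (S := {β | b.IsPos β}) (fun _ h => h) (fun v hv e => ?_) C hC hu h2
  exact genU_le (H := ⊥) (fun β hβ _ => absurd hβ.2 (h1 β ((hy β).1 hβ.1).ne')) (D.cent_U _ hv e)

theorem orb_a {α : ι} (hα : α ∈ b.support) (C : Subgroup G)
    (hC : ∀ t, ∀ g ∈ C, D.τ t * g * (D.τ t)⁻¹ ∈ C) {u : G} (hu : u ∈ D.U)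
    (hfin : {z : G ⧸ C | ∃ t, ev P α t = 1 ∧
      z = ((D.τ t * u * (D.τ t)⁻¹ : G) : G ⧸ C)}.Finite) : ∃ e, (D.x α e)⁻¹ * u ∈ C := by
  obtain ⟨y, hy0, hy⟩ := exists_ya hα
  have hev : ∀ a : Kˣ, ev P α (coch P y a) = 1 := fun a => by rw [ev_coch, hy0, zpow_zero]
  obtain ⟨a, h1, h2⟩ := D.orb_pair y C hC u
    (hfin.subset (by rintro _ ⟨a, rfl⟩; exact ⟨_, hev a, rfl⟩))
  obtain ⟨c, u₁, hu₁, rfl⟩ := D.exists_crd hα hu
  have h3 := D.x_conj_Ua hα (-c) hu₁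
  rw [D.x_neg, inv_inv, mul_assoc] at h3
  refine ⟨c, D.orb_lang (coch P y a) (S := {β | b.IsPos β ∧ β ≠ α}) (fun _ h => h.1)
    (fun v hv e => ?_) C hC h3 ?_⟩
  · obtain ⟨d, rfl⟩ := D.mem_genU_single (α := α) (fun β hβ => by
      by_contra hne
      exact h1 β (hy β hβ.1 hne).ne' hβ.2) (D.cent_U _ (D.Ua_le α hv) e)
    rw [D.eq_zero_of_x_mem_Ua hα hv, D.x_zero]
  · have h4 := D.τ_conj_x (coch P y a) α c
    rw [hev, Units.val_one, one_mul] at h4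
    convert h2 using 1
    generalize D.τ (coch P y a) = s at h4 ⊢
    generalize D.x α c = z at h4 ⊢
    calc (z⁻¹ * (u₁ * z))⁻¹ * (s * (z⁻¹ * (u₁ * z)) * s⁻¹)
        = (u₁ * z)⁻¹ * (z * (s * z * s⁻¹)⁻¹) * (s * (u₁ * z) * s⁻¹) := by group
      _ = _ := by rw [h4]; group

end Red

end Pool.Agent.P.MP_0b1ded_al
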