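import Pool.Agent.P.MP_0b1ded_al.PVec
import Pool.Agent.P.MP_0b1ded_al.Count

/-! The estimate for the Hecke operators. -/

set_option linter.unusedSectionVars false

namespace Pool.Agent.P.MP_0b1ded_al

open Function Filter

variable {ι X Y : Type} [AddCommGroup X] [AddCommGroup Y] {P : RootDatum ι X Y} {b : P.Base}
  {p : ℕ} {K : Type} [Field K] {G : Type*} [Group G] [Finite ι] [P.IsReduced]
  [Fact p.Prime] [CharP K p] [IsAlgClosed K] [Algebra (ZMod p) K] [Algebra.IsAlgebraic (ZMod p) K]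
  [Module.Finite ℤ X]
  {V : Type*} [NormedAddCommGroup V] [InnerProductSpace ℂ V]

theorem pt_rho (ρ : Representation ℂ G V) (g h : G) (v : V) : ρ g (ρ h v) = ρ (g * h) v := by
  rw [map_mul, Module.End.mul_apply]

theorem pt_conj_norm (ρ : Representation ℂ G V) (hiso : ∀ g v, ‖ρ g v‖ = ‖v‖) {I : Type*}
    [Fintype I] (f : I → G) (h : G) (v : V) {z : ℂ} (hz : ‖z‖ = 1) (hv : ρ h⁻¹ v = z • v) :
    ‖∑ c, ρ (h * f c * h⁻¹) v‖ = ‖∑ c, ρ (f c) v‖ := by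
  have : ∑ c, ρ (h * f c * h⁻¹) v = z • ρ h (∑ c, ρ (f c) v) := by
    rw [map_sum, Finset.smul_sum]
    refine Finset.sum_congr rfl fun c _ => ?_
    rw [← pt_rho, ← pt_rho, hv, map_smul, map_smul]
  rw [this, norm_smul, hz, one_mul, hiso]

theorem pt_three (u v w : V) : ‖u - v + w‖ ^ 2 ≤ 3 * (‖u‖ ^ 2 + ‖v‖ ^ 2 + ‖w‖ ^ 2) := by
  have h : ‖u - v + w‖ ≤ ‖u‖ + ‖v‖ + ‖w‖ :=
    (norm_add_le _ _).trans (by gcongr; exact norm_sub_le _ _)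
  have h0 := norm_nonneg (u - v + w)
  nlinarith [sq_nonneg (‖u‖ - ‖v‖), sq_nonneg (‖u‖ - ‖w‖), sq_nonneg (‖v‖ - ‖w‖),
    mul_self_le_mul_self h0 h]

namespace Red

variable (D : Red p K G b)

theorem pt_eigen (ρ : Representation ℂ G V) {a' : ℕ} (Φ : G × G → V)
    (eqv : ∀ h g g', Φ (h * g, h * g') = ρ h (Φ (g, g')))
    (hT1 : ∀ t, D.τ t ∈ D.Fix a' → ∃ z : ℂ, ‖z‖ = 1 ∧ ∀ g g', Φ (g * D.τ t, g') = z • Φ (g, g'))
    (hT2 : ∀ t, D.τ t ∈ D.Fix a' → ∃ z : ℂ, ‖z‖ = 1 ∧ ∀ g g', Φ (g, g' * D.τ t) = z • Φ (g, g'))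
    (n m : D.N) (hn : (n : G) ∈ D.Fix a') (hm : (m : G) ∈ D.Fix a') (t : Tor K X)
    (ht : D.τ t ∈ D.Fix a') : ∃ z : ℂ, ‖z‖ = 1 ∧ ρ (D.τ t) (Φ (n, m)) = z • Φ (n, m) := by
  have hc : ∀ k : D.N, (k : G) ∈ D.Fix a' → D.τ (D.cj k t) ∈ D.Fix a' := fun k hk => by
    rw [τ_cj]
    exact mul_mem (mul_mem (inv_mem hk) ht) hk
  obtain ⟨z1, hz1, h1⟩ := hT1 _ (hc n hn)
  obtain ⟨z2, hz2, h2⟩ := hT2 _ (hc m hm)
  refine ⟨z1 * z2, by rw [norm_mul, hz1, hz2, one_mul], ?_⟩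
  rw [← eqv, τ_mul_N, τ_mul_N, h1, h2, smul_smul]

theorem pt_absorb {a' : ℕ} (m : D.N) (hm : (m : G) ∈ D.Fix a') {β : ι}
    (hβ : b.IsPos (D.π m⁻¹ β)) {c : K} (hc : c ∈ D.Kf a') :
    ∃ u ∈ D.Ul a', D.x β c * m = m * u := by
  obtain ⟨d, hd⟩ := D.N_conj_x m⁻¹ β c
  refine ⟨(m : G)⁻¹ * D.x β c * m, ⟨?_, ?_⟩, by group⟩
  · have : (m : G)⁻¹ * D.x β c * m = D.x (D.π m⁻¹ β) d := by
      rw [← hd, Subgroup.coe_inv, inv_inv]
    rw [this]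
    exact D.x_mem_U hβ d
  · exact (D.Fix a').mul_mem ((D.Fix a').mul_mem ((D.Fix a').inv_mem hm) (D.x_mem_Fix.mpr hc)) hm

theorem pt_base (ρ : Representation ℂ G V) (hiso : ∀ g v, ‖ρ g v‖ = ‖v‖) {α : ι}
    (hα : α ∈ b.support) {a a' : ℕ} (haa : a ≤ a') (Φ : G × G → V)
    (eqv : ∀ h g g', Φ (h * g, h * g') = ρ h (Φ (g, g')))
    (hU1 : ∀ u ∈ D.Ul a', ∀ g g', Φ (g * u, g') = Φ (g, g'))
    (hU2 : ∀ u ∈ D.Ul a', ∀ g g', Φ (g, g' * u) = Φ (g, g'))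
    (hT1 : ∀ t, D.τ t ∈ D.Fix a' → ∃ z : ℂ, ‖z‖ = 1 ∧ ∀ g g', Φ (g * D.τ t, g') = z • Φ (g, g'))
    (hT2 : ∀ t, D.τ t ∈ D.Fix a' → ∃ z : ℂ, ‖z‖ = 1 ∧ ∀ g g', Φ (g, g' * D.τ t) = z • Φ (g, g'))
    (hH : ∀ c : Kˣ, (c : K) ∈ D.Kf a' → ∀ g g', Φ (g * D.hh α c, g') = Φ (g, g'))
    (hR : ∀ g g', ∑ c : D.Kf a', Φ (g * D.x α c * D.ns α, g') = -Φ (g, g'))
    (m : D.N) (hm : (m : G) ∈ D.Fix a') :
    ‖∑ c : D.Kf a, Φ (D.x α c * D.ns α, m)‖ ^ 2 ≤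
      15 * ∑ c : D.Kf a, ‖Φ (D.x α c * D.ns α, m)‖ ^ 2 +
        9 * Fintype.card (D.Kf a) * ‖Φ (1, m)‖ ^ 2 := by
  classical
  have hq : (1 : ℝ) ≤ Fintype.card (D.Kf a) := by exact_mod_cast Fintype.card_pos
  have hR1 : ∑ c : D.Kf a', Φ (D.x α c * D.ns α, m) = -Φ (1, m) := by
    simpa only [one_mul] using hR 1 m
  have hw0 := sq_nonneg ‖Φ (1, m)‖
  have hv0 := sq_nonneg ‖Φ (D.ns α, m)‖
  by_cases hpos : b.IsPos (D.π m⁻¹ α)
  · have hx : ∀ c ∈ D.Kf a', Φ (D.x α c * D.ns α, m) = ρ (D.x α c) (Φ (D.ns α, m)) := by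
      intro c hc
      obtain ⟨u, hu, e⟩ := D.pt_absorb m hm hpos hc
      rw [← eqv, e, hU2 u hu]
    have hxa : ∀ c : D.Kf a, Φ (D.x α c * D.ns α, m) = ρ (D.x α c) (Φ (D.ns α, m)) :=
      fun c => hx c (D.Kf_mono haa c.2)
    have key := count_ineq (D.Kf a) (D.Kf a') (D.Kf_mono haa) (fun c => ρ (D.x α c))
      (fun v => by rw [x_zero, map_one, Module.End.one_apply])
      (fun c d v => by rw [D.x_add, pt_rho]) (fun c v => hiso _ v) (Φ (D.ns α, m)) (by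
        intro μ hμ hμ0
        obtain ⟨z, hz, e⟩ := D.pt_eigen ρ Φ eqv hT1 hT2 (D.ns α) m (D.ns_mem_Fix a' α) hm
          (coch P (P.coroot α) (Units.mk0 μ hμ0)⁻¹)
          (D.coch_mem_Fix _ (by simpa using inv_mem hμ))
        have e' : ρ (D.hh α (Units.mk0 μ hμ0))⁻¹ (Φ (D.ns α, m)) = z • Φ (D.ns α, m) := by
          rw [← hh_inv]
          exact e
        rw [← pt_conj_norm ρ hiso (fun c : D.Kf a => D.x α c) _ _ hz e']
        simp only [hh_conj_x, Units.val_mk0])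
    rw [← Finset.sum_congr rfl fun (c : D.Kf a') _ => hx c c.2, hR1, norm_neg] at key
    simp only [hxa, hiso, Finset.sum_const, Finset.card_univ, nsmul_eq_mul]
    nlinarith
  · have hneg : b.IsPos (D.π m⁻¹ (ng P α)) := by
      rw [π_ng, isPos_ng]
      exact hpos
    have hx : ∀ c ∈ D.Kf a', c ≠ 0 →
        Φ (D.x α c * D.ns α, m) = ρ (D.y α c⁻¹) (Φ (1, m)) := by
      intro c hc hc0
      obtain ⟨u, hu, e⟩ := D.pt_absorb m hm hneg (inv_mem hc)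
      have h1 := D.x_mul_ns α (Units.mk0 c hc0)
      simp only [Units.val_mk0] at h1
      rw [h1, hH _ (by simpa using hc), hU1 _ ⟨D.x_mem_U (b.isPos_of_mem_support hα) _,
        D.x_mem_Fix.mpr (neg_mem hc)⟩, ← eqv, mul_one, y, e, hU2 u hu]
    have hS : ∀ (L : Subfield K) [Fintype L], L ≤ D.Kf a' →
        ∑ c : L, Φ (D.x α c * D.ns α, m) =
          Φ (D.ns α, m) - Φ (1, m) + ∑ c : L, ρ (D.y α c) (Φ (1, m)) := by
      intro L _ hL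
      rw [← Fintype.sum_equiv (Equiv.inv L) (fun c : L => ρ (D.y α (c : K)⁻¹) (Φ (1, m)))
        (fun c : L => ρ (D.y α c) (Φ (1, m))) (fun c => by simp),
        ← Finset.add_sum_erase _ _ (Finset.mem_univ (0 : L)),
        ← Finset.add_sum_erase _ _ (Finset.mem_univ (0 : L)),
        Finset.sum_congr rfl fun (c : L) hc => hx c (hL c.2) fun e =>
          (Finset.mem_erase.mp hc).1 (Subtype.ext e)]
      simp only [ZeroMemClass.coe_zero, x_zero, one_mul, inv_zero, y_zero, map_one,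
        Module.End.one_apply]
      abel
    have hb : ∑ c : D.Kf a', ρ (D.y α c) (Φ (1, m)) = -Φ (D.ns α, m) := by
      have := hS (D.Kf a') le_rfl
      rw [hR1] at this
      rw [eq_neg_iff_add_eq_zero, ← add_left_inj (-Φ (1, m)), zero_add]
      conv_rhs => rw [this]
      abel
    have key := count_ineq (D.Kf a) (D.Kf a') (D.Kf_mono haa) (fun c => ρ (D.y α c))
      (fun v => by rw [y_zero, map_one, Module.End.one_apply])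
      (fun c d v => by rw [D.y_add, pt_rho]) (fun c v => hiso _ v) (Φ (1, m)) (by
        intro μ hμ hμ0
        obtain ⟨z, hz, e⟩ := D.pt_eigen ρ Φ eqv hT1 hT2 1 m (one_mem _) hm
          (coch P (P.coroot α) (Units.mk0 μ hμ0))
          (D.coch_mem_Fix _ (by simpa using hμ))
        have e' : ρ (D.hh α (Units.mk0 μ hμ0)⁻¹)⁻¹ (Φ (1, m)) = z • Φ (1, m) := by
          rw [← hh_inv, inv_inv]
          exact e
        rw [← pt_conj_norm ρ hiso (fun c : D.Kf a => D.y α c) _ _ hz e']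
        simp only [hh_conj_y, Units.val_inv_eq_inv_val, Units.val_mk0, inv_inv])
    rw [hb, norm_neg] at key
    have h1 : ‖Φ (D.ns α, m)‖ ^ 2 ≤ ∑ c : D.Kf a, ‖Φ (D.x α c * D.ns α, m)‖ ^ 2 := by
      have := Finset.single_le_sum (f := fun c : D.Kf a => ‖Φ (D.x α c * D.ns α, m)‖ ^ 2)
        (fun c _ => sq_nonneg _) (Finset.mem_univ (0 : D.Kf a))
      simpa only [ZeroMemClass.coe_zero, x_zero, one_mul] using this
    have h2 := pt_three (Φ (D.ns α, m)) (Φ (1, m)) (∑ c : D.Kf a, ρ (D.y α c) (Φ (1, m)))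
    rw [← hS (D.Kf a) (D.Kf_mono haa)] at h2
    nlinarith

theorem pt_shift {α : ι} (hα : α ∈ b.support) {a a' : ℕ} (haa : a ≤ a') (Φ : G × G → V)
    (hU1 : ∀ u ∈ D.Ul a', ∀ g g', Φ (g * u, g') = Φ (g, g')) {u : G} (hu : u ∈ D.Ul a) :
    ∃ e : D.Kf a, ∀ (c : D.Kf a) g g',
      Φ (g * u * D.x α c * D.ns α, g') = Φ (g * D.x α (e + c : D.Kf a) * D.ns α, g') := by
  obtain ⟨e, he, u₁, hu₁, rfl⟩ := D.exists_crd_lev hα hu
  refine ⟨⟨e, he⟩, fun c g g' => ?_⟩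
  have hec : -(e + c : K) ∈ D.Kf a := neg_mem (add_mem he c.2)
  have hx : D.x α (-(e + c : K)) ∈ D.Fix a := D.x_mem_Fix.mpr hec
  have hn := D.ns_mem_Fix a α
  have hmem : (D.ns α : G)⁻¹ * (D.x α (-(e + c : K)) * u₁ * (D.x α (-(e + c : K)))⁻¹) * D.ns α ∈
      D.Ul a' := D.Ul_mono haa ⟨D.Ua_le α (D.ns_inv_conj_Ua hα (D.x_conj_Ua hα _ hu₁.1)),
        (D.Fix a).mul_mem ((D.Fix a).mul_mem ((D.Fix a).inv_mem hn)
          ((D.Fix a).mul_mem ((D.Fix a).mul_mem hx hu₁.2) ((D.Fix a).inv_mem hx))) hn⟩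
  rw [← hU1 _ hmem (g * D.x α (⟨e, he⟩ + c : D.Kf a) * D.ns α) g']
  congr 2
  change _ = g * D.x α (e + c) * D.ns α * _
  rw [x_neg, D.x_add]
  group

theorem point_est (ρ : Representation ℂ G V) (hiso : ∀ g v, ‖ρ g v‖ = ‖v‖) {α : ι}
    (hα : α ∈ b.support) {a a' : ℕ} (haa : a ≤ a') (Φ : G × G → V)
    (eqv : ∀ h g g', Φ (h * g, h * g') = ρ h (Φ (g, g')))
    (hU1 : ∀ u ∈ D.Ul a', ∀ g g', Φ (g * u, g') = Φ (g, g'))
    (hU2 : ∀ u ∈ D.Ul a', ∀ g g', Φ (g, g' * u) = Φ (g, g'))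
    (hT1 : ∀ t, D.τ t ∈ D.Fix a' → ∃ z : ℂ, ‖z‖ = 1 ∧ ∀ g g', Φ (g * D.τ t, g') = z • Φ (g, g'))
    (hT2 : ∀ t, D.τ t ∈ D.Fix a' → ∃ z : ℂ, ‖z‖ = 1 ∧ ∀ g g', Φ (g, g' * D.τ t) = z • Φ (g, g'))
    (hH : ∀ c : Kˣ, (c : K) ∈ D.Kf a' → ∀ g g', Φ (g * D.hh α c, g') = Φ (g, g'))
    (hR : ∀ g g', ∑ c : D.Kf a', Φ (g * D.x α c * D.ns α, g') = -Φ (g, g')) :
    ∑ g : D.Gl a, ∑ g' : D.Gl a, ‖∑ c : D.Kf a, Φ (g * D.x α c * D.ns α, g')‖ ^ 2 ≤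
      30 * Fintype.card (D.Kf a) * ∑ g : D.Gl a, ∑ g' : D.Gl a, ‖Φ (g, g')‖ ^ 2 := by
  have pw : ∀ g g' : D.Gl a, ‖∑ c : D.Kf a, Φ (g * D.x α c * D.ns α, g')‖ ^ 2 ≤
      15 * ∑ c : D.Kf a, ‖Φ (g * D.x α c * D.ns α, g')‖ ^ 2 +
        9 * Fintype.card (D.Kf a) * ‖Φ (g, g')‖ ^ 2 := by
    intro g g'
    obtain ⟨u, hu, m, hm, u', hu', h⟩ := D.bruhat_lev (mul_mem (inv_mem g.2) g'.2)
    have hg' : (g' : G) = g * u * m * u' := by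
      rw [mul_assoc, mul_assoc, ← mul_assoc u, ← h, mul_inv_cancel_left]
    obtain ⟨e, he⟩ := D.pt_shift hα haa Φ hU1 hu
    have h1 : ∀ c : D.Kf a, Φ (g * D.x α (e + c : D.Kf a) * D.ns α, g') =
        ρ (g * u) (Φ (D.x α c * D.ns α, m)) := by
      intro c
      rw [← he, hg', hU2 u' (D.Ul_mono haa hu'), ← eqv, mul_assoc _ (D.x α c)]
    have h2 : Φ (g, g') = ρ (g * u) (Φ (1, m)) := by
      rw [← eqv, mul_one, hg', hU2 u' (D.Ul_mono haa hu'), hU1 u (D.Ul_mono haa hu)]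
    have h3 : ∑ c : D.Kf a, Φ (g * D.x α c * D.ns α, g') =
        ρ (g * u) (∑ c : D.Kf a, Φ (D.x α c * D.ns α, m)) := by
      rw [map_sum]
      exact (Fintype.sum_equiv (Equiv.addLeft e) _ _ fun c => (h1 c).symm).symm
    have h4 : ∑ c : D.Kf a, ‖Φ (g * D.x α c * D.ns α, g')‖ ^ 2 =
        ∑ c : D.Kf a, ‖Φ (D.x α c * D.ns α, m)‖ ^ 2 :=
      (Fintype.sum_equiv (Equiv.addLeft e) _ _ fun c => by
        rw [Equiv.coe_addLeft, h1 c, hiso]).symm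
    rw [h3, h4, h2, hiso, hiso]
    exact D.pt_base ρ hiso hα haa Φ eqv hU1 hU2 hT1 hT2 hH hR m (D.Fix_mono haa hm)
  set T : ℝ := ∑ g : D.Gl a, ∑ g' : D.Gl a, ‖Φ (g, g')‖ ^ 2 with hT
  have hT0 : 0 ≤ T := Finset.sum_nonneg fun _ _ => Finset.sum_nonneg fun _ _ => sq_nonneg _
  have hc : ∀ c : D.Kf a,
      ∑ g : D.Gl a, ∑ g' : D.Gl a, ‖Φ (g * D.x α c * D.ns α, g')‖ ^ 2 = T := by
    intro c
    have hmem : D.x α c * D.ns α ∈ D.Gl a :=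
      mul_mem (D.Ul_le_Gl a ⟨D.x_mem_U (b.isPos_of_mem_support hα) _, D.x_mem_Fix.mpr c.2⟩)
        (D.ns_mem_Gl a hα)
    refine Fintype.sum_equiv (Equiv.mulRight (⟨_, hmem⟩ : D.Gl a)) _ _ fun g => ?_
    simp only [Equiv.coe_mulRight, Subgroup.coe_mul, mul_assoc]
  have hs : ∑ g : D.Gl a, ∑ g' : D.Gl a, ∑ c : D.Kf a, ‖Φ (g * D.x α c * D.ns α, g')‖ ^ 2 =
      Fintype.card (D.Kf a) * T := by
    rw [Finset.sum_congr rfl fun (g : D.Gl a) _ => Finset.sum_comm, Finset.sum_comm,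
      Finset.sum_congr rfl fun c _ => hc c, Finset.sum_const, Finset.card_univ, nsmul_eq_mul]
  refine le_trans (Finset.sum_le_sum fun g _ => Finset.sum_le_sum fun g' _ => pw g g') ?_
  simp only [Finset.sum_add_distrib, ← Finset.mul_sum]
  rw [hs, ← hT]
  have hq : (0 : ℝ) ≤ Fintype.card (D.Kf a) * T := by positivity
  nlinarith

end Red

end Pool.Agent.P.MP_0b1ded_al
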