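import Pool.Agent.P.MP_0b1ded_al.Mono

/-! The support of `y(c) ζ`. -/

namespace Pool.Agent.P.MP_0b1ded_al

open Function Filter

set_option linter.unusedSectionVars false

variable {ι X Y : Type} [AddCommGroup X] [AddCommGroup Y] {P : RootDatum ι X Y} {b : P.Base}
  {p : ℕ} {K : Type} [Field K] {G : Type*} [Group G] [Finite ι] [P.IsReduced]
  [Fact p.Prime] [CharP K p] [IsAlgClosed K] [Algebra (ZMod p) K] [Algebra.IsAlgebraic (ZMod p) K]
  [Module.Finite ℤ X]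
  {k : Type*} [Field k] [CharZero k] {M : Type*} [AddCommGroup M] [Module k M]

namespace Red

variable {D : Red p K G b} {ρ : Representation k G M} (S : D.Mono ρ)

theorem Mono.supp_rank1 {α : ι} (hα : α ∈ b.support) (c : K) {ζ : M} (hζ : ζ ∈ S.E) :
    ρ (D.y α c) ζ ∈ Submodule.span k {v | ∃ e, ∃ i, v = ρ (D.x α e) (S.ξ i)} := by
  refine Submodule.mem_comap.1 (S.E_induction (fun j => ?_) hζ)
  rw [Submodule.mem_comap]
  refine S.mem_of_supp fun i u hu hne => ?_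
  have hC : ∀ t, ∀ g ∈ D.Up (S.w i), D.τ t * g * (D.τ t)⁻¹ ∈ D.Up (S.w i) :=
    fun t g hg => D.τ_conj_genU t hg
  obtain ⟨e, he⟩ := D.orb_a hα (D.Up (S.w i)) hC hu
    ((S.finite_supp (ρ (D.y α c) (S.ξ j)) i).subset (by
      rintro z ⟨t, ht, rfl⟩
      refine ⟨_, D.τ_conj_genU t hu, rfl, ?_⟩
      have h1 : (D.τ t)⁻¹ * D.y α c * D.τ t = D.y α c := by
        have h2 := D.τ_conj_x t⁻¹ (ng P α) c
        have h3 : ev P (ng P α) t⁻¹ = 1 := by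
          have ht' : t.val (P.root α) = 1 := ht
          change t⁻¹.val (P.root (ng P α)) = 1
          rw [root_ng, Tor.val_neg, Tor.val_inv, ht', inv_one, inv_one]
        rw [h3, Units.val_one, one_mul, D.τ_inv, inv_inv] at h2
        exact h2
      have h4 : (D.τ t * u * (D.τ t)⁻¹)⁻¹ * D.y α c =
          D.τ t * (u⁻¹ * ((D.τ t)⁻¹ * D.y α c * D.τ t) * D.τ t⁻¹) := by
        rw [D.τ_inv]; group
      rw [rho_rho, h4, h1, ← rho_rho, S.κ_τ, ← rho_rho, S.eig, map_smul, map_smul, ← rho_rho]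
      exact mul_ne_zero (Units.ne_zero _) (smul_ne_zero (Units.ne_zero _) hne)))
  have h5 : u = D.x α e * ((D.x α e)⁻¹ * u) := by group
  rw [h5, ← rho_rho, S.fix i he]
  exact Submodule.subset_span ⟨e, i, rfl⟩

open Classical in
/-- The part of a vector along the `ξ i` that are moved by `U_α`. -/
noncomputable def Mono.r0pr (α : ι) : M →ₗ[k] M :=
  ∑ i, if b.IsPos (D.π (S.w i) α) then 0 else (S.κ i).smulRight (S.ξ i)

open Classical in
theorem Mono.r0pr_apply (α : ι) (v : M) :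
    S.r0pr α v = ∑ i, if b.IsPos (D.π (S.w i) α) then 0 else S.κ i v • S.ξ i := by
  rw [Mono.r0pr, LinearMap.sum_apply]
  refine Finset.sum_congr rfl fun i _ => ?_
  split_ifs <;> rfl

theorem Mono.r0pr_mem (α : ι) (v : M) : S.r0pr α v ∈ S.E := by
  rw [S.r0pr_apply]
  refine Submodule.sum_mem _ fun i _ => ?_
  split_ifs
  · exact zero_mem _
  · exact Submodule.smul_mem _ _ (S.ξ_mem i)

theorem Mono.r0pr_x {α : ι} (hα : b.IsPos α) {c : K} (hc : c ≠ 0) {ζ : M} (hζ : ζ ∈ S.E) :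
    S.r0pr α (ρ (D.x α c) ζ) = 0 := by
  rw [S.r0pr_apply]
  refine Finset.sum_eq_zero fun i _ => ?_
  split_ifs with h
  · rfl
  · rw [S.κ_E i (D.x_mem_U hα c) hζ, if_neg (fun h' => h ((D.x_mem_Up _ hα hc).1 h')), zero_smul]

theorem Mono.r0pr_Fx {α : ι} (hα : b.IsPos α) {r : M} (hr : r ∈ S.Fx α) : S.r0pr α r = 0 := by
  rw [S.r0pr_apply]
  refine Finset.sum_eq_zero fun i _ => ?_
  split_ifs with h
  · rfl
  · rw [S.κ_eq_zero_of_fixed hα h hr.2, zero_smul]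

theorem Mono.r0sub_mem {α : ι} (hα : b.IsPos α) {ζ : M} (hζ : ζ ∈ S.E) :
    ζ - S.r0pr α ζ ∈ S.Fx α := by
  rw [S.r0pr_apply]
  nth_rewrite 1 [S.eq_sum hζ]
  rw [← Finset.sum_sub_distrib]
  refine Submodule.sum_mem _ fun i _ => ?_
  split_ifs with h
  · rw [sub_zero]
    exact Submodule.smul_mem _ _ (S.ξ_mem_Fx hα h)
  · rw [sub_self]
    exact zero_mem _

/-- The vectors supported on `Z`. -/
def Mono.r0W (α : ι) (Z : Set K) : Submodule k M :=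
  Submodule.span k {v | ∃ e ∈ Z, ∃ ζ ∈ S.E, v = ρ (D.x α e) ζ} ⊔ S.Fx α

theorem Mono.r0W_x (α : ι) {Z : Set K} {e : K} (he : e ∈ Z) {ζ : M} (hζ : ζ ∈ S.E) :
    ρ (D.x α e) ζ ∈ S.r0W α Z :=
  Submodule.mem_sup_left (Submodule.subset_span ⟨e, he, ζ, hζ, rfl⟩)

theorem Mono.r0W_Fx (α : ι) (Z : Set K) {r : M} (hr : r ∈ S.Fx α) : r ∈ S.r0W α Z :=
  Submodule.mem_sup_right hr

theorem Mono.r0W_le (α : ι) {Z : Set K} {W : Submodule k M}
    (h1 : ∀ e ∈ Z, ∀ ζ ∈ S.E, ρ (D.x α e) ζ ∈ W) (h2 : ∀ r ∈ S.Fx α, r ∈ W) : S.r0W α Z ≤ W :=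
  sup_le (Submodule.span_le.2 (by rintro _ ⟨e, he, ζ, hζ, rfl⟩; exact h1 e he ζ hζ)) h2

theorem Mono.r0W_mono (α : ι) {Z Z' : Set K} (h : Z ⊆ Z') : S.r0W α Z ≤ S.r0W α Z' :=
  S.r0W_le α (fun _ he _ hζ => S.r0W_x α (h he) hζ) fun _ hr => S.r0W_Fx α Z' hr

/-- The coefficient at `e`. -/
noncomputable def Mono.r0co (α : ι) (e : K) : M →ₗ[k] M := S.r0pr α ∘ₗ ρ (D.x α (-e))

theorem Mono.r0co_x (α : ι) (e e' : K) (ζ : M) :
    S.r0co α e (ρ (D.x α e') ζ) = S.r0pr α (ρ (D.x α (-e + e')) ζ) := by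
  rw [Mono.r0co, LinearMap.comp_apply, rho_rho, D.x_add]

theorem Mono.r0co_Fx {α : ι} (hα : b.IsPos α) (e : K) {r : M} (hr : r ∈ S.Fx α) :
    S.r0co α e r = 0 := by
  rw [Mono.r0co, LinearMap.comp_apply, hr.2, S.r0pr_Fx hα hr]

theorem Mono.r0co_eq_zero {α : ι} (hα : b.IsPos α) {Z : Set K} {e : K} (he : e ∉ Z) {v : M}
    (hv : v ∈ S.r0W α Z) : S.r0co α e v = 0 := by
  refine S.r0W_le α (W := LinearMap.ker (S.r0co α e)) (fun e' he' ζ hζ => ?_)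
    (fun r hr => S.r0co_Fx hα e hr) hv
  rw [LinearMap.mem_ker, S.r0co_x]
  refine S.r0pr_x hα (fun h => he ?_) hζ
  have : e = e' := by linear_combination -h
  rwa [this]

theorem Mono.r0W_dec {α : ι} (hα : b.IsPos α) (Z : Finset K) {v : M}
    (hv : v ∈ S.r0W α (Z : Set K)) :
    v - ∑ e ∈ Z, ρ (D.x α e) (S.r0co α e v) ∈ S.Fx α := by
  have := S.r0W_le α (Z := (Z : Set K)) (W := (S.Fx α).comap
    (LinearMap.id - ∑ e ∈ Z, ρ (D.x α e) ∘ₗ S.r0co α e)) ?_ ?_ hv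
  · simpa [LinearMap.sum_apply] using this
  · intro e' he' ζ hζ
    simp only [Submodule.mem_comap, LinearMap.sub_apply, LinearMap.id_apply, LinearMap.sum_apply,
      LinearMap.comp_apply]
    rw [Finset.sum_eq_single_of_mem e' he']
    · rw [S.r0co_x, neg_add_cancel, D.x_zero, map_one, Module.End.one_apply, ← map_sub,
        (S.r0sub_mem hα hζ).2]
      exact S.r0sub_mem hα hζ
    · intro e _ hne
      rw [S.r0co_x, S.r0pr_x hα (fun h => hne (by linear_combination -h)) hζ, map_zero]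
  · intro r hr
    simp only [Submodule.mem_comap, LinearMap.sub_apply, LinearMap.id_apply, LinearMap.sum_apply,
      LinearMap.comp_apply]
    rw [Finset.sum_eq_zero fun e _ => by rw [S.r0co_Fx hα e hr, map_zero], sub_zero]
    exact hr

theorem Mono.r0W_supp {α : ι} (hα : b.IsPos α) (Z : Finset K) {v : M}
    (hv : v ∈ S.r0W α (Z : Set K)) : v ∈ S.r0W α {e | S.r0co α e v ≠ 0} := by
  have h1 := S.r0W_Fx α {e | S.r0co α e v ≠ 0} (S.r0W_dec hα Z hv)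
  have h2 : ∑ e ∈ Z, ρ (D.x α e) (S.r0co α e v) ∈ S.r0W α {e | S.r0co α e v ≠ 0} := by
    refine Submodule.sum_mem _ fun e _ => ?_
    by_cases h : S.r0co α e v = 0
    · rw [h, map_zero]
      exact zero_mem _
    · exact S.r0W_x α h (S.r0pr_mem α _)
  simpa using add_mem h1 h2

theorem Mono.r0exists_fin {α : ι} (hα : α ∈ b.support) (c : K) {ζ : M} (hζ : ζ ∈ S.E) :
    ∃ Z : Finset K, ρ (D.y α c) ζ ∈ S.r0W α (Z : Set K) := by
  classical
  refine Submodule.span_induction (p := fun v _ => ∃ Z : Finset K, v ∈ S.r0W α (Z : Set K))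
    ?_ ⟨∅, zero_mem _⟩ ?_ ?_ (S.supp_rank1 hα c hζ)
  · rintro _ ⟨e, i, rfl⟩
    exact ⟨{e}, S.r0W_x α (by simp) (S.ξ_mem i)⟩
  · rintro u v - - ⟨Z, hZ⟩ ⟨Z', hZ'⟩
    exact ⟨Z ∪ Z', add_mem (S.r0W_mono α (by simp) hZ) (S.r0W_mono α (by simp) hZ')⟩
  · rintro a v - ⟨Z, hZ⟩
    exact ⟨Z, Submodule.smul_mem _ a hZ⟩

theorem Mono.r0W_shift (α : ι) (c : K) {Z Z' : Set K} (h : ∀ e ∈ Z, c + e ∈ Z') {v : M}
    (hv : v ∈ S.r0W α Z) : ρ (D.x α c) v ∈ S.r0W α Z' := by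
  refine S.r0W_le α (W := (S.r0W α Z').comap (ρ (D.x α c))) (fun e he ζ hζ => ?_)
    (fun r hr => ?_) hv
  · rw [Submodule.mem_comap, rho_rho, ← D.x_add]
    exact S.r0W_x α (h e he) hζ
  · rw [Submodule.mem_comap, hr.2]
    exact S.r0W_Fx α Z' hr

theorem Mono.r0W_scale (α : ι) (a : Kˣ) {Z Z' : Set K} (h : ∀ e ∈ Z, (a : K) ^ 2 * e ∈ Z')
    {v : M} (hv : v ∈ S.r0W α Z) : ρ (D.hh α a) v ∈ S.r0W α Z' := by
  refine S.r0W_le α (W := (S.r0W α Z').comap (ρ (D.hh α a))) (fun e he ζ hζ => ?_)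
    (fun r hr => ?_) hv
  · have h1 : D.hh α a * D.x α e = D.x α ((a : K) ^ 2 * e) * D.hh α a := by
      rw [← D.hh_conj_x]; group
    rw [Submodule.mem_comap, rho_rho, h1, ← rho_rho]
    exact S.r0W_x α (h e he) (S.τ_mem_E _ hζ)
  · rw [Submodule.mem_comap]
    have := S.N_mem_Fx (D.tN (coch P (P.coroot α) a)) hr
    rw [D.π_tN] at this
    exact S.r0W_Fx α Z' this

theorem r0_sqrt {c : K} (hc : c ≠ 0) : ∃ a : Kˣ, (a : K) ^ 2 = c := by
  obtain ⟨z, hz⟩ := IsAlgClosed.exists_pow_nat_eq c (show 0 < 2 by norm_num)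
  have hz0 : z ≠ 0 := by
    rintro rfl
    exact hc (by rw [← hz]; simp)
  exact ⟨Units.mk0 z hz0, hz⟩

theorem Mono.r0W_y (α : ι) {T : Set K} (hT : ∀ ζ ∈ S.E, ρ (D.y α 1) ζ ∈ S.r0W α T) {c : K}
    (hc : c ≠ 0) {Z : Set K} (h : ∀ s ∈ T, c⁻¹ * s ∈ Z) {ζ : M} (hζ : ζ ∈ S.E) :
    ρ (D.y α c) ζ ∈ S.r0W α Z := by
  obtain ⟨a, ha⟩ := r0_sqrt (inv_ne_zero hc)
  have h1 : D.y α c = D.hh α a * (D.y α 1 * D.hh α a⁻¹) := by
    have := D.hh_conj_y α a 1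
    rw [inv_pow, ha, inv_inv, mul_one] at this
    rw [← this, D.hh_inv, mul_assoc]
  rw [h1, ← rho_rho, ← rho_rho]
  exact S.r0W_scale α a (fun e he => by rw [ha]; exact h e he) (hT _ (S.τ_mem_E _ hζ))

theorem Mono.r0W_y_back (α : ι) {c : K} (hc : c ≠ 0) {Z Z' : Set K} (h : ∀ s ∈ Z, c * s ∈ Z')
    (j : Fin S.n) (hj : ρ (D.y α c) (S.ξ j) ∈ S.r0W α Z) : ρ (D.y α 1) (S.ξ j) ∈ S.r0W α Z' := by
  obtain ⟨a, ha⟩ := r0_sqrt hc
  have h1 : D.y α 1 = D.hh α a * (D.y α c * D.hh α a⁻¹) := by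
    have := D.hh_conj_y α a c
    rw [inv_pow, ha, inv_mul_cancel₀ hc] at this
    rw [← this, D.hh_inv, mul_assoc]
  rw [h1, ← rho_rho, ← rho_rho]
  refine S.r0W_scale α a (Z := Z) (fun e he => by rw [ha]; exact h e he) ?_
  have h2 : ρ (D.hh α a⁻¹) (S.ξ j) = _ := S.eig j _
  rw [h2, map_smul]
  exact Submodule.smul_mem _ _ hj

theorem Mono.r0W_step (α : ι) {T : Set K} (hT : ∀ ζ ∈ S.E, ρ (D.y α 1) ζ ∈ S.r0W α T) {c : K}
    (hc : c ≠ 0) (hc' : ∀ s ∈ T, 1 + c * s ≠ 0) {v : M} (hv : v ∈ S.r0W α T) :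
    ρ (D.y α c) v ∈ S.r0W α
      {z | c * z = 1 ∨ ∃ s ∈ T, ∃ s' ∈ T, z * (c * (1 + c * s')) = s' * c + s} := by
  refine S.r0W_le α (W := (S.r0W α _).comap (ρ (D.y α c))) (fun e he ζ hζ => ?_)
    (fun r hr => ?_) hv
  · have hd := hc' e he
    rw [Submodule.mem_comap, rho_rho, D.y_mul_x α c e hd, ← rho_rho, ← rho_rho]
    refine S.r0W_shift α _ (Z := {z | ∃ s ∈ T, z * (c * (1 + c * e)) = s}) ?_
      (S.r0W_scale α _ (Z := {z | ∃ s ∈ T, z * c = s * (1 + c * e)}) ?_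
        (S.r0W_y α hT (div_ne_zero hc hd) ?_ hζ))
    · rintro z ⟨s, hs, hz⟩
      refine Or.inr ⟨s, hs, e, he, ?_⟩
      rw [← hz, add_mul, mul_comm c (1 + c * e), ← mul_assoc, div_mul_cancel₀ _ hd]
    · rintro z ⟨s, hs, hz⟩
      refine ⟨s, hs, ?_⟩
      rw [Units.val_inv_eq_inv_val, Units.val_mk0]
      field_simp
      linear_combination hz
    · intro s hs
      refine ⟨s, hs, ?_⟩
      field_simp
  · have h1 := D.y_eq α (Units.mk0 c hc)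
    rw [Units.val_mk0] at h1
    rw [Submodule.mem_comap, h1, ← rho_rho, ← rho_rho, hr.2]
    exact S.r0W_x α (Or.inl (mul_inv_cancel₀ hc)) (S.N_mem_E _ hr.1)

theorem r0_quad (u v w : K) (h : ¬ (u = 0 ∧ v = 0 ∧ w = 0)) :
    {c : K | u * c ^ 2 + v * c + w = 0}.Finite := by
  have h1 : (Polynomial.C u * Polynomial.X ^ 2 + Polynomial.C v * Polynomial.X +
      Polynomial.C w : Polynomial K) ≠ 0 := by
    intro h0
    apply h
    have h2 := congrArg (fun q => Polynomial.coeff q 2) h0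
    have h3 := congrArg (fun q => Polynomial.coeff q 1) h0
    have h4 := congrArg (fun q => Polynomial.coeff q 0) h0
    simp [Polynomial.coeff_X, Polynomial.coeff_C] at h2 h3 h4
    exact ⟨h2, h3, h4⟩
  refine (Polynomial.finite_setOfPred_isRoot h1).subset fun c hc => ?_
  simpa [Polynomial.IsRoot] using hc

theorem Mono.r0_main {α : ι} (hα : α ∈ b.support) {ζ : M} (hζ : ζ ∈ S.E) :
    ρ (D.y α 1) ζ ∈ S.r0W α {0, 1} := by
  have hpos : b.IsPos α := b.isPos_of_mem_support hα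
  set T : Set K := {s | ∃ j, S.r0co α s (ρ (D.y α 1) (S.ξ j)) ≠ 0} 
  have hmin : ∀ Z : Set K, (∀ j, ρ (D.y α 1) (S.ξ j) ∈ S.r0W α Z) → T ⊆ Z := by
    rintro Z hZ s ⟨j, hj⟩
    by_contra hs
    exact hj (S.r0co_eq_zero hpos hs (hZ j))
  have hT : ∀ ζ ∈ S.E, ρ (D.y α 1) ζ ∈ S.r0W α T := by
    intro ζ hζ
    refine S.E_induction (W := (S.r0W α T).comap (ρ (D.y α 1))) (fun j => ?_) hζ
    obtain ⟨Z, hZ⟩ := S.r0exists_fin hα 1 (S.ξ_mem j)
    exact S.r0W_mono α (Z' := T) (fun s hs => ⟨j, hs⟩) (S.r0W_supp hpos Z hZ)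
  have hfin : T.Finite := by
    choose Z hZ using fun j => S.r0exists_fin hα 1 (S.ξ_mem j)
    refine (Set.finite_iUnion fun j => (Z j).finite_toSet).subset (hmin _ fun j => ?_)
    exact S.r0W_mono α (Set.subset_iUnion (fun j => (Z j : Set K)) j) (hZ j)
  refine S.r0W_mono α (fun t ht => ?_) (hT ζ hζ)
  by_contra hne
  have ht0 : t ≠ 0 := fun h => hne (Or.inl h)
  have ht1 : t ≠ 1 := fun h => hne (Or.inr h)
  have hbad : ({c : K | 1 * c ^ 2 + 1 * c + 0 = 0} ∪ {c : K | 0 * c ^ 2 + (t - 1) * c + -1 = 0} ∪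
      (⋃ s ∈ T, {c : K | 0 * c ^ 2 + s * c + 1 = 0}) ∪
      ⋃ s ∈ T, ⋃ s' ∈ T, {c : K | (t * s' - s') * c ^ 2 + (t - s - s') * c + -s = 0}).Finite := by
    refine (((r0_quad _ _ _ (by simp)).union (r0_quad _ _ _ (by simp))).union
      (hfin.biUnion fun s _ => r0_quad _ _ _ (by simp))).union
      (hfin.biUnion fun s _ => hfin.biUnion fun s' _ => r0_quad _ _ _ ?_)
    rintro ⟨h1, h2, h3⟩
    have h4 : t = s' := by linear_combination h2 - h3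
    rw [← h4] at h1
    have h5 : t * (t - 1) = 0 := by linear_combination h1
    rcases mul_eq_zero.1 h5 with h | h
    · exact ht0 h
    · exact ht1 (by linear_combination h)
  obtain ⟨c, hc⟩ := hbad.exists_notMem
  simp only [Set.mem_union, Set.mem_iUnion, Set.mem_ofPred_eq, not_or, not_exists] at hc
  obtain ⟨⟨⟨g1, g2⟩, g3⟩, g4⟩ := hc
  have hc0 : c ≠ 0 := fun h => g1 (by rw [h]; ring)
  have hc1 : c + 1 ≠ 0 := fun h => g1 (by linear_combination c * h)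
  have key := hmin {z | c * z = c + 1 ∨ ∃ s ∈ T, ∃ s' ∈ T,
      z * (c * (1 + c * s')) = (c + 1) * (s' * c + s)} (fun j => by
    refine S.r0W_y_back α hc1 (Z := {z | c * z = 1 ∨ ∃ s ∈ T, ∃ s' ∈ T,
      z * (c * (1 + c * s')) = s' * c + s}) ?_ j ?_
    · rintro z (hz | ⟨s, hs, s', hs', hz⟩)
      · exact Or.inl (by linear_combination (c + 1) * hz)
      · exact Or.inr ⟨s, hs, s', hs', by linear_combination (c + 1) * hz⟩
    · rw [D.y_add, ← rho_rho]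
      exact S.r0W_step α hT hc0 (fun s hs h => g3 s hs (by linear_combination h))
        (hT _ (S.ξ_mem j))) ht
  rcases key with h | ⟨s, hs, s', hs', h⟩
  · exact g2 (by linear_combination h)
  · exact g4 s hs s' hs' (by linear_combination h)

theorem Mono.rank0 {α : ι} (hα : α ∈ b.support) (c : Kˣ) {ζ : M} (hζ : ζ ∈ S.E) :
    ∃ a ∈ S.E, ∃ e ∈ S.E, ρ (D.y α c) ζ = ρ (D.x α (c : K)⁻¹) a + e := by
  have h1 : ρ (D.y α c) ζ ∈ S.r0W α {0, (c : K)⁻¹} := by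
    refine S.r0W_y α (fun ζ hζ => S.r0_main hα hζ) c.ne_zero ?_ hζ
    rintro s (rfl | rfl)
    · exact Or.inl (mul_zero _)
    · exact Or.inr (mul_one _)
  have h2 := S.r0W_le α (W := S.E.map (ρ (D.x α (c : K)⁻¹)) ⊔ S.E) ?_ ?_ h1
  · obtain ⟨_, ⟨a, ha, rfl⟩, e, he, h⟩ := Submodule.mem_sup.1 h2
    exact ⟨a, ha, e, he, h.symm⟩
  · rintro e (rfl | rfl) ζ hζ
    · rw [D.x_zero, map_one, Module.End.one_apply]
      exact Submodule.mem_sup_right hζ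
    · exact Submodule.mem_sup_left ⟨ζ, hζ, rfl⟩
  · exact fun r hr => Submodule.mem_sup_right hr.1

end Red

end Pool.Agent.P.MP_0b1ded_al
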