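import Pool.Agent.P.MP_0b1ded_al.Rank0

/-! The rank one relation. -/

set_option linter.unusedSectionVars false

namespace Pool.Agent.P.MP_0b1ded_al

open Function Filter

variable {ι X Y : Type} [AddCommGroup X] [AddCommGroup Y] {P : RootDatum ι X Y} {b : P.Base}
  {p : ℕ} {K : Type} [Field K] {G : Type*} [Group G] [Finite ι] [P.IsReduced]
  [Fact p.Prime] [CharP K p] [IsAlgClosed K] [Algebra (ZMod p) K] [Algebra.IsAlgebraic (ZMod p) K]
  [Module.Finite ℤ X]
  {k : Type*} [Field k] [CharZero k] {M : Type*} [AddCommGroup M] [Module k M]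

/-- The average over a finite subfield. -/
theorem rank1_avg {K : Type} [Field K] {k : Type*} [Field k] [CharZero k] {V : Type*}
    [AddCommGroup V] [Module k V] [Module.Finite k V] (B : K → Module.End k V) (h0 : B 0 = 1)
    (hadd : ∀ c c', B (c + c') = B c * B c') (τ : k)
    (hτ : ∀ c, c ≠ 0 → LinearMap.trace k V (B c) = τ) (A : Subfield K) [Fintype A] :
    ∃ r : ℕ, r ≤ Module.finrank k V ∧
      (Module.finrank k V : k) + ((Fintype.card A : k) - 1) * τ = Fintype.card A * r ∧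
      (r = Module.finrank k V → B 1 = 1) := by
  classical
  have hq : (Fintype.card A : k) ≠ 0 := Nat.cast_ne_zero.2 Fintype.card_ne_zero
  set Q : Module.End k V := (Fintype.card A : k)⁻¹ • ∑ c : A, B c with hQ
  have h1 : ∀ c : A, B c * Q = Q := by
    intro c
    rw [hQ, mul_smul_comm, Finset.mul_sum]
    congr 1
    refine Fintype.sum_equiv (Equiv.addLeft c) _ _ fun d => ?_
    rw [← hadd]
    rfl
  have h2 : IsIdempotentElem Q := by
    change Q * Q = Q
    conv_lhs => lhs; rw [hQ]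
    rw [smul_mul_assoc, Finset.sum_mul, Finset.sum_congr rfl fun c _ => h1 c, Finset.sum_const,
      Finset.card_univ, ← Nat.cast_smul_eq_nsmul k, smul_smul, inv_mul_cancel₀ hq, one_smul]
  have h3 := ((LinearMap.isProj_range_iff_isIdempotentElem Q).2 h2).trace
  refine ⟨Module.finrank k (LinearMap.range Q), Submodule.finrank_le _, ?_, fun h => ?_⟩
  · rw [← h3, hQ, map_smul, map_sum, smul_eq_mul, mul_inv_cancel_left₀ hq,
      ← Finset.add_sum_erase _ _ (Finset.mem_univ (0 : A))]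
    have e1 : ∀ c ∈ Finset.univ.erase (0 : A), LinearMap.trace k V (B c) = τ := fun c hc =>
      hτ c fun h => (Finset.mem_erase.1 hc).1 (Subtype.ext h)
    rw [Finset.sum_congr rfl e1, Finset.sum_const, Finset.card_erase_of_mem (Finset.mem_univ _),
      Finset.card_univ, nsmul_eq_mul, Nat.cast_sub Fintype.card_pos, Nat.cast_one]
    have e2 : B ((0 : A) : K) = 1 := h0
    rw [e2, LinearMap.trace_one]
  · have h4 : LinearMap.range Q = ⊤ := Submodule.eq_top_of_finrank_eq h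
    ext v
    obtain ⟨w, rfl⟩ := LinearMap.range_eq_top.1 h4 v
    exact LinearMap.congr_fun (h1 1) w

theorem rank1_triv {K : Type} [Field K] {k : Type*} [Field k] [CharZero k] {V : Type*}
    [AddCommGroup V] [Module k V] [Module.Finite k V] (B : K → Module.End k V) (h0 : B 0 = 1)
    (hadd : ∀ c c', B (c + c') = B c * B c') (τ : k)
    (hτ : ∀ c, c ≠ 0 → LinearMap.trace k V (B c) = τ) (A : ℕ → Subfield K) [∀ a, Fintype (A a)]
    (hA : Tendsto (fun a => Fintype.card (A a)) atTop atTop) : B 1 = 1 := by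
  choose r hr he h1 using fun a => rank1_avg B h0 hadd τ hτ (A a)
  obtain ⟨s, hs⟩ := Finite.exists_infinite_fiber
    (fun a => (⟨r a, Nat.lt_succ_of_le (hr a)⟩ : Fin (Module.finrank k V + 1)))
  have hs' := Set.infinite_coe_iff.1 hs
  obtain ⟨a0, ha0⟩ := hs'.nonempty
  obtain ⟨a1, ha1, hlt⟩ := ((Nat.frequently_atTop_iff_infinite.2 hs').and_eventually
    (hA.eventually_gt_atTop (Fintype.card (A a0)))).exists
  have e0 : r a0 = s := congrArg Fin.val (show _ = s from ha0)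
  have e1 : r a1 = s := congrArg Fin.val (show _ = s from ha1)
  have f0 := he a0
  have f1 := he a1
  rw [e0] at f0
  rw [e1] at f1
  have hne : (Fintype.card (A a1) : k) - Fintype.card (A a0) ≠ 0 :=
    sub_ne_zero.2 (by exact_mod_cast hlt.ne')
  have h2 : τ = (s : ℕ) := mul_left_cancel₀ hne (by linear_combination f1 - f0)
  refine h1 a0 ?_
  rw [e0]
  have h3 : ((s : ℕ) : k) = Module.finrank k V := by
    rw [h2] at f0
    linear_combination -f0
  exact_mod_cast h3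

namespace Red

variable {D : Red p K G b} {ρ : Representation k G M} (S : D.Mono ρ)

open Classical in
/-- The projection onto the span of the basis vectors not fixed by a root subgroup. -/
noncomputable def Mono.rank1Pr (α : ι) : M →ₗ[k] M :=
  ∑ i, if b.IsPos (D.π (S.w i) α) then 0 else (S.κ i).smulRight (S.ξ i)

open Classical in
theorem Mono.rank1Pr_apply (α : ι) (v : M) :
    S.rank1Pr α v = ∑ i, if b.IsPos (D.π (S.w i) α) then 0 else S.κ i v • S.ξ i := by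
  rw [Mono.rank1Pr, LinearMap.sum_apply]
  refine Finset.sum_congr rfl fun i _ => ?_
  split_ifs <;> rfl

theorem Mono.rank1Pr_mem (α : ι) (v : M) : S.rank1Pr α v ∈ S.E := by
  rw [Mono.rank1Pr_apply]
  refine Submodule.sum_mem _ fun i _ => ?_
  split_ifs
  · exact zero_mem _
  · exact Submodule.smul_mem _ _ (S.ξ_mem i)

theorem Mono.rank1Pr_congr (α : ι) {v w : M}
    (h : ∀ i, ¬ b.IsPos (D.π (S.w i) α) → S.κ i v = S.κ i w) : S.rank1Pr α v = S.rank1Pr α w := by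
  rw [Mono.rank1Pr_apply, Mono.rank1Pr_apply]
  refine Finset.sum_congr rfl fun i _ => ?_
  split_ifs with hi
  · rfl
  · rw [h i hi]

theorem Mono.rank1Pr_κ (α : ι) (v : M) {i : Fin S.n} (hi : ¬ b.IsPos (D.π (S.w i) α)) :
    S.κ i (S.rank1Pr α v) = S.κ i v := by
  rw [Mono.rank1Pr_apply, map_sum, Finset.sum_eq_single i]
  · rw [if_neg hi, map_smul, S.κ_ξ, if_pos rfl, smul_eq_mul, mul_one]
  · intro j _ hj
    split_ifs
    · exact map_zero _
    · rw [map_smul, S.κ_ξ, if_neg hj.symm, smul_zero]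
  · intro h
    exact absurd (Finset.mem_univ i) h

theorem Mono.rank1Pr_idem (α : ι) (v : M) : S.rank1Pr α (S.rank1Pr α v) = S.rank1Pr α v :=
  S.rank1Pr_congr α fun _ hi => S.rank1Pr_κ α v hi

theorem Mono.rank1Pr_x {α : ι} (hα : b.IsPos α) {e : K} (he : e ≠ 0) {v : M} (hv : v ∈ S.E) :
    S.rank1Pr α (ρ (D.x α e) v) = 0 := by
  rw [← map_zero (S.rank1Pr α)]
  refine S.rank1Pr_congr α fun i hi => ?_
  rw [S.κ_E i (D.x_mem_U hα e) hv, if_neg (fun h => hi ((D.x_mem_Up _ hα he).1 h)), map_zero]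

theorem Mono.rank1Pr_Fx {α : ι} (hα : b.IsPos α) {v : M} (hv : v ∈ S.Fx α) :
    S.rank1Pr α v = 0 := by
  rw [← map_zero (S.rank1Pr α)]
  refine S.rank1Pr_congr α fun i hi => ?_
  rw [S.κ_eq_zero_of_fixed hα hi hv.2, map_zero]

theorem Mono.rank1_mem_Fx {α : ι} (hα : b.IsPos α) {v : M} (hv : v ∈ S.E)
    (h : S.rank1Pr α v = 0) : v ∈ S.Fx α := by
  rw [S.eq_sum hv]
  refine Submodule.sum_mem _ fun i _ => ?_
  by_cases hi : b.IsPos (D.π (S.w i) α)
  · exact Submodule.smul_mem _ _ (S.ξ_mem_Fx hα hi)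
  · rw [← S.rank1Pr_κ α v hi, h, map_zero, zero_smul]
    exact zero_mem _

theorem Mono.rank1Pr_τ (α : ι) (t : Tor K X) (v : M) :
    S.rank1Pr α (ρ (D.τ t) v) = ρ (D.τ t) (S.rank1Pr α v) := by
  rw [Mono.rank1Pr_apply, Mono.rank1Pr_apply, map_sum]
  refine Finset.sum_congr rfl fun i _ => ?_
  split_ifs
  · exact (map_zero _).symm
  · rw [S.κ_τ, map_smul, S.eig, smul_smul, mul_comm]

theorem Mono.rank1Pr_y_Fx {α : ι} (hα : b.IsPos α) (c : K) {v : M} (hv : v ∈ S.Fx α) :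
    S.rank1Pr α (ρ (D.y α c) v) = 0 := by
  by_cases hc : c = 0
  · rw [hc, D.y_zero, map_one, Module.End.one_apply, S.rank1Pr_Fx hα hv]
  · have := D.y_eq α (Units.mk0 c hc)
    rw [Units.val_mk0] at this
    rw [this, ← rho_rho, ← rho_rho, hv.2]
    exact S.rank1Pr_x hα (inv_ne_zero hc) (S.N_mem_E _ hv.1)

theorem Mono.rank1Pr_y_pr {α : ι} (hα : b.IsPos α) (c : K) {v : M} (hv : v ∈ S.E) :
    S.rank1Pr α (ρ (D.y α c) (S.rank1Pr α v)) = S.rank1Pr α (ρ (D.y α c) v) := by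
  have h : v - S.rank1Pr α v ∈ S.Fx α := S.rank1_mem_Fx hα (sub_mem hv (S.rank1Pr_mem α v))
    (by rw [map_sub, S.rank1Pr_idem, sub_self])
  have := S.rank1Pr_y_Fx hα c h
  rw [map_sub, map_sub, sub_eq_zero] at this
  exact this.symm

theorem Mono.rank1Pr_y_x {α : ι} (hα : α ∈ b.support) (c : K) (c' : Kˣ) {v : M} (hv : v ∈ S.E) :
    S.rank1Pr α (ρ (D.y α c) (ρ (D.x α (c' : K)⁻¹) v)) = 0 := by
  have hp := b.isPos_of_mem_support hα
  have he : (c' : K)⁻¹ ≠ 0 := inv_ne_zero c'.ne_zero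
  by_cases hc : c = 0
  · rw [hc, D.y_zero, map_one, Module.End.one_apply, S.rank1Pr_x hp he hv]
  by_cases h1 : 1 + c * (c' : K)⁻¹ = 0
  · have h2 : c = -c' := by
      field_simp at h1
      linear_combination h1
    have h3 : D.y α (-c') * D.x α (c' : K)⁻¹ = D.x α (-(c' : K)⁻¹) * ((D.nc α c')⁻¹ : D.N) := by
      rw [← D.y_x_nc, Subgroup.coe_inv]
      group
    rw [h2, rho_rho, h3, ← rho_rho]
    exact S.rank1Pr_x hp (neg_ne_zero.2 he) (S.N_mem_E _ hv)
  · have hd : c / (1 + c * (c' : K)⁻¹) ≠ 0 := div_ne_zero hc h1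
    obtain ⟨a, ha, e, hE, h2⟩ := S.rank0 hα (Units.mk0 _ hd) hv
    rw [Units.val_mk0] at h2
    rw [rho_rho, D.y_mul_x α c _ h1, ← rho_rho, h2, map_add, map_add, rho_rho]
    have h3 : D.x α ((c' : K)⁻¹ / (1 + c * (c' : K)⁻¹)) * D.hh α (Units.mk0 _ h1)⁻¹ *
        D.x α (c / (1 + c * (c' : K)⁻¹))⁻¹ = D.x α c⁻¹ * D.hh α (Units.mk0 _ h1)⁻¹ := by
      have h4 := D.hh_conj_x α (Units.mk0 _ h1)⁻¹ (c / (1 + c * (c' : K)⁻¹))⁻¹
      rw [mul_inv_eq_iff_eq_mul] at h4
      rw [mul_assoc, h4, ← mul_assoc, ← D.x_add]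
      congr 2
      rw [Units.val_inv_eq_inv_val, Units.val_mk0]
      generalize (c' : K)⁻¹ = z at h1
      have h5 : ∀ u : K, u ≠ 0 → u = 1 + c * z → z / u + u⁻¹ ^ 2 * (c / u)⁻¹ = c⁻¹ := by
        intro u hu hu'
        field_simp
        linear_combination -hu'
      exact h5 _ h1 rfl
    have hh : ∀ (u : Kˣ) {w : M}, w ∈ S.E → ρ (D.hh α u) w ∈ S.E := fun u _ hw => S.τ_mem_E _ hw
    rw [h3, ← rho_rho, ← rho_rho, S.rank1Pr_x hp (inv_ne_zero hc) (hh _ ha),
      S.rank1Pr_x hp (div_ne_zero he h1) (hh _ hE), add_zero]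

theorem Mono.rank1Pr_add {α : ι} (hα : α ∈ b.support) (c c' : K) {v : M} (hv : v ∈ S.E) :
    S.rank1Pr α (ρ (D.y α (c + c')) v) =
      S.rank1Pr α (ρ (D.y α c) (S.rank1Pr α (ρ (D.y α c') v))) := by
  have hp := b.isPos_of_mem_support hα
  by_cases hc : c' = 0
  · rw [hc, add_zero, D.y_zero, map_one, Module.End.one_apply, S.rank1Pr_y_pr hp c hv]
  · obtain ⟨a, ha, e, hE, h2⟩ := S.rank0 hα (Units.mk0 _ hc) hv
    have h3 := S.rank1Pr_y_x hα c (Units.mk0 _ hc) ha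
    rw [Units.val_mk0] at h2 h3
    rw [D.y_add, ← rho_rho, h2, map_add, map_add, h3, zero_add, map_add,
      S.rank1Pr_x hp (inv_ne_zero hc) ha, zero_add, S.rank1Pr_y_pr hp c hE]

theorem Mono.rank1Pr_y {α : ι} (hα : α ∈ b.support) (c : K) {v : M} (hv : v ∈ S.E) :
    S.rank1Pr α (ρ (D.y α c) v) = S.rank1Pr α v := by
  have hp := b.isPos_of_mem_support hα
  have hconj : ∀ c : K, c ≠ 0 → ∃ t : Tor K X, D.y α c = D.τ t * D.y α 1 * D.τ t⁻¹ := by
    intro c hc
    obtain ⟨t, ht⟩ := exists_ev_eq (P := P) (ng P α) (Units.mk0 c hc)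
    refine ⟨t, ?_⟩
    rw [D.τ_inv, y, y, D.τ_conj_x, ht, Units.val_mk0, mul_one]
  have key : ∀ v ∈ S.E, S.rank1Pr α (ρ (D.y α 1) v) = S.rank1Pr α v := by
    let V := LinearMap.range (S.rank1Pr α)
    have hVE : V ≤ S.E := by
      rintro _ ⟨w, rfl⟩
      exact S.rank1Pr_mem α w
    have hfix : ∀ w : V, S.rank1Pr α w = w := by
      rintro ⟨_, w, rfl⟩
      exact S.rank1Pr_idem α w
    have := S.finite_E
    have : Module.Finite k V := Module.Finite.of_injective (Submodule.inclusion hVE)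
      (Submodule.inclusion_injective hVE)
    let Φ : G → Module.End k V := fun g => (S.rank1Pr α).rangeRestrict ∘ₗ ρ g ∘ₗ V.subtype
    have hΦ : ∀ g (w : V), (Φ g w : M) = S.rank1Pr α (ρ g w) := fun _ _ => rfl
    have hl : ∀ t g, Φ (D.τ t * g) = Φ (D.τ t) * Φ g := by
      intro t g
      ext w
      rw [Module.End.mul_apply, hΦ, hΦ, hΦ, ← rho_rho, S.rank1Pr_τ, S.rank1Pr_τ, S.rank1Pr_idem]
    have hr : ∀ t g, Φ (g * D.τ t) = Φ g * Φ (D.τ t) := by
      intro t g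
      ext w
      rw [Module.End.mul_apply, hΦ, hΦ, hΦ, ← rho_rho, S.rank1Pr_τ, hfix]
    have h1 : Φ (D.y α 1) = 1 := by
      refine rank1_triv (fun c => Φ (D.y α c)) ?_ ?_ (LinearMap.trace k V (Φ (D.y α 1))) ?_ D.Kf
        D.tendsto_card_Kf
      · ext w
        rw [hΦ, D.y_zero, map_one, Module.End.one_apply, Module.End.one_apply, hfix]
      · intro c c'
        ext w
        rw [Module.End.mul_apply, hΦ, hΦ, hΦ]
        exact S.rank1Pr_add hα c c' (hVE w.2)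
      · intro c hc
        obtain ⟨t, ht⟩ := hconj c hc
        rw [ht, hr, LinearMap.trace_mul_comm, ← hl, ← mul_assoc, ← map_mul, inv_mul_cancel,
          map_one, one_mul]
    intro v hv
    have h2 := hΦ (D.y α 1) ⟨_, v, rfl⟩
    rw [h1, Module.End.one_apply] at h2
    rw [← S.rank1Pr_y_pr hp 1 hv]
    exact h2.symm
  by_cases hc : c = 0
  · rw [hc, D.y_zero, map_one, Module.End.one_apply]
  · obtain ⟨t, ht⟩ := hconj c hc
    rw [ht, ← rho_rho, ← rho_rho, S.rank1Pr_τ, key _ (S.τ_mem_E _ hv), ← S.rank1Pr_τ, rho_rho,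
      ← map_mul, mul_inv_cancel, map_one, map_one, Module.End.one_apply]

theorem Mono.rank1 {α : ι} (hα : α ∈ b.support) (c : Kˣ) {ζ : M} (hζ : ζ ∈ S.E) :
    ρ (D.y α c) ζ - ρ (D.x α (c : K)⁻¹) (ρ (D.nc α c) ζ) - ζ ∈ S.Fx α := by
  have hp := b.isPos_of_mem_support hα
  have he : (c : K)⁻¹ ≠ 0 := inv_ne_zero c.ne_zero
  obtain ⟨a, ha, e, hE, h⟩ := S.rank0 hα c hζ
  have h1 : e - ζ ∈ S.Fx α := by
    refine S.rank1_mem_Fx hp (sub_mem hE hζ) ?_
    rw [map_sub, ← S.rank1Pr_y hα c hζ, h, map_add, S.rank1Pr_x hp he ha, zero_add, sub_self]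
  have h2 : (D.nc α c : G) = D.x α (c : K)⁻¹ * D.nc α c * D.y α c := by
    have e1 := D.y_nc α (-c)
    have e2 := D.y_eq α (-c)
    rw [D.nc_neg, Subgroup.coe_inv] at e1 e2
    simp only [Units.val_neg, neg_neg, inv_neg, D.x_neg, D.y_neg] at e1 e2
    have e3 : D.y α c * (D.nc α c : G)⁻¹ = (D.nc α c : G)⁻¹ * (D.x α (c : K)⁻¹)⁻¹ := by
      rw [e1, e2]
      group
    calc (D.nc α c : G)
        = D.x α (c : K)⁻¹ * D.nc α c * ((D.nc α c : G)⁻¹ * (D.x α (c : K)⁻¹)⁻¹) * D.nc α c := by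
          group
      _ = _ := by
          rw [← e3]
          group
  have h3 : a - ρ (D.nc α c) ζ ∈ S.Fx α := by
    refine S.rank1_mem_Fx hp (sub_mem ha (S.N_mem_E _ hζ)) ?_
    have e1 : ρ (D.nc α c) ζ = ρ (D.y α c) a + ρ (D.x α (c : K)⁻¹) (ρ (D.nc α c) e) := by
      conv_lhs => rw [h2, ← rho_rho, h, map_add, rho_rho, ← D.y_eq, ← rho_rho]
    rw [map_sub, e1, map_add, S.rank1Pr_y hα c ha, S.rank1Pr_x hp he (S.N_mem_E _ hE), add_zero,
      sub_self]
  have h4 := h3.2 (c : K)⁻¹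
  rw [map_sub] at h4
  have h5 : ρ (D.y α c) ζ - ρ (D.x α (c : K)⁻¹) (ρ (D.nc α c) ζ) - ζ =
      (a - ρ (D.nc α c) ζ) + (e - ζ) := by
    rw [← h4, h]
    abel
  rw [h5]
  exact add_mem h3 h1

end Red

end Pool.Agent.P.MP_0b1ded_al
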