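import Pool.Agent.P.MP_0b1ded_al.Defs

/-! The working form of the structure of a reductive group. -/

namespace Pool.Agent.P.MP_0b1ded_al

open Function Matrix

variable {ι X Y : Type} [AddCommGroup X] [AddCommGroup Y]

/-- The matrix of the nontrivial element of the Weyl group of `SL₂`. -/
def weM {K : Type} [Field K] : SpecialLinearGroup (Fin 2) K :=
  ⟨!![0, -1; 1, 0], by simp [det_fin_two]⟩

/-- The value at `a` of the cocharacter `y`, as a point of the torus. -/
def coch {K : Type} [Field K] (P : RootDatum ι X Y) (y : Y) (a : Kˣ) : Tor K X where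
  toFun v := a ^ P.toLinearMap v.toAdd y
  map_one' := by simp
  map_mul' v w := by simp [_root_.zpow_add]

/-- The structure carried by the group `G = 𝐆(K)`, `K` the algebraic closure of `𝔽_p`, of a
connected reductive group `𝐆` with maximal torus `T`, root datum `P` and the base `b` of the
Borel subgroup `B = T U` (Jantzen, Representations of algebraic groups, II.1.1 to II.1.9;
Springer, Linear algebraic groups, 7.6.4, 8.1.1, 8.1.4, 8.1.12, 8.2.1, 8.2.3, 8.3.11). -/
structure Red (p : ℕ) (K : Type) [Field K] (G : Type*) [Group G] {P : RootDatum ι X Y}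
    (b : P.Base) where
  /-- the maximal torus `T = Hom(X, Kˣ)` -/
  τ : Tor K X →* G
  τ_inj : Injective τ
  /-- the root homomorphisms -/
  x : ι → K → G
  x_add : ∀ β c d, x β (c + d) = x β c * x β d
  x_inj : ∀ β, Injective (x β)
  τ_x : ∀ t β c, τ t * x β c * (τ t)⁻¹ = x β (t.val (P.root β) * c)
  /-- the homomorphisms from `SL₂` -/
  φ : ι → SpecialLinearGroup (Fin 2) K →* G
  φ_up : ∀ β c, φ β (upM c) = x β c
  φ_lo : ∀ β c, φ β (loM c) = x (P.reflectionPerm β β) c
  φ_di : ∀ β a, φ β (diM a) = τ (coch P (P.coroot β) a)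
  /-- the map from `N_G(T)` onto the Weyl group of the root datum, with kernel `T` -/
  wey : Subgroup.normalizer (τ.range : Set G) →* P.weylGroup
  wey_ker : ∀ n, wey n = 1 ↔ n.1 ∈ τ.range
  wey_τ : ∀ (n : Subgroup.normalizer (τ.range : Set G)) t, ∃ t', n.1⁻¹ * τ t * n.1 = τ t' ∧
    ∀ v, t'.val v = t.val (wey n • v)
  wey_x : ∀ (n : Subgroup.normalizer (τ.range : Set G)) β c,
    ∃ d, n.1 * x β c * n.1⁻¹ = x (P.weylGroupToPerm (wey n) β) d
  wey_φ : ∀ β, ∃ n : Subgroup.normalizer (τ.range : Set G),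
    n.1 = φ β weM ∧ wey n = RootPairing.weylGroup.ofIdx P β
  /-- the commutator relations -/
  comm : ∀ β γ c d, P.root γ ≠ P.root β → P.root γ ≠ -P.root β →
    x β c * x γ d * (x β c)⁻¹ * (x γ d)⁻¹ ∈
      genU x {δ | ∃ i j : ℕ, 0 < i ∧ 0 < j ∧ P.root δ = i • P.root β + j • P.root γ}
  /-- `U` is the product of the positive root subgroups, uniquely and in any order -/
  prod_surj : ∀ l : List ι, l.Nodup → (∀ β, β ∈ l ↔ b.IsPos β) →
    ∀ u ∈ genU x {β | b.IsPos β}, ∃ c : ι → K, u = (l.map fun β => x β (c β)).prod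
  prod_inj : ∀ l : List ι, l.Nodup → (∀ β, β ∈ l ↔ b.IsPos β) → ∀ c d : ι → K,
    (l.map fun β => x β (c β)).prod = (l.map fun β => x β (d β)).prod → ∀ β ∈ l, c β = d β
  /-- `B ∩ U⁻ = 1` -/
  opp : (τ.range ⊔ genU x {β | b.IsPos β}) ⊓ genU x {β | ¬ b.IsPos β} = ⊥
  /-- `G` is generated by `T` and the root subgroups -/
  gen : τ.range ⊔ genU x Set.univ = ⊤
  /-- a split Frobenius endomorphism, raising to the power `p ^ m` -/
  F : G →* G
  m : ℕ
  m_pos : 0 < m
  F_x : ∀ β c, F (x β c) = x β (c ^ p ^ m)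
  F_τ : ∀ t, F (τ t) = τ (t ^ p ^ m)

namespace Red

variable {p : ℕ} {K : Type} [Field K] {G : Type*} [Group G] {P : RootDatum ι X Y} {b : P.Base}
  (D : Red p K G b) {k : Type*} [Field k] {M : Type*} [AddCommGroup M] [Module k M]

/-- The unipotent radical `U` of `B`. -/
def U : Subgroup G := genU D.x {β | b.IsPos β}

/-- The subgroup `U'_w` generated by the `U_α` with `α` and `w α` positive. -/
def Uw (w : P.weylGroup) : Subgroup G :=
  genU D.x {β | b.IsPos β ∧ b.IsPos (P.weylGroupToPerm w β)}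

/-- The weight space `M_θ`. -/
def wtSpace (ρ : Representation k G M) (θ : Tor K X →* kˣ) : Submodule k M where
  carrier := {v | ∀ t, ρ (D.τ t) v = (θ t : k) • v}
  add_mem' ha hb t := by rw [map_add, ha t, hb t, smul_add]
  zero_mem' t := by simp
  smul_mem' c v hv t := by rw [map_smul, hv t, smul_comm]

/-- The set of weights `𝕏_T(M)`. -/
def wts (ρ : Representation k G M) : Set (Tor K X →* kˣ) := {θ | D.wtSpace ρ θ ≠ ⊥}

/-- The submodule `kU ξ`. -/
def kU (ρ : Representation k G M) (ξ : M) : Submodule k M :=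
  Submodule.span k {v | ∃ u ∈ D.U, v = ρ u ξ}

/-- The objects of the category `𝒳(G)`: the sum `M_T` of the weight spaces has a finite basis of
weight vectors `ξ i` with `M = ⨁ kU ξ i`, and `kU ξ i` is isomorphic as a `kU`-module to the
permutation module `k[U / U'_w] = Ind_{U'_w}^U tr` for some `w`. -/
def InX (ρ : Representation k G M) : Prop :=
  ∃ (n : ℕ) (ξ : Fin n → M), LinearIndependent k ξ ∧
    Submodule.span k (Set.range ξ) = ⨆ θ, D.wtSpace ρ θ ∧
    (∀ i, ∃ θ, ξ i ∈ D.wtSpace ρ θ) ∧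
    DirectSum.IsInternal (fun i => D.kU ρ (ξ i)) ∧
    ∀ i, ∃ (w : P.weylGroup)
      (e : MonoidAlgebra k (D.U ⧸ (D.Uw w).subgroupOf D.U) ≃ₗ[k] D.kU ρ (ξ i)),
      ∀ (u : D.U) f, (e (Representation.ofMulAction k D.U _ u f) : M) = ρ u (e f)

end Red

end Pool.Agent.P.MP_0b1ded_al
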