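import Pool.Agent.P.MP_0b1ded_al.RedI

/-! Combinatorics of positive roots. -/

namespace Pool.Agent.P.MP_0b1ded_al

open Function

variable {ι X Y : Type} [AddCommGroup X] [AddCommGroup Y] {P : RootDatum ι X Y}

/-- The opposite root. -/
abbrev ng (P : RootDatum ι X Y) (β : ι) : ι := P.reflectionPerm β β

/-- The permutation of the roots given by an element of the Weyl group. -/
noncomputable abbrev wp (w : P.weylGroup) : Equiv.Perm ι := P.weylGroupToPerm w

/-- The number of inversions. -/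
noncomputable def len (b : P.Base) (σ : Equiv.Perm ι) : ℕ :=
  Set.ncard {β | b.IsPos β ∧ ¬ b.IsPos (σ β)}

/-- The positive roots on which `ℓ` is positive. -/
def Aset (b : P.Base) (ℓ : X →+ ℤ) : Set ι := {β | b.IsPos β ∧ 0 < ℓ (P.root β)}

/-- The simple roots on which `ℓ` is negative. -/
def Jset (b : P.Base) (ℓ : X →+ ℤ) : Set ι := {α | α ∈ b.support ∧ ℓ (P.root α) < 0}

/-- `ℓ` vanishes on no root and `Aset` is stable under the reflections in `Jset`. -/
def Stable (b : P.Base) (ℓ : X →+ ℤ) : Prop :=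
  (∀ β, ℓ (P.root β) ≠ 0) ∧ ∀ α ∈ Jset b ℓ, ∀ β ∈ Aset b ℓ, P.reflectionPerm α β ∈ Aset b ℓ

variable {b : P.Base}

theorem root_ng (β : ι) : P.root (ng P β) = -P.root β := by
  simp [ng]

theorem ng_ng (β : ι) : ng P (ng P β) = β := by
  apply P.root.injective
  rw [root_ng, root_ng, neg_neg]

theorem isPos_ng (β : ι) : b.IsPos (ng P β) ↔ ¬ b.IsPos β :=
  RootPairing.Base.IsPos.neg_iff_not b β

theorem refl_refl (α β : ι) : P.reflectionPerm α (P.reflectionPerm α β) = β :=
  P.reflectionPerm_involutive α β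

theorem root_wp (w : P.weylGroup) (β : ι) : P.root (wp w β) = w • P.root β :=
  (P.weylGroup_apply_root w β).symm

theorem wp_ng (w : P.weylGroup) (β : ι) : wp w (ng P β) = ng P (wp w β) := by
  apply P.root.injective
  rw [root_wp, root_ng, root_ng, root_wp, smul_neg]

theorem wp_ofIdx (α : ι) : wp (RootPairing.weylGroup.ofIdx P α) = P.reflectionPerm α := rfl

theorem root_refl (α β : ι) :
    P.root (P.reflectionPerm α β) = P.root β - P.pairing β α • P.root α := by
  rw [RootPairing.root_reflectionPerm, RootPairing.reflection_apply_root]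

variable [Finite ι] [P.IsReduced]

theorem isPos_refl {α β : ι} (hα : α ∈ b.support) (hβ : b.IsPos β) (h : β ≠ α) :
    b.IsPos (P.reflectionPerm α β) := hβ.reflectionPerm hα h

theorem refl_ne {α β : ι} (hα : α ∈ b.support) (hβ : b.IsPos β) :
    P.reflectionPerm α β ≠ α := by
  intro h
  have h1 : β = ng P α := by rw [← refl_refl (P := P) α β, h]
  rw [h1, isPos_ng] at hβ
  exact hβ (b.isPos_of_mem_support hα)

theorem roots_pairingIn (α β : ι) : P.pairingIn ℤ α β = P.pairing α β := by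
  simpa using P.algebraMap_pairingIn ℤ α β

theorem roots_pos_of_simple (ℓ : X →+ ℤ) (h : ∀ α ∈ b.support, 0 < ℓ (P.root α)) {β : ι}
    (hβ : b.IsPos β) : 0 < ℓ (P.root β) := by
  refine hβ.induction_on_add h fun i j k hk hi hj => ?_
  rw [hk, map_add]
  exact add_pos hi (h j hj)

theorem roots_pair_refl_right (α β : ι) :
    P.pairing α (P.reflectionPerm α β) = -P.pairing α β := by
  rw [P.pairing_reflectionPerm, P.pairing_reflectionPerm_self_left]

theorem roots_pair_refl_left (α β : ι) :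
    P.pairing (P.reflectionPerm α β) α = -P.pairing β α := by
  rw [← P.pairing_reflectionPerm, P.pairing_reflectionPerm_self_right]

theorem roots_height_refl {α : ι} (hα : α ∈ b.support) (β : ι) :
    b.height (P.reflectionPerm α β) = b.height β - P.pairing β α := by
  have := b.height_add_zsmul (k := P.reflectionPerm α β) (i := β) (j := α) (z := -P.pairing β α)
    (by rw [root_refl, neg_smul, sub_eq_add_neg])
  rw [this, RootPairing.Base.height_one_of_mem_support hα, smul_eq_mul, mul_one, sub_eq_add_neg]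

theorem exists_y0 (b : P.Base) :
    ∃ y : Y, ∀ β, (b.IsPos β → 0 < P.toLinearMap (P.root β) y) ∧
      (¬ b.IsPos β → P.toLinearMap (P.root β) y < 0) := by
  classical
  have := Fintype.ofFinite ι
  let y : Y := ∑ β with b.IsPos β, P.coroot β
  have h1 : ∀ α ∈ b.support, 0 < (P.toLinearMap.flip y).toAddMonoidHom (P.root α) := by
    intro α hα
    have hm : α ∈ Finset.univ.filter b.IsPos := by simpa using b.isPos_of_mem_support hα
    have h0 : ∑ β ∈ (Finset.univ.filter b.IsPos).erase α, P.pairing α β = 0 := by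
      refine Finset.sum_involution (fun β _ => P.reflectionPerm α β) (fun β _ => ?_)
        (fun β _ h h' => h ?_) (fun β hβ => ?_) fun β _ => refl_refl α β
      · rw [roots_pair_refl_right, add_neg_cancel]
      · have := roots_pair_refl_right (P := P) α β
        rw [h'] at this
        omega
      · simp only [Finset.mem_erase, Finset.mem_filter, Finset.mem_univ, true_and] at hβ ⊢
        exact ⟨refl_ne hα hβ.2, isPos_refl hα hβ.2 hβ.1⟩
    change 0 < P.toLinearMap (P.root α) y
    simp only [y, map_sum, RootPairing.root_coroot_eq_pairing]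
    rw [← Finset.add_sum_erase _ _ hm, h0, P.pairing_same]
    norm_num
  refine ⟨y, fun β => ⟨fun h => roots_pos_of_simple _ h1 h, fun h => ?_⟩⟩
  have h2 : 0 < P.toLinearMap (P.root (ng P β)) y := roots_pos_of_simple _ h1 ((isPos_ng β).2 h)
  rw [root_ng, map_neg, LinearMap.neg_apply] at h2
  omega

theorem exists_ya {α : ι} (hα : α ∈ b.support) :
    ∃ y : Y, P.toLinearMap (P.root α) y = 0 ∧
      ∀ β, b.IsPos β → β ≠ α → 0 < P.toLinearMap (P.root β) y := by
  obtain ⟨y, hy⟩ := exists_y0 b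
  have key : ∀ β, P.toLinearMap (P.root β) (2 • y - P.toLinearMap (P.root α) y • P.coroot α)
      = P.toLinearMap (P.root β) y + P.toLinearMap (P.root (P.reflectionPerm α β)) y := by
    intro β
    simp only [root_refl, map_sub, map_smul, map_nsmul, RootPairing.root_coroot_eq_pairing,
      LinearMap.sub_apply, LinearMap.smul_apply, smul_eq_mul]
    ring
  refine ⟨_, ?_, fun β hβ h => (key β).symm ▸ add_pos ((hy β).1 hβ)
    ((hy _).1 (isPos_refl hα hβ h))⟩
  rw [key, root_ng, map_neg, LinearMap.neg_apply, add_neg_cancel]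

theorem exists_ell (b : P.Base) (w : P.weylGroup) :
    ∃ ℓ : X →+ ℤ, ∀ β, (b.IsPos (wp w β) → 0 < ℓ (P.root β)) ∧
      (¬ b.IsPos (wp w β) → ℓ (P.root β) < 0) := by
  obtain ⟨y, hy⟩ := exists_y0 b
  refine ⟨(P.toLinearMap.flip y).toAddMonoidHom.comp (DistribSMul.toAddMonoidHom X w),
    fun β => ?_⟩
  have := hy (wp w β)
  rwa [root_wp] at this

theorem pos_of_comb {α β δ : ι} (hα : α ∈ b.support) (hβ : b.IsPos β) (h : β ≠ α) {i : ℤ} {j : ℕ}
    (hj : 0 < j) (hδ : P.root δ = i • P.root α + j • P.root β) : b.IsPos δ ∧ δ ≠ α := by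
  obtain ⟨y, hy0, hy⟩ := exists_ya hα
  have h1 : 0 < P.toLinearMap (P.root δ) y := by
    rw [hδ, map_add, map_smul, map_nsmul, LinearMap.add_apply, LinearMap.smul_apply,
      LinearMap.smul_apply, hy0, smul_zero, zero_add]
    exact nsmul_pos (hy β hβ h) hj.ne'
  refine ⟨?_, fun h2 => by rw [h2, hy0] at h1; exact lt_irrefl _ h1⟩
  by_contra h2
  have h3 : 0 ≤ P.toLinearMap (P.root (ng P δ)) y := by
    by_cases h4 : ng P δ = α
    · rw [h4, hy0]
    · exact (hy _ ((isPos_ng δ).2 h2) h4).le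
  rw [root_ng, map_neg, LinearMap.neg_apply] at h3
  omega

theorem len_mul_pos (w : P.weylGroup) {α : ι} (hα : α ∈ b.support) (h : b.IsPos (wp w α)) :
    len b (wp w * P.reflectionPerm α) = len b (wp w) + 1 := by
  have key : {β | b.IsPos β ∧ ¬ b.IsPos ((wp w * P.reflectionPerm α) β)}
      = insert α (P.reflectionPerm α '' {β | b.IsPos β ∧ ¬ b.IsPos (wp w β)}) := by
    ext β
    simp only [Set.mem_ofPred_eq, Equiv.Perm.mul_apply, Set.mem_insert_iff, Set.mem_image]
    constructor
    · rintro ⟨h1, h2⟩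
      by_cases h3 : β = α
      · exact Or.inl h3
      · exact Or.inr ⟨_, ⟨isPos_refl hα h1 h3, h2⟩, refl_refl α β⟩
    · rintro (rfl | ⟨γ, ⟨h1, h2⟩, rfl⟩)
      · refine ⟨b.isPos_of_mem_support hα, ?_⟩
        rw [wp_ng, isPos_ng]
        exact not_not.2 h
      · rw [refl_refl]
        exact ⟨isPos_refl hα h1 fun h3 => h2 (h3 ▸ h), h2⟩
  rw [len, len, key, Set.ncard_insert_of_notMem,
    Set.ncard_image_of_injective _ (P.reflectionPerm α).injective]
  rintro ⟨γ, hγ, h1⟩
  exact refl_ne hα hγ.1 h1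

theorem roots_wp_mul (w : P.weylGroup) (α : ι) :
    wp (w * RootPairing.weylGroup.ofIdx P α) = wp w * P.reflectionPerm α :=
  map_mul P.weylGroupToPerm w _

theorem len_mul_neg (w : P.weylGroup) {α : ι} (hα : α ∈ b.support) (h : ¬ b.IsPos (wp w α)) :
    len b (wp w * P.reflectionPerm α) + 1 = len b (wp w) := by
  have h1 := len_mul_pos (w * RootPairing.weylGroup.ofIdx P α) hα (by
    rw [roots_wp_mul, Equiv.Perm.mul_apply, wp_ng, isPos_ng]; exact h)
  rw [roots_wp_mul, mul_assoc, ← sq, P.reflectionPerm_sq, mul_one] at h1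
  exact h1.symm

theorem len_inv (w : P.weylGroup) : len b (wp w⁻¹) = len b (wp w) := by
  have hi : ∀ β, wp w⁻¹ (wp w β) = β := fun β => by
    rw [← Equiv.Perm.mul_apply, wp, wp, ← map_mul, inv_mul_cancel, map_one, Equiv.Perm.one_apply]
  have hi' : ∀ β, wp w (wp w⁻¹ β) = β := fun β => by
    rw [← Equiv.Perm.mul_apply, wp, wp, ← map_mul, mul_inv_cancel, map_one, Equiv.Perm.one_apply]
  have key : {β | b.IsPos β ∧ ¬ b.IsPos (wp w⁻¹ β)}
      = (fun β => ng P (wp w β)) '' {β | b.IsPos β ∧ ¬ b.IsPos (wp w β)} := by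
    ext β
    simp only [Set.mem_ofPred_eq, Set.mem_image]
    constructor
    · rintro ⟨h1, h2⟩
      refine ⟨ng P (wp w⁻¹ β), ⟨(isPos_ng _).2 h2, ?_⟩, by rw [wp_ng, hi', ng_ng]⟩
      rw [wp_ng, hi', isPos_ng]
      exact not_not.2 h1
    · rintro ⟨γ, ⟨h1, h2⟩, rfl⟩
      refine ⟨(isPos_ng _).2 h2, ?_⟩
      rw [wp_ng, hi, isPos_ng]
      exact not_not.2 h1
  rw [len, len, key, Set.ncard_image_of_injective]
  intro β γ h
  have := congrArg (ng P) h
  simp only [ng_ng] at this
  exact (wp w).injective this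

theorem len_le (σ : Equiv.Perm ι) : len b σ ≤ Nat.card ι := by
  exact Set.ncard_le_card _

theorem len_eq_zero_iff (w : P.weylGroup) :
    len b (wp w) = 0 ↔ ∀ β, b.IsPos β → b.IsPos (wp w β) := by
  rw [len, Set.ncard_eq_zero, Set.eq_empty_iff_forall_notMem]
  simp

theorem exists_simple_neg (w : P.weylGroup) (h : len b (wp w) ≠ 0) :
    ∃ α ∈ b.support, ¬ b.IsPos (wp w α) := by
  by_contra hc
  push Not at hc
  obtain ⟨ℓ, hℓ⟩ := exists_ell b w
  refine h ((len_eq_zero_iff w).2 fun β hβ => ?_)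
  by_contra h1
  exact lt_asymm ((hℓ β).2 h1) (roots_pos_of_simple ℓ (fun α hα => (hℓ α).1 (hc α hα)) hβ)

theorem roots_ext {g g' : P.weylGroup} (h : ∀ x : X, g • x = g' • x) : g = g' :=
  Subtype.ext (RootPairing.Equiv.weightHom_injective P (LinearEquiv.ext h))

theorem roots_sq (α : ι) :
    RootPairing.weylGroup.ofIdx P α * RootPairing.weylGroup.ofIdx P α = 1 :=
  roots_ext fun x => P.reflection_same α x

theorem roots_ofIdx_refl (α β : ι) : RootPairing.weylGroup.ofIdx P (P.reflectionPerm α β) =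
    RootPairing.weylGroup.ofIdx P α * RootPairing.weylGroup.ofIdx P β *
      RootPairing.weylGroup.ofIdx P α :=
  roots_ext fun x => by
    change P.reflection (P.reflectionPerm α β) x = _
    rw [P.reflection_reflectionPerm]
    rfl

theorem roots_conj (w : P.weylGroup) : ∀ α, w * RootPairing.weylGroup.ofIdx P α
    = RootPairing.weylGroup.ofIdx P (wp w α) * w := by
  obtain ⟨w, hw⟩ := w
  induction hw using RootPairing.weylGroup.induction with
  | mem i =>
    intro α
    change RootPairing.weylGroup.ofIdx P i * _ =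
      RootPairing.weylGroup.ofIdx P (P.reflectionPerm i α) * RootPairing.weylGroup.ofIdx P i
    rw [roots_ofIdx_refl, mul_assoc, roots_sq, mul_one]
  | one =>
    intro α
    change 1 * _ = RootPairing.weylGroup.ofIdx P α * 1
    rw [one_mul, mul_one]
  | mul x y hx hy ihx ihy =>
    intro α
    change (⟨x, hx⟩ : P.weylGroup) * ⟨y, hy⟩ * _ = RootPairing.weylGroup.ofIdx P
      (wp ⟨x, hx⟩ (wp ⟨y, hy⟩ α)) * ((⟨x, hx⟩ : P.weylGroup) * ⟨y, hy⟩)
    rw [mul_assoc, ihy, ← mul_assoc, ihx, mul_assoc]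

theorem roots_words (b : P.Base) (w : P.weylGroup) : ∃ l : List ι, (∀ α ∈ l, α ∈ b.support) ∧
    w = (l.map (RootPairing.weylGroup.ofIdx P)).prod := by
  have hmul : ∀ {x y : P.weylGroup}, (∃ l : List ι, (∀ α ∈ l, α ∈ b.support) ∧
      x = (l.map (RootPairing.weylGroup.ofIdx P)).prod) → (∃ l : List ι, (∀ α ∈ l, α ∈ b.support) ∧
      y = (l.map (RootPairing.weylGroup.ofIdx P)).prod) → ∃ l : List ι, (∀ α ∈ l, α ∈ b.support) ∧
      x * y = (l.map (RootPairing.weylGroup.ofIdx P)).prod := by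
    rintro _ _ ⟨l, hl, rfl⟩ ⟨l', hl', rfl⟩
    exact ⟨l ++ l', fun α hα => (List.mem_append.1 hα).elim (hl α) (hl' α), by simp⟩
  have hs : ∀ i ∈ b.support, ∃ l : List ι, (∀ α ∈ l, α ∈ b.support) ∧
      RootPairing.weylGroup.ofIdx P i = (l.map (RootPairing.weylGroup.ofIdx P)).prod :=
    fun i hi => ⟨[i], by simpa using hi, by simp⟩
  obtain ⟨w, hw⟩ := w
  induction hw using RootPairing.weylGroup.induction with
  | mem i =>
    change ∃ l : List ι, _ ∧ RootPairing.weylGroup.ofIdx P i = _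
    refine b.induction_reflect i (fun i hi => ?_) hs fun i j hi hj => ?_
    · rwa [roots_ofIdx_refl, roots_sq, one_mul]
    · rw [roots_ofIdx_refl]
      exact hmul (hmul (hs j hj) hi) (hs j hj)
  | one => exact ⟨[], by simp, rfl⟩
  | mul x y hx hy ihx ihy => exact hmul ihx ihy

theorem roots_exchange {α : ι} (hα : α ∈ b.support) (l : List ι) (hl : ∀ β ∈ l, β ∈ b.support)
    (h : ¬ b.IsPos (wp (l.map (RootPairing.weylGroup.ofIdx P)).prod α)) :
    ∃ l' : List ι, (∀ β ∈ l', β ∈ b.support) ∧ l'.length + 1 = l.length ∧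
      (l.map (RootPairing.weylGroup.ofIdx P)).prod * RootPairing.weylGroup.ofIdx P α
        = (l'.map (RootPairing.weylGroup.ofIdx P)).prod := by
  induction l with
  | nil => exact absurd (b.isPos_of_mem_support hα) h
  | cons c l ih =>
    have hc := hl c (by simp)
    have hl' : ∀ β ∈ l, β ∈ b.support := fun β hβ => hl β (by simp [hβ])
    rw [List.map_cons, List.prod_cons] at h ⊢
    by_cases h1 : b.IsPos (wp (l.map (RootPairing.weylGroup.ofIdx P)).prod α)
    · have h2 : wp (l.map (RootPairing.weylGroup.ofIdx P)).prod α = c := by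
        by_contra h2
        refine h ?_
        rw [wp, map_mul, Equiv.Perm.mul_apply]
        exact isPos_refl hc h1 h2
      refine ⟨l, hl', rfl, ?_⟩
      rw [mul_assoc, roots_conj, h2, ← mul_assoc, roots_sq, one_mul]
    · obtain ⟨l', k1, k2, k3⟩ := ih hl' h1
      refine ⟨c :: l', fun β hβ => ?_, by simp [← k2], ?_⟩
      · rcases List.mem_cons.1 hβ with rfl | hβ
        exacts [hc, k1 β hβ]
      · rw [mul_assoc, k3, List.map_cons, List.prod_cons]

theorem eq_one_of_len (w : P.weylGroup) (h : len b (wp w) = 0) : w = 1 := by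
  obtain ⟨l, hl, rfl⟩ := roots_words b w
  generalize hn : l.length = n
  induction n using Nat.strong_induction_on generalizing l with
  | _ n ih =>
    rcases List.eq_nil_or_concat' l with rfl | ⟨l1, α, rfl⟩
    · rfl
    · have hα := hl α (by simp)
      have e : ((l1 ++ [α]).map (RootPairing.weylGroup.ofIdx P)).prod
          = (l1.map (RootPairing.weylGroup.ofIdx P)).prod * RootPairing.weylGroup.ofIdx P α := by
        simp
      have h1 := (len_eq_zero_iff _).1 h α (b.isPos_of_mem_support hα)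
      rw [e, roots_wp_mul, Equiv.Perm.mul_apply, wp_ng, isPos_ng] at h1
      obtain ⟨l', k1, k2, k3⟩ := roots_exchange hα l1 (fun β hβ => hl β (by simp [hβ])) h1
      rw [e, k3] at h ⊢
      refine ih l'.length ?_ l' k1 h rfl
      rw [← hn, List.length_append]
      omega

theorem finite_weyl (b : P.Base) : Finite P.weylGroup := by
  refine Finite.of_injective P.weylGroupToPerm ((injective_iff_map_eq_one _).2 fun w hw => ?_)
  refine eq_one_of_len (b := b) w ((len_eq_zero_iff w).2 fun β hβ => ?_)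
  rwa [wp, hw]

theorem exists_stable {I : Type} [Finite I] (good : I → Prop) (ℓ : I → X →+ ℤ)
    (hreg : ∀ i β, ℓ i (P.root β) ≠ 0) (hne : ∃ i, good i)
    (hcl : ∀ i, good i → ∀ α ∈ Jset b (ℓ i), ∃ j, good j ∧
      ∀ β ∈ Aset b (ℓ i), P.reflectionPerm α β ∈ Aset b (ℓ j)) :
    ∃ i, good i ∧ Stable b (ℓ i) ∧
      ∀ j, good j → Aset b (ℓ i) ⊆ Aset b (ℓ j) → Aset b (ℓ j) ⊆ Aset b (ℓ i) := by
  classical
  have := Fintype.ofFinite ι
  let A : I → Finset ι := fun i => Finset.univ.filter (· ∈ Aset b (ℓ i))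
  have hA : ∀ i β, β ∈ A i ↔ β ∈ Aset b (ℓ i) := fun i β => by simp [A]
  have : Nonempty {i // good i} := nonempty_subtype.2 hne
  obtain ⟨⟨i, hi⟩, hmax⟩ := Finite.exists_max fun i : {i // good i} =>
    toLex ((A i).card, ∑ β ∈ A i, b.height β)
  have hm : ∀ j, good j → (A j).card < (A i).card ∨
      ((A j).card = (A i).card ∧ ∑ β ∈ A j, b.height β ≤ ∑ β ∈ A i, b.height β) :=
    fun j hj => Prod.Lex.toLex_le_toLex.1 (hmax ⟨j, hj⟩)
  refine ⟨i, hi, ⟨hreg i, fun α hα => ?_⟩, fun j hj h β hβ => ?_⟩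
  · obtain ⟨j, hj, h⟩ := hcl i hi α hα
    have h1 : (A i).image (P.reflectionPerm α) ⊆ A j := by
      intro β hβ
      obtain ⟨γ, hγ, rfl⟩ := Finset.mem_image.1 hβ
      exact (hA j _).2 (h γ ((hA i γ).1 hγ))
    have h2 := Finset.card_image_of_injective (A i) (P.reflectionPerm α).injective
    have h3 := Finset.card_le_card h1
    obtain ⟨h4, h5⟩ := (hm j hj).resolve_left (by omega)
    rw [← Finset.eq_of_subset_of_card_le h1 (by omega),
      Finset.sum_image (P.reflectionPerm α).injective.injOn] at h5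
    simp only [roots_height_refl hα.1, Finset.sum_sub_distrib] at h5
    have h6 : ∑ β ∈ (A i).filter (P.reflectionPerm α · ∈ A i), P.pairing β α = 0 := by
      refine Finset.sum_involution (fun β _ => P.reflectionPerm α β) (fun β _ => ?_)
        (fun β _ h h' => h ?_) (fun β hβ => ?_) fun β _ => refl_refl α β
      · rw [roots_pair_refl_left, add_neg_cancel]
      · have := roots_pair_refl_left (P := P) α β
        rw [h'] at this
        omega
      · rw [Finset.mem_filter] at hβ ⊢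
        rw [refl_refl]
        exact hβ.symm
    have h7 : ∀ β ∈ (A i).filter (fun β => ¬ P.reflectionPerm α β ∈ A i), P.pairing β α < 0 := by
      intro β hβ
      rw [Finset.mem_filter, hA, hA] at hβ
      by_contra hc
      refine hβ.2 ⟨isPos_refl hα.1 hβ.1.1 fun e => lt_asymm hα.2 (e ▸ hβ.1.2), ?_⟩
      rw [root_refl, map_sub, map_zsmul, smul_eq_mul]
      nlinarith [hβ.1.2, hα.2]
    intro β hβ
    by_contra hc
    have h8 := Finset.sum_neg h7 ⟨β, by rw [Finset.mem_filter, hA, hA]; exact ⟨hβ, hc⟩⟩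
    have h9 := Finset.sum_filter_add_sum_filter_not (A i) (P.reflectionPerm α · ∈ A i)
      fun β => P.pairing β α
    omega
  · have h1 : A i ⊆ A j := fun γ hγ => (hA j γ).2 (h ((hA i γ).1 hγ))
    have h2 := Finset.card_le_card h1
    rw [← hA, Finset.eq_of_subset_of_card_le h1 (by rcases hm j hj with h3 | h3 <;> omega), hA]
    exact hβ

theorem Stable.walk {ℓ : X →+ ℤ} (hs : Stable b ℓ) (ℓ' : X →+ ℤ)
    (h : ∀ α ∈ Jset b ℓ, 0 < ℓ' (P.root α)) {γ : ι} (hγ : b.IsPos γ) (hγ' : γ ∉ Aset b ℓ) :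
    0 < ℓ' (P.root γ) := by
  suffices H : 0 < ℓ' (P.root γ) ∧ ∀ β ∈ Aset b ℓ, P.reflectionPerm γ β ∈ Aset b ℓ from H.1
  generalize hn : (b.height γ).natAbs = n
  induction n using Nat.strong_induction_on generalizing γ with
  | _ n ih =>
    have hneg : ℓ (P.root γ) < 0 := lt_of_le_of_ne (not_lt.1 fun h0 => hγ' ⟨hγ, h0⟩) (hs.1 γ)
    obtain ⟨α, hα, hk'⟩ := hγ.exists_mem_support_pos_pairingIn
    have hk := (P.zero_lt_pairingIn_iff' ℤ).1 hk'
    rw [roots_pairingIn] at hk hk'
    by_cases e : γ = α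
    · subst e
      exact ⟨h γ ⟨hα, hneg⟩, hs.2 γ ⟨hα, hneg⟩⟩
    have hδ := isPos_refl hα hγ e
    have hlt : (b.height (P.reflectionPerm α γ)).natAbs < n := by
      have h1 := roots_height_refl hα γ
      have h2 : 0 < b.height (P.reflectionPerm α γ) := hδ
      omega
    have hr : ∀ m : X →+ ℤ, m (P.root (P.reflectionPerm α γ))
        = m (P.root γ) - P.pairing γ α * m (P.root α) := fun m => by
      rw [root_refl, map_sub, map_zsmul, smul_eq_mul]
    rcases lt_or_gt_of_ne (hs.1 α) with h0 | h0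
    · have hJ : α ∈ Jset b ℓ := ⟨hα, h0⟩
      obtain ⟨k1, k2⟩ := ih _ hlt hδ (fun h1 => hγ' (refl_refl (P := P) α γ ▸ hs.2 α hJ _ h1)) rfl
      refine ⟨by nlinarith [hr ℓ', h α hJ], fun β hβ => ?_⟩
      have h2 : P.reflectionPerm γ β = P.reflectionPerm α
          (P.reflectionPerm (P.reflectionPerm α γ) (P.reflectionPerm α β)) := by
        apply P.root.injective
        simp only [RootPairing.root_reflectionPerm, P.reflection_reflectionPerm,
          LinearEquiv.mul_apply, RootPairing.reflection_same]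
      rw [h2]
      exact hs.2 α hJ _ (k2 _ (hs.2 α hJ β hβ))
    · exfalso
      have h1 : ℓ (P.root (P.reflectionPerm α γ)) < 0 := by nlinarith [hr ℓ]
      obtain ⟨-, k2⟩ := ih _ hlt hδ (fun h2 => lt_asymm h1 h2.2) rfl
      have h2 := (k2 α ⟨b.isPos_of_mem_support hα, h0⟩).2
      rw [root_refl, map_sub, map_zsmul, smul_eq_mul, roots_pair_refl_right] at h2
      nlinarith [hr ℓ]

theorem Stable.closed {ℓ : X →+ ℤ} (hs : Stable b ℓ) {α β δ : ι} (hα : α ∈ Jset b ℓ)
    (hβ : β ∈ Aset b ℓ) {i : ℤ} {j : ℕ} (hj : 0 < j)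
    (hδ : P.root δ = i • P.root α + j • P.root β) : δ ∈ Aset b ℓ := by
  obtain ⟨h1, h2⟩ := pos_of_comb hα.1 hβ.1 (fun e => lt_asymm hα.2 (e ▸ hβ.2)) hj hδ
  by_contra hc
  have hneg : ℓ (P.root δ) < 0 := lt_of_le_of_ne (not_lt.1 fun h0 => hc ⟨h1, h0⟩) (hs.1 δ)
  refine hc (refl_refl (P := P) α δ ▸ hs.2 α hα _ ⟨isPos_refl hα.1 h1 h2, ?_⟩)
  have h3 : P.pairing δ α = i * 2 + j * P.pairing β α := by
    rw [← RootPairing.root_coroot_eq_pairing, hδ]
    simp
  have h4 : ℓ (P.root δ) = i * ℓ (P.root α) + j * ℓ (P.root β) := by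
    rw [hδ]; simp
  have h5 := (hs.2 α hα β hβ).2
  rw [root_refl, map_sub, map_zsmul, smul_eq_mul] at h5 ⊢
  have h6 : (0 : ℤ) < j := by exact_mod_cast hj
  have h7 := mul_pos h6 (add_pos hβ.2 h5)
  rw [h3]
  nlinarith

end Pool.Agent.P.MP_0b1ded_al
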