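import Pool.Agent.P.MP_0b1ded_al.Basic

/-! Relations coming from `SL₂`. -/

namespace Pool.Agent.P.MP_0b1ded_al

open Function

variable {ι X Y : Type} [AddCommGroup X] [AddCommGroup Y] {P : RootDatum ι X Y} {b : P.Base}
  {p : ℕ} {K : Type} [Field K] {G : Type*} [Group G]

namespace Red

variable (D : Red p K G b)

theorem x_zero (β : ι) : D.x β 0 = 1 := by
  have := D.x_add β 0 0
  rw [add_zero] at this
  exact mul_eq_left.mp this.symm

theorem x_neg (β : ι) (c : K) : D.x β (-c) = (D.x β c)⁻¹ := by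
  rw [eq_inv_iff_mul_eq_one, ← D.x_add, neg_add_cancel, x_zero]

theorem x_eq_one {β : ι} {c : K} (h : D.x β c = 1) : c = 0 :=
  D.x_inj β (h.trans (D.x_zero β).symm)

theorem y_add (α : ι) (c d : K) : D.y α (c + d) = D.y α c * D.y α d := D.x_add _ c d

theorem y_zero (α : ι) : D.y α 0 = 1 := D.x_zero _

theorem y_neg (α : ι) (c : K) : D.y α (-c) = (D.y α c)⁻¹ := D.x_neg _ c

theorem τ_conj_x (t : Tor K X) (β : ι) (c : K) :
    D.τ t * D.x β c * (D.τ t)⁻¹ = D.x β (ev P β t * c) := D.τ_x t β c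

theorem τ_inv (t : Tor K X) : D.τ t⁻¹ = (D.τ t)⁻¹ := map_inv D.τ t

theorem τ_comm (s t : Tor K X) : D.τ s * D.τ t = D.τ t * D.τ s := by
  rw [← map_mul, mul_comm, map_mul]

theorem hh_mul (α : ι) (a c : Kˣ) : D.hh α (a * c) = D.hh α a * D.hh α c := by
  rw [hh, coch_mul, map_mul]; rfl

theorem hh_one (α : ι) : D.hh α 1 = 1 := by rw [hh, coch_one, map_one]

theorem hh_inv (α : ι) (a : Kˣ) : D.hh α a⁻¹ = (D.hh α a)⁻¹ := by
  rw [hh, coch_inv, τ_inv]; rfl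

theorem nc_one (α : ι) : D.nc α 1 = D.ns α := by
  apply Subtype.ext
  rw [nc_coe, inv_one, hh_one, one_mul]

theorem hh_conj_x (α : ι) (a : Kˣ) (c : K) :
    D.hh α a * D.x α c * (D.hh α a)⁻¹ = D.x α ((a : K) ^ 2 * c) := by
  rw [hh, τ_conj_x, ev_coch, P.root_coroot_two]
  norm_cast

theorem hh_conj_y (α : ι) (a : Kˣ) (c : K) :
    D.hh α a * D.y α c * (D.hh α a)⁻¹ = D.y α (((a : K)⁻¹) ^ 2 * c) := by
  rw [hh, y, τ_conj_x, ev_coch, root_ng, map_neg, LinearMap.neg_apply, P.root_coroot_two]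
  simp [y]

theorem φ_hh (α : ι) (a : Kˣ) : D.hh α a = D.φ α (diM a) := (D.φ_di α a).symm

theorem φ_y (α : ι) (c : K) : D.y α c = D.φ α (loM c) := (D.φ_lo α c).symm

theorem y_eq (α : ι) (c : Kˣ) :
    D.y α c = D.x α (c : K)⁻¹ * D.nc α c * D.x α (c : K)⁻¹ := by
  rw [nc_coe, ns_coe, φ_hh, φ_y, ← D.φ_up, ← map_mul, ← map_mul, ← map_mul]
  congr 1
  ext i j
  fin_cases i <;> fin_cases j <;> simp [upM, loM, diM, weM, Matrix.mul_apply, Fin.sum_univ_two]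

theorem y_mul_x (α : ι) (c e : K) (h : 1 + c * e ≠ 0) :
    D.y α c * D.x α e =
      D.x α (e / (1 + c * e)) * D.hh α (Units.mk0 _ h)⁻¹ * D.y α (c / (1 + c * e)) := by
  rw [φ_hh, φ_y, φ_y, ← D.φ_up, ← D.φ_up, ← map_mul, ← map_mul, ← map_mul]
  congr 1
  ext i j
  have h' : 1 + e * c ≠ 0 := by rwa [mul_comm]
  fin_cases i <;> fin_cases j <;>
    simp [upM, loM, diM, Matrix.mul_apply, Fin.sum_univ_two] <;> field_simp <;> ring

theorem nc_neg (α : ι) (c : Kˣ) : D.nc α (-c) = (D.nc α c)⁻¹ := by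
  rw [eq_inv_iff_mul_eq_one]
  apply Subtype.ext
  rw [Subgroup.coe_mul, nc_coe, nc_coe, ns_coe, φ_hh, φ_hh, ← map_mul, ← map_mul, ← map_mul,
    Subgroup.coe_one, ← map_one (D.φ α)]
  congr 1
  ext i j
  fin_cases i <;> fin_cases j <;> simp [diM, weM, Matrix.mul_apply, Fin.sum_univ_two]

theorem ns_mul_x (α : ι) (e : K) : (D.ns α : G) * D.x α e = D.y α (-e) * D.ns α := by
  rw [ns_coe, φ_y, ← D.φ_up, ← map_mul, ← map_mul]
  congr 1
  ext i j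
  fin_cases i <;> fin_cases j <;> simp [upM, loM, weM, Matrix.mul_apply, Fin.sum_univ_two]

theorem ns_mul_y (α : ι) (e : K) : (D.ns α : G) * D.y α e = D.x α (-e) * D.ns α := by
  rw [ns_coe, φ_y, ← D.φ_up, ← map_mul, ← map_mul]
  congr 1
  ext i j
  fin_cases i <;> fin_cases j <;> simp [upM, loM, weM, Matrix.mul_apply, Fin.sum_univ_two]

theorem ns_mul_ns (α : ι) : (D.ns α : G) * D.ns α = D.hh α (-1) := by
  rw [ns_coe, φ_hh, ← map_mul]
  congr 1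
  ext i j
  fin_cases i <;> fin_cases j <;> simp [diM, weM, Matrix.mul_apply, Fin.sum_univ_two]

theorem ns_mul_hh (α : ι) (a : Kˣ) : (D.ns α : G) * D.hh α a = D.hh α a⁻¹ * D.ns α := by
  rw [ns_coe, φ_hh, φ_hh, ← map_mul, ← map_mul]
  congr 1
  ext i j
  fin_cases i <;> fin_cases j <;> simp [diM, weM, Matrix.mul_apply, Fin.sum_univ_two]

theorem nc_eq (α : ι) (a : Kˣ) : (D.nc α a : G) = D.ns α * D.hh α a := by
  rw [ns_mul_hh, nc_coe]

/-- `y(-c) x(c⁻¹) n(c) = x(-c⁻¹)`. -/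
theorem y_x_nc (α : ι) (c : Kˣ) :
    D.y α (-c) * D.x α (c : K)⁻¹ * D.nc α c = D.x α (-(c : K)⁻¹) := by
  rw [y_neg, y_eq, x_neg]
  group

/-- `y(-c) n(c) = x(-c⁻¹) y(c)`. -/
theorem y_nc (α : ι) (c : Kˣ) :
    D.y α (-c) * D.nc α c = D.x α (-(c : K)⁻¹) * D.y α c := by
  rw [nc_coe, ns_coe, φ_hh, φ_y, φ_y, ← D.φ_up, ← map_mul, ← map_mul, ← map_mul]
  congr 1
  ext i j
  fin_cases i <;> fin_cases j <;> simp [upM, loM, diM, weM, Matrix.mul_apply, Fin.sum_univ_two]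

/-- `x(c) n = y(c⁻¹) x(-c) h(c)`. -/
theorem x_mul_ns (α : ι) (c : Kˣ) :
    D.x α c * D.ns α = D.y α (c : K)⁻¹ * D.x α (-c) * D.hh α c := by
  rw [ns_coe, φ_hh, φ_y, ← D.φ_up, ← D.φ_up, ← map_mul, ← map_mul, ← map_mul]
  congr 1
  ext i j
  fin_cases i <;> fin_cases j <;> simp [upM, loM, diM, weM, Matrix.mul_apply, Fin.sum_univ_two]

theorem N_conj_x (n : D.N) (β : ι) (c : K) :
    ∃ d, (n : G) * D.x β c * (n : G)⁻¹ = D.x (D.π n β) d := D.wey_x n β c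

theorem exists_ev_eq [IsAlgClosed K] (β : ι) (a : Kˣ) : ∃ t : Tor K X, ev P β t = a := by
  obtain ⟨z, hz⟩ := IsAlgClosed.exists_pow_nat_eq (a : K) (show 0 < 2 by norm_num)
  have hz0 : z ≠ 0 := by
    rintro rfl
    exact a.ne_zero (by rw [← hz]; simp)
  refine ⟨coch P (P.coroot β) (Units.mk0 z hz0), ?_⟩
  rw [ev_coch, P.root_coroot_two]
  ext
  rw [← hz]
  norm_cast

end Red

end Pool.Agent.P.MP_0b1ded_al
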