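import Pool.Agent.P.MP_0b1ded_al.Dec

/-! Lengths of elements of `N` and the groups `Gam`. -/

namespace Pool.Agent.P.MP_0b1ded_al

open Function

variable {ι X Y : Type} [AddCommGroup X] [AddCommGroup Y] {P : RootDatum ι X Y} {b : P.Base}
  {p : ℕ} {K : Type} [Field K] {G : Type*} [Group G] [Finite ι] [P.IsReduced]

namespace Red

variable (D : Red p K G b)

theorem exists_wey (w : P.weylGroup) : ∃ n : D.N, D.wey n = w := by
  obtain ⟨w, hw⟩ := w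
  induction hw using RootPairing.weylGroup.induction with
  | mem i => exact ⟨D.ns i, D.wey_ns i⟩
  | one => exact ⟨1, map_one _⟩
  | mul x y hx hy h1 h2 =>
    obtain ⟨m, hm⟩ := h1
    obtain ⟨n, hn⟩ := h2
    exact ⟨m * n, by rw [map_mul, hm, hn]; rfl⟩

theorem π_ng (n : D.N) (β : ι) : D.π n (ng P β) = ng P (D.π n β) := wp_ng _ _

theorem exists_ell_N (n : D.N) : ∃ ℓ : X →+ ℤ, ∀ β, (b.IsPos (D.π n β) → 0 < ℓ (P.root β)) ∧
    (¬ b.IsPos (D.π n β) → ℓ (P.root β) < 0) := exists_ell b _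

theorem weyl_ln (n : D.N) : D.ln n = len b (D.π n) := by
  rw [ln, π_eq, map_inv, len_inv, π_eq]

theorem weyl_min {H : Type*} [Group H] (S : Subgroup H) (f : H → ℕ) :
    ∃ γ ∈ S, ∀ γ' ∈ S, f γ ≤ f γ' :=
  ⟨Function.argminOn f (S : Set H) ⟨1, S.one_mem⟩, Function.argminOn_mem f _ _,
    fun _ h => Function.argminOn_le f (S : Set H) h⟩

theorem ln_inv (n : D.N) : D.ln n⁻¹ = D.ln n := by
  rw [weyl_ln, ln]

theorem ln_ns_mul_pos (n : D.N) {α : ι} (hα : α ∈ b.support) (h : b.IsPos (D.π n⁻¹ α)) :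
    D.ln (D.ns α * n) = D.ln n + 1 := by
  rw [ln, mul_inv_rev, map_mul, π_ns_inv]
  exact len_mul_pos (D.wey n⁻¹) hα h

theorem ln_ns_inv_mul_neg (n : D.N) {α : ι} (hα : α ∈ b.support) (h : ¬ b.IsPos (D.π n⁻¹ α)) :
    D.ln ((D.ns α)⁻¹ * n) + 1 = D.ln n := by
  rw [ln, mul_inv_rev, inv_inv, map_mul, π_ns]
  exact len_mul_neg (D.wey n⁻¹) hα h

theorem ln_mul_ns_inv_neg (n : D.N) {α : ι} (hα : α ∈ b.support) (h : ¬ b.IsPos (D.π n α)) :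
    D.ln (n * (D.ns α)⁻¹) + 1 = D.ln n := by
  rw [weyl_ln, weyl_ln, map_mul, π_ns_inv]
  exact len_mul_neg (D.wey n) hα h

theorem exists_simple_of_ln (n : D.N) (h : D.ln n ≠ 0) :
    ∃ α ∈ b.support, ¬ b.IsPos (D.π n α) := by
  rw [weyl_ln] at h
  exact exists_simple_neg (D.wey n) h

theorem sgn_ns_mul (R : Type*) [Ring R] (n : D.N) {α : ι} (hα : α ∈ b.support) :
    (-1 : R) ^ D.ln (D.ns α * n) = -(-1) ^ D.ln n := by
  by_cases h : b.IsPos (D.π n⁻¹ α)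
  · rw [D.ln_ns_mul_pos n hα h, pow_succ, mul_neg_one]
  · have : D.ln (D.ns α * n) + 1 = D.ln n := by
      rw [ln, mul_inv_rev, map_mul, π_ns_inv]
      exact len_mul_neg (D.wey n⁻¹) hα h
    rw [← this, pow_succ, mul_neg_one, neg_neg]

theorem sgn_mul_ns (R : Type*) [Ring R] (n : D.N) {α : ι} (hα : α ∈ b.support) :
    (-1 : R) ^ D.ln (n * D.ns α) = -(-1) ^ D.ln n := by
  rw [weyl_ln, weyl_ln, map_mul, π_ns, π_eq]
  by_cases h : b.IsPos (wp (D.wey n) α)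
  · rw [len_mul_pos (D.wey n) hα h, pow_succ, mul_neg_one]
  · rw [← len_mul_neg (D.wey n) hα h, pow_succ, mul_neg_one, neg_neg]

theorem ln_mul_tN (n : D.N) (t : Tor K X) : D.ln (n * D.tN t) = D.ln n := by
  rw [weyl_ln, weyl_ln, map_mul, π_tN, mul_one]

theorem ln_one : D.ln 1 = 0 := by
  rw [weyl_ln, π_eq, len_eq_zero_iff]
  intro β hβ
  rwa [← π_eq, map_one]

theorem eq_tN_of_ln (n : D.N) (h : D.ln n = 0) : ∃ t, n = D.tN t := by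
  rw [weyl_ln] at h
  obtain ⟨t, ht⟩ := (D.wey_ker n).1 (eq_one_of_len (D.wey n) h)
  exact ⟨t, Subtype.ext ht.symm⟩

theorem eq_tN_of_mem_B (n : D.N) (h : (n : G) ∈ D.B) : ∃ t, n = D.tN t := by
  refine D.eq_tN_of_ln n ?_
  rw [weyl_ln, π_eq, len_eq_zero_iff]
  intro β hβ
  exact (D.x_mem_Up n hβ one_ne_zero).1 ((D.mem_Up_iff n).2
    ⟨D.x_mem_U hβ 1, D.B_conj_U h (D.x_mem_U hβ 1)⟩)

theorem exists_reps : ∃ R : Finset D.N, ∀ n : D.N, ∃ r ∈ R, ∃ t, n = D.tN t * r := by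
  classical
  have := finite_weyl b
  have := Fintype.ofFinite P.weylGroup
  choose f hf using D.exists_wey
  refine ⟨Finset.univ.image f, fun n => ⟨f (D.wey n), Finset.mem_image_of_mem _ (Finset.mem_univ _), ?_⟩⟩
  obtain ⟨t, ht⟩ := (D.wey_ker (n * (f (D.wey n))⁻¹)).1 (by rw [map_mul, map_inv, hf, mul_inv_cancel])
  refine ⟨t, ?_⟩
  rw [show D.tN t = n * (f (D.wey n))⁻¹ from Subtype.ext ht, inv_mul_cancel_right]

theorem gam_Aset {ℓ : X →+ ℤ} (hs : Stable b ℓ) {γ : D.N} (hγ : γ ∈ D.Gam ℓ) {β : ι}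
    (hβ : β ∈ Aset b ℓ) : D.π γ β ∈ Aset b ℓ := by
  suffices h : ∀ β, D.π γ β ∈ Aset b ℓ ↔ β ∈ Aset b ℓ from (h β).2 hβ
  clear hβ
  induction hγ using Subgroup.closure_induction with
  | mem x hx =>
    obtain ⟨α, hα, rfl⟩ := hx
    intro δ
    rw [π_ns]
    refine ⟨fun h => ?_, hs.2 α hα δ⟩
    have := hs.2 α hα _ h
    rwa [refl_refl] at this
  | one => intro δ; rw [map_one]; rfl
  | mul x y _ _ h1 h2 => intro δ; rw [map_mul, Equiv.Perm.mul_apply, h1, h2]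
  | inv x _ h =>
    intro δ
    rw [← h, ← Equiv.Perm.mul_apply, ← map_mul, mul_inv_cancel, map_one]
    rfl

theorem gam_ind {ℓ : X →+ ℤ} (hs : Stable b ℓ) {C : D.N → Prop}
    (h0 : ∀ γ ∈ D.Gam ℓ, D.ln γ = 0 → C γ)
    (h1 : ∀ γ ∈ D.Gam ℓ, ∀ α ∈ Jset b ℓ, b.IsPos (D.π γ⁻¹ α) → C γ → C (D.ns α * γ)) :
    ∀ γ ∈ D.Gam ℓ, C γ := by
  intro γ hγ
  induction hn : D.ln γ using Nat.strong_induction_on generalizing γ with
  | _ n ih =>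
    by_cases h : D.ln γ = 0
    · exact h0 γ hγ h
    obtain ⟨α, hα, hα'⟩ := D.exists_simple_of_ln γ⁻¹ (by rwa [ln_inv])
    have hJ : α ∈ Jset b ℓ := by
      refine ⟨hα, lt_of_le_of_ne (not_lt.1 fun hl => hα' ?_) (hs.1 α)⟩
      exact (D.gam_Aset hs (inv_mem hγ) ⟨b.isPos_of_mem_support hα, hl⟩).1
    have hm : (D.ns α)⁻¹ * γ ∈ D.Gam ℓ := mul_mem (inv_mem (D.ns_mem_Gam hJ)) hγ
    have hl := D.ln_ns_inv_mul_neg γ hα hα'
    have := h1 _ hm α hJ (by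
      rw [mul_inv_rev, inv_inv, map_mul, π_ns, Equiv.Perm.mul_apply, π_ng, isPos_ng]
      exact hα') (ih _ (by omega) _ hm rfl)
    rwa [mul_inv_cancel_left] at this

theorem exists_gam_min {ℓ : X →+ ℤ} (hs : Stable b ℓ) (m : D.N) :
    ∃ γ ∈ D.Gam ℓ, ∀ β, b.IsPos β → β ∉ Aset b ℓ → b.IsPos (D.π (γ * m)⁻¹ β) := by
  obtain ⟨γ, hγ, hmin⟩ := weyl_min (D.Gam ℓ) fun γ => D.ln (γ * m)
  obtain ⟨ℓ', hℓ⟩ := D.exists_ell_N (γ * m)⁻¹
  refine ⟨γ, hγ, fun β hβ hβ' => ?_⟩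
  by_contra h
  refine lt_asymm ((hℓ β).2 h) (hs.walk ℓ' (fun α hα => (hℓ α).1 ?_) hβ hβ')
  by_contra h'
  have h1 := D.ln_ns_inv_mul_neg (γ * m) hα.1 h'
  have h2 := hmin _ (mul_mem (inv_mem (D.ns_mem_Gam hα)) hγ)
  rw [mul_assoc] at h2
  omega

theorem exists_gam_max {ℓ : X →+ ℤ} (hs : Stable b ℓ) :
    ∃ γ ∈ D.Gam ℓ, ∀ β, b.IsPos β → β ∉ Aset b ℓ → ¬ b.IsPos (D.π γ⁻¹ β) := by
  obtain ⟨γ, hγ, hmin⟩ := weyl_min (D.Gam ℓ) fun γ => Nat.card ι - D.ln γ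
  obtain ⟨ℓ', hℓ⟩ := D.exists_ell_N γ⁻¹
  refine ⟨γ, hγ, fun β hβ hβ' h => ?_⟩
  have := hs.walk (-ℓ') (fun α hα => neg_pos.2 ((hℓ α).2 fun h' => ?_)) hβ hβ'
  · exact lt_asymm ((hℓ β).1 h) (neg_pos.1 this)
  · have h1 := D.ln_ns_mul_pos γ hα.1 h'
    have h2 := hmin _ (mul_mem (D.ns_mem_Gam hα) hγ)
    have h3 : D.ln (D.ns α * γ) ≤ Nat.card ι := len_le _
    omega

end Red

end Pool.Agent.P.MP_0b1ded_al
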